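import Mathlib
import Pool.Agent.Helper43.Gem.Defs

/-!
# Project KF: definitions

One-handles of triangulated 4-manifolds with small `g_2`.

* triangulated normal pseudomanifolds of dimension 4 (`NormalPseudomanifold`),
* the linear algebra of the linear strand (`SymMap`, `evl`, `Z`, `conj`, `KQ`, `QG`),
* infinitesimal rigidity in dimension 4 in projective form (`Sol`, `Rg`, `GP`),
* mod 2 cycles of 4-sets (`IsCycle`, `IsMinCycle`) and their contraction (Fogelsanger).
-/

set_option autoImplicit false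

namespace Pool.MP_f18604_gt.KF

open Finset Module

/-! ### Triangulations -/

section Complex

variable {α : Type} [Fintype α] [DecidableEq α]

/-- `K` (a set of nonempty vertex sets) is a closed normal pseudomanifold of dimension 4 whose
vertices are all the elements of `α`: closed under passing to nonempty subsets, every simplex lies
in a simplex with 5 vertices, every simplex with 4 vertices lies in exactly two with 5 vertices,
the 1-skeleton is connected, and for every vertex `v` any two 4-dimensional simplices containing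
`v` are joined by a chain of 4-dimensional simplices containing `v`, consecutive ones having four
common vertices. Every triangulation of a closed connected 4-manifold has these properties. -/
structure NormalPseudomanifold (K : Finset (Finset α)) : Prop where
  nonempty : ∀ σ ∈ K, σ.Nonempty
  down : ∀ σ ∈ K, ∀ ρ ⊆ σ, ρ.Nonempty → ρ ∈ K
  vertex : ∀ v : α, ({v} : Finset α) ∈ K
  pure : ∀ σ ∈ K, ∃ F ∈ K, σ ⊆ F ∧ F.card = 5
  ridge : ∀ R ∈ K, R.card = 4 → (K.filter (fun F => F.card = 5 ∧ R ⊆ F)).card = 2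
  conn : ∀ u v : α, Relation.ReflTransGen (fun a b => ({a, b} : Finset α) ∈ K) u v
  normal : ∀ v : α, ∀ F ∈ K, ∀ G ∈ K, F.card = 5 → G.card = 5 → v ∈ F → v ∈ G →
    Relation.ReflTransGen (fun A B => A ∈ K ∧ B ∈ K ∧ A.card = 5 ∧ B.card = 5 ∧
      v ∈ A ∧ v ∈ B ∧ (A ∩ B).card = 4) F G

/-- The number of `i`-dimensional simplices. -/
def fnum (K : Finset (Finset α)) (i : ℕ) : ℕ := (K.filter (fun σ => σ.card = i + 1)).card

/-- The Euler characteristic of a 4-dimensional complex. -/
def euler (K : Finset (Finset α)) : ℤ :=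
  fnum K 0 - fnum K 1 + fnum K 2 - fnum K 3 + fnum K 4

/-- The neighbours of `v`. -/
def nbrs (K : Finset (Finset α)) (v : α) : Finset α :=
  univ.filter (fun w => w ≠ v ∧ ({v, w} : Finset α) ∈ K)

/-- The number of missing edges of the link of `v`: pairs `{u, w}` of neighbours of `v` such that
`{v, u, w}` is not a simplex. -/
def miss (K : Finset (Finset α)) (v : α) : ℕ :=
  (((nbrs K v).powersetCard 2).filter (fun e => insert v e ∉ K)).card

/-- The link of every edge has Euler characteristic 2. -/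
def EdgeLinksSpherical (K : Finset (Finset α)) : Prop :=
  ∀ e ∈ K, e.card = 2 →
    (((K.filter (fun σ => e ⊆ σ ∧ σ.card = 3)).card : ℤ) -
      (K.filter (fun σ => e ⊆ σ ∧ σ.card = 4)).card +
      (K.filter (fun σ => e ⊆ σ ∧ σ.card = 5)).card) = 2

/-- The graph of the link of `v`. -/
def lk (K : Finset (Finset α)) (v : α) : SimpleGraph (nbrs K v) where
  Adj a b := (a : α) ≠ b ∧ ({v, (a : α), (b : α)} : Finset α) ∈ K
  symm := ⟨by
    intro a b h
    refine ⟨h.1.symm, ?_⟩
    have : ({v, (b : α), (a : α)} : Finset α) = {v, (a : α), (b : α)} := by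
      ext x; simp only [mem_insert, mem_singleton]; tauto
    rw [this]; exact h.2⟩
  loopless := ⟨by intro a h; exact h.1 rfl⟩

/-- The lower neighbours of `v` for the numbering `h`, as a set of vertices of the link. -/
def low (K : Finset (Finset α)) (h : α → ℕ) (v : α) : Finset (nbrs K v) :=
  univ.filter (fun w => h w < h v)

/-- The 3-dimensional simplices of the link of `v`. -/
def linkCyc (K : Finset (Finset α)) (v : α) : Finset (Finset α) :=
  (K.filter (fun F => F.card = 5 ∧ v ∈ F)).image (fun F => F.erase v)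

end Complex

/-- The number of connected components of the subgraph of `G` induced on `W`. -/
noncomputable def comp {V : Type} (G : SimpleGraph V) (W : Finset V) : ℕ :=
  Nat.card (G.induce (W : Set V)).ConnectedComponent

/-! ### The linear algebra of the linear strand -/

section Algebra

variable (U : Type) [AddCommGroup U] [Module ℚ U]

/-- The symmetric maps from the dual of `U` to `U`. -/
def SymMap : Submodule ℚ (Dual ℚ U →ₗ[ℚ] U) where
  carrier := {τ | ∀ φ ψ : Dual ℚ U, ψ (τ φ) = φ (τ ψ)}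
  add_mem' := by
    intro a b ha hb φ ψ
    simp only [LinearMap.add_apply, map_add, ha φ ψ, hb φ ψ]
  zero_mem' := by intro φ ψ; simp
  smul_mem' := by
    intro c a ha φ ψ
    simp only [LinearMap.smul_apply, map_smul, ha φ ψ]

variable {U}

/-- For an alternating map `z` with values in the dual: the linear map `x ↦ z (x, l 0, l 1, ...)`. -/
def evl {j : ℕ} (z : U [⋀^Fin (j + 1)]→ₗ[ℚ] Dual ℚ U) (l : Fin j → U) : U →ₗ[ℚ] Dual ℚ U where
  toFun x := z.curryLeft x l
  map_add' x y := by simp
  map_smul' c x := by simp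

@[simp] theorem evl_apply {j : ℕ} (z : U [⋀^Fin (j + 1)]→ₗ[ℚ] Dual ℚ U) (l : Fin j → U) (x : U) :
    evl z l x = z (Matrix.vecCons x l) := rfl

/-- The space `Z_j(U, Q)`: alternating `z` with `trace (τ ∘ (x ↦ z (x, l))) = 0` for all `l` and
all `τ` in `Q`. -/
def Z (j : ℕ) (Q : Submodule ℚ (Dual ℚ U →ₗ[ℚ] U)) :
    Submodule ℚ (U [⋀^Fin (j + 1)]→ₗ[ℚ] Dual ℚ U) where
  carrier := {z | ∀ l : Fin j → U, ∀ τ ∈ Q, LinearMap.trace ℚ U (τ ∘ₗ evl z l) = 0}
  add_mem' := by
    intro a b ha hb l τ hτ
    have : evl (a + b) l = evl a l + evl b l := by ext x; simp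
    rw [this, LinearMap.comp_add, map_add, ha l τ hτ, hb l τ hτ, add_zero]
  zero_mem' := by
    intro l τ _
    have : evl (0 : U [⋀^Fin (j + 1)]→ₗ[ℚ] Dual ℚ U) l = 0 := by ext x; simp
    rw [this, LinearMap.comp_zero, map_zero]
  smul_mem' := by
    intro c a ha l τ hτ
    have : evl (c • a) l = c • evl a l := by ext x; simp
    rw [this, LinearMap.comp_smul, map_smul, ha l τ hτ, smul_zero]

/-- For `i : U₀ → U` the map `τ ↦ i ∘ τ ∘ i^*` from `Hom(U₀^*, U₀)` to `Hom(U^*, U)`. -/
def conj {U₀ : Type} [AddCommGroup U₀] [Module ℚ U₀] (i : U₀ →ₗ[ℚ] U) :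
    (Dual ℚ U₀ →ₗ[ℚ] U₀) →ₗ[ℚ] (Dual ℚ U →ₗ[ℚ] U) where
  toFun τ := i ∘ₗ τ ∘ₗ i.dualMap
  map_add' a b := by ext x; simp
  map_smul' c a := by ext x; simp

@[simp] theorem conj_apply {U₀ : Type} [AddCommGroup U₀] [Module ℚ U₀] (i : U₀ →ₗ[ℚ] U)
    (τ : Dual ℚ U₀ →ₗ[ℚ] U₀) (φ : Dual ℚ U) : conj i τ φ = i (τ (φ ∘ₗ i)) := rfl

/-- The elements of `Q` which kill all the forms `θ b`. -/
def KQ {a : ℕ} (Q : Submodule ℚ (Dual ℚ U →ₗ[ℚ] U)) (θ : Fin a → Dual ℚ U) :
    Submodule ℚ (Dual ℚ U →ₗ[ℚ] U) where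
  carrier := {τ | τ ∈ Q ∧ ∀ b, τ (θ b) = 0}
  add_mem' := by
    intro x y hx hy
    exact ⟨Q.add_mem hx.1 hy.1, fun b => by simp [hx.2 b, hy.2 b]⟩
  zero_mem' := ⟨Q.zero_mem, fun b => by simp⟩
  smul_mem' := by
    intro c x hx
    exact ⟨Q.smul_mem c hx.1, fun b => by simp [hx.2 b]⟩

/-- The rank of `τ ↦ τ θ` on `Q`. -/
noncomputable def rk (Q : Submodule ℚ (Dual ℚ U →ₗ[ℚ] U)) (θ : Dual ℚ U) : ℕ :=
  finrank ℚ (Q.map (LinearMap.applyₗ θ))

/-- The symmetric maps of a graph `G`: those symmetric `τ` whose matrix entry `(i, j)` vanishes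
for all distinct non-adjacent `i, j`. -/
def QG {V : Type} (G : SimpleGraph V) :
    Submodule ℚ (Dual ℚ (V → ℚ) →ₗ[ℚ] (V → ℚ)) where
  carrier := {τ | τ ∈ SymMap (V → ℚ) ∧ ∀ i j, i ≠ j → ¬ G.Adj i j → τ (LinearMap.proj i) j = 0}
  add_mem' := by
    intro x y hx hy
    exact ⟨(SymMap _).add_mem hx.1 hy.1, fun i j h1 h2 => by simp [hx.2 i j h1 h2, hy.2 i j h1 h2]⟩
  zero_mem' := ⟨(SymMap _).zero_mem, fun i j _ _ => by simp⟩
  smul_mem' := by
    intro c x hx
    exact ⟨(SymMap _).smul_mem c hx.1, fun i j h1 h2 => by simp [hx.2 i j h1 h2]⟩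

end Algebra

/-! ### Rigidity -/

section Rigidity

variable {V : Type} [Fintype V] [DecidableEq V]

/-- `i` and `j` lie in a common member of `C` (for `i = j`: `i` lies in a member of `C`). -/
def E (C : Finset (Finset V)) (i j : V) : Prop := ∃ F ∈ C, i ∈ F ∧ j ∈ F

/-- The union of the members of `C`. -/
def supp (C : Finset (Finset V)) : Finset V := C.biUnion id

/-- The infinitesimal motions (in projective form) of the framework with edges the pairs contained
in the members of `C` and vertices at `p`, extended by zero outside the support of `C`. -/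
def Sol (C : Finset (Finset V)) (p : V → Fin 5 → ℚ) : Submodule ℚ (V → Fin 5 → ℚ) where
  carrier := {q | (∀ i, i ∉ supp C → q i = 0) ∧ ∀ i j, E C i j → p i ⬝ᵥ q j + p j ⬝ᵥ q i = 0}
  add_mem' := by
    intro x y hx hy
    refine ⟨fun i hi => by simp [hx.1 i hi, hy.1 i hi], fun i j h => ?_⟩
    have h1 := hx.2 i j h
    have h2 := hy.2 i j h
    simp only [Pi.add_apply, dotProduct_add]
    linarith
  zero_mem' := ⟨fun i _ => by simp, fun i j _ => by simp⟩
  smul_mem' := by
    intro c x hx
    refine ⟨fun i hi => by simp [hx.1 i hi], fun i j h => ?_⟩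
    have h1 := hx.2 i j h
    simp only [Pi.smul_apply, dotProduct_smul, smul_eq_mul]
    rw [← mul_add, h1, mul_zero]

/-- The framework of `C` at `p` is infinitesimally rigid: every motion is trivial on the support
of `C`. -/
def Rg (C : Finset (Finset V)) (p : V → Fin 5 → ℚ) : Prop :=
  ∀ q : V → Fin 5 → ℚ, (∀ i j, E C i j → p i ⬝ᵥ q j + p j ⬝ᵥ q i = 0) →
    ∃ A : Matrix (Fin 5) (Fin 5) ℚ, A.transpose = -A ∧ ∀ i ∈ supp C, q i = A.mulVec (p i)

/-- General position: at most five vertices are always linearly independent. -/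
def GP (p : V → Fin 5 → ℚ) : Prop :=
  ∀ S : Finset V, S.card ≤ 5 → LinearIndependent ℚ (fun i : S => p i)

/-! ### Cycles modulo 2 -/

/-- `C` is a 3-dimensional cycle modulo 2: a set of 4-sets such that every 3-set lies in an even
number of them. -/
def IsCycle (C : Finset (Finset V)) : Prop :=
  (∀ F ∈ C, F.card = 4) ∧ ∀ R : Finset V, R.card = 3 → Even (C.filter (fun F => R ⊆ F)).card

/-- A nonempty cycle without proper nonempty subcycles. -/
def IsMinCycle (C : Finset (Finset V)) : Prop :=
  IsCycle C ∧ C.Nonempty ∧ ∀ C' ⊆ C, IsCycle C' → C'.Nonempty → C' = C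

/-- `v` is merged into `u`. -/
def mergeF (u v : V) (F : Finset V) : Finset V := if v ∈ F then insert u (F.erase v) else F

/-- The push-forward of `C` under the simplicial map which sends `v` to `u` and fixes all other
vertices (simplices containing both are dropped). -/
def contract (u v : V) (C : Finset (Finset V)) : Finset (Finset V) :=
  univ.filter (fun F' => v ∉ F' ∧
    Odd (C.filter (fun F => ¬ (u ∈ F ∧ v ∈ F) ∧ mergeF u v F = F')).card)

/-- The members of `C` which are mapped to `Y`. -/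
def lift (u v : V) (C Y : Finset (Finset V)) : Finset (Finset V) :=
  C.filter (fun F => ¬ (u ∈ F ∧ v ∈ F) ∧ mergeF u v F ∈ Y)

/-- The pairs `σ` such that `σ ∪ {u}` lies in an odd number of members of `L`. -/
def spokes (u v : V) (L : Finset (Finset V)) : Finset (Finset V) :=
  univ.filter (fun σ => σ.card = 2 ∧ u ∉ σ ∧ v ∉ σ ∧
    Odd (L.filter (fun F => insert u σ ⊆ F)).card)

/-- The lift of `Y`, completed to a cycle by simplices containing `u` and `v`. -/
def plus (u v : V) (C Y : Finset (Finset V)) : Finset (Finset V) :=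
  lift u v C Y ∪ (spokes u v (lift u v C Y)).image (fun σ => insert u (insert v σ))

/-- The 3-sets `σ` with `σ ∪ {u}` and `σ ∪ {v}` in `C`. -/
def doubles (u v : V) (C : Finset (Finset V)) : Finset (Finset V) :=
  univ.filter (fun σ => σ.card = 3 ∧ u ∉ σ ∧ v ∉ σ ∧ insert u σ ∈ C ∧ insert v σ ∈ C)

/-- The boundary of the 4-simplex `σ ∪ {u, v}`. -/
def ball (u v : V) (σ : Finset V) : Finset (Finset V) :=
  (insert u (insert v σ)).powersetCard 4

end Rigidity

end Pool.MP_f18604_gt.KF
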