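import Mathlib
import Pool.Agent.Helper47.KF.Defs

/-!
# KF-D02: a discrete gradient from a numbering of the vertices and forests in the lower links

`ForestOn K h dep par`: for every vertex `v` a rooted forest on the lower neighbours of `v` (those
`w` with `h w < h v`); `dep v w = 0` for the roots, `par v w` is the parent, joined to `w` by an
edge of the link of `v`.

Proof. Call `w` a root of `v` if it is a lower neighbour with `dep v w = 0`; let `R` be the
graph on `α` with edges `{v, w}`, `w` a root of `v`. 
(1) `R` is connected. It suffices (`conn`) that the ends of every edge `{v, w}` of `K`, `h w < h v`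
are joined in `R`. Induct on `h v` (strong), then on `dep v w`: if `dep v w = 0`, clear. Otherwise
`w' = par v w`: `v` is joined to `w'` (smaller `dep`), and `w'` to `w` since `{w, w'} ∈ K` (subset
of `{v, w, w'}`; `w ≠ w'` as `dep` differs) and the larger of `h w, h w'` is `< h v`.
(2) Fix a base vertex `b`, let `d v` be the distance from `v` to `b` in `R`, and for `v ≠ b` let
`nxt v` be an `R`-neighbour with `d (nxt v) < d v`. Let `T` be the set of edges
`{v, nxt v}`, `v ≠ b`; these are `n - 1` distinct root edges (`{v, nxt v} = {w, nxt w}` with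
`v ≠ w` would give `d v < d w < d v`).
(3) The pairs of the gradient: `({v}, {v, nxt v})` for `v ≠ b`, and
`({v, w}, {v, w, par v w})` for lower neighbours `w` of `v` with `dep v w ≠ 0`.
An edge `{v, w}` determines `(v, w)` with `h w < h v` (`h` is injective).
 `up_unique`, `down_unique`: if `{v, w, par v w} = {v', w', par v' w'}` then `v = v'` (the vertex
 with the largest `h`) and if `w ≠ w'` then `w = par v w'`, `w' = par v w`, contradicting
 `dep`. `no_both`: the edges of `T` are root edges, they are not matched with triangles; triangles
 and vertices are at the ends.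
 `acyclic`: from a vertex `v` a step goes to `nxt v`, `d` decreases. From an edge
 `{v, w}`, `dep v w ≠ 0`, a step goes to `{v, par v w}` (same top vertex, smaller `dep`) or to
 `{w, par v w}` (top vertex with smaller `h`): the pair `(h v, dep v w)` decreases
 lexicographically. So no closed path (use a function to a well-founded order and
 `Relation.TransGen` induction).
(4) Critical simplices of cardinality 1: `{b}` only. Of cardinality 2: exactly the root
edges not in `T`. Their number is `#roots - (n - 1)`.
-/

set_option autoImplicit false

namespace Pool.MP_f18604_gt.KF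

open Finset Pool.MP_f18604_gt.Gem

variable {α : Type} [Fintype α] [DecidableEq α]

/-- `dep`, `par` describe rooted forests on the lower neighbours of all vertices. -/
def ForestOn (K : Finset (Finset α)) (h : α → ℕ) (dep : α → α → ℕ) (par : α → α → α) : Prop :=
  ∀ v w, w ∈ nbrs K v → h w < h v → dep v w ≠ 0 →
    par v w ∈ nbrs K v ∧ h (par v w) < h v ∧ ({v, w, par v w} : Finset α) ∈ K ∧
      dep v (par v w) < dep v w

namespace D02

/-- lower neighbours -/
def LN (K : Finset (Finset α)) (h : α → ℕ) (v w : α) : Prop := w ∈ nbrs K v ∧ h w < h v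

theorem LN.ne {K : Finset (Finset α)} {h : α → ℕ} {v w : α} (hl : LN K h v w) : v ≠ w := by
  rintro rfl; exact lt_irrefl _ hl.2

theorem LN.mem {K : Finset (Finset α)} {h : α → ℕ} {v w : α} (hl : LN K h v w) :
    ({v, w} : Finset α) ∈ K := (mem_filter.1 hl.1).2.2

/-- the graph of the root edges -/
def RG (K : Finset (Finset α)) (h : α → ℕ) (dep : α → α → ℕ) : SimpleGraph α where
  Adj v w := (LN K h v w ∧ dep v w = 0) ∨ (LN K h w v ∧ dep w v = 0)
  symm := ⟨by intro a b hab; exact hab.symm⟩
  loopless := ⟨by
    intro a ha
    rcases ha with ha | ha <;> exact ha.1.ne rfl⟩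

theorem reach_edge {K : Finset (Finset α)} (hdown : ∀ σ ∈ K, ∀ ρ ⊆ σ, ρ.Nonempty → ρ ∈ K)
    {h : α → ℕ} (hinj : Function.Injective h) {dep : α → α → ℕ} {par : α → α → α}
    (hF : ForestOn K h dep par) : ∀ (a c : ℕ) (v w : α), h v = a → dep v w = c → LN K h v w →
      (RG K h dep).Reachable v w := by
  intro a
  induction a using Nat.strong_induction_on with
  | _ a iha =>
    intro c
    induction c using Nat.strong_induction_on with
    | _ c ihc =>
      intro v w hva hc hl
      by_cases h0 : dep v w = 0
      · exact SimpleGraph.Adj.reachable (Or.inl ⟨hl, h0⟩)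
      · obtain ⟨h1, h2, h3, h4⟩ := hF v w hl.1 hl.2 h0
        have r1 : (RG K h dep).Reachable v (par v w) :=
          ihc _ (hc ▸ h4) v (par v w) hva rfl ⟨h1, h2⟩
        have hne : w ≠ par v w := by
          intro he; rw [← he] at h4; exact lt_irrefl _ h4
        have hmem : ({w, par v w} : Finset α) ∈ K := by
          apply hdown _ h3
          · intro x hx; simp only [mem_insert, mem_singleton] at hx ⊢; tauto
          · exact ⟨w, by simp⟩
        have r2 : (RG K h dep).Reachable w (par v w) := by
          rcases lt_trichotomy (h w) (h (par v w)) with hlt | heq | hgt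
          · have hl' : LN K h (par v w) w := by
              refine ⟨?_, hlt⟩
              simp only [nbrs, mem_filter, mem_univ, true_and]
              refine ⟨hne, ?_⟩
              rw [pair_comm]; exact hmem
            exact (iha _ (hva ▸ h2) _ _ _ rfl rfl hl').symm
          · exact absurd (hinj heq) hne
          · have hl' : LN K h w (par v w) := by
              refine ⟨?_, hgt⟩
              simp only [nbrs, mem_filter, mem_univ, true_and]
              exact ⟨hne.symm, hmem⟩
            exact iha _ (hva ▸ hl.2) _ _ _ rfl rfl hl'
        exact r1.trans r2.symm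

theorem reach {K : Finset (Finset α)} (hdown : ∀ σ ∈ K, ∀ ρ ⊆ σ, ρ.Nonempty → ρ ∈ K)
    (hconn : ∀ u v : α, Relation.ReflTransGen (fun a b => ({a, b} : Finset α) ∈ K) u v)
    {h : α → ℕ} (hinj : Function.Injective h) {dep : α → α → ℕ} {par : α → α → α}
    (hF : ForestOn K h dep par) (u v : α) : (RG K h dep).Reachable u v := by
  induction hconn u v with
  | refl => exact SimpleGraph.Reachable.refl _
  | @tail x y _ hxy ih =>
    refine ih.trans ?_
    by_cases he : x = y
    · subst he; exact SimpleGraph.Reachable.refl _
    rcases lt_trichotomy (h x) (h y) with hlt | heq | hgt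
    · refine (reach_edge hdown hinj hF _ _ y x rfl rfl ⟨?_, hlt⟩).symm
      simp only [nbrs, mem_filter, mem_univ, true_and]
      exact ⟨he, by rw [pair_comm]; exact hxy⟩
    · exact absurd (hinj heq) he
    · refine reach_edge hdown hinj hF _ _ x y rfl rfl ⟨?_, hgt⟩
      simp only [nbrs, mem_filter, mem_univ, true_and]
      exact ⟨Ne.symm he, hxy⟩

/-- the pairs -/
inductive Pr (K : Finset (Finset α)) (h : α → ℕ) (dep : α → α → ℕ) (par : α → α → α) (b : α)
    (nxt : α → α) : Finset α → Finset α → Prop
  | base (v : α) (hv : v ≠ b) : Pr K h dep par b nxt {v} {v, nxt v}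
  | step (v w : α) (hw : LN K h v w) (hd : dep v w ≠ 0) : Pr K h dep par b nxt {v, w} {v, w, par v w}

theorem pair_eq_top {h : α → ℕ} {v w v' w' : α} (h1 : h w < h v) (h2 : h w' < h v')
    (he : ({v, w} : Finset α) = {v', w'}) : v = v' ∧ w = w' := by
  have hv : v ∈ ({v', w'} : Finset α) := by rw [← he]; simp
  have hw : w ∈ ({v', w'} : Finset α) := by rw [← he]; simp
  have hv' : v' ∈ ({v, w} : Finset α) := by rw [he]; simp
  simp only [mem_insert, mem_singleton] at hv hw hv'
  rcases hv with rfl | rfl
  · refine ⟨rfl, ?_⟩
    rcases hw with rfl | rfl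
    · exact absurd h1 (lt_irrefl _)
    · rfl
  · rcases hv' with rfl | rfl
    · exact absurd h2 (lt_irrefl _)
    · exact absurd (h1.trans h2) (lt_irrefl _)

end D02

open D02 in
theorem exists_gradient_forest [Nonempty α] {K : Finset (Finset α)}
    (hdown : ∀ σ ∈ K, ∀ ρ ⊆ σ, ρ.Nonempty → ρ ∈ K) (hvert : ∀ v : α, ({v} : Finset α) ∈ K)
    (hconn : ∀ u v : α, Relation.ReflTransGen (fun a b => ({a, b} : Finset α) ∈ K) u v)
    {h : α → ℕ} (hinj : Function.Injective h) {dep : α → α → ℕ} {par : α → α → α}
    (hF : ForestOn K h dep par) :
    ∃ D : DiscreteGradient (K : Set (Finset α)), (∃! σ, D.Critical σ ∧ σ.card = 1) ∧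
      {σ | D.Critical σ ∧ σ.card = 2}.ncard + Fintype.card α =
        ∑ v, (univ.filter (fun w => w ∈ nbrs K v ∧ h w < h v ∧ dep v w = 0)).card + 1 := by
  classical
  obtain ⟨b⟩ := ‹Nonempty α›
  have hnx : ∀ v, ∃ w, v ≠ b → (RG K h dep).Adj v w ∧
      (RG K h dep).dist w b < (RG K h dep).dist v b := by
    intro v
    by_cases hv : v = b
    · exact ⟨v, fun hh => absurd hv hh⟩
    · obtain ⟨p, hp⟩ := (reach hdown hconn hinj hF v b).exists_walk_length_eq_dist
      cases p with
      | nil => exact absurd rfl hv
      | @cons _ w _ hadj q =>
        refine ⟨w, fun _ => ⟨hadj, ?_⟩⟩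
        have h1 := SimpleGraph.dist_le q
        rw [SimpleGraph.Walk.length_cons] at hp
        omega
  choose nxt hnxt using hnx
  set d : α → ℕ := fun v => (RG K h dep).dist v b with hd_def
  have nadj : ∀ v, v ≠ b → (LN K h v (nxt v) ∧ dep v (nxt v) = 0) ∨
      (LN K h (nxt v) v ∧ dep (nxt v) v = 0) := fun v hv => (hnxt v hv).1
  have nd : ∀ v, v ≠ b → d (nxt v) < d v := fun v hv => (hnxt v hv).2
  have nne : ∀ v, v ≠ b → v ≠ nxt v := fun v hv => (hnxt v hv).1.ne
  have parfacts : ∀ {v w}, LN K h v w → dep v w ≠ 0 →
      LN K h v (par v w) ∧ ({v, w, par v w} : Finset α) ∈ K ∧ dep v (par v w) < dep v w := by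
    intro v w hl hd
    obtain ⟨h1, h2, h3, h4⟩ := hF v w hl.1 hl.2 hd
    exact ⟨⟨h1, h2⟩, h3, h4⟩
  have parne : ∀ {v w}, LN K h v w → dep v w ≠ 0 → par v w ≠ w := by
    intro v w hl hd hh
    have := (parfacts hl hd).2.2
    rw [hh] at this; exact lt_irrefl _ this
  have card3 : ∀ {v w}, LN K h v w → dep v w ≠ 0 → ({v, w, par v w} : Finset α).card = 3 := by
    intro v w hl hd
    rw [card_insert_of_notMem, card_insert_of_notMem, card_singleton]
    · simp only [mem_singleton]; exact (parne hl hd).symm
    · simp only [mem_insert, mem_singleton, not_or]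
      exact ⟨hl.ne, (parfacts hl hd).1.ne⟩
  have card2 : ∀ {v w}, LN K h v w → ({v, w} : Finset α).card = 2 := by
    intro v w hl; exact card_pair hl.ne
  have cardn : ∀ {v}, v ≠ b → ({v, nxt v} : Finset α).card = 2 := by
    intro v hv; exact card_pair (nne v hv)
  have ninj : ∀ {v w}, v ≠ b → w ≠ b → ({v, nxt v} : Finset α) = {w, nxt w} → v = w := by
    intro v w hv hw he
    by_contra hne
    have h1 : v ∈ ({w, nxt w} : Finset α) := by rw [← he]; simp
    have h2 : w ∈ ({v, nxt v} : Finset α) := by rw [he]; simp
    simp only [mem_insert, mem_singleton] at h1 h2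
    have h1 : v = nxt w := h1.resolve_left hne
    have h2 : w = nxt v := h2.resolve_left (Ne.symm hne)
    have a := nd v hv
    have c := nd w hw
    rw [← h2] at a
    rw [← h1] at c
    omega
  -- root edges are not step edges
  have nroot : ∀ {v v' w'}, v ≠ b → LN K h v' w' → dep v' w' ≠ 0 →
      ({v, nxt v} : Finset α) ≠ {v', w'} := by
    intro v v' w' hv hl hd he
    rcases nadj v hv with ⟨ha, h0⟩ | ⟨ha, h0⟩
    · obtain ⟨rfl, rfl⟩ := pair_eq_top ha.2 hl.2 he
      exact hd h0
    · rw [pair_comm] at he
      obtain ⟨h1, h2⟩ := pair_eq_top ha.2 hl.2 he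
      rw [← h1, ← h2] at hd
      exact hd h0
  have key : ∀ {v w v' w'}, LN K h v w → dep v w ≠ 0 → LN K h v' w' → dep v' w' ≠ 0 →
      ({v, w, par v w} : Finset α) = {v', w', par v' w'} → v = v' ∧ w = w' := by
    intro v w v' w' hl hd hl' hd' he
    have p1 := parfacts hl hd
    have p2 := parfacts hl' hd'
    have hv : v ∈ ({v', w', par v' w'} : Finset α) := by rw [← he]; simp
    have hv' : v' ∈ ({v, w, par v w} : Finset α) := by rw [he]; simp
    have low : ∀ {v w}, LN K h v w → dep v w ≠ 0 → ∀ x ∈ ({v, w, par v w} : Finset α), x ≠ v →
        h x < h v := by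
      intro v w hl hd x hx hxv
      simp only [mem_insert, mem_singleton] at hx
      rcases hx with rfl | rfl | rfl
      · exact absurd rfl hxv
      · exact hl.2
      · exact (parfacts hl hd).1.2
    have hvv : v = v' := by
      by_contra hne
      have a := low hl hd v' hv' (Ne.symm hne)
      have b := low hl' hd' v hv hne
      omega
    subst hvv
    refine ⟨rfl, ?_⟩
    have hw : w ∈ ({v, w', par v w'} : Finset α) := by rw [← he]; simp
    have hw' : w' ∈ ({v, w, par v w} : Finset α) := by rw [he]; simp
    simp only [mem_insert, mem_singleton] at hw hw'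
    rcases hw with h1 | h1 | h1
    · exact absurd h1.symm hl.ne
    · exact h1
    · rcases hw' with h2 | h2 | h2
      · exact absurd h2.symm hl'.ne
      · exact h2.symm
      · exfalso
        have a := p1.2.2; have b := p2.2.2
        rw [← h1] at b; rw [← h2] at a; omega
  have edgeK : ∀ {v}, v ≠ b → ({v, nxt v} : Finset α) ∈ K := by
    intro v hv
    rcases nadj v hv with ⟨ha, _⟩ | ⟨ha, _⟩
    · exact ha.mem
    · rw [pair_comm]; exact ha.mem
  let D : DiscreteGradient (K : Set (Finset α)) :=
    { pair := Pr K h dep par b nxt
      mem := by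
        rintro σ τ (⟨v, hv⟩ | ⟨v, w, hw, hd⟩)
        · refine ⟨hvert v, edgeK hv, by simp, ?_⟩
          rw [cardn hv]; simp
        · refine ⟨hw.mem, (parfacts hw hd).2.1, ?_, ?_⟩
          · intro x hx; simp only [mem_insert, mem_singleton] at hx ⊢; tauto
          · rw [card3 hw hd, card2 hw]
      up_unique := by
        intro σ τ τ' h1 h2
        rcases h1 with ⟨v, hv⟩ | ⟨v, w, hw, hd⟩
        · generalize hs : ({v} : Finset α) = s at h2
          rcases h2 with ⟨v', hv'⟩ | ⟨v', w', hw', hd'⟩
          · have := Finset.singleton_injective hs; rw [this]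
          · have := congrArg Finset.card hs; rw [card2 hw'] at this; simp at this
        · generalize hs : ({v, w} : Finset α) = s at h2
          rcases h2 with ⟨v', hv'⟩ | ⟨v', w', hw', hd'⟩
          · have := congrArg Finset.card hs; rw [card2 hw] at this; simp at this
          · obtain ⟨rfl, rfl⟩ := pair_eq_top hw.2 hw'.2 hs; rfl
      down_unique := by
        intro σ σ' τ h1 h2
        rcases h1 with ⟨v, hv⟩ | ⟨v, w, hw, hd⟩
        · generalize hs : ({v, nxt v} : Finset α) = s at h2
          rcases h2 with ⟨v', hv'⟩ | ⟨v', w', hw', hd'⟩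
          · rw [ninj hv hv' hs]
          · have := congrArg Finset.card hs; rw [card3 hw' hd', cardn hv] at this; omega
        · generalize hs : ({v, w, par v w} : Finset α) = s at h2
          rcases h2 with ⟨v', hv'⟩ | ⟨v', w', hw', hd'⟩
          · have := congrArg Finset.card hs; rw [card3 hw hd, cardn hv'] at this; omega
          · obtain ⟨rfl, rfl⟩ := key hw hd hw' hd' hs; rfl
      no_both := by
        intro ρ σ τ h1 h2
        rcases h1 with ⟨v, hv⟩ | ⟨v, w, hw, hd⟩
        · generalize hs : ({v, nxt v} : Finset α) = s at h2
          rcases h2 with ⟨v', hv'⟩ | ⟨v', w', hw', hd'⟩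
          · have := congrArg Finset.card hs; rw [cardn hv] at this; simp at this
          · exact nroot hv hw' hd' hs
        · generalize hs : ({v, w, par v w} : Finset α) = s at h2
          rcases h2 with ⟨v', hv'⟩ | ⟨v', w', hw', hd'⟩
          · have := congrArg Finset.card hs; rw [card3 hw hd] at this; simp at this
          · have := congrArg Finset.card hs; rw [card3 hw hd, card2 hw'] at this; omega
      acyclic := by
        let m : Finset α → ℕ ×ₗ ℕ := fun σ => if σ.card = 1 then toLex (0, σ.sup d) else
          toLex (σ.sup h,
            σ.sup (fun v => σ.sup (fun w => if h w < h v ∧ h v = σ.sup h then dep v w else 0)))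
        have dsup : ∀ {v w : α}, h w < h v → m {v, w} = toLex (h v, dep v w) := by
          intro v w hvw
          have hne : v ≠ w := by rintro rfl; exact lt_irrefl _ hvw
          have h1 : ({v, w} : Finset α).sup h = h v := by
            rw [sup_insert, sup_singleton]; exact max_eq_left hvw.le
          simp only [m]
          rw [if_neg (by rw [card_pair hne]; norm_num), h1]
          congr 1
          ext
          · rfl
          · simp only
            rw [sup_insert, sup_singleton, sup_insert, sup_singleton, sup_insert, sup_singleton]
            have n1 : ¬ (h v < h w) := by omega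
            simp [hvw, n1]
        have msing : ∀ v : α, m {v} = toLex (0, d v) := by
          intro v
          simp only [m, sup_singleton, card_singleton, if_true]
        have dec : ∀ a c : Finset α, (∃ τ, Pr K h dep par b nxt a τ ∧ Facet c τ ∧ c ≠ a) →
            m c < m a := by
          rintro a c ⟨τ, hp, hf, hba⟩
          rcases hp with ⟨v, hv⟩ | ⟨v, w, hw, hd⟩
          · have hb : c = {nxt v} := by
              have hc : c.card = 1 := by have := hf.2; rw [cardn hv] at this; omega
              obtain ⟨x, rfl⟩ := card_eq_one.1 hc
              have hx : x ∈ ({v, nxt v} : Finset α) := hf.1 (by simp)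
              simp only [mem_insert, mem_singleton] at hx
              rcases hx with rfl | rfl
              · exact absurd rfl hba
              · rfl
            rw [hb, msing, msing]
            exact Prod.Lex.toLex_lt_toLex.2 (Or.inr ⟨rfl, nd v hv⟩)
          · obtain ⟨p1, p2, p3⟩ := parfacts hw hd
            have hc : c.card = 2 := by have := hf.2; rw [card3 hw hd] at this; omega
            have hsub := hf.1
            by_cases hvb : v ∈ c
            · have hwb : w ∉ c := by
                intro hwb
                apply hba
                symm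
                apply eq_of_subset_of_card_le
                · intro x hx; simp only [mem_insert, mem_singleton] at hx
                  rcases hx with rfl | rfl <;> assumption
                · rw [hc, card2 hw]
              have hb : c = {v, par v w} := by
                apply eq_of_subset_of_card_le
                · intro x hx
                  have := hsub hx
                  simp only [mem_insert, mem_singleton] at this ⊢
                  rcases this with rfl | rfl | rfl
                  · exact Or.inl rfl
                  · exact absurd hx hwb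
                  · exact Or.inr rfl
                · rw [hc, card2 p1]
              rw [hb, dsup p1.2, dsup hw.2]
              exact Prod.Lex.toLex_lt_toLex.2 (Or.inr ⟨rfl, p3⟩)
            · rw [dsup hw.2]
              simp only [m]
              rw [if_neg (by rw [hc]; norm_num)]
              apply Prod.Lex.toLex_lt_toLex.2
              left
              have : c.sup h < h v := by
                rw [Finset.sup_lt_iff]
                · intro x hx
                  have := hsub hx
                  simp only [mem_insert, mem_singleton] at this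
                  rcases this with rfl | rfl | rfl
                  · exact absurd hx hvb
                  · exact hw.2
                  · exact p1.2
                · have := hw.2
                  simp only [bot_eq_zero']; omega
              exact this
        intro σ hσ
        have : m σ < m σ := by
          have aux : ∀ a c : Finset α,
              Relation.TransGen (fun a c => ∃ τ, Pr K h dep par b nxt a τ ∧ Facet c τ ∧ c ≠ a) a c →
              m c < m a := by
            intro a c hab
            induction hab with
            | single h1 => exact dec _ _ h1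
            | tail _ h2 ih => exact (dec _ _ h2).trans ih
          exact aux _ _ hσ
        exact lt_irrefl _ this }
  have hDpair : ∀ σ τ, D.pair σ τ ↔ Pr K h dep par b nxt σ τ := fun _ _ => Iff.rfl
  refine ⟨D, ?_, ?_⟩
  · refine ⟨{b}, ⟨⟨hvert b, ?_⟩, card_singleton b⟩, ?_⟩
    · intro τ
      rw [hDpair, hDpair]
      constructor
      · intro hp
        generalize hs : ({b} : Finset α) = s at hp
        rcases hp with ⟨v', hv'⟩ | ⟨v', w', hw', hd'⟩
        · exact hv' (Finset.singleton_injective hs).symm
        · have := congrArg Finset.card hs; rw [card2 hw'] at this; simp at this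
      · intro hp
        generalize hs : ({b} : Finset α) = s at hp
        rcases hp with ⟨v', hv'⟩ | ⟨v', w', hw', hd'⟩
        · have := congrArg Finset.card hs; rw [cardn hv'] at this; simp at this
        · have := congrArg Finset.card hs; rw [card3 hw' hd'] at this; simp at this
    · rintro σ ⟨⟨_, hc⟩, h1⟩
      obtain ⟨v, rfl⟩ := card_eq_one.1 h1
      by_contra hne
      have hv : v ≠ b := by rintro rfl; exact hne rfl
      exact (hc {v, nxt v}).1 ((hDpair _ _).2 (Pr.base v hv))
  · -- counting
    set Roots : Finset (α × α) :=
      univ.filter (fun x => x.2 ∈ nbrs K x.1 ∧ h x.2 < h x.1 ∧ dep x.1 x.2 = 0) with hRoots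
    have hsum : ∑ v, (univ.filter (fun w => w ∈ nbrs K v ∧ h w < h v ∧ dep v w = 0)).card =
        Roots.card := by
      rw [hRoots, Finset.card_eq_sum_card_fiberwise (f := Prod.fst) (t := univ)
        (fun _ _ => mem_univ _)]
      apply Finset.sum_congr rfl
      intro v _
      apply Finset.card_bij (fun w _ => (v, w))
      · intro w hw
        simp only [mem_filter, mem_univ, true_and] at hw ⊢
        exact ⟨hw, trivial⟩
      · intro w _ w' _ he
        exact (Prod.ext_iff.1 he).2
      · rintro ⟨x, y⟩ hx
        simp only [mem_filter, mem_univ, true_and] at hx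
        obtain ⟨h1, h2⟩ := hx
        subst h2
        exact ⟨y, by simp only [mem_filter, mem_univ, true_and]; exact h1, rfl⟩
    rw [hsum]
    set T : Finset (Finset α) := (univ.erase b).image (fun v => ({v, nxt v} : Finset α)) with hT
    set R : Finset (Finset α) := Roots.image (fun x => ({x.1, x.2} : Finset α)) with hR
    have hTcard : T.card = Fintype.card α - 1 := by
      rw [hT, Finset.card_image_of_injOn, card_erase_of_mem (mem_univ b), card_univ]
      intro x hx y hy hxy
      simp only [coe_erase, coe_univ, Set.mem_diff, Set.mem_univ, Set.mem_singleton_iff,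
        true_and] at hx hy
      exact ninj hx hy hxy
    have hRcard : R.card = Roots.card := by
      rw [hR, Finset.card_image_of_injOn]
      intro x hx y hy hxy
      simp only [hRoots, coe_filter, mem_univ, true_and, Set.mem_setOf_eq] at hx hy
      obtain ⟨h1, h2⟩ := pair_eq_top hx.2.1 hy.2.1 hxy
      exact Prod.ext h1 h2
    have hTR : T ⊆ R := by
      intro e he
      simp only [hT, mem_image, mem_erase, mem_univ, and_true] at he
      obtain ⟨v, hv, rfl⟩ := he
      simp only [hR, mem_image, hRoots, mem_filter, mem_univ, true_and]
      rcases nadj v hv with ⟨ha, h0⟩ | ⟨ha, h0⟩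
      · exact ⟨(v, nxt v), ⟨ha.1, ha.2, h0⟩, rfl⟩
      · exact ⟨(nxt v, v), ⟨ha.1, ha.2, h0⟩, pair_comm _ _⟩
    have hcrit : {σ | D.Critical σ ∧ σ.card = 2} = ((R \ T : Finset (Finset α)) : Set (Finset α)) := by
      ext σ
      simp only [Set.mem_setOf_eq, coe_sdiff, Set.mem_diff, mem_coe]
      constructor
      · rintro ⟨⟨hσ, hc⟩, h2⟩
        have hσ : σ ∈ K := hσ
        obtain ⟨x, y, hxy, rfl⟩ := card_eq_two.1 h2
        constructor
        · -- in R
          have main : ∀ v w : α, h w < h v → ({v, w} : Finset α) ∈ K →
              (∀ τ, ¬ D.pair {v, w} τ ∧ ¬ D.pair τ {v, w}) → ({v, w} : Finset α) ∈ R := by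
            intro v w hvw hX hcr
            have hl : LN K h v w := by
              refine ⟨?_, hvw⟩
              simp only [nbrs, mem_filter, mem_univ, true_and]
              refine ⟨?_, hX⟩
              rintro rfl; exact lt_irrefl _ hvw
            have h0 : dep v w = 0 := by
              by_contra hd
              exact (hcr _).1 ((hDpair _ _).2 (Pr.step v w hl hd))
            simp only [hR, mem_image, hRoots, mem_filter, mem_univ, true_and]
            exact ⟨(v, w), ⟨hl.1, hl.2, h0⟩, rfl⟩
          rcases lt_or_gt_of_ne (fun he => hxy (hinj he) : h x ≠ h y) with hlt | hlt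
          · rw [pair_comm] at hσ hc ⊢
            exact main y x hlt hσ hc
          · exact main x y hlt hσ hc
        · intro hmem
          simp only [hT, mem_image, mem_erase, mem_univ, and_true] at hmem
          obtain ⟨v, hv, he⟩ := hmem
          exact (hc {v}).2 ((hDpair _ _).2 (he ▸ Pr.base v hv))
      · rintro ⟨hσR, hσT⟩
        simp only [hR, mem_image, hRoots, mem_filter, mem_univ, true_and] at hσR
        obtain ⟨⟨v, w⟩, ⟨h1, h2, h3⟩, rfl⟩ := hσR
        have hl : LN K h v w := ⟨h1, h2⟩
        refine ⟨⟨hl.mem, ?_⟩, card2 hl⟩
        intro τ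
        rw [hDpair, hDpair]
        constructor
        · intro hp
          generalize hs : ({v, w} : Finset α) = s at hp
          rcases hp with ⟨v', hv'⟩ | ⟨v', w', hw', hd'⟩
          · have := congrArg Finset.card hs; rw [card2 hl] at this; simp at this
          · obtain ⟨rfl, rfl⟩ := pair_eq_top h2 hw'.2 hs
            exact hd' h3
        · intro hp
          generalize hs : ({v, w} : Finset α) = s at hp
          rcases hp with ⟨v', hv'⟩ | ⟨v', w', hw', hd'⟩
          · apply hσT
            simp only [hT, mem_image, mem_erase, mem_univ, and_true]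
            exact ⟨v', hv', hs.symm⟩
          · have := congrArg Finset.card hs; rw [card3 hw' hd', card2 hl] at this; omega
    rw [hcrit, Set.ncard_coe_finset, card_sdiff_of_subset hTR, hTcard, hRcard]
    have hle : T.card ≤ R.card := card_le_card hTR
    have hpos : 0 < Fintype.card α := Fintype.card_pos_iff.2 ⟨b⟩
    rw [hTcard, hRcard] at hle
    omega

end Pool.MP_f18604_gt.KF
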