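import Mathlib
import Pool.Agent.Helper47.KF.Defs

/-!
# KF-A01: dimension of a space of alternating maps

Proof. `exteriorPower.alternatingMapLinearEquiv : (U [⋀^Fin j]→ₗ[ℚ] N) ≃ₗ (⋀[ℚ]^j U →ₗ[ℚ] N)`,
`Module.finrank_linearMap` and `exteriorPower.finrank_eq`.
-/

set_option autoImplicit false

namespace Pool.MP_f18604_gt.KF

open Finset Module

variable {U N : Type} [AddCommGroup U] [Module ℚ U] [FiniteDimensional ℚ U]
  [AddCommGroup N] [Module ℚ N] [FiniteDimensional ℚ N]

theorem finrank_alt (j : ℕ) :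
    finrank ℚ (U [⋀^Fin j]→ₗ[ℚ] N) = (finrank ℚ U).choose j * finrank ℚ N := by
  rw [LinearEquiv.finrank_eq (exteriorPower.alternatingMapLinearEquiv (R := ℚ) (M := U) (N := N)
    (n := j)), Module.finrank_linearMap, exteriorPower.finrank_eq]

theorem finiteDimensional_alt (j : ℕ) : FiniteDimensional ℚ (U [⋀^Fin j]→ₗ[ℚ] N) :=
  Module.Finite.equiv (exteriorPower.alternatingMapLinearEquiv (R := ℚ) (M := U) (N := N)
    (n := j)).symm

end Pool.MP_f18604_gt.KF
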