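import Mathlib
import Pool.Agent.Helper47.KF.Defs

/-!
# KF-A02: splitting off one linear form, the space of symmetric maps

`θ` is a form on `U`, `i : U₀ → U` is injective with image `ker θ`.

Proofs. (1) `conj i τ₀ = i ∘ τ₀ ∘ i^*`; for `φ ψ : U^*`:
`ψ (i τ₀ (φ i)) = (ψ i)(τ₀ (φ i)) = (φ i)(τ₀ (ψ i))`; conversely, every form on `U₀` is `φ ∘ i` for
some `φ` (`i` injective, `LinearMap.dualMap_surjective_of_injective`). Also `conj i` is injective: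
`i` is injective and `i^*` is surjective.

(2) Consider `ev : Q → U, τ ↦ τ θ`, with range `Q.map (applyₗ θ)` of dimension `rk Q θ` and kernel
`{τ ∈ Q : τ θ = 0}`. The map `conj i` restricts to a bijection of `Q.comap (conj i)` with this
kernel: `conj i τ₀ θ = i (τ₀ (θ ∘ i)) = 0` as `θ ∘ i = 0`. Conversely let `τ ∈ Q`, `τ θ = 0`. For
every `φ` we have `θ (τ φ) = φ (τ θ) = 0`, so `τ φ ∈ ker θ = range i`; and if `φ ∘ i = 0` then `φ`
is a multiple of `θ` (it vanishes on `ker θ`; `θ ≠ 0` or `ker θ = U`, use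
`Module.Dual` facts such as `LinearMap.mem_span_iff...` or argue directly: choose `e` with
`θ e = 1` when `θ ≠ 0`; then `φ = φ e • θ`; when `θ = 0`, `range i = U` and `φ = 0`) so `τ φ = 0`.
Hence `τ = i ∘ τ₀ ∘ i^*` for a map `τ₀` (define `τ₀ φ₀ = i⁻¹ (τ φ)` for a linear section
`φ₀ ↦ φ` of `i^*`). Rank-nullity.

(3) `KQ`: with `θ' : Fin (a+1) → U^*`, `θ' = Fin.cons θ η`, an element `τ` of `KQ Q θ'` is an
element of the kernel of (2) with `τ (η b) = 0`, i.e. `τ = conj i τ₀` with `τ₀ (η b ∘ i) = 0` (`i`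
is injective).
-/

set_option autoImplicit false

namespace Pool.MP_f18604_gt.KF

open Finset Module

variable {U U₀ : Type} [AddCommGroup U] [Module ℚ U] [FiniteDimensional ℚ U]
  [AddCommGroup U₀] [Module ℚ U₀] [FiniteDimensional ℚ U₀]

/-- a left inverse of an injective map -/
theorem a02_left {i : U₀ →ₗ[ℚ] U} (hi : Function.Injective i) :
    ∃ g : U →ₗ[ℚ] U₀, ∀ u, g (i u) = u := by
  obtain ⟨g, hg⟩ := LinearMap.exists_leftInverse_of_injective i (LinearMap.ker_eq_bot.2 hi)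
  exact ⟨g, fun u => by
    have := LinearMap.congr_fun hg u
    exact this⟩

theorem conj_injective {i : U₀ →ₗ[ℚ] U} (hi : Function.Injective i) :
    Function.Injective (conj i) := by
  obtain ⟨g, hg⟩ := a02_left hi
  intro τ τ' h
  apply LinearMap.ext
  intro φ
  have h1 := LinearMap.congr_fun h (φ ∘ₗ g)
  rw [conj_apply, conj_apply] at h1
  have h2 : (φ ∘ₗ g) ∘ₗ i = φ := by
    apply LinearMap.ext
    intro u
    rw [LinearMap.comp_apply, LinearMap.comp_apply, hg]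
  rw [h2] at h1
  exact hi h1

theorem comap_conj_le {i : U₀ →ₗ[ℚ] U} (hi : Function.Injective i)
    {Q : Submodule ℚ (Dual ℚ U →ₗ[ℚ] U)} (hQ : Q ≤ SymMap U) :
    Q.comap (conj i) ≤ SymMap U₀ := by
  obtain ⟨g, hg⟩ := a02_left hi
  intro τ hτ φ ψ
  have h1 : conj i τ ∈ SymMap U := hQ hτ
  have h2 := h1 (φ ∘ₗ g) (ψ ∘ₗ g)
  have h3 : ∀ χ : Dual ℚ U₀, (χ ∘ₗ g) ∘ₗ i = χ := by
    intro χ
    apply LinearMap.ext
    intro u
    rw [LinearMap.comp_apply, LinearMap.comp_apply, hg]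
  rw [conj_apply, conj_apply, h3, h3, LinearMap.comp_apply, LinearMap.comp_apply, hg, hg] at h2
  exact h2

/-- symmetric maps which kill `θ` come from the kernel of `θ` -/
theorem a02_key {i : U₀ →ₗ[ℚ] U} (hi : Function.Injective i) {θ : Dual ℚ U}
    (hθ : LinearMap.range i = LinearMap.ker θ) {τ : Dual ℚ U →ₗ[ℚ] U} (hτ : τ ∈ SymMap U)
    (h0 : τ θ = 0) : ∃ τ₀, conj i τ₀ = τ := by
  obtain ⟨g, hg⟩ := a02_left hi
  have hr : ∀ ψ : Dual ℚ U, ∃ u, i u = τ ψ := by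
    intro ψ
    have h1 : τ ψ ∈ LinearMap.ker θ := by
      rw [LinearMap.mem_ker, hτ ψ θ, h0, map_zero]
    rw [← hθ] at h1
    exact h1
  refine ⟨g ∘ₗ τ ∘ₗ g.dualMap, ?_⟩
  apply LinearMap.ext
  intro φ
  rw [conj_apply]
  have h2 : ∀ ψ, i (g (τ ψ)) = τ ψ := by
    intro ψ
    obtain ⟨u, hu⟩ := hr ψ
    rw [← hu, hg]
  show i (g (τ ((φ ∘ₗ i) ∘ₗ g))) = τ φ
  rw [h2]
  have h3 : τ (φ - (φ ∘ₗ i) ∘ₗ g) = 0 := by
    rw [← Module.forall_dual_apply_eq_zero_iff ℚ]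
    intro ψ
    rw [hτ]
    obtain ⟨u, hu⟩ := hr ψ
    rw [← hu, LinearMap.sub_apply, LinearMap.comp_apply, LinearMap.comp_apply, hg, sub_self]
  rw [map_sub, sub_eq_zero] at h3
  exact h3.symm

theorem a02_conj_theta {i : U₀ →ₗ[ℚ] U} {θ : Dual ℚ U}
    (hθ : LinearMap.range i = LinearMap.ker θ) (τ₀ : Dual ℚ U₀ →ₗ[ℚ] U₀) : conj i τ₀ θ = 0 := by
  have h1 : θ ∘ₗ i = 0 := by
    apply LinearMap.ext
    intro u
    have h2 : i u ∈ LinearMap.range i := ⟨u, rfl⟩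
    rw [hθ] at h2
    exact h2
  rw [conj_apply, h1, map_zero, map_zero]

theorem finrank_comap_conj {i : U₀ →ₗ[ℚ] U} (hi : Function.Injective i) {θ : Dual ℚ U}
    (hθ : LinearMap.range i = LinearMap.ker θ)
    {Q : Submodule ℚ (Dual ℚ U →ₗ[ℚ] U)} (hQ : Q ≤ SymMap U) :
    finrank ℚ (Q.comap (conj i) : Submodule ℚ (Dual ℚ U₀ →ₗ[ℚ] U₀)) + rk Q θ = finrank ℚ Q := by
  have h1 : (Q.comap (conj i)).map (conj i) =
      (LinearMap.ker ((LinearMap.applyₗ θ : (Dual ℚ U →ₗ[ℚ] U) →ₗ[ℚ] U).domRestrict Q)).map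
        Q.subtype := by
    apply le_antisymm
    · rintro _ ⟨τ₀, hτ₀, rfl⟩
      refine ⟨⟨conj i τ₀, hτ₀⟩, ?_, rfl⟩
      show conj i τ₀ θ = 0
      exact a02_conj_theta hθ τ₀
    · rintro _ ⟨⟨τ, hτ⟩, hτ0, rfl⟩
      have h2 : τ θ = 0 := hτ0
      obtain ⟨τ₀, rfl⟩ := a02_key hi hθ (hQ hτ) h2
      exact ⟨τ₀, hτ, rfl⟩
  have h3 : finrank ℚ (Q.comap (conj i) : Submodule ℚ (Dual ℚ U₀ →ₗ[ℚ] U₀)) =
      finrank ℚ ((Q.comap (conj i)).map (conj i)) :=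
    (Submodule.equivMapOfInjective (conj i) (conj_injective hi) _).finrank_eq
  have h4 := LinearMap.finrank_range_add_finrank_ker
    ((LinearMap.applyₗ θ : (Dual ℚ U →ₗ[ℚ] U) →ₗ[ℚ] U).domRestrict Q)
  have h5 : LinearMap.range ((LinearMap.applyₗ θ : (Dual ℚ U →ₗ[ℚ] U) →ₗ[ℚ] U).domRestrict Q) =
      Q.map (LinearMap.applyₗ θ) := by
    rw [LinearMap.range_domRestrict]
  rw [h5] at h4
  rw [h3, h1, Submodule.finrank_map_subtype_eq]
  unfold rk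
  rw [← h4, add_comm]

theorem finrank_KQ_cons {i : U₀ →ₗ[ℚ] U} (hi : Function.Injective i) {θ : Dual ℚ U}
    (hθ : LinearMap.range i = LinearMap.ker θ)
    {Q : Submodule ℚ (Dual ℚ U →ₗ[ℚ] U)} (hQ : Q ≤ SymMap U) {a : ℕ} (η : Fin a → Dual ℚ U) :
    finrank ℚ (KQ (Q.comap (conj i)) (fun b => η b ∘ₗ i)) =
      finrank ℚ (KQ Q (Fin.cons θ η : Fin (a + 1) → Dual ℚ U)) := by
  have h1 : (KQ (Q.comap (conj i)) (fun b => η b ∘ₗ i)).map (conj i) =
      KQ Q (Fin.cons θ η : Fin (a + 1) → Dual ℚ U) := by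
    apply le_antisymm
    · rintro _ ⟨τ₀, ⟨hτ₀, hη⟩, rfl⟩
      refine ⟨hτ₀, fun b => ?_⟩
      refine Fin.cases ?_ (fun b => ?_) b
      · rw [Fin.cons_zero]
        exact a02_conj_theta hθ τ₀
      · rw [Fin.cons_succ, conj_apply, hη b, map_zero]
    · rintro τ ⟨hτ, h0⟩
      have h2 : τ θ = 0 := by
        have := h0 0
        rwa [Fin.cons_zero] at this
      obtain ⟨τ₀, rfl⟩ := a02_key hi hθ (hQ hτ) h2
      refine ⟨τ₀, ⟨hτ, fun b => ?_⟩, rfl⟩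
      have h3 := h0 b.succ
      rw [Fin.cons_succ, conj_apply] at h3
      exact hi (h3.trans (map_zero i).symm)
  rw [← h1]
  exact (Submodule.equivMapOfInjective (conj i) (conj_injective hi) _).finrank_eq

end Pool.MP_f18604_gt.KF
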