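import Mathlib
import Pool.Agent.Helper47.KF.Defs
import Pool.Agent.Helper47.KF.A01

/-!
# KF-A03: splitting off one linear form, the space `Z`

`θ` is a nonzero form on `U`, `i : U₀ → U` is injective with image `ker θ`, `M = dim U`.
Put `Q₀ = Q.comap (conj i)` and `r = rk Q θ`, the rank of `τ ↦ τ θ` on `Q`. Claim
`dim Z_j(Q) ≤ dim Z_j(Q₀) + C(M-1, j+1) + (M-r) C(M-1, j)`.

Proof. Fix `e : U` with `θ e = 1`. `dim U₀ = M - 1`.

Step 1. `z ↦ z₀`, `z₀ (l) = (z (i ∘ l)) ∘ i` is a linear map from `Z_j(Q)` to `Z_j(Q₀)`: for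
`l : Fin j → U₀`, `τ₀ ∈ Q₀`: `trace_{U₀} (τ₀ ∘ (x ↦ z (i x, i ∘ l) ∘ i))
= trace_{U₀} ((τ₀ ∘ i^*) ∘ (evl z (i ∘ l) ∘ i)) = trace_U ((i ∘ τ₀ ∘ i^*) ∘ evl z (i ∘ l))
= trace_U (conj i τ₀ ∘ evl z (i ∘ l)) = 0` (`LinearMap.trace_comp_comm'`, for rectangular maps).
Let `K₁` be its kernel. `dim Z_j(Q) ≤ dim K₁ + dim Z_j(Q₀)`.

Step 2. For `z ∈ K₁` and `l : Fin (j+1) → U₀` the form `z (i ∘ l)` vanishes on `range i = ker θ`,
so it is `c(l) θ` with `c(l) = z (i ∘ l) e`. The map `z ↦ c` from `K₁` to `U₀ [⋀^Fin (j+1)]→ₗ ℚ` is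
linear; its target has dimension `C(M-1, j+1)` (A01). Let `K₂` be its kernel: `z (i ∘ l) = 0` for
all `l : Fin (j+1) → U₀`.

Step 3. For `z ∈ K₂` let `a(l) = z (e, i ∘ l) ∈ U^*`, `l : Fin j → U₀` (this is
`(z.curryLeft e).compLinearMap i`). The map `z ↦ a` is injective on `K₂`: if `a = 0`, every
`x : U` is `θ(x) e + i y`; expand in a basis consisting of `e` and the image of a basis of `U₀`.
The values of `a` lie in `N = {ψ : U^* | ψ (τ θ) = 0 for all τ ∈ Q}`, the annihilator of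
`Q.map (applyₗ θ)`, of dimension `M - r` (`Subspace.finrank_add_finrank_dualAnnihilator_eq`).
So `dim K₂ ≤ C(M-1, j) (M - r)` by A01.
-/

set_option autoImplicit false

namespace Pool.MP_f18604_gt.KF

open Finset Module

variable {U U₀ : Type} [AddCommGroup U] [Module ℚ U] [FiniteDimensional ℚ U]
  [AddCommGroup U₀] [Module ℚ U₀] [FiniteDimensional ℚ U₀]

/-- A general dimension bound. -/
private theorem finrank_le_inf_ker {V W : Type} [AddCommGroup V] [Module ℚ V]
    [AddCommGroup W] [Module ℚ W] [FiniteDimensional ℚ V] [FiniteDimensional ℚ W]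
    (S : Submodule ℚ V) (f : V →ₗ[ℚ] W) (T : Submodule ℚ W) (h : ∀ v ∈ S, f v ∈ T) :
    finrank ℚ S ≤ finrank ℚ (S ⊓ LinearMap.ker f : Submodule ℚ V) + finrank ℚ T := by
  have h1 := LinearMap.finrank_range_add_finrank_ker (f.domRestrict S)
  have h2 : finrank ℚ (LinearMap.range (f.domRestrict S)) ≤ finrank ℚ T := by
    apply Submodule.finrank_mono
    rintro w ⟨v, rfl⟩
    exact h v v.2
  have h3 : finrank ℚ (LinearMap.ker (f.domRestrict S)) =
      finrank ℚ (S ⊓ LinearMap.ker f : Submodule ℚ V) := by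
    have h4 : (LinearMap.ker (f.domRestrict S)).map S.subtype = S ⊓ LinearMap.ker f := by
      ext v
      simp only [Submodule.mem_map, LinearMap.mem_ker, LinearMap.domRestrict_apply,
        Submodule.subtype_apply, Subtype.exists, exists_and_right, exists_eq_right,
        Submodule.mem_inf]
      constructor
      · rintro ⟨hv, h5⟩; exact ⟨hv, h5⟩
      · rintro ⟨hv, h5⟩; exact ⟨hv, h5⟩
    rw [← h4]
    exact (LinearEquiv.finrank_eq (Submodule.equivMapOfInjective S.subtype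
      S.injective_subtype _))
  omega

/-- Restriction to `U₀`. -/
private noncomputable def resMap (j : ℕ) (i : U₀ →ₗ[ℚ] U) :
    (U [⋀^Fin (j + 1)]→ₗ[ℚ] Dual ℚ U) →ₗ[ℚ] (U₀ [⋀^Fin (j + 1)]→ₗ[ℚ] Dual ℚ U₀) where
  toFun z := i.dualMap.compAlternatingMap (z.compLinearMap i)
  map_add' a b := by ext l x; simp
  map_smul' c a := by ext l x; simp

/-- The coefficient of `θ`. -/
private noncomputable def coefMap (j : ℕ) (i : U₀ →ₗ[ℚ] U) (e : U) :
    (U [⋀^Fin (j + 1)]→ₗ[ℚ] Dual ℚ U) →ₗ[ℚ] (U₀ [⋀^Fin (j + 1)]→ₗ[ℚ] ℚ) where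
  toFun z := (LinearMap.applyₗ e : Dual ℚ U →ₗ[ℚ] ℚ).compAlternatingMap (z.compLinearMap i)
  map_add' a b := by ext l; simp
  map_smul' c a := by ext l; simp

/-- Insert `e`. -/
private noncomputable def insMap (j : ℕ) (i : U₀ →ₗ[ℚ] U) (e : U) :
    (U [⋀^Fin (j + 1)]→ₗ[ℚ] Dual ℚ U) →ₗ[ℚ] (U₀ [⋀^Fin j]→ₗ[ℚ] Dual ℚ U) where
  toFun z := (z.curryLeft e).compLinearMap i
  map_add' a b := by ext l x; simp
  map_smul' c a := by ext l x; simp

omit [FiniteDimensional ℚ U] [FiniteDimensional ℚ U₀] in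
private theorem cons_comp (j : ℕ) (i : U₀ →ₗ[ℚ] U) (x : U₀) (l : Fin j → U₀) :
    (fun k => i ((Matrix.vecCons x l : Fin (j + 1) → U₀) k)) =
      Matrix.vecCons (i x) (fun k => i (l k)) := by
  ext k
  refine Fin.cases ?_ (fun k => ?_) k <;> simp

omit [FiniteDimensional ℚ U] in
/-- Alternating maps vanish if they vanish on tuples from `range i` and from `e, range i`. -/
private theorem alt_eq_zero (j : ℕ) {i : U₀ →ₗ[ℚ] U} (hi : Function.Injective i) {θ : Dual ℚ U}
    (hθ : LinearMap.range i = LinearMap.ker θ) {e : U} (he : θ e = 1)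
    (z : U [⋀^Fin (j + 1)]→ₗ[ℚ] Dual ℚ U)
    (h0 : ∀ l : Fin (j + 1) → U₀, z (fun k => i (l k)) = 0)
    (h1 : ∀ l : Fin j → U₀, z (Matrix.vecCons e (fun k => i (l k))) = 0) : z = 0 := by
  classical
  let b₀ := Module.finBasis ℚ U₀
  let v : Option (Fin (finrank ℚ U₀)) → U := fun o => o.elim e (fun k => i (b₀ k))
  have hspan : ⊤ ≤ Submodule.span ℚ (Set.range v) := by
    intro x _
    have h2 : x - θ x • e ∈ LinearMap.range i := by
      rw [hθ, LinearMap.mem_ker, map_sub, map_smul, he]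
      simp
    obtain ⟨y, hy⟩ := h2
    have h3 : x = θ x • e + i y := by rw [hy]; abel
    rw [h3]
    refine Submodule.add_mem _ (Submodule.smul_mem _ _ (Submodule.subset_span ⟨none, rfl⟩)) ?_
    have h4 : i y = ∑ k, b₀.repr y k • i (b₀ k) := by
      conv_lhs => rw [← b₀.sum_repr y]
      rw [map_sum]
      exact Finset.sum_congr rfl (fun k _ => map_smul _ _ _)
    rw [h4]
    exact Submodule.sum_mem _ (fun k _ => Submodule.smul_mem _ _
      (Submodule.subset_span ⟨some k, rfl⟩))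
  have hli : LinearIndependent ℚ v := by
    rw [linearIndependent_option]
    constructor
    · exact b₀.linearIndependent.map' i (LinearMap.ker_eq_bot.mpr hi)
    · intro h2
      have h3 : Submodule.span ℚ (Set.range (v ∘ (fun a => (some a : Option _)))) ≤
          LinearMap.ker θ := by
        rw [Submodule.span_le]
        rintro _ ⟨k, rfl⟩
        rw [← hθ]
        exact ⟨b₀ k, rfl⟩
      have h4 := h3 h2
      rw [LinearMap.mem_ker] at h4
      have h5 : θ e = 0 := h4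
      rw [he] at h5
      exact one_ne_zero h5
  let b := Basis.mk hli hspan
  refine Basis.ext_alternating b (fun w hw => ?_)
  have hb : ∀ o, b o = v o := fun o => by simp [b]
  simp only [hb, AlternatingMap.zero_apply]
  by_cases hex : ∃ k, w k = none
  · obtain ⟨k, hk⟩ := hex
    have hne : ∀ k', k' ≠ k → ∃ a, w k' = some a := by
      intro k' hk'
      cases hwk : w k' with
      | none => exact absurd (hw (hwk.trans hk.symm)) hk'
      | some a => exact ⟨a, rfl⟩
    have h2 := AlternatingMap.map_perm z (fun m => v (w m)) (Equiv.swap 0 k)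
    have h3 : z ((fun m => v (w m)) ∘ (Equiv.swap 0 k)) = 0 := by
      have h4 : ∀ m : Fin j, ∃ y : U₀, v (w (Equiv.swap 0 k m.succ)) = i y := by
        intro m
        obtain ⟨a, ha⟩ := hne (Equiv.swap 0 k m.succ) (by
          intro h5
          have h6 := congrArg (Equiv.swap 0 k) h5
          rw [Equiv.swap_apply_self, Equiv.swap_apply_right] at h6
          exact Fin.succ_ne_zero m h6)
        exact ⟨b₀ a, by rw [ha]; rfl⟩
      choose y hy using h4
      have h5 : ((fun m => v (w m)) ∘ (Equiv.swap 0 k)) =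
          Matrix.vecCons e (fun m => i (y m)) := by
        ext m
        refine Fin.cases ?_ (fun m => ?_) m
        · simp [hk, v]
        · simp only [Function.comp_apply, Matrix.cons_val_succ]
          exact hy m
      rw [h5]
      exact h1 y
    rw [h3] at h2
    rcases Int.units_eq_one_or (Equiv.Perm.sign (Equiv.swap 0 k)) with h4 | h4
    · rw [h4, one_smul] at h2; exact h2.symm
    · rw [h4] at h2
      have : z (fun m => v (w m)) = -((-1 : ℤˣ) • z (fun m => v (w m))) := by simp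
      rw [this, ← h2, neg_zero]
  · push Not at hex
    have h4 : ∀ m, ∃ y : U₀, v (w m) = i y := by
      intro m
      obtain ⟨a, ha⟩ := Option.ne_none_iff_exists'.mp (hex m)
      exact ⟨b₀ a, by rw [ha]; rfl⟩
    choose y hy using h4
    have h5 : (fun m => v (w m)) = fun m => i (y m) := by ext m; exact hy m
    rw [h5]
    exact h0 y

theorem finrank_Z_step (j : ℕ) {i : U₀ →ₗ[ℚ] U} (hi : Function.Injective i) {θ : Dual ℚ U}
    (hθ0 : θ ≠ 0) (hθ : LinearMap.range i = LinearMap.ker θ)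
    {Q : Submodule ℚ (Dual ℚ U →ₗ[ℚ] U)} (hQ : Q ≤ SymMap U) :
    finrank ℚ (Z j Q) ≤ finrank ℚ (Z j (Q.comap (conj i) : Submodule ℚ (Dual ℚ U₀ →ₗ[ℚ] U₀))) +
      (finrank ℚ U - 1).choose (j + 1) +
      (finrank ℚ U - rk Q θ) * (finrank ℚ U - 1).choose j := by
  have : FiniteDimensional ℚ (U [⋀^Fin (j + 1)]→ₗ[ℚ] Dual ℚ U) := finiteDimensional_alt _
  have : FiniteDimensional ℚ (U₀ [⋀^Fin (j + 1)]→ₗ[ℚ] Dual ℚ U₀) := finiteDimensional_alt _
  have : FiniteDimensional ℚ (U₀ [⋀^Fin (j + 1)]→ₗ[ℚ] ℚ) := finiteDimensional_alt _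
  have : FiniteDimensional ℚ (U₀ [⋀^Fin j]→ₗ[ℚ] Dual ℚ U) := finiteDimensional_alt _
  -- the vector `e`
  obtain ⟨e, he⟩ : ∃ e : U, θ e = 1 := by
    obtain ⟨x, hx⟩ : ∃ x, θ x ≠ 0 := by
      by_contra h
      push Not at h
      exact hθ0 (LinearMap.ext h)
    exact ⟨(θ x)⁻¹ • x, by rw [map_smul, smul_eq_mul, inv_mul_cancel₀ hx]⟩
  have hdim : finrank ℚ U₀ = finrank ℚ U - 1 := by
    have h1 := Module.Dual.finrank_ker_add_one_of_ne_zero (f := θ) hθ0
    rw [← hθ, LinearMap.finrank_range_of_inj hi] at h1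
    omega
  have hdec : ∀ x : U, ∃ y : U₀, x = θ x • e + i y := by
    intro x
    have h2 : x - θ x • e ∈ LinearMap.range i := by
      rw [hθ, LinearMap.mem_ker, map_sub, map_smul, he]
      simp
    obtain ⟨y, hy⟩ := h2
    exact ⟨y, by rw [hy]; abel⟩
  -- step 1
  have step1 : finrank ℚ (Z j Q) ≤ finrank ℚ (Z j Q ⊓ LinearMap.ker (resMap j i) :
      Submodule ℚ (U [⋀^Fin (j + 1)]→ₗ[ℚ] Dual ℚ U)) +
      finrank ℚ (Z j (Q.comap (conj i) : Submodule ℚ (Dual ℚ U₀ →ₗ[ℚ] U₀))) := by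
    refine finrank_le_inf_ker _ _ _ (fun z hz => ?_)
    intro l τ₀ hτ₀
    have h1 : evl (resMap j i z) l = i.dualMap ∘ₗ (evl z (fun k => i (l k)) ∘ₗ i) := by
      ext x y
      simp only [evl_apply, LinearMap.comp_apply, LinearMap.dualMap_apply]
      have h2 : resMap j i z (Matrix.vecCons x l) =
          i.dualMap (z (fun k => i ((Matrix.vecCons x l : Fin (j + 1) → U₀) k))) := rfl
      rw [h2, cons_comp]
      rfl
    rw [h1]
    have h3 : τ₀ ∘ₗ i.dualMap ∘ₗ evl z (fun k => i (l k)) ∘ₗ i =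
        (τ₀ ∘ₗ i.dualMap ∘ₗ evl z (fun k => i (l k))) ∘ₗ i := rfl
    rw [h3, LinearMap.trace_comp_comm']
    exact hz _ (conj i τ₀) hτ₀
  -- step 2
  have step2 : finrank ℚ (Z j Q ⊓ LinearMap.ker (resMap j i) :
      Submodule ℚ (U [⋀^Fin (j + 1)]→ₗ[ℚ] Dual ℚ U)) ≤
      finrank ℚ (Z j Q ⊓ LinearMap.ker (resMap j i) ⊓ LinearMap.ker (coefMap j i e) :
      Submodule ℚ (U [⋀^Fin (j + 1)]→ₗ[ℚ] Dual ℚ U)) + (finrank ℚ U - 1).choose (j + 1) := by
    have h1 := finrank_le_inf_ker (Z j Q ⊓ LinearMap.ker (resMap j i)) (coefMap j i e) ⊤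
      (fun _ _ => Submodule.mem_top)
    rw [finrank_top, finrank_alt, hdim, finrank_self, mul_one] at h1
    exact h1
  -- step 3
  have hK : ∀ z ∈ (Z j Q ⊓ LinearMap.ker (resMap j i) ⊓ LinearMap.ker (coefMap j i e) :
      Submodule ℚ (U [⋀^Fin (j + 1)]→ₗ[ℚ] Dual ℚ U)), ∀ l : Fin (j + 1) → U₀,
      z (fun k => i (l k)) = 0 := by
    intro z hz l
    obtain ⟨⟨_, hz1⟩, hz2⟩ := hz
    have hz1' : resMap j i z = 0 := hz1
    have hz2' : coefMap j i e z = 0 := hz2
    ext x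
    obtain ⟨y, hy⟩ := hdec x
    have h1 : z (fun k => i (l k)) (i y) = 0 := by
      have := DFunLike.congr_fun (DFunLike.congr_fun hz1' l) y
      exact this
    have h2 : z (fun k => i (l k)) e = 0 := by
      have := DFunLike.congr_fun hz2' l
      exact this
    rw [hy, map_add, map_smul, h1, h2]
    simp
  let N : Submodule ℚ (Dual ℚ U) := (Q.map (LinearMap.applyₗ θ)).dualAnnihilator
  have hN : finrank ℚ N = finrank ℚ U - rk Q θ := by
    have h1 := Subspace.finrank_add_finrank_dualAnnihilator_eq (Q.map (LinearMap.applyₗ θ))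
    unfold rk
    show finrank ℚ (Q.map (LinearMap.applyₗ θ)).dualAnnihilator = _
    omega
  have hval : ∀ z ∈ (Z j Q ⊓ LinearMap.ker (resMap j i) ⊓ LinearMap.ker (coefMap j i e) :
      Submodule ℚ (U [⋀^Fin (j + 1)]→ₗ[ℚ] Dual ℚ U)), ∀ l : Fin j → U₀,
      insMap j i e z l ∈ N := by
    intro z hz l
    rw [Submodule.mem_dualAnnihilator]
    rintro _ ⟨τ, hτ, rfl⟩
    have h1 := hz.1.1 (fun k => i (l k)) τ hτ
    have h2 : τ ∘ₗ evl z (fun k => i (l k)) =
        LinearMap.smulRight θ (τ (z (Matrix.vecCons e (fun k => i (l k))))) := by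
      ext1 x
      obtain ⟨y, hy⟩ := hdec x
      have h3 : evl z (fun k => i (l k)) (i y) = 0 := by
        rw [evl_apply, ← cons_comp]
        exact hK z hz _
      have h4 : evl z (fun k => i (l k)) x =
          θ x • z (Matrix.vecCons e (fun k => i (l k))) := by
        conv_lhs => rw [hy]
        rw [map_add, map_smul, h3, add_zero, evl_apply]
      rw [LinearMap.comp_apply, h4, map_smul, LinearMap.smulRight_apply]
    rw [h2, LinearMap.trace_smulRight] at h1
    have h5 : insMap j i e z l = z (Matrix.vecCons e (fun k => i (l k))) := rfl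
    rw [h5]
    show (z (Matrix.vecCons e (fun k => i (l k)))) (τ θ) = 0
    rw [hQ hτ (z (Matrix.vecCons e (fun k => i (l k)))) θ] at h1
    exact h1
  have step3 : finrank ℚ (Z j Q ⊓ LinearMap.ker (resMap j i) ⊓ LinearMap.ker (coefMap j i e) :
      Submodule ℚ (U [⋀^Fin (j + 1)]→ₗ[ℚ] Dual ℚ U)) ≤
      (finrank ℚ U - rk Q θ) * (finrank ℚ U - 1).choose j := by
    have : FiniteDimensional ℚ (U₀ [⋀^Fin j]→ₗ[ℚ] N) := finiteDimensional_alt _
    let F : (Z j Q ⊓ LinearMap.ker (resMap j i) ⊓ LinearMap.ker (coefMap j i e) :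
        Submodule ℚ (U [⋀^Fin (j + 1)]→ₗ[ℚ] Dual ℚ U)) →ₗ[ℚ] (U₀ [⋀^Fin j]→ₗ[ℚ] N) :=
      { toFun := fun z => (insMap j i e z).codRestrict N (hval z z.2)
        map_add' := by intro a b; ext l x; simp
        map_smul' := by intro c a; ext l x; simp }
    have hF : Function.Injective F := by
      intro a b hab
      have h1 : ∀ l : Fin j → U₀, ((a - b : (Z j Q ⊓ LinearMap.ker (resMap j i) ⊓
          LinearMap.ker (coefMap j i e) : Submodule ℚ (U [⋀^Fin (j + 1)]→ₗ[ℚ] Dual ℚ U))) :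
          U [⋀^Fin (j + 1)]→ₗ[ℚ] Dual ℚ U) (Matrix.vecCons e (fun k => i (l k))) = 0 := by
        intro l
        have h2 := congrArg Subtype.val (DFunLike.congr_fun hab l)
        have h3 : (a : U [⋀^Fin (j + 1)]→ₗ[ℚ] Dual ℚ U) (Matrix.vecCons e (fun k => i (l k))) =
            (b : U [⋀^Fin (j + 1)]→ₗ[ℚ] Dual ℚ U) (Matrix.vecCons e (fun k => i (l k))) := h2
        rw [Submodule.coe_sub, AlternatingMap.sub_apply, h3, sub_self]
      have h4 := alt_eq_zero j hi hθ he _ (hK _ (a - b).2) h1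
      rw [Submodule.coe_sub] at h4
      exact Subtype.ext (sub_eq_zero.mp h4)
    have h1 := LinearMap.finrank_le_finrank_of_injective hF
    rw [finrank_alt, hN, hdim, mul_comm] at h1
    exact h1
  omega

end Pool.MP_f18604_gt.KF
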