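import Mathlib
import Pool.Agent.Helper47.KF.Defs

/-!
# KF-A04: spaces of symmetric maps have a form of large rank

Let `Q` be a space of symmetric maps from the dual of `U` to `U`, `dim U = M ≥ 1`. There is a
nonzero form `θ` with `2 dim Q ≤ rk Q θ * (M + 1)`, where `rk Q θ` is the rank of `τ ↦ τ θ` on `Q`.

Proof. If `Q = 0` take any nonzero `θ`. Otherwise, let `r` be the maximum of `rk Q θ` over all
`θ` with `θ (τ θ) ≠ 0` for some `τ ∈ Q`. Such `θ` exist: choose `τ ≠ 0` in `Q` and `φ` with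
`τ φ ≠ 0`, `ψ` with `ψ (τ φ) ≠ 0`; if `φ (τ φ)`, `ψ (τ ψ)` and `(φ + ψ) (τ (φ + ψ))` all vanish
then `2 ψ (τ φ) = 0` by symmetry, a contradiction. Fix `θ` attaining the maximum, `θ (τ₀ θ) ≠ 0`
with `τ₀ ∈ Q`, `R = {τ θ : τ ∈ Q} = Q.map (applyₗ θ)`, `dim R = r`, and
`K = {τ ∈ Q : τ θ = 0}`, `dim K = dim Q - r`.

Claim: `τ η ∈ R` for all `τ ∈ K` and all `η : U^*`. Otherwise let `τ₁ θ, ..., τ_r θ` be a basis of
`R` with `τ_a ∈ Q`; then `τ₁ θ, ..., τ_r θ, τ η` are linearly independent. For `t : ℚ` consider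
the vectors `τ₁ (θ + t η), ..., τ_r (θ + t η), τ η`; they are linearly independent for all but
finitely many `t` (compose with a linear map `U → ℚ^{r+1}` for which the images at `t = 0` have
nonzero determinant: the determinant is a polynomial in `t` which is nonzero at `t = 0`). Also
`(θ + t η) (τ₀ (θ + t η))` is a polynomial in `t` which is nonzero at `t = 0`. So there is `t ≠ 0`
with both properties. For this `t`, `τ (θ + t η) = t τ η`, so
`rk Q (θ + t η) ≥ r + 1`, contradicting the maximality of `r`.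

Moreover `θ (τ η) = η (τ θ) = 0` for `τ ∈ K`. So every `τ ∈ K` maps `U^*` to
`S = R ∩ ker θ`, and `dim S = r - 1` because `τ₀ θ ∈ R` is not in `ker θ`.

A space `K` of symmetric maps with values in a subspace `S` of dimension `s` has dimension at most
`s (s + 1) / 2`: let `i : S → U` be the inclusion; symmetric maps with values in `S` factor as
`i ∘ τ₀ ∘ i^*` with `τ₀` symmetric (if `φ` vanishes on `S` then `ψ (τ φ) = φ (τ ψ) = 0` for all
`ψ`, so `τ φ = 0`), and the symmetric maps on a space of dimension `s` correspond to symmetric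
`s × s` matrices. (Or directly: choose a basis `w_1, .., w_s` of `S` with dual forms
`w_a^*` on `U`; then `τ` is determined by the numbers `w_a^* (τ w_b^*)`, `a ≤ b`: if they all
vanish, then they vanish for all `a, b` by symmetry; `w_a^* (τ φ) = φ (τ w_a^*)`, and
`τ w_a^* ∈ S` has zero coordinates `w_b^* (τ w_a^*)`, hence `τ w_a^* = 0`, and `τ φ = 0`.)

Hence `dim Q = r + dim K ≤ r + (r - 1) r / 2 = r (r + 1) / 2` and `r ≤ M`, so
`2 dim Q ≤ r (M + 1)`. Finally `θ ≠ 0` since `θ (τ₀ θ) ≠ 0`.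
-/

set_option autoImplicit false

namespace Pool.MP_f18604_gt.KF

open Finset Module

variable {U : Type} [AddCommGroup U] [Module ℚ U] [FiniteDimensional ℚ U]

/-- A space of symmetric maps with values in `S`. -/
theorem finrank_le_of_range_le {K : Submodule ℚ (Dual ℚ U →ₗ[ℚ] U)} (hK : K ≤ SymMap U)
    (S : Submodule ℚ U) (hS : ∀ τ ∈ K, ∀ φ, τ φ ∈ S) :
    2 * finrank ℚ K ≤ finrank ℚ S * (finrank ℚ S + 1) := by
  classical
  obtain ⟨p, hp⟩ := LinearMap.exists_leftInverse_of_injective S.subtype S.ker_subtype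
  have hp' : ∀ x (hx : x ∈ S), p x = ⟨x, hx⟩ := fun x hx => LinearMap.congr_fun hp ⟨x, hx⟩
  set s := finrank ℚ S with hs
  let b : Basis (Fin s) ℚ S := finBasis ℚ S
  let w : Fin s → Dual ℚ U := fun a => (b.coord a).comp p
  have hz : ∀ x ∈ S, (∀ a, w a x = 0) → x = 0 := by
    intro x hx h
    have h1 : ∀ a, b.coord a ⟨x, hx⟩ = 0 := by
      intro a
      have h2 := h a
      change b.coord a (p x) = 0 at h2
      rwa [hp' x hx] at h2
    have h3 : (⟨x, hx⟩ : S) = 0 := b.ext_elem fun a => by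
      rw [map_zero]
      exact h1 a
    exact congrArg Subtype.val h3
  let Φ : K →ₗ[ℚ] (Sym2 (Fin s) → ℚ) :=
    { toFun := fun τ q => w (Quot.out q).1 ((τ : Dual ℚ U →ₗ[ℚ] U) (w (Quot.out q).2))
      map_add' := fun x y => by
        funext q
        simp
      map_smul' := fun c x => by
        funext q
        simp }
  have hinj : Function.Injective Φ := by
    rw [← LinearMap.ker_eq_bot, LinearMap.ker_eq_bot']
    intro τ hτ
    have hsym := hK τ.2
    have h1 : ∀ a c, w a ((τ : Dual ℚ U →ₗ[ℚ] U) (w c)) = 0 := by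
      intro a c
      have h2 : w (Quot.out (s(a, c) : Sym2 (Fin s))).1
        ((τ : Dual ℚ U →ₗ[ℚ] U) (w (Quot.out (s(a, c) : Sym2 (Fin s))).2)) = 0 :=
        congrFun hτ (s(a, c))
      have h3 : s((Quot.out (s(a, c) : Sym2 (Fin s))).1, (Quot.out (s(a, c) : Sym2 (Fin s))).2) =
          s(a, c) := Quot.out_eq (s(a, c) : Sym2 (Fin s))
      rcases Sym2.eq_iff.1 h3 with ⟨h4, h5⟩ | ⟨h4, h5⟩
      · rwa [h4, h5] at h2
      · rw [h4, h5] at h2
        rw [← h2]
        exact hsym (w c) (w a)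
    have h2 : ∀ c, (τ : Dual ℚ U →ₗ[ℚ] U) (w c) = 0 := fun c =>
      hz _ (hS _ τ.2 _) fun a => h1 a c
    apply Subtype.ext
    refine LinearMap.ext fun φ => ?_
    refine hz _ (hS _ τ.2 _) fun a => ?_
    have h3 : w a ((τ : Dual ℚ U →ₗ[ℚ] U) φ) = φ ((τ : Dual ℚ U →ₗ[ℚ] U) (w a)) := hsym φ (w a)
    rw [h3, h2, map_zero]
  have h1 := LinearMap.finrank_le_finrank_of_injective hinj
  rw [Module.finrank_fintype_fun_eq_card, Sym2.card, Fintype.card_fin, Nat.choose_two_right] at h1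
  have h2 : 2 * ((s + 1) * (s + 1 - 1) / 2) = (s + 1) * s := by
    have h3 : 2 ∣ (s + 1) * s := by
      have := Nat.even_mul_succ_self s
      rw [Nat.mul_comm] at this
      exact this.two_dvd
    rw [Nat.add_sub_cancel, Nat.mul_div_cancel' h3]
  calc 2 * finrank ℚ K ≤ 2 * ((s + 1) * (s + 1 - 1) / 2) := Nat.mul_le_mul_left 2 h1
    _ = s * (s + 1) := by rw [h2, Nat.mul_comm]

private theorem a4_poly {m : ℕ} (B : Matrix (Fin m) (Fin m) ℚ) :
    ∃ P : Polynomial ℚ, P ≠ 0 ∧ ∀ t : ℚ, P.eval t = (1 + t • B).det := by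
  refine ⟨((1 : Matrix (Fin m) (Fin m) (Polynomial ℚ)) +
    (Polynomial.X : Polynomial ℚ) • B.map Polynomial.C).det, ?_, ?_⟩
  · intro h
    have h0 := eval_det_add_X_smul (1 : Matrix (Fin m) (Fin m) (Polynomial ℚ)) B
    rw [h, Matrix.det_one, Polynomial.eval_zero, Polynomial.eval_one] at h0
    exact zero_ne_one h0
  · intro t
    rw [← Polynomial.coe_evalRingHom, RingHom.map_det]
    congr 1
    ext i j
    by_cases hij : i = j
    · subst hij
      simp [Polynomial.eval_add]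
      exact mul_comm _ _
    · simp [Matrix.one_apply_ne hij]
      exact mul_comm _ _

private theorem a4_indep {r : ℕ} {F : Type} [AddCommGroup F] [Module ℚ F]
    (u w : Fin r → F) (hu : LinearIndependent ℚ u) :
    ∃ P : Polynomial ℚ, P ≠ 0 ∧
      ∀ t : ℚ, P.eval t ≠ 0 → LinearIndependent ℚ (fun i => u i + t • w i) := by
  classical
  have hinj : LinearMap.ker (Fintype.linearCombination ℚ u) = ⊥ := by
    rw [LinearMap.ker_eq_bot]
    exact (linearIndependent_iff_injective_fintypeLinearCombination).1 hu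
  obtain ⟨L, hL⟩ := LinearMap.exists_leftInverse_of_injective (Fintype.linearCombination ℚ u) hinj
  have hLu : ∀ i, L (u i) = Pi.single i 1 := by
    intro i
    have h1 := LinearMap.congr_fun hL (Pi.single i 1)
    rw [LinearMap.comp_apply, Fintype.linearCombination_apply_single, one_smul] at h1
    exact h1
  obtain ⟨P, hP0, hP⟩ := a4_poly (Matrix.of fun i j => L (w j) i)
  refine ⟨P, hP0, fun t ht => ?_⟩
  rw [hP t] at ht
  have h1 : IsUnit (1 + t • (Matrix.of fun i j => L (w j) i) : Matrix (Fin r) (Fin r) ℚ) :=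
    (Matrix.isUnit_iff_isUnit_det _).2 (isUnit_iff_ne_zero.2 ht)
  have h2 := Matrix.linearIndependent_cols_iff_isUnit.2 h1
  apply LinearIndependent.of_comp L
  have h3 : (L ∘ fun i => u i + t • w i) =
      (1 + t • (Matrix.of fun i j => L (w j) i) : Matrix (Fin r) (Fin r) ℚ).col := by
    funext j
    funext i
    show L (u j + t • w j) i = (1 : Matrix (Fin r) (Fin r) ℚ) i j + t * L (w j) i
    rw [map_add, map_smul, hLu, Pi.add_apply, Pi.smul_apply, smul_eq_mul, Matrix.one_apply,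
      Pi.single_apply]
  rw [h3]
  exact h2

theorem exists_form_large_rank [Nontrivial U] {Q : Submodule ℚ (Dual ℚ U →ₗ[ℚ] U)}
    (hQ : Q ≤ SymMap U) :
    ∃ θ : Dual ℚ U, θ ≠ 0 ∧ 2 * finrank ℚ Q ≤ rk Q θ * (finrank ℚ U + 1) := by
  classical
  by_cases hQ0 : Q = ⊥
  · obtain ⟨θ, hθ⟩ := exists_ne (0 : Dual ℚ U)
    refine ⟨θ, hθ, ?_⟩
    rw [hQ0, finrank_bot, Nat.mul_zero]
    exact Nat.zero_le _
  -- a good form
  have hgood : ∃ θ : Dual ℚ U, ∃ τ ∈ Q, θ (τ θ) ≠ 0 := by
    obtain ⟨τ, hτ, hτ0⟩ := Submodule.exists_mem_ne_zero_of_ne_bot hQ0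
    by_contra hcon
    push Not at hcon
    apply hτ0
    refine LinearMap.ext fun φ => ?_
    rw [LinearMap.zero_apply]
    rw [← Module.forall_dual_apply_eq_zero_iff ℚ]
    intro ψ
    have h1 := hcon φ τ hτ
    have h2 := hcon ψ τ hτ
    have h3 := hcon (φ + ψ) τ hτ
    have h4 : ψ (τ φ) = φ (τ ψ) := hQ hτ φ ψ
    rw [map_add, map_add, LinearMap.add_apply, LinearMap.add_apply, h1, h2] at h3
    linarith
  -- the maximal rank
  have hbd : ∀ θ : Dual ℚ U, rk Q θ ≤ finrank ℚ U := fun θ => Submodule.finrank_le _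
  set A : Set ℕ := {r | ∃ θ : Dual ℚ U, (∃ τ ∈ Q, θ (τ θ) ≠ 0) ∧ rk Q θ = r} with hA
  have hAne : A.Nonempty := by
    obtain ⟨θ, h⟩ := hgood
    exact ⟨_, θ, h, rfl⟩
  have hAbd : BddAbove A := by
    refine ⟨finrank ℚ U, ?_⟩
    rintro r ⟨θ, -, rfl⟩
    exact hbd θ
  obtain ⟨θ, ⟨τ₀, hτ₀, hθτ₀⟩, hr⟩ := Nat.sSup_mem hAne hAbd
  have hmax : ∀ η : Dual ℚ U, (∃ τ ∈ Q, η (τ η) ≠ 0) → rk Q η ≤ rk Q θ := by
    intro η hη
    rw [hr]
    exact le_csSup hAbd ⟨η, hη, rfl⟩
  have hθ0 : θ ≠ 0 := by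
    intro h
    rw [h] at hθτ₀
    exact hθτ₀ rfl
  refine ⟨θ, hθ0, ?_⟩
  set R : Submodule ℚ U := Q.map (LinearMap.applyₗ θ) with hR
  have hRmem : ∀ τ ∈ Q, τ θ ∈ R := fun τ hτ => ⟨τ, hτ, rfl⟩
  have hrk : rk Q θ = finrank ℚ R := rfl
  -- the claim
  have claim : ∀ τ ∈ Q, τ θ = 0 → ∀ η : Dual ℚ U, τ η ∈ R := by
    intro τ hτ hτθ η
    by_contra hnot
    let b : Basis (Fin (finrank ℚ R)) ℚ R := finBasis ℚ R
    have hb : ∀ a, ∃ σ ∈ Q, σ θ = (b a : U) := fun a => (b a).2
    choose σ hσ hσθ using hb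
    have hind : LinearIndependent ℚ (fun a => (b a : U)) :=
      b.linearIndependent.map' R.subtype R.ker_subtype
    have hspan : Submodule.span ℚ (Set.range fun a => (b a : U)) = R := by
      have h1 : (Set.range fun a => (b a : U)) = R.subtype '' (Set.range b) := by
        rw [← Set.range_comp]
        rfl
      rw [h1, Submodule.span_image, b.span_eq, Submodule.map_top, Submodule.range_subtype]
    have hcons : LinearIndependent ℚ
        (Fin.cons (τ η) (fun a => (b a : U)) : Fin (finrank ℚ R + 1) → U) := by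
      rw [linearIndependent_finCons]
      refine ⟨hind, ?_⟩
      rw [hspan]
      exact hnot
    obtain ⟨P, hP0, hP⟩ := a4_indep _
      (Fin.cons 0 (fun a => σ a η) : Fin (finrank ℚ R + 1) → U) hcons
    set q : Polynomial ℚ := Polynomial.C (θ (τ₀ θ)) +
      Polynomial.C (θ (τ₀ η) + η (τ₀ θ)) * Polynomial.X +
      Polynomial.C (η (τ₀ η)) * Polynomial.X ^ 2 with hq
    have hqe : ∀ t : ℚ, q.eval t = (θ + t • η) (τ₀ (θ + t • η)) := by
      intro t
      rw [hq]
      simp only [Polynomial.eval_add, Polynomial.eval_mul, Polynomial.eval_C, Polynomial.eval_X,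
        Polynomial.eval_pow, map_add, map_smul, LinearMap.add_apply, LinearMap.smul_apply,
        smul_eq_mul]
      ring
    have hq0 : q ≠ 0 := by
      intro h
      have h1 := hqe 0
      rw [h, Polynomial.eval_zero, zero_smul, add_zero] at h1
      exact hθτ₀ h1.symm
    have hprod : P * q * Polynomial.X ≠ 0 := mul_ne_zero (mul_ne_zero hP0 hq0) Polynomial.X_ne_zero
    have hex : ∃ t : ℚ, (P * q * Polynomial.X).eval t ≠ 0 := by
      by_contra hcon
      push Not at hcon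
      exact hprod (Polynomial.funext fun t => by rw [hcon t, Polynomial.eval_zero])
    obtain ⟨t, ht⟩ := hex
    rw [Polynomial.eval_mul, Polynomial.eval_mul, Polynomial.eval_X] at ht
    have ht0 : t ≠ 0 := right_ne_zero_of_mul ht
    have ht1 : P.eval t ≠ 0 := left_ne_zero_of_mul (left_ne_zero_of_mul ht)
    have ht2 : q.eval t ≠ 0 := right_ne_zero_of_mul (left_ne_zero_of_mul ht)
    have h1 := hP t ht1
    have h2 := hmax (θ + t • η) ⟨τ₀, hτ₀, by rw [← hqe]; exact ht2⟩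
    set R' : Submodule ℚ U := Q.map (LinearMap.applyₗ (θ + t • η)) with hR'
    have hmem : ∀ i : Fin (finrank ℚ R + 1),
        (Fin.cons (τ η) (fun a => (b a : U)) : Fin (finrank ℚ R + 1) → U) i +
        t • (Fin.cons 0 (fun a => σ a η) : Fin (finrank ℚ R + 1) → U) i ∈ R' := by
      intro i
      refine Fin.cases ?_ (fun a => ?_) i
      · rw [Fin.cons_zero, Fin.cons_zero, smul_zero, add_zero]
        refine ⟨t⁻¹ • τ, Q.smul_mem _ hτ, ?_⟩
        show t⁻¹ • τ (θ + t • η) = τ η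
        rw [map_add, map_smul, hτθ, zero_add, smul_smul, inv_mul_cancel₀ ht0, one_smul]
      · rw [Fin.cons_succ, Fin.cons_succ]
        refine ⟨σ a, hσ a, ?_⟩
        show σ a (θ + t • η) = (b a : U) + t • σ a η
        rw [map_add, map_smul, hσθ]
    have h3 : LinearIndependent ℚ (fun i => (⟨_, hmem i⟩ : R')) :=
      LinearIndependent.of_comp R'.subtype h1
    have h4 := h3.fintype_card_le_finrank
    rw [Fintype.card_fin] at h4
    have h5 : finrank ℚ R' ≤ finrank ℚ R := h2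
    omega
  -- rank and nullity
  let f : Q →ₗ[ℚ] U := (LinearMap.applyₗ θ).domRestrict Q
  have hfr : LinearMap.range f = R := by
    rw [hR]
    ext x
    constructor
    · rintro ⟨y, rfl⟩
      exact ⟨y, y.2, rfl⟩
    · rintro ⟨y, hy, rfl⟩
      exact ⟨⟨y, hy⟩, rfl⟩
  have hrn := LinearMap.finrank_range_add_finrank_ker f
  rw [hfr] at hrn
  set K : Submodule ℚ (Dual ℚ U →ₗ[ℚ] U) := (LinearMap.ker f).map Q.subtype with hK
  have hKf : finrank ℚ K = finrank ℚ (LinearMap.ker f) := Submodule.finrank_map_subtype_eq _ _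
  have hKmem : ∀ τ ∈ K, τ ∈ Q ∧ τ θ = 0 := by
    rintro _ ⟨τ, hτ, rfl⟩
    exact ⟨τ.2, hτ⟩
  have hKs : K ≤ SymMap U := fun τ hτ => hQ (hKmem τ hτ).1
  set S : Submodule ℚ U := R ⊓ LinearMap.ker θ with hS
  have hSK : ∀ τ ∈ K, ∀ φ, τ φ ∈ S := by
    intro τ hτ φ
    obtain ⟨h1, h2⟩ := hKmem τ hτ
    refine ⟨claim τ h1 h2 φ, ?_⟩
    show θ (τ φ) = 0
    have h3 : θ (τ φ) = φ (τ θ) := hQ h1 φ θ
    rw [h3, h2, map_zero]
  have hlt : finrank ℚ S < finrank ℚ R := by
    apply Submodule.finrank_lt_finrank_of_lt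
    refine lt_of_le_of_ne inf_le_left fun h => ?_
    have h1 : τ₀ θ ∈ S := by rw [h]; exact hRmem τ₀ hτ₀
    exact hθτ₀ h1.2
  have h6 := finrank_le_of_range_le hKs S hSK
  have h7 := hbd θ
  rw [hrk] at h7 ⊢
  set s := finrank ℚ S
  set r := finrank ℚ R
  have h8 : s * (s + 1) ≤ (r - 1) * r := by
    have : s ≤ r - 1 := by omega
    exact Nat.mul_le_mul this (by omega)
  have h9 : 2 * finrank ℚ Q = 2 * r + 2 * finrank ℚ K := by
    rw [hKf]
    omega
  rw [h9]
  calc 2 * r + 2 * finrank ℚ K ≤ 2 * r + (r - 1) * r := by omega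
    _ = r * (r + 1) := by
      obtain ⟨m, hm⟩ : ∃ m, r = m + 1 := ⟨r - 1, by omega⟩
      rw [hm, Nat.add_sub_cancel]
      ring
    _ ≤ r * (finrank ℚ U + 1) := Nat.mul_le_mul_left r (by omega)

end Pool.MP_f18604_gt.KF
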