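import Mathlib
import Pool.Agent.Helper47.KF.Defs
import Pool.Agent.Helper47.KF.A02
import Pool.Agent.Helper47.KF.A03
import Pool.Agent.Helper47.KF.A04

/-!
# KF-A05: the chord lemma

For every space `Q` of symmetric maps, `M = dim U`, `g = dim Q`:
`(j+2) dim Z_j(Q) ≤ (j+2) C(M, j+2) + 2 (C(M+1, 2) - g) C(M-1, j)`.

Proof by induction on `M` (for all `U : Type`, all `Q`). If `M = 0` then `Dual ℚ U = 0`, so
`Z_j(Q) = 0` (alternating maps with values in a zero space), while `C(1,2) = 0` and `g = 0`, so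
the right side is `≥ 0`.
Let `M ≥ 1`. By A04 there is `θ ≠ 0` with `2 g ≤ r (M + 1)`, `r = rk Q θ ≤ M`. Let
`U₀ = ker θ` (as a type `↥(LinearMap.ker θ)`), `i` the inclusion, `Q₀ = Q.comap (conj i)`,
`dim U₀ = M - 1`, `dim Q₀ = g - r` (A02). By A03 and induction,
`(j+2) dim Z_j(Q) ≤ (j+2) C(M-1, j+2) + 2 (C(M, 2) - g + r) C(M-2, j) + (j+2) C(M-1, j+1)
  + (j+2) (M-r) C(M-1, j)`.
Since `C(M-1, j+2) + C(M-1, j+1) = C(M, j+2)` it remains to show, with `X = C(M,2) - g + r`,
where `C(M+1,2) - g = X + (M - r)`: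
`(j+2) (M-r) C(M-1, j) + 2 X C(M-2, j) ≤ 2 (X + M - r) C(M-1, j)`, that is
`j (M-r) C(M-1, j) ≤ 2 X (C(M-1, j) - C(M-2, j))`.
Now `2 X ≥ (M-r)(M-1)`: indeed `2 X = M (M-1) - 2 g + 2 r` and
`M(M-1) + 2 r - r (M+1) = (M-r)(M-1)`. For `j = 0` both sides are 0. For `j ≥ 1`, `M ≥ 2`:
`C(M-1, j) - C(M-2, j) = C(M-2, j-1)` and `j C(M-1, j) = (M-1) C(M-2, j-1)`, so the inequality
follows from `(M-r)(M-1) ≤ 2 X`. For `j ≥ 1`, `M = 1`: `C(0, j) = 0`. (In `ℕ`, `M - 2 = 0` for
`M = 1`, and `C(0, j)` appears; fine.)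
-/

set_option autoImplicit false

namespace Pool.MP_f18604_gt.KF

open Finset Module

/-- the arithmetic of the induction step -/
private theorem a05_arith (j m : ℕ) (X r : ℤ) (hr : r ≤ m + 1) (hX : (m : ℤ) * (m + 1 - r) ≤ 2 * X) :
    (j : ℤ) * (m + 1 - r) * (m.choose j : ℤ) ≤ 2 * X * ((m.choose j : ℤ) - ((m - 1).choose j : ℤ)) := by
  rcases j with _ | j
  · simp
  · rcases m with _ | m
    · simp
    · have h1 : ((m + 1).choose (j + 1) : ℤ) = (m.choose j : ℤ) + (m.choose (j + 1) : ℤ) := by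
        rw [Nat.choose_succ_succ]
        push_cast
        ring
      have h2 : ((m : ℤ) + 1) * (m.choose j : ℤ) = ((m + 1).choose (j + 1) : ℤ) * ((j : ℤ) + 1) := by
        have h3 := Nat.add_one_mul_choose_eq m j
        exact_mod_cast h3
      have h4 : m + 1 - 1 = m := rfl
      rw [h4]
      have h5 : ((m + 1).choose (j + 1) : ℤ) - (m.choose (j + 1) : ℤ) = (m.choose j : ℤ) := by
        rw [h1]
        ring
      rw [h5]
      push_cast at hX hr ⊢
      have h6 : ((j : ℤ) + 1) * ((m : ℤ) + 1 + 1 - r) * ((m + 1).choose (j + 1) : ℤ) =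
          ((m : ℤ) + 1) * ((m : ℤ) + 1 + 1 - r) * (m.choose j : ℤ) := by
        linear_combination -((m : ℤ) + 1 + 1 - r) * h2
      rw [h6]
      exact mul_le_mul_of_nonneg_right hX (by positivity)

private theorem a05_aux (j : ℕ) : ∀ (M : ℕ) (U : Type) [AddCommGroup U] [Module ℚ U]
    [FiniteDimensional ℚ U], finrank ℚ U = M → ∀ Q : Submodule ℚ (Dual ℚ U →ₗ[ℚ] U),
    Q ≤ SymMap U →
    ((j + 2) * finrank ℚ (Z j Q) : ℤ) ≤ (j + 2) * (finrank ℚ U).choose (j + 2) +
      2 * ((finrank ℚ U + 1).choose 2 - finrank ℚ Q) * (finrank ℚ U - 1).choose j := by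
  intro M
  induction M with
  | zero =>
    intro U _ _ _ hM Q hQ
    have : FiniteDimensional ℚ (U [⋀^Fin (j + 1)]→ₗ[ℚ] Dual ℚ U) := finiteDimensional_alt (j + 1)
    have h1 : finrank ℚ (Z j Q) = 0 := by
      have h2 := Submodule.finrank_le (Z j Q)
      rw [finrank_alt, hM] at h2
      simpa using h2
    have h3 : finrank ℚ Q = 0 := by
      have h4 := Submodule.finrank_le Q
      rw [Module.finrank_linearMap, hM] at h4
      simpa using h4
    rw [h1, h3, hM]
    simp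
  | succ m ih =>
    intro U _ _ _ hM Q hQ
    have hnt : Nontrivial U := Module.nontrivial_of_finrank_pos (R := ℚ) (by omega)
    obtain ⟨θ, hθ0, hθ2⟩ := exists_form_large_rank hQ
    have hi : Function.Injective (LinearMap.ker θ).subtype := Subtype.val_injective
    have hθ : LinearMap.range (LinearMap.ker θ).subtype = LinearMap.ker θ :=
      Submodule.range_subtype _
    have hker : finrank ℚ (LinearMap.ker θ) = m := by
      have h1 := Module.Dual.finrank_ker_add_one_of_ne_zero (f := θ) hθ0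
      omega
    have h1 := ih (LinearMap.ker θ) hker (Q.comap (conj (LinearMap.ker θ).subtype))
      (comap_conj_le hi hQ)
    have h2 := finrank_comap_conj hi hθ hQ
    have h3 := finrank_Z_step j hi hθ0 hθ hQ
    have h4 : rk Q θ ≤ finrank ℚ U := Submodule.finrank_le _
    rw [hker] at h1
    rw [hM] at h3 h4 hθ2 ⊢
    generalize finrank ℚ (Z j (Q.comap (conj (LinearMap.ker θ).subtype))) = z₀ at h1 h3
    generalize finrank ℚ (Q.comap (conj (LinearMap.ker θ).subtype)) = g₀ at h1 h2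
    generalize finrank ℚ (Z j Q) = z at h3 ⊢
    generalize finrank ℚ Q = g at h2 hθ2 ⊢
    generalize rk Q θ = r at h2 h3 h4 hθ2
    have e1 : m + 1 - 1 = m := rfl
    rw [e1] at h3 ⊢
    have e2 : ((m + 1 - r : ℕ) : ℤ) = (m : ℤ) + 1 - r := by
      rw [Nat.cast_sub h4]
      push_cast
      ring
    have h3' : (z : ℤ) ≤ z₀ + (m.choose (j + 1) : ℤ) + ((m : ℤ) + 1 - r) * (m.choose j : ℤ) := by
      rw [← e2]
      exact_mod_cast h3
    have e3 : ((m + 1 + 1).choose 2 : ℤ) = ((m + 1).choose 2 : ℤ) + (m + 1) := by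
      rw [Nat.choose_succ_succ (m + 1) 1, Nat.choose_one_right]
      push_cast
      ring
    have e4 : 2 * ((m + 1).choose 2 : ℤ) = m * (m + 1) := by
      have h5 : 2 * (m + 1).choose 2 = m * (m + 1) := by
        rw [Nat.choose_two_right, Nat.mul_div_cancel' (Nat.even_mul_pred_self _).two_dvd,
          Nat.add_sub_cancel]
        ring
      exact_mod_cast h5
    have e5 : ((m + 1).choose (j + 2) : ℤ) = (m.choose (j + 1) : ℤ) + (m.choose (j + 2) : ℤ) := by
      rw [Nat.choose_succ_succ]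
      push_cast
      ring
    have e6 : (g : ℤ) = g₀ + r := by
      rw [← h2]
      push_cast
      ring
    have e7 : 2 * (g : ℤ) ≤ r * (m + 2) := by
      have h5 : 2 * g ≤ r * (m + 1 + 1) := hθ2
      have h6 : 2 * (g : ℤ) ≤ r * (m + 1 + 1) := by exact_mod_cast h5
      linarith
    have h6 := a05_arith j m (((m + 1).choose 2 : ℤ) - g₀) r (by exact_mod_cast h4) (by
      have h7 : 2 * (((m + 1).choose 2 : ℤ) - g₀) = m * (m + 1) - 2 * g + 2 * r := by
        rw [e6]
        linarith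
      rw [h7]
      nlinarith)
    rw [e3, e5, e6]
    have hj : (0 : ℤ) ≤ (j : ℤ) + 2 := by positivity
    have h8 := mul_le_mul_of_nonneg_left h3' hj
    nlinarith [h1, h6, h8]

theorem chord {U : Type} [AddCommGroup U] [Module ℚ U] [FiniteDimensional ℚ U] (j : ℕ)
    {Q : Submodule ℚ (Dual ℚ U →ₗ[ℚ] U)} (hQ : Q ≤ SymMap U) :
    ((j + 2) * finrank ℚ (Z j Q) : ℤ) ≤ (j + 2) * (finrank ℚ U).choose (j + 2) +
      2 * ((finrank ℚ U + 1).choose 2 - finrank ℚ Q) * (finrank ℚ U - 1).choose j := by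
  exact a05_aux j _ U rfl Q hQ

end Pool.MP_f18604_gt.KF
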