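import Mathlib
import Pool.Agent.Helper47.KF.Defs
import Pool.Agent.Helper47.KF.A02
import Pool.Agent.Helper47.KF.A03

/-!
# KF-A06: splitting off several linear forms

`θ : Fin a → U^*` is linearly independent, `M = dim U`, `KQ Q θ = {τ ∈ Q : τ (θ b) = 0 for all b}`.

(1) `dim Q + C(a,2) ≤ dim KQ Q θ + a M`. Proof by induction on `a` (for all `U`, `Q`). `a = 0`:
`KQ Q θ = Q`. Step `a + 1`: write `θ = Fin.cons θ₀ η`; let `U₀ = ker θ₀`, `i` the inclusion,
`Q₀ = Q.comap (conj i)`; `dim U₀ = M - 1`, the forms `η b ∘ i` are linearly independent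
(a relation `∑ c_b η_b` vanishing on `ker θ₀` is a multiple of `θ₀`), `Q₀` is symmetric (A02),
`dim Q = dim Q₀ + r`, `r = rk Q θ₀ ≤ M`, `dim KQ Q₀ (η ∘ i) = dim KQ Q θ` (A02). So
`dim Q + C(a+1, 2) = r + dim Q₀ + C(a,2) + a ≤ M + dim KQ Q₀ + a (M-1) + a = dim KQ Q θ + (a+1) M`.

(2) If equality holds in (1) then there is `(U', Q')` with `Q'` symmetric, `dim U' = M - a`,
`dim Q' = dim KQ Q θ` and `dim Z_j(Q) ≤ dim Z_j(Q') + ∑_{b<a} C(M-1-b, j+1)`. Proof by
induction on `a`; `a = 0`: `U' = U`, `Q' = Q`. Step: in the notation of (1) the hypothesis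
`dim KQ Q θ + (a+1) M ≤ dim Q + C(a+1,2)` and (1) for `Q₀` force `r = M` (so the term
`(M - r) C(M-1, j)` in A03 vanishes) and equality for `Q₀`; apply A03 and the induction
hypothesis to `(U₀, Q₀, η ∘ i)`; `∑_{b<a} C(M-2-b, j+1) + C(M-1, j+1) = ∑_{b<a+1} C(M-1-b, j+1)`
(`Finset.sum_range_succ'`).
-/

set_option autoImplicit false

namespace Pool.MP_f18604_gt.KF

open Finset Module

private theorem indep_tail {U : Type} [AddCommGroup U] [Module ℚ U] {a : ℕ}
    (θ : Fin (a + 1) → Dual ℚ U) (h : LinearIndependent ℚ θ) :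
    LinearIndependent ℚ (fun b : Fin a => Fin.tail θ b ∘ₗ (LinearMap.ker (θ 0)).subtype) := by
  rw [Fintype.linearIndependent_iff] at h ⊢
  intro g hg
  have h0 : θ 0 ≠ 0 := by
    intro h0
    have h1 := h (fun i => if i = 0 then 1 else 0) (by simp [h0]) 0
    simp at h1
  obtain ⟨x, hx⟩ : ∃ x, θ 0 x ≠ 0 := by
    by_contra hcon
    push Not at hcon
    exact h0 (LinearMap.ext hcon)
  set G : Dual ℚ U := ∑ b, g b • Fin.tail θ b with hG
  have hGk : ∀ y, θ 0 y = 0 → G y = 0 := by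
    intro y hy
    have h2 := LinearMap.congr_fun hg ⟨y, LinearMap.mem_ker.2 hy⟩
    simp only [LinearMap.sum_apply, LinearMap.smul_apply, LinearMap.comp_apply,
      Submodule.subtype_apply, LinearMap.zero_apply] at h2
    rw [hG]
    simp only [LinearMap.sum_apply, LinearMap.smul_apply]
    exact h2
  have hGe : G = (G x / θ 0 x) • θ 0 := by
    apply LinearMap.ext
    intro y
    have h3 : θ 0 (y - (θ 0 y / θ 0 x) • x) = 0 := by
      rw [map_sub, map_smul, smul_eq_mul]
      field_simp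
      ring
    have h4 := hGk _ h3
    rw [map_sub, map_smul, smul_eq_mul] at h4
    rw [LinearMap.smul_apply, smul_eq_mul]
    have h5 : G y = θ 0 y / θ 0 x * G x := by linarith
    rw [h5]
    ring
  have h6 := h (Fin.cons (-(G x / θ 0 x)) g) (by
    rw [Fin.sum_univ_succ]
    simp only [Fin.cons_zero, Fin.cons_succ]
    have h7 : ∑ b : Fin a, g b • θ b.succ = G := rfl
    rw [h7, neg_smul, ← hGe, neg_add_cancel])
  intro b
  have h8 := h6 b.succ
  rwa [Fin.cons_succ] at h8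

private theorem head_ne {U : Type} [AddCommGroup U] [Module ℚ U] {a : ℕ}
    (θ : Fin (a + 1) → Dual ℚ U) (h : LinearIndependent ℚ θ) : θ 0 ≠ 0 := h.ne_zero 0

private theorem KQ_zero {U : Type} [AddCommGroup U] [Module ℚ U]
    (Q : Submodule ℚ (Dual ℚ U →ₗ[ℚ] U)) (θ : Fin 0 → Dual ℚ U) : KQ Q θ = Q := by
  apply le_antisymm
  · intro τ hτ
    exact hτ.1
  · intro τ hτ
    exact ⟨hτ, fun b => b.elim0⟩

private theorem rk_le {U : Type} [AddCommGroup U] [Module ℚ U] [FiniteDimensional ℚ U]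
    (Q : Submodule ℚ (Dual ℚ U →ₗ[ℚ] U)) (θ : Dual ℚ U) : rk Q θ ≤ finrank ℚ U :=
  Submodule.finrank_le _

theorem finrank_add_choose_le (a : ℕ) : ∀ {U : Type} [AddCommGroup U] [Module ℚ U]
    [FiniteDimensional ℚ U] {Q : Submodule ℚ (Dual ℚ U →ₗ[ℚ] U)}, Q ≤ SymMap U →
    ∀ θ : Fin a → Dual ℚ U, LinearIndependent ℚ θ →
    finrank ℚ Q + a.choose 2 ≤ finrank ℚ (KQ Q θ) + a * finrank ℚ U := by
  induction a with
  | zero =>
    intro U _ _ _ Q hQ θ hθ
    rw [KQ_zero]
    simp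
  | succ a ih =>
    intro U _ _ _ Q hQ θ hθ
    have hi : Function.Injective (LinearMap.ker (θ 0)).subtype :=
      Submodule.injective_subtype _
    have hr : LinearMap.range (LinearMap.ker (θ 0)).subtype = LinearMap.ker (θ 0) :=
      Submodule.range_subtype _
    have h1 := finrank_comap_conj hi hr hQ
    have h2 := ih (comap_conj_le hi hQ) _ (indep_tail θ hθ)
    have h3 := finrank_KQ_cons hi hr hQ (Fin.tail θ)
    rw [Fin.cons_self_tail] at h3
    rw [h3] at h2
    have h4 := Module.Dual.finrank_ker_add_one_of_ne_zero (head_ne θ hθ)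
    have h5 := rk_le Q (θ 0)
    have h6 : (a + 1).choose 2 = a + a.choose 2 := by
      rw [Nat.choose_succ_succ, Nat.choose_one_right]
    rw [← h4] at h5 ⊢
    rw [h6]
    nlinarith

theorem exists_quotient (a j : ℕ) : ∀ {U : Type} [AddCommGroup U] [Module ℚ U]
    [FiniteDimensional ℚ U] {Q : Submodule ℚ (Dual ℚ U →ₗ[ℚ] U)}, Q ≤ SymMap U →
    ∀ θ : Fin a → Dual ℚ U, LinearIndependent ℚ θ →
    finrank ℚ (KQ Q θ) + a * finrank ℚ U ≤ finrank ℚ Q + a.choose 2 →
    ∃ (U' : Type) (_ : AddCommGroup U') (_ : Module ℚ U') (_ : FiniteDimensional ℚ U')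
      (Q' : Submodule ℚ (Dual ℚ U' →ₗ[ℚ] U')), Q' ≤ SymMap U' ∧
      finrank ℚ U' + a = finrank ℚ U ∧ finrank ℚ Q' = finrank ℚ (KQ Q θ) ∧
      finrank ℚ (Z j Q) ≤ finrank ℚ (Z j Q') +
        ∑ b ∈ range a, (finrank ℚ U - 1 - b).choose (j + 1) := by
  induction a with
  | zero =>
    intro U i1 i2 i3 Q hQ θ hθ _
    refine ⟨U, i1, i2, i3, Q, hQ, rfl, ?_, ?_⟩
    · rw [KQ_zero]
    · simp
  | succ a ih =>
    intro U _ _ _ Q hQ θ hθ h
    have hi : Function.Injective (LinearMap.ker (θ 0)).subtype :=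
      Submodule.injective_subtype _
    have hr : LinearMap.range (LinearMap.ker (θ 0)).subtype = LinearMap.ker (θ 0) :=
      Submodule.range_subtype _
    have h1 := finrank_comap_conj hi hr hQ
    have h2 := finrank_add_choose_le a (comap_conj_le hi hQ) _ (indep_tail θ hθ)
    have h3 := finrank_KQ_cons hi hr hQ (Fin.tail θ)
    rw [Fin.cons_self_tail] at h3
    have h4 := Module.Dual.finrank_ker_add_one_of_ne_zero (head_ne θ hθ)
    have h5 := rk_le Q (θ 0)
    have h6 : (a + 1).choose 2 = a + a.choose 2 := by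
      rw [Nat.choose_succ_succ, Nat.choose_one_right]
    have h7 := finrank_Z_step j hi (head_ne θ hθ) hr hQ
    rw [h3] at h2
    rw [h6] at h
    have h8 : rk Q (θ 0) = finrank ℚ U := by
      rw [← h4] at h5 h ⊢
      apply le_antisymm h5
      nlinarith
    obtain ⟨U', i1, i2, i3, Q', hQ', e1, e2, e3⟩ := ih (comap_conj_le hi hQ) _ (indep_tail θ hθ) (by
      rw [h3]
      rw [← h4] at h5 h h8
      nlinarith)
    refine ⟨U', i1, i2, i3, Q', hQ', ?_, ?_, ?_⟩
    · rw [← h4, ← e1]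
      ring
    · rw [e2, h3]
    · rw [h8, Nat.sub_self, zero_mul, add_zero] at h7
      rw [Finset.sum_range_succ']
      have h9 : ∀ b, finrank ℚ U - 1 - (b + 1) =
          finrank ℚ (LinearMap.ker (θ 0)) - 1 - b := by
        intro b
        rw [← h4]
        omega
      simp only [h9, Nat.sub_zero]
      omega

end Pool.MP_f18604_gt.KF
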