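import Mathlib
import Pool.Agent.Helper47.KF.Defs

/-!
# KF-A07: the symmetric maps of a graph and rigidity

`V` finite with `m` elements, `G` a graph on `V`, `U = V → ℚ`, `e_i = Pi.single i 1`.

(1) `dim QG G = m + #edges`: an element `τ` of `QG G` is determined by the numbers
`τ (proj i) j` (its matrix, symmetric: `τ (proj i) j = proj j (τ (proj i)) = proj i (τ (proj j))
= τ (proj j) i`), which vanish for distinct non-adjacent `i, j`; conversely every symmetric matrix
with this zero pattern occurs (`τ φ = ∑ i, ∑ j, φ (e_i) a_{ij} e_j`). The space of such matrices is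
isomorphic to the functions on `V ⊕ edges` (for instance functions on
`{s : Sym2 V | s.IsDiag ∨ s ∈ G.edgeSet}`).

(2) Let `θ b = ∑ i, p i b • proj i` for `b : Fin 5`. If `p` spans (`hspan`) these are linearly
independent.

(3) If every motion is trivial (`hrig`) then `dim KQ (QG G) θ + 5 m ≤ dim QG G + 10`. Proof.
Let `T : QG G → (Fin 5 → U)`, `T τ = (τ (θ b))_b`; its kernel is `KQ (QG G) θ`. The rank of `T` is
`5 m - dim A`, where `A` is the space of all `ψ : Fin 5 → U^*` with `∑_b ψ_b (τ (θ b)) = 0` for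
all `τ ∈ QG G` (the annihilator of the range of `T`, with `Dual (Fin 5 → U) = Fin 5 → Dual U`;
instead of forms `ψ_b` one can use vectors via `ψ_b (x) = ∑ i, q_i b * x_i`). We show
`dim A ≤ 10`: for `ψ ∈ A` put `q_i = (ψ_b (e_i))_b ∈ ℚ^5`. For `τ = e_i ⊗ e_i`, that is
`τ φ = φ (e_i) • e_i ∈ QG G`: `τ (θ b) = p_{i,b} e_i`, so `p_i ⬝ q_i = 0`. For an edge `ij` and
`τ φ = φ (e_i) • e_j + φ (e_j) • e_i ∈ QG G`: `τ (θ b) = p_{i,b} e_j + p_{j,b} e_i`, so
`p_i ⬝ q_j + p_j ⬝ q_i = 0`. By `hrig`, `q_i = A p_i` with `A` antisymmetric. So `ψ ↦ q` is an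
injective map from the annihilator into the image of the antisymmetric `5 × 5` matrices, a space
of dimension `≤ 10` (an antisymmetric matrix is determined by its entries above the diagonal).
-/

set_option autoImplicit false

namespace Pool.MP_f18604_gt.KF

open Finset Module

variable {V : Type} [Fintype V] [DecidableEq V] (G : SimpleGraph V) [DecidableRel G.Adj]

/-- The form with coordinates `p i b`. -/
noncomputable def form (p : V → Fin 5 → ℚ) (b : Fin 5) : Dual ℚ (V → ℚ) :=
  ∑ i, p i b • LinearMap.proj i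

omit [DecidableRel G.Adj] [Fintype V] [DecidableEq V] in
theorem QG_le : QG G ≤ SymMap (V → ℚ) := fun _ h => h.1

omit G [DecidableRel G.Adj] in
private theorem a07_dual (φ : Dual ℚ (V → ℚ)) :
    φ = ∑ i, φ (Pi.single i 1) • LinearMap.proj i := by
  refine LinearMap.pi_ext' fun i => LinearMap.ext_ring ?_
  simp only [LinearMap.comp_apply, LinearMap.single_apply, LinearMap.sum_apply,
    LinearMap.smul_apply, LinearMap.proj_apply, smul_eq_mul]
  rw [Finset.sum_eq_single i]
  · simp
  · intro j _ hj
    simp [hj]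
  · intro h
    exact absurd (Finset.mem_univ _) h

omit G [DecidableRel G.Adj] in
private theorem a07_eval (φ : Dual ℚ (V → ℚ)) (v : V → ℚ) :
    φ v = ∑ i, φ (Pi.single i 1) * v i := by
  conv_lhs => rw [a07_dual φ]
  simp [LinearMap.sum_apply]

/-- the symmetric map with the entries `f s(i, j)` -/
private def a07_map (f : Sym2 V → ℚ) : Dual ℚ (V → ℚ) →ₗ[ℚ] (V → ℚ) where
  toFun φ := fun j => ∑ i, φ (Pi.single i 1) * f s(i, j)
  map_add' φ ψ := by
    funext j
    simp only [LinearMap.add_apply, Pi.add_apply, add_mul, Finset.sum_add_distrib]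
  map_smul' c φ := by
    funext j
    simp only [LinearMap.smul_apply, Pi.smul_apply, smul_eq_mul, RingHom.id_apply, Finset.mul_sum,
      mul_assoc]

omit G [DecidableRel G.Adj] in
private theorem a07_map_proj (f : Sym2 V → ℚ) (i j : V) :
    a07_map f (LinearMap.proj i) j = f s(i, j) := by
  show ∑ k, (LinearMap.proj i : Dual ℚ (V → ℚ)) (Pi.single k 1) * f s(k, j) = _
  rw [Finset.sum_eq_single i]
  · simp
  · intro k _ hk
    simp [hk.symm]
  · intro h
    exact absurd (Finset.mem_univ _) h

omit G [DecidableRel G.Adj] in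
private theorem a07_map_sym (f : Sym2 V → ℚ) : a07_map f ∈ SymMap (V → ℚ) := by
  intro φ ψ
  rw [a07_eval ψ, a07_eval φ]
  show ∑ j, ψ (Pi.single j 1) * ∑ i, φ (Pi.single i 1) * f s(i, j) =
    ∑ j, φ (Pi.single j 1) * ∑ i, ψ (Pi.single i 1) * f s(i, j)
  simp only [Finset.mul_sum]
  rw [Finset.sum_comm]
  refine Finset.sum_congr rfl fun i _ => Finset.sum_congr rfl fun j _ => ?_
  rw [Sym2.eq_swap (a := i)]
  ring

/-- the index set -/
private abbrev a07S (G : SimpleGraph V) : Type := {s : Sym2 V // s.IsDiag ∨ s ∈ G.edgeSet}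

private noncomputable def a07_ext (G : SimpleGraph V) (f : a07S G → ℚ) : Sym2 V → ℚ :=
  open Classical in fun s => if h : s.IsDiag ∨ s ∈ G.edgeSet then f ⟨s, h⟩ else 0

private noncomputable def a07_lin (G : SimpleGraph V) : (a07S G → ℚ) →ₗ[ℚ] QG G where
  toFun f := ⟨a07_map (a07_ext G f), a07_map_sym _, by
    intro i j hij hadj
    rw [a07_map_proj]
    unfold a07_ext
    rw [dif_neg]
    rintro (h | h)
    · exact hij (Sym2.mk_isDiag_iff.1 h)
    · exact hadj h⟩
  map_add' f g := by
    apply Subtype.ext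
    apply LinearMap.ext
    intro φ
    funext j
    show ∑ i, φ (Pi.single i 1) * a07_ext G (f + g) s(i, j) =
      ∑ i, φ (Pi.single i 1) * a07_ext G f s(i, j) + ∑ i, φ (Pi.single i 1) * a07_ext G g s(i, j)
    rw [← Finset.sum_add_distrib]
    refine Finset.sum_congr rfl fun i _ => ?_
    unfold a07_ext
    split_ifs
    · rw [Pi.add_apply]; ring
    · ring
  map_smul' c f := by
    apply Subtype.ext
    apply LinearMap.ext
    intro φ
    funext j
    show ∑ i, φ (Pi.single i 1) * a07_ext G (c • f) s(i, j) =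
      c * ∑ i, φ (Pi.single i 1) * a07_ext G f s(i, j)
    rw [Finset.mul_sum]
    refine Finset.sum_congr rfl fun i _ => ?_
    unfold a07_ext
    split_ifs
    · rw [Pi.smul_apply, smul_eq_mul]; ring
    · ring

private theorem a07_lin_proj (G : SimpleGraph V) (f : a07S G → ℚ) (i j : V) :
    (a07_lin G f : Dual ℚ (V → ℚ) →ₗ[ℚ] (V → ℚ)) (LinearMap.proj i) j = a07_ext G f s(i, j) :=
  a07_map_proj _ i j

private theorem a07_sym {τ : Dual ℚ (V → ℚ) →ₗ[ℚ] (V → ℚ)} (h : τ ∈ SymMap (V → ℚ)) (i j : V) :
    τ (LinearMap.proj i) j = τ (LinearMap.proj j) i := h (LinearMap.proj i) (LinearMap.proj j)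

private theorem a07_bij (G : SimpleGraph V) : Function.Bijective (a07_lin G) := by
  constructor
  · intro f g hfg
    funext ⟨s, hs⟩
    induction s using Sym2.ind with
    | _ i j =>
      have h := a07_lin_proj G f i j
      rw [hfg, a07_lin_proj] at h
      unfold a07_ext at h
      rw [dif_pos hs, dif_pos hs] at h
      exact h.symm
  · rintro ⟨τ, hτ⟩
    refine ⟨fun s => τ (LinearMap.proj (Quot.out s.1).1) (Quot.out s.1).2, ?_⟩
    apply Subtype.ext
    apply LinearMap.ext
    intro φ
    have key : ∀ i j, a07_ext G (fun s => τ (LinearMap.proj (Quot.out s.1).1) (Quot.out s.1).2)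
        s(i, j) = τ (LinearMap.proj i) j := by
      intro i j
      unfold a07_ext
      split_ifs with h
      · have h1 : (s((Quot.out s(i, j)).1, (Quot.out s(i, j)).2) : Sym2 V) = s(i, j) :=
          Quot.out_eq _
        show τ (LinearMap.proj (Quot.out s(i, j)).1) (Quot.out s(i, j)).2 = τ (LinearMap.proj i) j
        rcases Sym2.eq_iff.1 h1 with ⟨h2, h3⟩ | ⟨h2, h3⟩
        · rw [h2, h3]
        · rw [h2, h3]
          exact a07_sym hτ.1 j i
      · push Not at h
        exact (hτ.2 i j (fun h' => h.1 (Sym2.mk_isDiag_iff.2 h')) h.2).symm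
    funext j
    show ∑ i, φ (Pi.single i 1) * a07_ext G _ s(i, j) = τ φ j
    conv_rhs => rw [a07_dual φ]
    rw [map_sum, Finset.sum_apply]
    refine Finset.sum_congr rfl fun i _ => ?_
    rw [key, map_smul, Pi.smul_apply, smul_eq_mul]

theorem finrank_QG : finrank ℚ (QG G) = Fintype.card V + G.edgeFinset.card := by
  classical
  rw [← (LinearEquiv.ofBijective (a07_lin G) (a07_bij G)).finrank_eq,
    Module.finrank_fintype_fun_eq_card]
  have hdis : Disjoint (fun s : Sym2 V => s.IsDiag) (fun s => s ∈ G.edgeSet) := by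
    rw [Pi.disjoint_iff]
    intro s
    rw [Prop.disjoint_iff]
    rintro ⟨h1, h2⟩
    exact G.not_isDiag_of_mem_edgeSet h2 h1
  rw [Fintype.card_subtype_or_disjoint _ _ hdis, Sym2.card_subtype_diag,
    SimpleGraph.edgeFinset_card]

omit G [DecidableRel G.Adj] in
private theorem a07_form_single (p : V → Fin 5 → ℚ) (b : Fin 5) (i : V) :
    form p b (Pi.single i 1) = p i b := by
  unfold form
  simp only [LinearMap.sum_apply, LinearMap.smul_apply, LinearMap.proj_apply, smul_eq_mul]
  rw [Finset.sum_eq_single i]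
  · simp
  · intro j _ hj
    simp [hj]
  · intro h
    exact absurd (Finset.mem_univ _) h

omit [DecidableEq V] in
theorem form_independent {p : V → Fin 5 → ℚ}
    (hspan : ∀ c : Fin 5 → ℚ, (∀ i, c ⬝ᵥ p i = 0) → c = 0) :
    LinearIndependent ℚ (form p) := by
  classical
  rw [Fintype.linearIndependent_iff]
  intro c hc b
  have h : c = 0 := by
    apply hspan
    intro i
    have h1 := LinearMap.congr_fun hc (Pi.single i 1)
    simp only [LinearMap.sum_apply, LinearMap.smul_apply, a07_form_single, smul_eq_mul,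
      LinearMap.zero_apply] at h1
    exact h1
  rw [h]
  rfl

/-- the map `φ ↦ φ (e_i) e_j + φ (e_j) e_i` -/
private def a07_t (i j : V) : Dual ℚ (V → ℚ) →ₗ[ℚ] (V → ℚ) where
  toFun φ := φ (Pi.single i 1) • Pi.single j 1 + φ (Pi.single j 1) • Pi.single i 1
  map_add' φ ψ := by
    simp only [LinearMap.add_apply, add_smul]
    abel
  map_smul' c φ := by
    simp only [LinearMap.smul_apply, smul_eq_mul, mul_smul, RingHom.id_apply, smul_add]

omit G [DecidableRel G.Adj] in
private theorem a07_t_apply (i j : V) (φ : Dual ℚ (V → ℚ)) :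
    a07_t i j φ = φ (Pi.single i 1) • Pi.single j 1 + φ (Pi.single j 1) • Pi.single i 1 := rfl

omit [DecidableRel G.Adj] in
private theorem a07_t_mem {i j : V} (h : i = j ∨ G.Adj i j) : a07_t i j ∈ QG G := by
  constructor
  · intro φ ψ
    simp only [a07_t_apply, map_add, map_smul, smul_eq_mul]
    ring
  · intro k l hkl hadj
    rw [a07_t_apply]
    simp only [LinearMap.proj_apply, Pi.add_apply, Pi.smul_apply, smul_eq_mul, Pi.single_apply]
    by_cases h1 : k = i
    · subst h1
      by_cases h2 : l = j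
      · subst h2
        rcases h with h | h
        · exact absurd h hkl
        · exact absurd h hadj
      · rw [if_neg h2, if_neg (Ne.symm hkl)]
        ring
    · by_cases h2 : k = j
      · subst h2
        by_cases h3 : l = i
        · subst h3
          rcases h with h | h
          · exact absurd h.symm hkl
          · exact absurd h.symm hadj
        · rw [if_neg h1, if_neg h3]
          ring
      · rw [if_neg h1, if_neg h2]
        ring

/-- the values at the forms -/
private noncomputable def a07_T (p : V → Fin 5 → ℚ) : QG G →ₗ[ℚ] (Fin 5 → V → ℚ) where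
  toFun τ := fun b => (τ : Dual ℚ (V → ℚ) →ₗ[ℚ] (V → ℚ)) (form p b)
  map_add' _ _ := rfl
  map_smul' _ _ := rfl

/-- the coordinates of a functional -/
private def a07_Q : Dual ℚ (Fin 5 → V → ℚ) →ₗ[ℚ] (V → Fin 5 → ℚ) where
  toFun ψ := fun i b => ψ (Pi.single b (Pi.single i 1))
  map_add' _ _ := rfl
  map_smul' _ _ := rfl

omit G [DecidableRel G.Adj] [Fintype V] in
private theorem a07_Q_apply (ψ : Dual ℚ (Fin 5 → V → ℚ)) (i : V) (b : Fin 5) :
    a07_Q ψ i b = ψ (Pi.single b (Pi.single i 1)) := rfl

omit G [DecidableRel G.Adj] in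
private theorem a07_Q_inj : Function.Injective (a07_Q (V := V)) := by
  intro ψ ψ' h
  refine LinearMap.pi_ext' fun b => LinearMap.pi_ext' fun i => LinearMap.ext_ring ?_
  exact congrFun (congrFun h i) b

omit G [DecidableRel G.Adj] in
private theorem a07_Q_comb (ψ : Dual ℚ (Fin 5 → V → ℚ)) (c : Fin 5 → ℚ) (i : V) :
    ψ (fun b => c b • Pi.single i 1) = c ⬝ᵥ a07_Q ψ i := by
  have h : (fun b => c b • (Pi.single i 1 : V → ℚ)) =
      ∑ b, c b • (Pi.single b (Pi.single i 1) : Fin 5 → V → ℚ) := by
    funext b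
    rw [Finset.sum_apply, Finset.sum_eq_single b]
    · simp
    · intro b' _ hb'
      simp [hb'.symm]
    · intro h
      exact absurd (Finset.mem_univ _) h
  rw [h, map_sum]
  simp only [map_smul, smul_eq_mul]
  rfl

/-- antisymmetric matrices -/
private def a07_A : Submodule ℚ (Matrix (Fin 5) (Fin 5) ℚ) where
  carrier := {A | A.transpose = -A}
  add_mem' := by
    intro A B hA hB
    have hA' : A.transpose = -A := hA
    have hB' : B.transpose = -B := hB
    show (A + B).transpose = -(A + B)
    rw [Matrix.transpose_add, hA', hB', neg_add]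
  zero_mem' := by
    show (0 : Matrix (Fin 5) (Fin 5) ℚ).transpose = -0
    simp
  smul_mem' := by
    intro c A hA
    have hA' : A.transpose = -A := hA
    show (c • A).transpose = -(c • A)
    rw [Matrix.transpose_smul, hA', smul_neg]

private theorem a07_A_finrank : finrank ℚ a07_A ≤ 10 := by
  let L : a07_A →ₗ[ℚ] ({x : Fin 5 × Fin 5 // x.1 < x.2} → ℚ) :=
    { toFun := fun A x => (A : Matrix (Fin 5) (Fin 5) ℚ) x.1.1 x.1.2
      map_add' := fun _ _ => rfl
      map_smul' := fun _ _ => rfl }
  have hL : Function.Injective L := by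
    intro A B h
    apply Subtype.ext
    have hA : (A : Matrix (Fin 5) (Fin 5) ℚ).transpose = -A := A.2
    have hB : (B : Matrix (Fin 5) (Fin 5) ℚ).transpose = -B := B.2
    have hA' : ∀ i j, (A : Matrix (Fin 5) (Fin 5) ℚ) j i = - (A : Matrix (Fin 5) (Fin 5) ℚ) i j :=
      fun i j => congrFun (congrFun hA i) j
    have hB' : ∀ i j, (B : Matrix (Fin 5) (Fin 5) ℚ) j i = - (B : Matrix (Fin 5) (Fin 5) ℚ) i j :=
      fun i j => congrFun (congrFun hB i) j
    ext i j
    rcases lt_trichotomy i j with hij | hij | hij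
    · exact congrFun h ⟨(i, j), hij⟩
    · subst hij
      have h1 := hA' i i
      have h2 := hB' i i
      linarith
    · rw [hA' j i, hB' j i]
      exact congrArg Neg.neg (congrFun h ⟨(j, i), hij⟩)
  have h1 := LinearMap.finrank_le_finrank_of_injective hL
  rw [Module.finrank_fintype_fun_eq_card] at h1
  have h2 : Fintype.card {x : Fin 5 × Fin 5 // x.1 < x.2} = 10 := by decide
  rwa [h2] at h1

/-- trivial motions -/
private def a07_R (p : V → Fin 5 → ℚ) : a07_A →ₗ[ℚ] (V → Fin 5 → ℚ) where
  toFun A := fun i => (A : Matrix (Fin 5) (Fin 5) ℚ).mulVec (p i)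
  map_add' A B := by
    funext i
    exact Matrix.add_mulVec _ _ _
  map_smul' c A := by
    funext i
    exact Matrix.smul_mulVec _ _ _

theorem finrank_KQ_QG {p : V → Fin 5 → ℚ}
    (hrig : ∀ q : V → Fin 5 → ℚ, (∀ i, p i ⬝ᵥ q i = 0) →
      (∀ i j, G.Adj i j → p i ⬝ᵥ q j + p j ⬝ᵥ q i = 0) →
      ∃ A : Matrix (Fin 5) (Fin 5) ℚ, A.transpose = -A ∧ ∀ i, q i = A.mulVec (p i)) :
    finrank ℚ (KQ (QG G) (form p)) + 5 * Fintype.card V ≤ finrank ℚ (QG G) + 10 := by
  have hker : finrank ℚ (LinearMap.ker (a07_T G p)) = finrank ℚ (KQ (QG G) (form p)) := by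
    refine LinearEquiv.finrank_eq
      { toFun := fun τ => ⟨τ.1.1, τ.1.2, fun b => congrFun (LinearMap.mem_ker.1 τ.2) b⟩
        invFun := fun τ => ⟨⟨τ.1, τ.2.1⟩, LinearMap.mem_ker.2 (funext fun b => τ.2.2 b)⟩
        map_add' := fun _ _ => rfl
        map_smul' := fun _ _ => rfl
        left_inv := fun _ => rfl
        right_inv := fun _ => rfl }
  have hrn := LinearMap.finrank_range_add_finrank_ker (K := ℚ) (V := QG G)
    (V₂ := Fin 5 → V → ℚ) (a07_T G p)
  have hann := Subspace.finrank_add_finrank_dualAnnihilator_eq (LinearMap.range (a07_T G p))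
  have htot : finrank ℚ (Fin 5 → V → ℚ) = 5 * Fintype.card V := by
    rw [Module.finrank_pi_fintype]
    simp
  have hle : finrank ℚ (LinearMap.range (a07_T G p)).dualAnnihilator ≤ 10 := by
    have h1 : ((LinearMap.range (a07_T G p)).dualAnnihilator).map (a07_Q (V := V)) ≤
        LinearMap.range (a07_R p) := by
      rintro _ ⟨ψ, hψ, rfl⟩
      have hψ' : ∀ τ : QG G, ψ (a07_T G p τ) = 0 := fun τ =>
        (Submodule.mem_dualAnnihilator ψ).1 hψ _ (LinearMap.mem_range_self _ τ)
      have key : ∀ i j, (i = j ∨ G.Adj i j) →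
          p i ⬝ᵥ a07_Q ψ j + p j ⬝ᵥ a07_Q ψ i = 0 := by
        intro i j hij
        have h2 := hψ' ⟨a07_t i j, a07_t_mem G hij⟩
        have h3 : a07_T G p ⟨a07_t i j, a07_t_mem G hij⟩ =
            (fun b => p i b • (Pi.single j 1 : V → ℚ)) + fun b => p j b • Pi.single i 1 := by
          funext b
          show a07_t i j (form p b) = _
          rw [a07_t_apply, a07_form_single, a07_form_single]
          rfl
        rw [h3, map_add, a07_Q_comb, a07_Q_comb] at h2
        exact h2
      obtain ⟨A, hA, hA'⟩ := hrig (a07_Q ψ)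
        (fun i => by have := key i i (Or.inl rfl); linarith)
        (fun i j hij => key i j (Or.inr hij))
      exact ⟨⟨A, hA⟩, funext fun i => (hA' i).symm⟩
    have h2 : finrank ℚ (((LinearMap.range (a07_T G p)).dualAnnihilator).map (a07_Q (V := V))) =
        finrank ℚ (LinearMap.range (a07_T G p)).dualAnnihilator :=
      (LinearEquiv.finrank_eq (Submodule.equivMapOfInjective _ a07_Q_inj _)).symm
    rw [← h2]
    exact (Submodule.finrank_mono h1).trans
      ((LinearMap.finrank_range_le (a07_R p)).trans a07_A_finrank)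
  omega

end Pool.MP_f18604_gt.KF
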