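import Mathlib
import Pool.Agent.Helper47.KF.Defs
import Pool.Agent.Helper47.KF.A01

/-!
# KF-A08: components of induced subgraphs give elements of `Z`

Claim: `∑_{|W| = j+2} comp(G, W) ≤ dim Z_j(QG G)`.

Proof. Let `e_i = Pi.single i 1 ∈ U = V → ℚ`. For a `(j+2)`-set `W` with an enumeration
`w : Fin (j+2) ≃ W` and a connected component `D` of the graph induced on `W` let
`z_{W,D} (l_0, .., l_j) (μ) = det [(μ 1_D)|W; l_0|W; ..; l_j|W]`, the determinant of the
`(j+2) × (j+2)` matrix with first row `a ↦ μ (w a) if w a ∈ D else 0` and further rows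
`a ↦ l_b (w a)`. It is alternating in `l` and linear in `μ`.

`z_{W,D} ∈ Z_j(QG G)`: for `τ ∈ QG G` write `τ_{ik} = τ (proj i) k`, a symmetric matrix which
vanishes for distinct non-adjacent `i, k`. For `B = evl z l : U → U^*`:
`trace (τ ∘ B) = ∑_k (τ (B e_k)) k = ∑_k ∑_i (B e_k) (e_i) τ_{ik}` since
`B e_k = ∑_i (B e_k)(e_i) • proj i`. So it suffices that `z (e_i, l) (e_i) = 0` for all `i` and
`z (e_i, l) (e_k) + z (e_k, l) (e_i) = 0` for adjacent `i, k`. Let
`d(x, y) = det [y|W; x|W; l|W]`, alternating in `x, y`; `z (x, l) (y) = d (x, y 1_D)`. Now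
`(e_i 1_D)|W` is `e_i|W` if `i ∈ D` and 0 otherwise, so `z (e_i, l)(e_i) = d(e_i, e_i) = 0` or
`d(e_i, 0) = 0`. For adjacent `i, k`: if both are in `W` then both or none are in `D`, and
`d(e_i, e_k) + d(e_k, e_i) = 0` or `0 + 0`. If one of them, say `i`, is not in `W`, then
`e_i|W = 0` and `(e_i 1_D)|W = 0`, both terms vanish.

Linear independence of all `z_{W,D}`: fix `W`, `D` and an element
`x ∈ D`, and an enumeration `v : Fin (j+2) ≃ W` with first element `x`. Evaluate at
`l = (e_{v 1}, .., e_{v (j+1)})`, `μ = e_x`: for `W' ≠ W` some `v a` is not in `W'` (the sets have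
the same size), and the corresponding row vanishes, so `z_{W',D'}` is 0; for `W' = W` and a
component `D' ≠ D`, `x ∉ D'` and the first row vanishes; for `(W, D)` the matrix is a permutation
matrix with determinant `± 1`. Hence `c_{W,D} = 0`.
-/

set_option autoImplicit false

namespace Pool.MP_f18604_gt.KF

open Finset Module

namespace A08

variable {V : Type}

/-- Exchange of the arguments. -/
def flipAlt {j : ℕ} (Φ : (V → ℚ) →ₗ[ℚ] ((V → ℚ) [⋀^Fin j]→ₗ[ℚ] ℚ)) :
    (V → ℚ) [⋀^Fin j]→ₗ[ℚ] Dual ℚ (V → ℚ) where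
  toFun l := { toFun := fun μ => Φ μ l, map_add' := by intro a b; simp,
               map_smul' := by intro c a; simp }
  map_update_add' := by
    intro _ l i x y
    ext1 μ
    simp only [LinearMap.coe_mk, AddHom.coe_mk, LinearMap.add_apply]
    convert (Φ μ).map_update_add l i x y using 2
  map_update_smul' := by
    intro _ l i c x
    ext1 μ
    simp only [LinearMap.coe_mk, AddHom.coe_mk, LinearMap.smul_apply]
    convert (Φ μ).map_update_smul l i c x using 2
  map_eq_zero_of_eq' := by
    intro l a b h hab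
    ext1 μ
    exact (Φ μ).map_eq_zero_of_eq l h hab

theorem flipAlt_apply {j : ℕ} (Φ : (V → ℚ) →ₗ[ℚ] ((V → ℚ) [⋀^Fin j]→ₗ[ℚ] ℚ))
    (l : Fin j → V → ℚ) (μ : V → ℚ) : flipAlt Φ l μ = Φ μ l := rfl

/-- Restriction to the entries `w a` with `a` in `S`. -/
def rest {n : ℕ} (w : Fin n → V) (S : Fin n → Prop) [DecidablePred S] :
    (V → ℚ) →ₗ[ℚ] (Fin n → ℚ) where
  toFun μ a := if S a then μ (w a) else 0
  map_add' x y := by ext a; by_cases h : S a <;> simp [h]
  map_smul' c x := by ext a; by_cases h : S a <;> simp [h]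

/-- The element `z`. -/
noncomputable def zz {j : ℕ} (w : Fin (j + 2) → V) (S : Fin (j + 2) → Prop) [DecidablePred S] :
    (V → ℚ) [⋀^Fin (j + 1)]→ₗ[ℚ] Dual ℚ (V → ℚ) :=
  flipAlt
    { toFun := fun μ =>
        (((Matrix.detRowAlternating (n := Fin (j + 2)) (R := ℚ)).curryLeft (rest w S μ)).compLinearMap
          (rest w (fun _ => True)))
      map_add' := by intro x y; ext l; simp
      map_smul' := by intro c x; ext l; simp }

theorem zz_apply {j : ℕ} (w : Fin (j + 2) → V) (S : Fin (j + 2) → Prop) [DecidablePred S]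
    (l : Fin (j + 1) → V → ℚ) (μ : V → ℚ) :
    zz w S l μ = Matrix.det (Matrix.of (Matrix.vecCons (rest w S μ)
      (fun b => rest w (fun _ => True) (l b)))) := rfl

variable [Fintype V] [DecidableEq V]

theorem trace_formula (τ : Dual ℚ (V → ℚ) →ₗ[ℚ] (V → ℚ)) (B : (V → ℚ) →ₗ[ℚ] Dual ℚ (V → ℚ)) :
    LinearMap.trace ℚ (V → ℚ) (τ ∘ₗ B) =
      ∑ k, ∑ i, (B (Pi.single k 1)) (Pi.single i 1) * τ (LinearMap.proj i) k := by
  rw [LinearMap.trace_eq_matrix_trace ℚ (Pi.basisFun ℚ V)]
  simp only [Matrix.trace, Matrix.diag_apply, LinearMap.toMatrix_apply, Pi.basisFun_apply,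
    Pi.basisFun_repr, LinearMap.comp_apply]
  refine Finset.sum_congr rfl fun k _ => ?_
  have h : B (Pi.single k 1) =
      ∑ i, (B (Pi.single k 1)) (Pi.single i 1) • (LinearMap.proj i : (V → ℚ) →ₗ[ℚ] ℚ) := by
    refine LinearMap.pi_ext' fun i => ?_
    ext
    simp [Pi.single_apply]
  conv_lhs => rw [h]
  simp

theorem rest_out {n : ℕ} (w : Fin n → V) (S : Fin n → Prop) [DecidablePred S] {i : V}
    (h : ∀ a, w a ≠ i) : rest w S (Pi.single i 1) = 0 := by
  ext a
  simp [rest, h a]

theorem rest_in {n : ℕ} (w : Fin n → V) (hw : Function.Injective w) (S : Fin n → Prop)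
    [DecidablePred S] {a : Fin n} (h : S a) :
    rest w S (Pi.single (w a) 1) = rest w (fun _ => True) (Pi.single (w a) 1) := by
  ext b
  by_cases hb : b = a
  · subst hb; simp [rest, h]
  · have : w b ≠ w a := fun h' => hb (hw h')
    simp [rest, this]

theorem rest_not {n : ℕ} (w : Fin n → V) (hw : Function.Injective w) (S : Fin n → Prop)
    [DecidablePred S] {a : Fin n} (h : ¬ S a) :
    rest w S (Pi.single (w a) 1) = 0 := by
  ext b
  by_cases hb : b = a
  · subst hb; simp [rest, h]
  · have : w b ≠ w a := fun h' => hb (hw h')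
    simp [rest, this]

/-- The determinant with two distinguished rows. -/
noncomputable def dd {j : ℕ} (L : Fin j → Fin (j + 2) → ℚ) (x y : Fin (j + 2) → ℚ) : ℚ :=
  Matrix.det (Matrix.of (Matrix.vecCons y (Matrix.vecCons x L)))

theorem dd_self {j : ℕ} (L : Fin j → Fin (j + 2) → ℚ) (x : Fin (j + 2) → ℚ) : dd L x x = 0 := by
  refine Matrix.det_zero_of_row_eq (i := 0) (j := 1) (by simp) ?_
  ext a
  simp

theorem dd_zero_left {j : ℕ} (L : Fin j → Fin (j + 2) → ℚ) (x : Fin (j + 2) → ℚ) :
    dd L 0 x = 0 :=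
  Matrix.det_eq_zero_of_row_eq_zero 1 (by intro a; simp)

theorem dd_zero_right {j : ℕ} (L : Fin j → Fin (j + 2) → ℚ) (x : Fin (j + 2) → ℚ) :
    dd L x 0 = 0 :=
  Matrix.det_eq_zero_of_row_eq_zero 0 (by intro a; simp)

theorem dd_swap {j : ℕ} (L : Fin j → Fin (j + 2) → ℚ) (x y : Fin (j + 2) → ℚ) :
    dd L x y + dd L y x = 0 := by
  have h := (Matrix.detRowAlternating (n := Fin (j + 2)) (R := ℚ)).map_swap
    (Matrix.vecCons y (Matrix.vecCons x L)) (i := 0) (j := 1) (by simp)
  have h2 : (Matrix.vecCons y (Matrix.vecCons x L)) ∘ (Equiv.swap (0 : Fin (j + 2)) 1) =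
      Matrix.vecCons x (Matrix.vecCons y L) := by
    funext b
    refine Fin.cases ?_ (fun b => ?_) b
    · simp
    · refine Fin.cases ?_ (fun b => ?_) b
      · simp
      · have h3 : (Equiv.swap (0 : Fin (j + 2)) 1) b.succ.succ = b.succ.succ := by
          refine Equiv.swap_apply_of_ne_of_ne (Fin.succ_ne_zero _) ?_
          intro h
          have := congrArg Fin.val h
          simp at this
        simp only [Function.comp_apply, h3, Matrix.cons_val_succ]
  rw [h2] at h
  have e1 : dd L x y = (Matrix.detRowAlternating (n := Fin (j + 2)) (R := ℚ))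
    (Matrix.vecCons y (Matrix.vecCons x L)) := rfl
  have e2 : dd L y x = (Matrix.detRowAlternating (n := Fin (j + 2)) (R := ℚ))
    (Matrix.vecCons x (Matrix.vecCons y L)) := rfl
  rw [e1, e2, h, add_neg_cancel]

theorem zz_cons {j : ℕ} (w : Fin (j + 2) → V) (S : Fin (j + 2) → Prop) [DecidablePred S]
    (x : V → ℚ) (l : Fin j → V → ℚ) (μ : V → ℚ) :
    zz w S (Matrix.vecCons x l) μ = dd (fun b => rest w (fun _ => True) (l b))
      (rest w (fun _ => True) x) (rest w S μ) := by
  rw [zz_apply, dd]
  congr 3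
  funext b
  refine Fin.cases ?_ (fun b => ?_) b <;> simp

theorem mem_Z {j : ℕ} (G : SimpleGraph V) (w : Fin (j + 2) → V) (S : Fin (j + 2) → Prop)
    [DecidablePred S] (hw : Function.Injective w)
    (hS : ∀ a b, G.Adj (w a) (w b) → (S a ↔ S b)) : zz w S ∈ Z j (QG G) := by
  intro l τ hτ
  rw [trace_formula]
  simp only [evl_apply, zz_cons]
  set L : Fin j → Fin (j + 2) → ℚ := fun b => rest w (fun _ => True) (l b)
  have hz : ∀ i : V, dd L (rest w (fun _ => True) (Pi.single i 1))
      (rest w S (Pi.single i 1)) = 0 := by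
    intro i
    by_cases hi : ∃ a, w a = i
    · obtain ⟨a, rfl⟩ := hi
      by_cases ha : S a
      · rw [rest_in w hw S ha, dd_self]
      · rw [rest_not w hw S ha, dd_zero_right]
    · push Not at hi
      rw [rest_out w S hi, dd_zero_right]
  have hadj : ∀ i k : V, G.Adj i k → dd L (rest w (fun _ => True) (Pi.single i 1))
      (rest w S (Pi.single k 1)) + dd L (rest w (fun _ => True) (Pi.single k 1))
      (rest w S (Pi.single i 1)) = 0 := by
    intro i k hik
    by_cases hi : ∃ a, w a = i
    · by_cases hk : ∃ a, w a = k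
      · obtain ⟨a, rfl⟩ := hi
        obtain ⟨b, rfl⟩ := hk
        have hab := hS a b hik
        by_cases ha : S a
        · rw [rest_in w hw S ha, rest_in w hw S (hab.1 ha), dd_swap]
        · have hb : ¬ S b := fun h => ha (hab.2 h)
          rw [rest_not w hw S ha, rest_not w hw S hb, dd_zero_right, dd_zero_right, add_zero]
      · push Not at hk
        rw [rest_out w S hk, rest_out w _ hk, dd_zero_right, dd_zero_left, add_zero]
    · push Not at hi
      rw [rest_out w S hi, rest_out w _ hi, dd_zero_right, dd_zero_left, add_zero]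
  have hsym : ∀ i k : V, τ (LinearMap.proj i) k = τ (LinearMap.proj k) i := by
    intro i k
    have := hτ.1 (LinearMap.proj i) (LinearMap.proj k)
    simpa using this
  have h2 : (∑ k, ∑ i, dd L (rest w (fun _ => True) (Pi.single k 1))
      (rest w S (Pi.single i 1)) * τ (LinearMap.proj i) k) +
      (∑ k, ∑ i, dd L (rest w (fun _ => True) (Pi.single k 1))
      (rest w S (Pi.single i 1)) * τ (LinearMap.proj i) k) = 0 := by
    conv_lhs =>
      congr
      · skip
      · rw [Finset.sum_comm]
    rw [← Finset.sum_add_distrib]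
    refine Finset.sum_eq_zero fun k _ => ?_
    rw [← Finset.sum_add_distrib]
    refine Finset.sum_eq_zero fun i _ => ?_
    rw [hsym k i, ← add_mul]
    by_cases hik : k = i
    · subst hik
      rw [hz, add_zero, zero_mul]
    · by_cases had : G.Adj k i
      · rw [hadj k i had, zero_mul]
      · rw [hτ.2 i k (Ne.symm hik) (fun h => had h.symm), mul_zero]
  linarith

/-- The enumeration of `W`. -/
noncomputable def enum {n : ℕ} (W : Finset V) (h : W.card = n) : Fin n ≃ W :=
  (Finset.equivFinOfCardEq h).symm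

/-- The index type. -/
def Idx (G : SimpleGraph V) (n : ℕ) : Type :=
  Σ W : {W : Finset V // W ∈ (univ : Finset V).powersetCard n},
    (G.induce (W.1 : Set V)).ConnectedComponent

theorem card_of {n : ℕ} (W : {W : Finset V // W ∈ (univ : Finset V).powersetCard n}) :
    W.1.card = n := (Finset.mem_powersetCard.1 W.2).2

/-- The set `S` of a component. -/
def inC (G : SimpleGraph V) {n : ℕ} (d : Idx G n) (a : Fin n) : Prop :=
  (G.induce (d.1.1 : Set V)).connectedComponentMk (enum d.1.1 (card_of d.1) a) = d.2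

open Classical in
/-- The element of `Z` of a pair `(W, D)`. -/
noncomputable def el (G : SimpleGraph V) {j : ℕ} (d : Idx G (j + 2)) : Z j (QG G) :=
  ⟨zz (fun a => (enum d.1.1 (card_of d.1) a : V)) (inC G d), by
    refine mem_Z G _ _ ?_ ?_
    · intro a b h
      exact (enum d.1.1 (card_of d.1)).injective (Subtype.ext h)
    · intro a b h
      have : (G.induce (d.1.1 : Set V)).connectedComponentMk (enum d.1.1 (card_of d.1) a) =
          (G.induce (d.1.1 : Set V)).connectedComponentMk (enum d.1.1 (card_of d.1) b) := by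
        rw [SimpleGraph.ConnectedComponent.eq]
        exact SimpleGraph.Adj.reachable h
      unfold inC
      rw [this]⟩

/-- A test: for each index there are `l`, `μ` such that only the element of the index does not
vanish at `l`, `μ`. -/
theorem exists_test (G : SimpleGraph V) {j : ℕ} (d : Idx G (j + 2)) :
    ∃ (l : Fin (j + 1) → V → ℚ) (μ : V → ℚ), (el G d).1 l μ ≠ 0 ∧
      ∀ d' : Idx G (j + 2), d' ≠ d → (el G d').1 l μ = 0 := by
  classical
  obtain ⟨⟨W, hW⟩, c⟩ := d
  obtain ⟨x, rfl⟩ := c.exists_rep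
  set w : Fin (j + 2) ≃ W := enum W (card_of ⟨W, hW⟩) with hw
  -- the second enumeration
  let v : Fin (j + 2) ≃ W := (Equiv.swap 0 (w.symm x)).trans w
  have hv0 : v 0 = x := by simp [v]
  refine ⟨fun b => Pi.single (v b.succ : V) 1, Pi.single (x : V) 1, ?_, ?_⟩
  · have key : (el G ⟨⟨W, hW⟩, Quot.mk _ x⟩).1 (fun b => Pi.single (v b.succ : V) 1)
        (Pi.single (x : V) 1) =
        Matrix.det ((v.trans w.symm).toPEquiv.toMatrix : Matrix (Fin (j + 2)) (Fin (j + 2)) ℚ) := by
      change Matrix.det _ = Matrix.det _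
      congr 1
      ext b a
      have hE : ((v.trans w.symm).toPEquiv.toMatrix : Matrix (Fin (j + 2)) (Fin (j + 2)) ℚ) b a =
          if w a = v b then 1 else 0 := by
        rw [PEquiv.toMatrix_apply, Equiv.toPEquiv_apply]
        have : (a ∈ (some ((v.trans w.symm) b) : Option (Fin (j + 2)))) ↔ w a = v b := by
          rw [Option.mem_some_iff, Equiv.trans_apply, Equiv.symm_apply_eq]
          exact eq_comm
        simp only [this]
      rw [hE]
      refine Fin.cases ?_ (fun b => ?_) b
      · change (if inC G _ a then (Pi.single (x : V) 1 : V → ℚ) (w a : V) else 0) = _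
        rw [hv0]
        by_cases ha : w a = x
        · rw [if_pos ha, ha, Pi.single_eq_same, if_pos]
          change (G.induce (W : Set V)).connectedComponentMk (w a) = _
          rw [ha]
          rfl
        · rw [if_neg ha, Pi.single_eq_of_ne (fun h' => ha (Subtype.ext h')), ite_self]
      · change (if True then (Pi.single (v b.succ : V) 1 : V → ℚ) (w a : V) else 0) = _
        rw [if_pos trivial, Pi.single_apply]
        simp only [Subtype.ext_iff]
    rw [key, Matrix.det_permutation]
    exact_mod_cast (Units.ne_zero _)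
  · rintro ⟨⟨W', hW'⟩, c'⟩ hne
    set w' : Fin (j + 2) ≃ W' := enum W' (card_of ⟨W', hW'⟩) with hw'
    by_cases hWW : W' = W
    · subst hWW
      have hc : c' ≠ (G.induce (W' : Set V)).connectedComponentMk x := by
        intro h
        exact hne (by rw [h]; rfl)
      change Matrix.det _ = 0
      refine Matrix.det_eq_zero_of_row_eq_zero 0 (fun a => ?_)
      change (if inC G _ a then (Pi.single (x : V) 1 : V → ℚ) (w' a : V) else 0) = 0
      split_ifs with h
      · by_cases ha : w' a = x
        · exfalso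
          apply hc
          rw [← ha]
          exact h.symm
        · exact Pi.single_eq_of_ne (fun h' => ha (Subtype.ext h')) _
      · rfl
    · have : ∃ b, (v b : V) ∉ W' := by
        by_contra hcon
        push Not at hcon
        apply hWW
        have h1 : W ⊆ W' := by
          intro y hy
          have := hcon (v.symm ⟨y, hy⟩)
          simpa using this
        symm
        refine Finset.eq_of_subset_of_card_le h1 ?_
        rw [card_of ⟨W, hW⟩, card_of ⟨W', hW'⟩]
      obtain ⟨b, hb⟩ := this
      change Matrix.det _ = 0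
      refine Matrix.det_eq_zero_of_row_eq_zero b (fun a => ?_)
      revert hb
      refine Fin.cases ?_ (fun b => ?_) b
      · intro hb
        change (if inC G _ a then (Pi.single (x : V) 1 : V → ℚ) (w' a : V) else 0) = 0
        split_ifs with h
        · refine Pi.single_eq_of_ne ?_ _
          intro h'
          apply hb
          rw [hv0, ← h']
          exact (w' a).2
        · rfl
      · intro hb
        change (if True then (Pi.single (v b.succ : V) 1 : V → ℚ) (w' a : V) else 0) = 0
        rw [if_pos trivial]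
        refine Pi.single_eq_of_ne ?_ _
        intro h'
        apply hb
        rw [← h']
        exact (w' a).2

theorem card_le_of_tests {M ι : Type} [AddCommGroup M] [Module ℚ M] [Module.Finite ℚ M]
    [Fintype ι] (P : Submodule ℚ M) (v : ι → M) (hv : ∀ i, v i ∈ P) (f : ι → M →ₗ[ℚ] ℚ)
    (h1 : ∀ i, f i (v i) ≠ 0) (h2 : ∀ i i', i' ≠ i → f i (v i') = 0) :
    Fintype.card ι ≤ finrank ℚ P := by
  classical
  have hli : LinearIndependent ℚ v := by
    rw [Fintype.linearIndependent_iff]
    intro g hg d
    have h3 : f d (∑ i, g i • v i) = 0 := by rw [hg, map_zero]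
    rw [map_sum, Finset.sum_eq_single d (fun i _ hi => by rw [map_smul, h2 d i hi, smul_zero])
      (fun h => absurd (Finset.mem_univ _) h), map_smul, smul_eq_mul] at h3
    exact (mul_eq_zero.1 h3).resolve_right (h1 d)
  rw [← finrank_span_eq_card hli]
  apply Submodule.finrank_mono
  rw [Submodule.span_le]
  rintro _ ⟨i, rfl⟩
  exact hv i

omit [Fintype V] [DecidableEq V] in
/-- Evaluation. -/
def evalLin {j : ℕ} (l : Fin j → V → ℚ) (μ : V → ℚ) :
    ((V → ℚ) [⋀^Fin j]→ₗ[ℚ] Dual ℚ (V → ℚ)) →ₗ[ℚ] ℚ where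
  toFun z := z l μ
  map_add' x y := rfl
  map_smul' c x := rfl

end A08

variable {V : Type} [Fintype V] [DecidableEq V] (G : SimpleGraph V)

theorem sum_comp_le (j : ℕ) :
    ∑ W ∈ (univ : Finset V).powersetCard (j + 2), comp G W ≤ finrank ℚ (Z j (QG G)) := by
  classical
  have : FiniteDimensional ℚ ((V → ℚ) [⋀^Fin (j + 1)]→ₗ[ℚ] Dual ℚ (V → ℚ)) :=
    finiteDimensional_alt (j + 1)
  have : Finite (A08.Idx G (j + 2)) := by
    unfold A08.Idx
    infer_instance
  have : Fintype (A08.Idx G (j + 2)) := Fintype.ofFinite _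
  choose l μ h1 h2 using fun d => A08.exists_test G (j := j) d
  have hcard := A08.card_le_of_tests (Z j (QG G)) (fun d : A08.Idx G (j + 2) => (A08.el G d).1)
    (fun d => (A08.el G d).2) (fun d => A08.evalLin (l d) (μ d)) h1 h2
  refine le_trans (le_of_eq ?_) hcard
  rw [← Nat.card_eq_fintype_card]
  unfold A08.Idx
  rw [Nat.card_sigma]
  rw [← Finset.sum_coe_sort]
  rfl

end Pool.MP_f18604_gt.KF
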