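import Mathlib
import Pool.Agent.Helper47.KF.Defs
import Pool.Agent.Helper47.KF.A05
import Pool.Agent.Helper47.KF.A06
import Pool.Agent.Helper47.KF.A07
import Pool.Agent.Helper47.KF.A08

/-!
# KF-A09: components of induced subgraphs of a rigid graph

`G` is a graph on `m` vertices with an infinitesimally rigid spanning realisation `p` in dimension
4 (projective form), `ē = #non-edges`. Then for `k ≥ 2`
`k ∑_{|W| = k} comp(G, W) ≤ k C(m, k) + 2 ē C(m-6, k-2)`, and `ē ≤ C(m-4, 2)`, `m ≥ 5`.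

Proof. Write `k = j + 2`. `θ = form p` is linearly independent (A07), so `m ≥ 5`; by A07 the
hypothesis of `exists_quotient` (A06, `a = 5`, `C(5,2) = 10`) holds for `Q = QG G`,
`dim U = m`. We get `(U', Q')` with `dim U' = m - 5`, `dim Q' = dim KQ = dim QG + 10 - 5 m`
(equality by `finrank_add_choose_le` of A06 and A07) `= e - 4 m + 10` with
`e = #edges`, so `e ≥ 4 m - 10`; and `e + ē = C(m, 2)`, whence
`ē ≤ C(m,2) - 4 m + 10 = C(m-4, 2)` and `C(m-4, 2) - dim Q' = C(m,2) - e = ē`.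
By A08, A06 and A05 (`M = m - 5`):
`k ∑ comp ≤ k dim Z_j(QG) ≤ k ∑_{b<5} C(m-1-b, k-1) + k C(m-5, k) + 2 ē C(m-6, k-2)` and
`C(m-5, k) + ∑_{b<5} C(m-1-b, k-1) = C(m, k)` by Pascal's rule five times (`m ≥ 5`).
Non-edges: `Gᶜ.edgeFinset.card + G.edgeFinset.card = C(m,2)`
(`SimpleGraph.card_edgeFinset_compl...` or via `SimpleGraph.card_edgeFinset_top_eq_card_choose_two`
and disjointness).
-/

set_option autoImplicit false

namespace Pool.MP_f18604_gt.KF

open Finset Module

variable {V : Type} [Fintype V] [DecidableEq V] (G : SimpleGraph V) [DecidableRel G.Adj]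

theorem a09_edges :
    Gᶜ.edgeFinset.card + G.edgeFinset.card = (Fintype.card V).choose 2 := by
  classical
  have h1 : Disjoint Gᶜ.edgeFinset G.edgeFinset := by
    rw [SimpleGraph.disjoint_edgeFinset]
    exact disjoint_compl_left
  rw [← Finset.card_union_of_disjoint h1, ← SimpleGraph.card_edgeFinset_top_eq_card_choose_two]
  congr 1
  ext e
  induction e using Sym2.ind with
  | _ x y =>
    simp only [Finset.mem_union, SimpleGraph.mem_edgeFinset, SimpleGraph.mem_edgeSet,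
      SimpleGraph.compl_adj, SimpleGraph.top_adj]
    constructor
    · rintro (h | h)
      · exact h.1
      · exact h.ne
    · intro h
      by_cases h2 : G.Adj x y
      · exact Or.inr h2
      · exact Or.inl ⟨h, h2⟩

theorem a09_choose (M : ℕ) : (M + 5).choose 2 + 10 = 4 * (M + 5) + (M + 1).choose 2 := by
  have h1 : ∀ n : ℕ, (n + 1).choose 2 = n.choose 2 + n := by
    intro n
    rw [Nat.choose_succ_succ' n 1, Nat.choose_one_right, add_comm]
  rw [h1, h1, h1, h1]
  omega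

theorem a09_pascal (M j : ℕ) : M.choose (j + 2) +
    ∑ b ∈ range 5, (M + 5 - 1 - b).choose (j + 1) = (M + 5).choose (j + 2) := by
  have h1 : ∀ n : ℕ, (n + 1).choose (j + 2) = n.choose (j + 1) + n.choose (j + 2) := by
    intro n
    exact Nat.choose_succ_succ' n (j + 1)
  rw [h1, h1, h1, h1, h1]
  simp only [Finset.sum_range_succ, Finset.sum_range_zero]
  have e0 : M + 5 - 1 - 0 = M + 4 := by omega
  have e1 : M + 5 - 1 - 1 = M + 3 := by omega
  have e2 : M + 5 - 1 - 2 = M + 2 := by omega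
  have e3 : M + 5 - 1 - 3 = M + 1 := by omega
  have e4 : M + 5 - 1 - 4 = M := by omega
  rw [e0, e1, e2, e3, e4]
  ring

theorem rigid_bound {p : V → Fin 5 → ℚ}
    (hspan : ∀ c : Fin 5 → ℚ, (∀ i, c ⬝ᵥ p i = 0) → c = 0)
    (hrig : ∀ q : V → Fin 5 → ℚ, (∀ i, p i ⬝ᵥ q i = 0) →
      (∀ i j, G.Adj i j → p i ⬝ᵥ q j + p j ⬝ᵥ q i = 0) →
      ∃ A : Matrix (Fin 5) (Fin 5) ℚ, A.transpose = -A ∧ ∀ i, q i = A.mulVec (p i)) :
    5 ≤ Fintype.card V ∧ Gᶜ.edgeFinset.card ≤ (Fintype.card V - 4).choose 2 ∧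
    ∀ k, 2 ≤ k → k * ∑ W ∈ (univ : Finset V).powersetCard k, comp G W ≤
      k * (Fintype.card V).choose k +
        2 * Gᶜ.edgeFinset.card * (Fintype.card V - 6).choose (k - 2) := by
  have hθ := form_independent hspan
  have hdim : finrank ℚ (V → ℚ) = Fintype.card V := Module.finrank_fintype_fun_eq_card ℚ
  have h5 : 5 ≤ Fintype.card V := by
    have h := hθ.fintype_card_le_finrank
    rw [Fintype.card_fin, Subspace.dual_finrank_eq, hdim] at h
    exact h
  have h1 := finrank_add_choose_le 5 (QG_le G) (form p) hθ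
  have h2 := finrank_KQ_QG G hrig
  have h3 := finrank_QG G
  have h4 := a09_edges G
  have hc : Nat.choose 5 2 = 10 := rfl
  rw [hc, hdim] at h1
  obtain ⟨M, hM⟩ : ∃ M, Fintype.card V = M + 5 := ⟨Fintype.card V - 5, by omega⟩
  have h6 := a09_choose M
  rw [hM] at h1 h2 h3 h4 hdim ⊢
  have e4 : M + 5 - 4 = M + 1 := by omega
  have e6 : M + 5 - 6 = M - 1 := by omega
  rw [e4, e6]
  refine ⟨by omega, by omega, fun k hk => ?_⟩
  obtain ⟨j, rfl⟩ : ∃ j, k = j + 2 := ⟨k - 2, by omega⟩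
  obtain ⟨U', i1, i2, i3, Q', hQ', hU', hfQ, hZ⟩ :=
    exists_quotient 5 j (QG_le G) (form p) hθ (by rw [hc, hdim]; exact h2)
  have h7 := sum_comp_le G j
  have h8 := chord (U := U') j hQ'
  rw [hdim] at hU' hZ
  have hU : finrank ℚ U' = M := by omega
  rw [hU] at h8
  have h9 := a09_pascal M j
  have h10 : (((M + 1).choose 2 : ℤ) - (finrank ℚ Q' : ℤ)) = (Gᶜ.edgeFinset.card : ℤ) := by
    rw [hfQ]
    have h11 : (finrank ℚ (KQ (QG G) (form p)) : ℤ) = (G.edgeFinset.card : ℤ) + 10 - 4 * (M + 5) := by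
      omega
    rw [h11]
    have h12 : ((M + 5).choose 2 : ℤ) + 10 = 4 * (M + 5) + ((M + 1).choose 2 : ℤ) := by
      exact_mod_cast h6
    have h13 : (Gᶜ.edgeFinset.card : ℤ) + (G.edgeFinset.card : ℤ) = ((M + 5).choose 2 : ℤ) := by
      exact_mod_cast h4
    linarith
  rw [h10] at h8
  have h14 : (j + 2) * finrank ℚ (Z j Q') ≤ (j + 2) * M.choose (j + 2) +
      2 * Gᶜ.edgeFinset.card * (M - 1).choose j := by
    exact_mod_cast h8
  have e2 : j + 2 - 2 = j := by omega
  rw [e2]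
  calc (j + 2) * ∑ W ∈ (univ : Finset V).powersetCard (j + 2), comp G W
      ≤ (j + 2) * (finrank ℚ (Z j Q') + ∑ b ∈ range 5, (M + 5 - 1 - b).choose (j + 1)) :=
        Nat.mul_le_mul_left _ (h7.trans hZ)
    _ = (j + 2) * finrank ℚ (Z j Q') +
        (j + 2) * ∑ b ∈ range 5, (M + 5 - 1 - b).choose (j + 1) := by ring
    _ ≤ ((j + 2) * M.choose (j + 2) + 2 * Gᶜ.edgeFinset.card * (M - 1).choose j) +
        (j + 2) * ∑ b ∈ range 5, (M + 5 - 1 - b).choose (j + 1) :=
        Nat.add_le_add_right h14 _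
    _ = (j + 2) * (M + 5).choose (j + 2) + 2 * Gᶜ.edgeFinset.card * (M - 1).choose j := by
        rw [← h9]; ring

end Pool.MP_f18604_gt.KF
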