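import Mathlib

/-!
# KF-B01: the kernel dimension in a pencil of linear maps

Proof. Let `n = dim W`, `r = n - dim ker L0` the rank of `L0`. Choose `w_1, .., w_r` in `W` with
`L0 w_a` linearly independent (a basis of a complement of `ker L0`), and a linear map
`π : W' → ℚ^r` with `π (L0 w_a) = e_a` (extend the independent family `L0 w_a` to a basis, or use
a left inverse of an injective map `ℚ^r → W'`). The matrix with columns
`π ((L0 + s L1) w_a)` has as determinant a polynomial in `s` (`Matrix.det` of a matrix with entries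
`C a + X * C b`, or `Polynomial` version) with value 1 at `s = 0`; it has finitely many roots. If
`s` is not a root, the vectors `(L0 + s L1) w_a` are linearly independent, so
`dim ker (L0 + s L1) ≤ n - r = dim ker L0`.
-/

set_option autoImplicit false

namespace Pool.MP_f18604_gt.KF

open Module

theorem pencil {W W' : Type} [AddCommGroup W] [Module ℚ W] [FiniteDimensional ℚ W]
    [AddCommGroup W'] [Module ℚ W'] (L0 L1 : W →ₗ[ℚ] W') :
    {s : ℚ | finrank ℚ (LinearMap.ker L0) < finrank ℚ (LinearMap.ker (L0 + s • L1))}.Finite := by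
  classical
  obtain ⟨r, hr⟩ : ∃ r, finrank ℚ (LinearMap.range L0) = r := ⟨_, rfl⟩
  have b : Basis (Fin r) ℚ (LinearMap.range L0) := finBasisOfFinrankEq ℚ _ hr
  have hw : ∀ a : Fin r, ∃ w : W, L0 w = (b a : W') := fun a => (b a).2
  choose w hw using hw
  obtain ⟨g, hg⟩ := LinearMap.exists_extend (b.equivFun : LinearMap.range L0 →ₗ[ℚ] (Fin r → ℚ))
  have hg0 : ∀ i j : Fin r, g (L0 (w j)) i = (1 : Matrix (Fin r) (Fin r) ℚ) i j := by
    intro i j
    have h1 := congrArg (fun f => f (b j)) hg
    simp only [LinearMap.comp_apply, Submodule.subtype_apply, LinearEquiv.coe_coe] at h1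
    rw [hw j, h1, Basis.equivFun_self, Matrix.one_apply]
    by_cases h : i = j
    · rw [if_pos h, if_pos h.symm]
    · rw [if_neg h, if_neg (Ne.symm h)]
  set B : Matrix (Fin r) (Fin r) ℚ := Matrix.of fun i j => g (L1 (w j)) i with hB
  set P : Matrix (Fin r) (Fin r) (Polynomial ℚ) :=
    Matrix.of fun i j => Polynomial.C ((1 : Matrix (Fin r) (Fin r) ℚ) i j) +
      Polynomial.X * Polynomial.C (B i j) with hP
  have heval : ∀ s : ℚ, P.det.eval s = (Matrix.of fun i j => g ((L0 + s • L1) (w j)) i :
      Matrix (Fin r) (Fin r) ℚ).det := by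
    intro s
    have h1 := RingHom.map_det (Polynomial.evalRingHom s) P
    rw [Polynomial.coe_evalRingHom] at h1
    rw [h1]
    congr 1
    ext i j
    simp only [hP, hB, RingHom.mapMatrix_apply, Matrix.map_apply, Matrix.of_apply, map_add,
      Polynomial.coe_evalRingHom, LinearMap.add_apply,
      LinearMap.smul_apply, map_smul, Pi.add_apply, Pi.smul_apply, smul_eq_mul, hg0]
    rw [Polynomial.eval_add, Polynomial.eval_mul, Polynomial.eval_C, Polynomial.eval_X,
      Polynomial.eval_C]
  have hP0 : P.det ≠ 0 := by
    intro h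
    have h1 := heval 0
    rw [h, Polynomial.eval_zero, zero_smul, add_zero] at h1
    have h2 : (Matrix.of fun i j => g (L0 (w j)) i : Matrix (Fin r) (Fin r) ℚ) = 1 := by
      ext i j
      exact hg0 i j
    rw [h2, Matrix.det_one] at h1
    exact one_ne_zero h1.symm
  refine (P.det.roots.toFinset.finite_toSet).subset fun s hs => ?_
  have hs' : finrank ℚ (LinearMap.ker L0) < finrank ℚ (LinearMap.ker (L0 + s • L1)) := hs
  rw [Finset.mem_coe, Multiset.mem_toFinset, Polynomial.mem_roots hP0, Polynomial.IsRoot.def]
  by_contra hne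
  rw [heval s] at hne
  have hli : LinearIndependent ℚ (fun j => (L0 + s • L1) (w j)) := by
    refine LinearIndependent.of_comp g ?_
    exact Matrix.linearIndependent_cols_of_det_ne_zero hne
  have h1 := finrank_span_eq_card hli
  have h2 : Submodule.span ℚ (Set.range fun j => (L0 + s • L1) (w j)) ≤
      LinearMap.range (L0 + s • L1) := by
    rw [Submodule.span_le]
    rintro _ ⟨j, rfl⟩
    exact ⟨w j, rfl⟩
  have h3 := Submodule.finrank_mono h2
  rw [h1, Fintype.card_fin] at h3
  have h4 := LinearMap.finrank_range_add_finrank_ker L0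
  have h5 := LinearMap.finrank_range_add_finrank_ker (L0 + s • L1)
  omega

end Pool.MP_f18604_gt.KF
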