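import Mathlib
import Pool.Agent.Helper47.KF.Defs

/-!
# KF-B02: rigidity in terms of the dimension of the space of motions

Proof. Let `S` be the support, `A5` the space of antisymmetric `5 × 5` matrices, of dimension 10.
The map `Φ : A5 → Sol C p`, `Φ A i = A p_i` for `i ∈ S` and `0` otherwise, is well defined:
`p_i ⬝ (A p_j) + p_j ⬝ (A p_i) = 0` for antisymmetric `A`. It is injective: `S` has a subset of 5
elements (`hS`), whose `p_i` are linearly independent (`GP`), hence a basis of `ℚ^5`; if `A p_i = 0`
for all of them then `A = 0`. If `Rg C p` then `Φ` is surjective (given `q ∈ Sol C p`, apply `Rg`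
to `q`; outside the support both sides vanish), so `dim Sol C p = 10`. Conversely, if
`dim Sol C p ≤ 10 = dim A5` then the injective map `Φ` is surjective; given `q` satisfying the
equations, let `q' = q` on `S` and `0` outside; `q' ∈ Sol C p` since `E C i j` implies `i, j ∈ S`;
so `q' = Φ A`.
Dimension of `A5`: the linear equivalence with functions on pairs `a < b` in `Fin 5`
(e.g. on `{x : Fin 5 × Fin 5 // x.1 < x.2}`, of cardinality 10 by `decide`).
-/

set_option autoImplicit false

namespace Pool.MP_f18604_gt.KF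

open Finset Module

variable {V : Type} [Fintype V] [DecidableEq V]

/-- The antisymmetric matrices. -/
private def A5 : Submodule ℚ (Matrix (Fin 5) (Fin 5) ℚ) where
  carrier := {A | A.transpose = -A}
  add_mem' := by
    intro a b ha hb
    change Matrix.transpose a = -a at ha
    change Matrix.transpose b = -b at hb
    change Matrix.transpose (a + b) = -(a + b)
    rw [Matrix.transpose_add, ha, hb]
    abel
  zero_mem' := by simp
  smul_mem' := by
    intro c a ha
    change Matrix.transpose a = -a at ha
    change Matrix.transpose (c • a) = -(c • a)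
    rw [Matrix.transpose_smul, ha, smul_neg]

private lemma A5_apply {A : Matrix (Fin 5) (Fin 5) ℚ} (hA : A ∈ A5) (a b : Fin 5) :
    A b a = - A a b := by
  have h : A.transpose = -A := hA
  have := congrFun (congrFun h a) b
  simpa using this

private noncomputable def eqv : A5 ≃ₗ[ℚ] ({x : Fin 5 × Fin 5 // x.1 < x.2} → ℚ) where
  toFun A x := (A : Matrix (Fin 5) (Fin 5) ℚ) x.1.1 x.1.2
  map_add' A B := by
    funext x
    simp
  map_smul' c A := by
    funext x
    simp
  invFun f := ⟨Matrix.of fun a b => if h : a < b then f ⟨(a, b), h⟩ else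
      if h : b < a then - f ⟨(b, a), h⟩ else 0, by
    change Matrix.transpose _ = - _
    ext a b
    simp only [Matrix.transpose_apply, Matrix.of_apply, Matrix.neg_apply]
    rcases lt_trichotomy a b with h | h | h
    · simp [h, h.not_gt]
    · subst h
      simp
    · simp [h, h.not_gt]⟩
  left_inv A := by
    apply Subtype.ext
    ext a b
    simp only [Matrix.of_apply]
    rcases lt_trichotomy a b with h | h | h
    · simp [h]
    · subst h
      have := A5_apply A.2 a a
      simp only [lt_self_iff_false, dite_false]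
      linarith
    · simp only [h, h.not_gt, dite_true, dite_false]
      have := A5_apply A.2 a b
      linarith
  right_inv f := by
    funext x
    obtain ⟨⟨a, b⟩, h⟩ := x
    simp only [Matrix.of_apply]
    have h' : a < b := h
    simp [h']

private lemma finrank_A5 : finrank ℚ A5 = 10 := by
  rw [LinearEquiv.finrank_eq eqv, Module.finrank_fintype_fun_eq_card]
  decide

private lemma skew_dot {A : Matrix (Fin 5) (Fin 5) ℚ} (hA : A ∈ A5) (x y : Fin 5 → ℚ) :
    x ⬝ᵥ A.mulVec y + y ⬝ᵥ A.mulVec x = 0 := by
  have h : A.transpose = -A := hA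
  have h1 : y ⬝ᵥ A.mulVec x = - (x ⬝ᵥ A.mulVec y) := by
    rw [Matrix.dotProduct_mulVec, ← Matrix.mulVec_transpose, h, Matrix.neg_mulVec,
      neg_dotProduct, dotProduct_comm]
  rw [h1]
  ring

omit [Fintype V] in
private lemma mem_supp_of_E {C : Finset (Finset V)} {i j : V} (h : E C i j) :
    i ∈ supp C ∧ j ∈ supp C := by
  obtain ⟨F, hF, hi, hj⟩ := h
  exact ⟨mem_biUnion.2 ⟨F, hF, hi⟩, mem_biUnion.2 ⟨F, hF, hj⟩⟩

private noncomputable def Phi (C : Finset (Finset V)) (p : V → Fin 5 → ℚ) :
    A5 →ₗ[ℚ] Sol C p where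
  toFun A := ⟨fun i => if i ∈ supp C then (A : Matrix (Fin 5) (Fin 5) ℚ).mulVec (p i) else 0, by
    refine ⟨fun i hi => by simp [hi], fun i j h => ?_⟩
    obtain ⟨hi, hj⟩ := mem_supp_of_E h
    simp only [hi, hj, if_true]
    exact skew_dot A.2 _ _⟩
  map_add' A B := by
    apply Subtype.ext
    funext i
    by_cases hi : i ∈ supp C
    · simp [hi, Matrix.add_mulVec]
    · simp [hi]
  map_smul' c A := by
    apply Subtype.ext
    funext i
    by_cases hi : i ∈ supp C
    · simp [hi, Matrix.smul_mulVec]
    · simp [hi]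

private lemma Phi_apply (C : Finset (Finset V)) (p : V → Fin 5 → ℚ) (A : A5) {i : V}
    (hi : i ∈ supp C) : (Phi C p A : V → Fin 5 → ℚ) i =
      (A : Matrix (Fin 5) (Fin 5) ℚ).mulVec (p i) := by
  change (if i ∈ supp C then (A : Matrix (Fin 5) (Fin 5) ℚ).mulVec (p i) else 0) = _
  rw [if_pos hi]

private lemma Phi_inj (C : Finset (Finset V)) (p : V → Fin 5 → ℚ) (hp : GP p)
    (hS : 5 ≤ (supp C).card) : Function.Injective (Phi C p) := by
  rw [← LinearMap.ker_eq_bot, LinearMap.ker_eq_bot']
  intro A hA
  obtain ⟨S, hSS, hS5⟩ := exists_subset_card_eq hS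
  have hli := hp S hS5.le
  have hspan : Submodule.span ℚ (Set.range (fun i : S => p i)) = ⊤ := by
    apply LinearIndependent.span_eq_top_of_card_eq_finrank' hli
    rw [Module.finrank_fintype_fun_eq_card, Fintype.card_coe, hS5, Fintype.card_fin]
  have hzero : (A : Matrix (Fin 5) (Fin 5) ℚ).mulVecLin = 0 := by
    refine LinearMap.ext_on_range (v := fun i : S => p i) hspan fun i => ?_
    have h1 := Phi_apply C p A (hSS i.2)
    rw [hA] at h1
    rw [Matrix.mulVecLin_apply, ← h1]
    rfl
  apply Subtype.ext
  ext a b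
  have := congrFun (LinearMap.congr_fun hzero (Pi.single b 1)) a
  simpa [Matrix.mulVecLin_apply] using this

theorem rg_iff (C : Finset (Finset V)) (p : V → Fin 5 → ℚ) (hp : GP p)
    (hS : 5 ≤ (supp C).card) : Rg C p ↔ finrank ℚ (Sol C p) ≤ 10 := by
  constructor
  · intro h
    have hsurj : Function.Surjective (Phi C p) := by
      rintro ⟨q, hq⟩
      obtain ⟨A, hA, hAq⟩ := h q hq.2
      have hA' : A ∈ A5 := hA
      refine ⟨⟨A, hA'⟩, ?_⟩
      apply Subtype.ext
      funext i
      change (Phi C p ⟨A, hA'⟩ : V → Fin 5 → ℚ) i = q i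
      by_cases hi : i ∈ supp C
      · rw [Phi_apply C p _ hi, hAq i hi]
      · rw [hq.1 i hi]
        exact (Phi C p ⟨A, hA'⟩).2.1 i hi
    rw [← finrank_A5]
    exact LinearMap.finrank_le_finrank_of_surjective hsurj
  · intro h q hq
    have hinj := Phi_inj C p hp hS
    have hsurj : Function.Surjective (Phi C p) := by
      rw [← LinearMap.range_eq_top]
      apply Submodule.eq_top_of_finrank_eq
      apply le_antisymm (Submodule.finrank_le _)
      rw [LinearMap.finrank_range_of_inj hinj, finrank_A5]
      exact h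
    have hq' : (fun i => if i ∈ supp C then q i else 0) ∈ Sol C p := by
      refine ⟨fun i hi => by simp [hi], fun i j hij => ?_⟩
      obtain ⟨hi, hj⟩ := mem_supp_of_E hij
      simp only [hi, hj, if_true]
      exact hq i j hij
    obtain ⟨A, hA⟩ := hsurj ⟨_, hq'⟩
    refine ⟨A, A.2, fun i hi => ?_⟩
    rw [← Phi_apply C p A hi, hA]
    simp [hi]

end Pool.MP_f18604_gt.KF
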