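import Mathlib
import Pool.Agent.Helper47.KF.Defs
import Pool.Agent.Helper47.KF.B01
import Pool.Agent.Helper47.KF.B02

/-!
# KF-B03: general position and rigidity are generic

The points of the line through `p` and `p'` are `p + s • (p' - p)`, `s : ℚ`.

(1) `gp_exists`: choose an injection `t : V → ℚ` (e.g. through `Fintype.equivFin`) and let
`p i a = (t i)^a`, `a : Fin 5`. For `S` with `|S| = k ≤ 5` elements enumerated by `Fin k`: a linear
relation between the rows `p i`, `i ∈ S`, is a linear relation between the rows of the Vandermonde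
matrix `(t i)^a`, `a < k` (restrict to the first `k` coordinates), whose determinant is nonzero
(`Matrix.det_vandermonde_ne_zero_iff`).

(2) `gp_open`: `GP` is the conjunction over the finitely many `S : Finset V` with `|S| ≤ 5` of:
the linear map `c ↦ ∑ i ∈ S, c i • p i` from `S → ℚ` to `Fin 5 → ℚ` has kernel of dimension 0.
For `p + s • (p' - p)` this map is `L0 + s • L1`, with `L0` the map for `p`, `L1` that for
`p' - p`; apply B01 and take the finite union of the exceptional sets.

(3) `rg_open`: on the line, outside the finite exceptional set of (2), `GP` holds. The space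
`Sol C (p + s • (p' - p))` is the kernel of `L0 + s • L1 : (V → Fin 5 → ℚ) → (V → Fin 5 → ℚ) ×
(V → V → ℚ)`, where `L0 q = ((q i if i ∉ supp C else 0)_i, (p i ⬝ q j + p j ⬝ q i if E C i j
else 0)_{i,j})` and `L1 q = (0, (p'' i ⬝ q j + p'' j ⬝ q i if E C i j else 0)_{i,j})` with
`p'' = p' - p`. At `s = 0` the kernel has dimension `≤ 10` by B02. By B01 the kernel dimension is
`≤ 10` for all but finitely many `s`. Apply B02 again.

(4) `simult`: finitely many of these conditions can be satisfied at the same time: induction over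
a finite set of indices: if `p` satisfies the conditions for `i ∈ s`, and `p'` that for `i₀`, use
the line through `p` and `p'`, and the same line through `p'` and `p` with parameter `1 - s`
(`p' + (1 - s) • (p - p') = p + s • (p' - p)`): all but finitely many `s` satisfy everything.
The index type may be empty (`gp_exists`).
-/

set_option autoImplicit false

namespace Pool.MP_f18604_gt.KF

open Finset Module

variable {V : Type} [Fintype V] [DecidableEq V]

variable (V) in
theorem gp_exists : ∃ p : V → Fin 5 → ℚ, GP p := by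
  classical
  obtain ⟨t, ht⟩ : ∃ t : V → ℚ, Function.Injective t :=
    ⟨fun i => ((Fintype.equivFin V i : ℕ) : ℚ), fun i j h => by
      have h0 : ((Fintype.equivFin V i : ℕ) : ℚ) = ((Fintype.equivFin V j : ℕ) : ℚ) := h
      have h1 : (Fintype.equivFin V i : ℕ) = (Fintype.equivFin V j : ℕ) := by exact_mod_cast h0
      exact (Fintype.equivFin V).injective (Fin.ext h1)⟩
  refine ⟨fun i a => t i ^ (a : ℕ), ?_⟩
  intro S hS
  have e : Fin S.card ≃ S := (S.equivFin).symm
  rw [← linearIndependent_equiv e]
  have hdet : (Matrix.vandermonde (fun k : Fin S.card => t (e k))).det ≠ 0 := by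
    rw [Matrix.det_vandermonde_ne_zero_iff]
    intro a b h
    exact e.injective (Subtype.ext (ht h))
  have hrows : LinearIndependent ℚ (Matrix.vandermonde (fun k : Fin S.card => t (e k))) := by
    exact Matrix.linearIndependent_rows_of_det_ne_zero hdet
  let f : (Fin 5 → ℚ) →ₗ[ℚ] (Fin S.card → ℚ) := LinearMap.funLeft ℚ ℚ (Fin.castLE hS)
  refine LinearIndependent.of_comp f ?_
  convert hrows using 1
  funext k a
  simp [f, Matrix.vandermonde_apply, LinearMap.funLeft_apply]

/-- The linear combinations of a family. -/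
noncomputable def lcomb (S : Finset V) (p : V → Fin 5 → ℚ) : (S → ℚ) →ₗ[ℚ] (Fin 5 → ℚ) :=
  Fintype.linearCombination ℚ (fun i : S => p i)

theorem lcomb_add (S : Finset V) (p p'' : V → Fin 5 → ℚ) (s : ℚ) :
    lcomb S (p + s • p'') = lcomb S p + s • lcomb S p'' := by
  apply LinearMap.ext
  intro c
  simp only [lcomb, Fintype.linearCombination_apply, LinearMap.add_apply, LinearMap.smul_apply,
    Pi.add_apply, Pi.smul_apply, smul_add, Finset.sum_add_distrib, Finset.smul_sum]
  congr 1
  refine Finset.sum_congr rfl fun i _ => ?_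
  rw [smul_comm]

theorem lin_iff (S : Finset V) (p : V → Fin 5 → ℚ) :
    LinearIndependent ℚ (fun i : S => p i) ↔ finrank ℚ (LinearMap.ker (lcomb S p)) = 0 := by
  rw [Submodule.finrank_eq_zero, LinearMap.ker_eq_bot]
  exact linearIndependent_iff_injective_fintypeLinearCombination

theorem gp_open (p p' : V → Fin 5 → ℚ) (hp : GP p) :
    {s : ℚ | ¬ GP (p + s • (p' - p))}.Finite := by
  classical
  have hfin : ∀ S : Finset V, S.card ≤ 5 →
      {s : ℚ | ¬ LinearIndependent ℚ (fun i : S => (p + s • (p' - p)) i)}.Finite := by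
    intro S hS
    refine (pencil (lcomb S p) (lcomb S (p' - p))).subset ?_
    intro s hs
    simp only [Set.mem_ofPred_eq] at hs ⊢
    rw [(lin_iff S p).1 (hp S hS)]
    rw [lin_iff, lcomb_add] at hs
    omega
  refine Set.Finite.subset (Set.Finite.biUnion
    (Set.toFinite {S : Finset V | S.card ≤ 5}) (fun S hS => hfin S hS)) ?_
  intro s hs
  simp only [Set.mem_ofPred_eq, GP, not_forall] at hs
  obtain ⟨S, hS, h⟩ := hs
  simp only [Set.mem_iUnion, Set.mem_ofPred_eq]
  exact ⟨S, hS, h⟩

open Classical in
/-- The edge conditions as a linear map. -/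
noncomputable def edgeMap (C : Finset (Finset V)) (p : V → Fin 5 → ℚ) :
    (V → Fin 5 → ℚ) →ₗ[ℚ] (V → V → ℚ) where
  toFun q i j := if E C i j then p i ⬝ᵥ q j + p j ⬝ᵥ q i else 0
  map_add' x y := by
    funext i j
    simp only [Pi.add_apply, dotProduct_add]
    split_ifs
    · ring
    · ring
  map_smul' c x := by
    funext i j
    simp only [Pi.smul_apply, dotProduct_smul, smul_eq_mul, RingHom.id_apply]
    split_ifs
    · ring
    · ring

/-- The support condition as a linear map. -/
noncomputable def suppMap (C : Finset (Finset V)) :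
    (V → Fin 5 → ℚ) →ₗ[ℚ] (V → Fin 5 → ℚ) where
  toFun q i := if i ∈ supp C then 0 else q i
  map_add' x y := by
    funext i
    simp only [Pi.add_apply]
    split_ifs
    · simp
    · rfl
  map_smul' c x := by
    funext i
    simp only [Pi.smul_apply, RingHom.id_apply]
    split_ifs
    · simp
    · rfl

theorem edgeMap_add (C : Finset (Finset V)) (p p'' : V → Fin 5 → ℚ) (s : ℚ) :
    edgeMap C (p + s • p'') = edgeMap C p + s • edgeMap C p'' := by
  apply LinearMap.ext
  intro q
  funext i j
  simp only [edgeMap, LinearMap.coe_mk, AddHom.coe_mk, LinearMap.add_apply, LinearMap.smul_apply,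
    Pi.add_apply, Pi.smul_apply, add_dotProduct, smul_dotProduct, smul_eq_mul]
  split_ifs
  · ring
  · ring

theorem ker_eq (C : Finset (Finset V)) (p : V → Fin 5 → ℚ) :
    LinearMap.ker ((suppMap C).prod (edgeMap C p)) = Sol C p := by
  apply Submodule.ext
  intro q
  simp only [LinearMap.mem_ker, LinearMap.prod_apply, Function.prod_apply, Prod.mk_eq_zero]
  constructor
  · rintro ⟨h1, h2⟩
    refine ⟨fun i hi => ?_, fun i j hij => ?_⟩
    · have := congrFun h1 i
      simpa [suppMap, hi] using this
    · have := congrFun (congrFun h2 i) j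
      simpa [edgeMap, hij] using this
  · rintro ⟨h1, h2⟩
    refine ⟨?_, ?_⟩
    · funext i
      by_cases hi : i ∈ supp C
      · simp [suppMap, hi]
      · simp [suppMap, hi, h1 i hi]
    · funext i j
      by_cases hij : E C i j
      · simp [edgeMap, hij, h2 i j hij]
      · simp [edgeMap, hij]

theorem rg_open (C : Finset (Finset V)) (hS : 5 ≤ (supp C).card) (p p' : V → Fin 5 → ℚ)
    (hp : GP p) (hr : Rg C p) :
    {s : ℚ | ¬ (GP (p + s • (p' - p)) ∧ Rg C (p + s • (p' - p)))}.Finite := by
  classical
  refine ((gp_open p p' hp).union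
    (pencil ((suppMap C).prod (edgeMap C p))
      ((0 : (V → Fin 5 → ℚ) →ₗ[ℚ] (V → Fin 5 → ℚ)).prod (edgeMap C (p' - p))))).subset ?_
  intro s hs
  by_contra hcon
  simp only [Set.mem_union, Set.mem_ofPred_eq, not_or, not_not, not_lt] at hcon
  obtain ⟨hg, hk⟩ := hcon
  apply hs
  refine ⟨hg, ?_⟩
  rw [rg_iff C _ hg hS]
  have hsol : (suppMap C).prod (edgeMap C p) +
      s • ((0 : (V → Fin 5 → ℚ) →ₗ[ℚ] (V → Fin 5 → ℚ)).prod (edgeMap C (p' - p))) =
      (suppMap C).prod (edgeMap C (p + s • (p' - p))) := by
    rw [edgeMap_add]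
    apply LinearMap.ext
    intro q
    simp only [LinearMap.add_apply, LinearMap.smul_apply, LinearMap.prod_apply,
      Function.prod_apply, LinearMap.zero_apply, Prod.mk_add_mk, Prod.smul_mk, smul_zero, add_zero]
  rw [hsol, ker_eq, ker_eq] at hk
  exact le_trans hk ((rg_iff C p hp hS).1 hr)

theorem simult {ι : Type} [Finite ι] (C : ι → Finset (Finset V))
    (hS : ∀ i, 5 ≤ (supp (C i)).card) (h : ∀ i, ∃ p, GP p ∧ Rg (C i) p) :
    ∃ p, GP p ∧ ∀ i, Rg (C i) p := by
  classical
  have := Fintype.ofFinite ι
  suffices hh : ∀ T : Finset ι, ∃ p, GP p ∧ ∀ i ∈ T, Rg (C i) p by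
    obtain ⟨p, hp, hq⟩ := hh Finset.univ
    exact ⟨p, hp, fun i => hq i (Finset.mem_univ i)⟩
  intro T
  induction T using Finset.induction_on with
  | empty =>
    obtain ⟨p, hp⟩ := gp_exists V
    exact ⟨p, hp, fun i hi => by simp at hi⟩
  | insert i₀ T _ ih =>
    obtain ⟨p, hp, hT⟩ := ih
    obtain ⟨p', hp', hi₀⟩ := h i₀
    have h1 : (⋃ i ∈ (T : Set ι), {s : ℚ | ¬ (GP (p + s • (p' - p)) ∧
        Rg (C i) (p + s • (p' - p)))}).Finite :=
      Set.Finite.biUnion (Finset.finite_toSet T)
        (fun i hi => rg_open (C i) (hS i) p p' hp (hT i hi))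
    have h2 : {s : ℚ | ¬ (GP (p' + s • (p - p')) ∧ Rg (C i₀) (p' + s • (p - p')))}.Finite :=
      rg_open (C i₀) (hS i₀) p' p hp' hi₀
    have h3 : ((fun s : ℚ => 1 - s) '' {s : ℚ | ¬ (GP (p' + s • (p - p')) ∧
        Rg (C i₀) (p' + s • (p - p')))}).Finite := h2.image _
    obtain ⟨s, hs⟩ := (h1.union h3).exists_notMem
    rw [Set.mem_union, not_or] at hs
    obtain ⟨hs1, hs2⟩ := hs
    have hpt : p' + (1 - s) • (p - p') = p + s • (p' - p) := by
      funext i a
      simp only [Pi.add_apply, Pi.smul_apply, Pi.sub_apply, smul_eq_mul]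
      ring
    have hA : GP (p + s • (p' - p)) ∧ Rg (C i₀) (p + s • (p' - p)) := by
      by_contra hcon
      apply hs2
      refine ⟨1 - s, ?_, by simp⟩
      simp only [Set.mem_ofPred_eq]
      rw [hpt]
      exact hcon
    refine ⟨p + s • (p' - p), hA.1, ?_⟩
    intro i hi
    rcases Finset.mem_insert.1 hi with rfl | hi
    · exact hA.2
    · by_contra hcon
      apply hs1
      simp only [Set.mem_iUnion, Set.mem_ofPred_eq]
      exact ⟨i, hi, fun hh => hcon hh.2⟩

end Pool.MP_f18604_gt.KF
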