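import Mathlib
import Pool.Agent.Helper47.KF.Defs

/-!
# KF-B04: gluing, monotonicity, and the complete graph on five vertices

(1) `rg_mono`: a motion for `C2` is a motion for `C1` (`E C1 i j → E C2 i j`), so it is `A p_i` on
`supp C1 ⊇ supp C2`.

(2) `glue`: `E (C1 ∪ C2) i j ↔ E C1 i j ∨ E C2 i j`. For a motion `q` of the union we get `A₁` and
`A₂`. `D = A₁ - A₂` is antisymmetric and `D p_i = 0` for the `≥ 4` common support vertices;
four of them are linearly independent. So the kernel of `D` has dimension `≥ 4`. Then `D = 0`: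
if `x` completes the four vectors `y_1, .., y_4` to a basis, `D x` is orthogonal
to all `y_a` (`y_a ⬝ D x = - (D y_a) ⬝ x = 0`) and to `x` (`x ⬝ D x = 0`), so `D x = 0`.
Hence `A₁ = A₂` and `supp (C1 ∪ C2) = supp C1 ∪ supp C2`.

(3) `rg_five`: `|S| = 5`, `C = S.powersetCard 4`, support `S`, and `E C i j` for all `i, j ∈ S`
(any two elements of `S` lie in a 4-subset). The vectors `p_i`, `i ∈ S`, form a basis of
`ℚ^5`; so there is a matrix `B` with `B p_i = q_i` for `i ∈ S`. The equations say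
`p_i ⬝ B p_j + p_j ⬝ B p_i = 0` for all `i, j ∈ S`, i.e. the bilinear form `x ⬝ (B + Bᵀ) y`
vanishes on a basis, so `Bᵀ = - B`.
-/

set_option autoImplicit false

namespace Pool.MP_f18604_gt.KF

open Finset Module

variable {V : Type} [Fintype V] [DecidableEq V]

theorem b04_skew {D : Matrix (Fin 5) (Fin 5) ℚ} (hD : D.transpose = -D) (x : Fin 5 → ℚ) :
    x ⬝ᵥ D.mulVec x = 0 := by
  have h1 : x ⬝ᵥ D.mulVec x = -(x ⬝ᵥ D.mulVec x) := by
    conv_lhs => rw [Matrix.dotProduct_mulVec, ← Matrix.mulVec_transpose, hD, Matrix.neg_mulVec,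
      neg_dotProduct, dotProduct_comm]
  linarith

theorem b04_zero {D : Matrix (Fin 5) (Fin 5) ℚ} (hD : D.transpose = -D)
    {W : Submodule ℚ (Fin 5 → ℚ)} (hW : 4 ≤ finrank ℚ W) (h : ∀ x ∈ W, D.mulVec x = 0) :
    D = 0 := by
  by_contra hne
  have hle : W ≤ LinearMap.ker D.mulVecLin := fun x hx => by
    rw [LinearMap.mem_ker, Matrix.mulVecLin_apply]
    exact h x hx
  have h4 : 4 ≤ finrank ℚ (LinearMap.ker D.mulVecLin) := hW.trans (Submodule.finrank_mono hle)
  have h5 := LinearMap.finrank_range_add_finrank_ker D.mulVecLin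
  rw [finrank_fintype_fun_eq_card, Fintype.card_fin] at h5
  have h6 : finrank ℚ (LinearMap.range D.mulVecLin) ≠ 0 := by
    intro h7
    rw [Submodule.finrank_eq_zero] at h7
    rw [LinearMap.range_eq_bot] at h7
    apply hne
    have := congrArg LinearMap.toMatrix' h7
    rwa [← Matrix.toLin'_apply', LinearMap.toMatrix'_toLin', map_zero] at this
  have h7 : finrank ℚ (LinearMap.range D.mulVecLin) = 1 := by omega
  obtain ⟨⟨w, x0, hx0⟩, hw0, hw⟩ := finrank_eq_one_iff'.1 h7
  rw [Matrix.mulVecLin_apply] at hx0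
  have hw0' : w ≠ 0 := fun e => hw0 (Subtype.ext e)
  have e1 : x0 ⬝ᵥ w = 0 := by
    rw [← hx0]
    exact b04_skew hD x0
  apply hw0'
  rw [← dotProduct_eq_zero_iff]
  intro x
  obtain ⟨c, hc⟩ := hw ⟨D.mulVec x, x, Matrix.mulVecLin_apply D x⟩
  have hc' : c • w = D.mulVec x := congrArg Subtype.val hc
  have e2 : x ⬝ᵥ D.mulVec x = 0 := b04_skew hD x
  have e3 : (x + x0) ⬝ᵥ D.mulVec (x + x0) = 0 := b04_skew hD (x + x0)
  rw [Matrix.mulVec_add, hx0, ← hc', dotProduct_add, add_dotProduct, add_dotProduct,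
    dotProduct_smul, dotProduct_smul, e1, smul_zero] at e3
  rw [← hc', dotProduct_smul] at e2
  rw [e2] at e3
  rw [dotProduct_comm]
  linarith

omit [Fintype V] in
theorem rg_mono {C1 C2 : Finset (Finset V)} {p : V → Fin 5 → ℚ}
    (hE : ∀ i j, E C1 i j → E C2 i j) (hs : supp C2 ⊆ supp C1) (h : Rg C1 p) : Rg C2 p := by
  intro q hq
  obtain ⟨A, hA, h1⟩ := h q fun i j hij => hq i j (hE i j hij)
  exact ⟨A, hA, fun i hi => h1 i (hs hi)⟩

theorem glue {C1 C2 : Finset (Finset V)} {p : V → Fin 5 → ℚ} (hp : GP p) (h1 : Rg C1 p)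
    (h2 : Rg C2 p) (hc : 4 ≤ (supp C1 ∩ supp C2).card) : Rg (C1 ∪ C2) p := by
  intro q hq
  have m1 : ∀ i j, E C1 i j → E (C1 ∪ C2) i j := fun i j ⟨F, hF, h⟩ =>
    ⟨F, mem_union_left _ hF, h⟩
  have m2 : ∀ i j, E C2 i j → E (C1 ∪ C2) i j := fun i j ⟨F, hF, h⟩ =>
    ⟨F, mem_union_right _ hF, h⟩
  obtain ⟨A1, hA1, k1⟩ := h1 q fun i j hij => hq i j (m1 i j hij)
  obtain ⟨A2, hA2, k2⟩ := h2 q fun i j hij => hq i j (m2 i j hij)
  obtain ⟨S, hS, hS4⟩ := exists_subset_card_eq hc
  have hD : (A1 - A2).transpose = -(A1 - A2) := by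
    rw [Matrix.transpose_sub, hA1, hA2]
    abel
  have hli := hp S (by omega)
  have hz : A1 - A2 = 0 := by
    refine b04_zero hD (W := Submodule.span ℚ (Set.range fun i : S => p i)) ?_ ?_
    · rw [finrank_span_eq_card hli, Fintype.card_coe, hS4]
    · intro x hx
      induction hx using Submodule.span_induction with
      | mem x hx =>
        obtain ⟨⟨i, hi⟩, rfl⟩ := hx
        have hi' := mem_inter.1 (hS hi)
        show (A1 - A2).mulVec (p i) = 0
        rw [Matrix.sub_mulVec, ← k1 i hi'.1, ← k2 i hi'.2, sub_self]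
      | zero => rw [Matrix.mulVec_zero]
      | add x y _ _ hx hy => rw [Matrix.mulVec_add, hx, hy, add_zero]
      | smul c x _ hx => rw [Matrix.mulVec_smul, hx, smul_zero]
  refine ⟨A1, hA1, fun i hi => ?_⟩
  unfold supp at hi
  rw [mem_biUnion] at hi
  obtain ⟨F, hF, hiF⟩ := hi
  rcases mem_union.1 hF with hF | hF
  · exact k1 i (mem_biUnion.2 ⟨F, hF, hiF⟩)
  · rw [sub_eq_zero.1 hz]
    exact k2 i (mem_biUnion.2 ⟨F, hF, hiF⟩)

theorem rg_five {p : V → Fin 5 → ℚ} (hp : GP p) (S : Finset V) (hS : S.card = 5) :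
    Rg (S.powersetCard 4) p := by
  intro q hq
  have hE : ∀ i ∈ S, ∀ j ∈ S, E (S.powersetCard 4) i j := by
    intro i hi j hj
    have hle : ({i, j} : Finset V).card ≤ 4 := card_le_two.trans (by norm_num)
    have hsub : ({i, j} : Finset V) ⊆ S := by
      intro x hx
      rcases mem_insert.1 hx with rfl | hx
      · exact hi
      · rw [mem_singleton.1 hx]
        exact hj
    obtain ⟨F, hF1, hF2, hF3⟩ := exists_subsuperset_card_eq hsub hle (by omega : 4 ≤ S.card)
    exact ⟨F, mem_powersetCard.2 ⟨hF2, hF3⟩, hF1 (by simp), hF1 (by simp)⟩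
  have hli := hp S (by omega)
  have hcard : Fintype.card S = finrank ℚ (Fin 5 → ℚ) := by
    rw [Fintype.card_coe, hS, finrank_fintype_fun_eq_card, Fintype.card_fin]
  have hne : Nonempty S := by
    rw [← Fintype.card_pos_iff, Fintype.card_coe, hS]
    norm_num
  let b := basisOfLinearIndependentOfCardEqFinrank hli hcard
  have hb : ∀ i : S, b i = p i := fun i => by
    show basisOfLinearIndependentOfCardEqFinrank hli hcard i = p i
    rw [coe_basisOfLinearIndependentOfCardEqFinrank]
  let f : (Fin 5 → ℚ) →ₗ[ℚ] (Fin 5 → ℚ) := b.constr ℚ fun i : S => q i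
  let B : Matrix (Fin 5) (Fin 5) ℚ := LinearMap.toMatrix' f
  have hB : ∀ i : S, B.mulVec (p i) = q i := by
    intro i
    have h1 : B.mulVec (p i) = f (p i) := by
      rw [← Matrix.mulVecLin_apply, ← Matrix.toLin'_apply', Matrix.toLin'_toMatrix']
    rw [h1, ← hb]
    exact b.constr_basis ℚ _ i
  have key : B + B.transpose = 0 := by
    have k1 : ∀ j : S, (B + B.transpose).mulVec (p j) = 0 := by
      intro j
      rw [← dotProduct_eq_zero_iff]
      intro x
      rw [dotProduct_comm]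
      have k2 : ∀ i : S, p i ⬝ᵥ (B + B.transpose).mulVec (p j) = 0 := by
        intro i
        have h1 := hq i j (hE i i.2 j j.2)
        rw [← hB i, ← hB j] at h1
        rw [Matrix.add_mulVec, dotProduct_add, Matrix.mulVec_transpose,
          dotProduct_comm (p i) (Matrix.vecMul _ _), ← Matrix.dotProduct_mulVec]
        exact h1
      have hx : x ∈ Submodule.span ℚ (Set.range b) := by
        rw [b.span_eq]
        exact Submodule.mem_top
      induction hx using Submodule.span_induction with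
      | mem x hx =>
        obtain ⟨i, rfl⟩ := hx
        rw [hb]
        exact k2 i
      | zero => rw [zero_dotProduct]
      | add x y _ _ hx hy => rw [add_dotProduct, hx, hy, add_zero]
      | smul c x _ hx => rw [smul_dotProduct, hx, smul_zero]
    have k3 : (B + B.transpose).mulVecLin = 0 := by
      apply b.ext
      intro j
      rw [hb, Matrix.mulVecLin_apply, k1, LinearMap.zero_apply]
    have k4 := congrArg LinearMap.toMatrix' k3
    rwa [← Matrix.toLin'_apply', LinearMap.toMatrix'_toLin', map_zero] at k4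
  refine ⟨B, ?_, fun i hi => ?_⟩
  · rw [← add_eq_zero_iff_eq_neg, add_comm]
    exact key
  · unfold supp at hi
    rw [mem_biUnion] at hi
    obtain ⟨F, hF, hiF⟩ := hi
    have hiS : i ∈ S := (mem_powersetCard.1 hF).1 hiF
    exact (hB ⟨i, hiS⟩).symm

end Pool.MP_f18604_gt.KF
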