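import Mathlib
import Pool.Agent.Helper47.KF.Defs
import Pool.Agent.Helper47.KF.B01
import Pool.Agent.Helper47.KF.B02
import Pool.Agent.Helper47.KF.B03

/-!
# KF-B05: vertex splitting

`C` is obtained from `C'` by splitting the vertex `u` into `u` and `v`, with three common
neighbours `r 0, r 1, r 2`.

Proof. Let `p` be in general position with `Rg C' p`. Let `p₀` be `p` except that `p₀ v = p u`
(`Function.update p v (p u)`) and `p_t = p₀ + t • (p - p₀)`; so `p_1 = p`, `p_t w = p w` for
`w ≠ v` and `p_t v = p u + t (p v - p u)`. Put `x = p v - p u`.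

Consider the linear maps `L_t`, affine in `t`, on `V → Fin 5 → ℚ`, given by the following
coordinates of `L_t q`: (i) `q i` for `i ∉ supp C`; (ii) `p_t i ⬝ q j + p_t j ⬝ q i` for all
`i, j` with `E C i j` and `{i, j} ≠ {u, v}`; (iii) `x ⬝ (q u - q v)`. (Each is a map to a product
space with zero entries where the condition fails, `L_t = L_0 + t • L'`.)

For `t ≠ 0`: `ker L_t = Sol C p_t`. In fact (ii) contains `p_t u ⬝ q u = 0 = p_t v ⬝ q v` (as
`u, v ∈ supp C` by `E C u v`) and
`p_t u ⬝ q v + p_t v ⬝ q u = - (p_t v - p_t u) ⬝ (q v - q u) + p_t v ⬝ q v + p_t u ⬝ q u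
 = - t x ⬝ (q v - q u)`, so given (ii) the equation for the edge `uv` is equivalent to (iii).

For `t = 0`: `dim ker L_0 ≤ 10`. Let `q ∈ ker L_0` and `d = q u - q v`. Then `p u ⬝ q u = 0` and
`p₀ v ⬝ q v = p u ⬝ q v = 0`, so `p u ⬝ d = 0`; `x ⬝ d = 0` by (iii), so `p v ⬝ d = 0`; for the
common neighbours, `p u ⬝ q r + p r ⬝ q u = 0` and `p u ⬝ q r + p r ⬝ q v = 0`, so `p r ⬝ d = 0`.
The five vectors `p u, p v, p (r 0), p (r 1), p (r 2)` are linearly independent by `GP p`
(five distinct vertices), so `d = 0` and `q u = q v`. Let `q'` be `q` on `supp C'` and `0` outside.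
Then `q' ∈ Sol C' p`: let `E C' i j`; `i, j ≠ v` since `v ∉ supp C'`. If `i, j ≠ u` then
`E C i j` by `h1` and `p_0 = p` at `i, j`. If `i = u`, `j ≠ u` then `E C u j`, fine, or `E C v j`
and `p₀ v ⬝ q j + p j ⬝ q v = p u ⬝ q j + p j ⬝ q u = 0`. Similarly `j = u`, `i ≠ u` (`E` is
symmetric). If `i = j = u`: `E C u u` and `2 p u ⬝ q u = 0`. The map `q ↦ q'` is injective on
`ker L_0`: if `q' = 0` then `q u = 0` (`u ∈ supp C'`), `q v = 0`, `q i = 0` for all
`i ∈ supp C' ∪ {v} ⊇ supp C` and for `i ∉ supp C`. So `dim ker L_0 ≤ dim Sol C' p ≤ 10` by B02.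

By B01, `dim ker L_t ≤ 10` for all but finitely many `t`. By `gp_open` (B03) applied to the line
through `p` (`GP`) and `p₀`, `GP p_t` for all but finitely many `t` (`p_t = p + (1-t) • (p₀ - p)`).
Choose `t ≠ 0` with both; by B02 (`supp C` has at least 5 elements: it contains
`u, v, r 0, r 1, r 2`) `Rg C p_t`.
-/

set_option autoImplicit false

namespace Pool.MP_f18604_gt.KF

open Finset Module

variable {V : Type} [Fintype V] [DecidableEq V]

omit [Fintype V] in
theorem split_perp {p : V → Fin 5 → ℚ} (hp : GP p) {S : Finset V} (hS : S.card = 5)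
    {d : Fin 5 → ℚ} (hd : ∀ i ∈ S, p i ⬝ᵥ d = 0) : d = 0 := by
  have hli := hp S hS.le
  have hspan : Submodule.span ℚ (Set.range fun i : S => p i) = ⊤ := by
    apply hli.span_eq_top_of_card_eq_finrank'
    rw [Fintype.card_coe, hS, Module.finrank_fintype_fun_eq_card, Fintype.card_fin]
  let φ : (Fin 5 → ℚ) →ₗ[ℚ] ℚ :=
    { toFun := fun y => y ⬝ᵥ d
      map_add' := fun a b => add_dotProduct a b d
      map_smul' := fun c a => smul_dotProduct c a d }
  have hle : Submodule.span ℚ (Set.range fun i : S => p i) ≤ LinearMap.ker φ := by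
    rw [Submodule.span_le]
    rintro _ ⟨i, rfl⟩
    exact hd i i.2
  rw [hspan, top_le_iff] at hle
  have h1 : d ∈ LinearMap.ker φ := by
    rw [hle]; exact Submodule.mem_top
  have h2 : d ⬝ᵥ d = 0 := h1
  exact dotProduct_self_eq_zero.1 h2

omit [Fintype V] [DecidableEq V] in
theorem split_E_symm {C : Finset (Finset V)} {i j : V} (h : E C i j) : E C j i := by
  obtain ⟨F, hF, h1, h2⟩ := h
  exact ⟨F, hF, h2, h1⟩

omit [Fintype V] in
theorem split_E_left {C : Finset (Finset V)} {i j : V} (h : E C i j) : i ∈ supp C := by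
  obtain ⟨F, hF, h1, -⟩ := h
  exact Finset.mem_biUnion.2 ⟨F, hF, h1⟩

omit [Fintype V] [DecidableEq V] in
theorem split_E_diag {C : Finset (Finset V)} {i j : V} (h : E C i j) : E C i i := by
  obtain ⟨F, hF, h1, -⟩ := h
  exact ⟨F, hF, h1, h1⟩

open Classical in
/-- The first part of the pencil. -/
noncomputable def splitL (C : Finset (Finset V)) (u v : V) (P : V → Fin 5 → ℚ)
    (x : Fin 5 → ℚ) :
    (V → Fin 5 → ℚ) →ₗ[ℚ] ((V → Fin 5 → ℚ) × (V → V → ℚ)) × ℚ where
  toFun q := ((fun i => if i ∈ supp C then 0 else q i,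
    fun i j => if E C i j ∧ ¬ (i = u ∧ j = v) ∧ ¬ (i = v ∧ j = u) then
      P i ⬝ᵥ q j + P j ⬝ᵥ q i else 0), x ⬝ᵥ (q u - q v))
  map_add' a b := by
    refine Prod.ext (Prod.ext ?_ ?_) ?_
    · funext i
      simp only [Prod.fst_add, Pi.add_apply]
      split_ifs <;> simp
    · funext i j
      simp only [Prod.fst_add, Prod.snd_add, Pi.add_apply, dotProduct_add]
      split_ifs
      · ring
      · simp
    · simp only [Prod.snd_add, Pi.add_apply, dotProduct_add, dotProduct_sub]
      ring
  map_smul' c a := by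
    refine Prod.ext (Prod.ext ?_ ?_) ?_
    · funext i
      simp only [Prod.smul_fst, Pi.smul_apply, RingHom.id_apply]
      split_ifs <;> simp
    · funext i j
      simp only [Prod.smul_fst, Prod.smul_snd, Pi.smul_apply, RingHom.id_apply, dotProduct_smul,
        smul_eq_mul]
      split_ifs
      · ring
      · simp
    · simp only [Prod.smul_snd, Pi.smul_apply, RingHom.id_apply, dotProduct_sub, dotProduct_smul,
        smul_eq_mul]
      ring

open Classical in
/-- The second part of the pencil. -/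
noncomputable def splitM (C : Finset (Finset V)) (u v : V) (P : V → Fin 5 → ℚ) :
    (V → Fin 5 → ℚ) →ₗ[ℚ] ((V → Fin 5 → ℚ) × (V → V → ℚ)) × ℚ where
  toFun q := ((0, fun i j => if E C i j ∧ ¬ (i = u ∧ j = v) ∧ ¬ (i = v ∧ j = u) then
      P i ⬝ᵥ q j + P j ⬝ᵥ q i else 0), 0)
  map_add' a b := by
    refine Prod.ext (Prod.ext ?_ ?_) ?_
    · simp
    · funext i j
      simp only [Prod.fst_add, Prod.snd_add, Pi.add_apply, dotProduct_add]
      split_ifs
      · ring
      · simp
    · simp
  map_smul' c a := by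
    refine Prod.ext (Prod.ext ?_ ?_) ?_
    · simp
    · funext i j
      simp only [Prod.smul_fst, Prod.smul_snd, Pi.smul_apply, RingHom.id_apply, dotProduct_smul,
        smul_eq_mul]
      split_ifs
      · ring
      · simp
    · simp

omit [Fintype V] in
theorem splitL_add (C : Finset (Finset V)) (u v : V) (P P' : V → Fin 5 → ℚ)
    (x : Fin 5 → ℚ) (t : ℚ) :
    splitL C u v P x + t • splitM C u v P' = splitL C u v (P + t • P') x := by
  ext1 q
  refine Prod.ext (Prod.ext ?_ ?_) ?_
  · simp [splitL, splitM]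
  · funext i j
    simp only [splitL, splitM, LinearMap.add_apply, LinearMap.smul_apply, LinearMap.coe_mk,
      AddHom.coe_mk, Prod.fst_add, Prod.snd_add, Prod.smul_fst, Prod.smul_snd, Pi.add_apply,
      Pi.smul_apply, smul_eq_mul, add_dotProduct, smul_dotProduct]
    split_ifs
    · ring
    · simp
  · simp [splitL, splitM]

omit [Fintype V] in
theorem split_mem_ker {C : Finset (Finset V)} {u v : V} {P : V → Fin 5 → ℚ}
    {x : Fin 5 → ℚ} {q : V → Fin 5 → ℚ} : q ∈ LinearMap.ker (splitL C u v P x) ↔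
      (∀ i, i ∉ supp C → q i = 0) ∧
      (∀ i j, E C i j → ¬ (i = u ∧ j = v) → ¬ (i = v ∧ j = u) → P i ⬝ᵥ q j + P j ⬝ᵥ q i = 0) ∧
      x ⬝ᵥ (q u - q v) = 0 := by
  rw [LinearMap.mem_ker]
  constructor
  · intro h
    have h1 := congrArg (fun y => y.1.1) h
    have h2 := congrArg (fun y => y.1.2) h
    have h3 := congrArg (fun y => y.2) h
    refine ⟨fun i hi => ?_, fun i j hE hc1 hc2 => ?_, h3⟩
    · have := congrFun h1 i
      simpa [splitL, hi] using this
    · have := congrFun (congrFun h2 i) j
      simp only [splitL, LinearMap.coe_mk, AddHom.coe_mk] at this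
      rw [if_pos ⟨hE, hc1, hc2⟩] at this
      exact this
  · rintro ⟨h1, h2, h3⟩
    refine Prod.ext (Prod.ext ?_ ?_) ?_
    · funext i
      simp only [splitL, LinearMap.coe_mk, AddHom.coe_mk]
      split_ifs with hi
      · rfl
      · exact h1 i hi
    · funext i j
      simp only [splitL, LinearMap.coe_mk, AddHom.coe_mk]
      split_ifs with hi
      · exact h2 i j hi.1 hi.2.1 hi.2.2
      · rfl
    · exact h3

/-- Truncation to a set. -/
noncomputable def splitT (S : Finset V) : (V → Fin 5 → ℚ) →ₗ[ℚ] (V → Fin 5 → ℚ) where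
  toFun q := fun i => if i ∈ S then q i else 0
  map_add' a b := by
    funext i
    simp only [Pi.add_apply]
    split_ifs <;> simp
  map_smul' c a := by
    funext i
    simp only [Pi.smul_apply, RingHom.id_apply]
    split_ifs <;> simp

omit [Fintype V] in
theorem splitT_apply (S : Finset V) (q : V → Fin 5 → ℚ) (i : V) :
    splitT S q i = if i ∈ S then q i else 0 := rfl

theorem split (C' C : Finset (Finset V)) (u v : V) (huv : u ≠ v) (hv : v ∉ supp C')
    (hu : u ∈ supp C') (hs : supp C ⊆ insert v (supp C')) (h5 : 5 ≤ (supp C').card)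
    (h1 : ∀ i j, i ≠ u → j ≠ u → E C' i j → E C i j)
    (h2 : ∀ j, j ≠ u → E C' u j → E C u j ∨ E C v j)
    (h3 : E C u v) (r : Fin 3 → V) (hr : Function.Injective r) (hru : ∀ a, r a ≠ u)
    (hrv : ∀ a, r a ≠ v) (hEu : ∀ a, E C u (r a)) (hEv : ∀ a, E C v (r a))
    (h : ∃ p, GP p ∧ Rg C' p) : ∃ p, GP p ∧ Rg C p := by
  classical
  obtain ⟨p, hp, hrg⟩ := h
  obtain ⟨S5, hS5⟩ : ∃ S5 : Finset V, S5 = insert u (insert v (univ.image r)) := ⟨_, rfl⟩
  have hS5c : S5.card = 5 := by
    rw [hS5, card_insert_of_notMem, card_insert_of_notMem, card_image_of_injective _ hr,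
      card_univ, Fintype.card_fin]
    · simp only [mem_image, mem_univ, true_and, not_exists]
      exact fun a => hrv a
    · simp only [mem_insert, mem_image, mem_univ, true_and, not_or, not_exists]
      exact ⟨huv, fun a => hru a⟩
  have hcard : 5 ≤ (supp C).card := by
    rw [← hS5c]
    apply card_le_card
    rw [hS5]
    intro w hw
    simp only [mem_insert, mem_image, mem_univ, true_and] at hw
    rcases hw with rfl | rfl | ⟨a, rfl⟩
    · exact split_E_left h3
    · exact split_E_left (split_E_symm h3)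
    · exact split_E_left (split_E_symm (hEu a))
  set p₀ : V → Fin 5 → ℚ := Function.update p v (p u) with hp₀
  have hp₀v : p₀ v = p u := by simp [hp₀]
  have hp₀n : ∀ w, w ≠ v → p₀ w = p w := fun w hw => by simp [hp₀, Function.update_of_ne hw]
  set x : Fin 5 → ℚ := p v - p u with hx
  -- the kernel at 0
  have hker0 : finrank ℚ (LinearMap.ker (splitL C u v p₀ x)) ≤ 10 := by
    refine le_trans ?_ ((rg_iff C' p hp h5).1 hrg)
    have key : ∀ q ∈ LinearMap.ker (splitL C u v p₀ x), q u = q v := by
      intro q hq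
      obtain ⟨-, k2, k3⟩ := split_mem_ker.1 hq
      have e1 : p u ⬝ᵥ q u = 0 := by
        have := k2 u u (split_E_diag h3) (fun h => huv h.2) (fun h => huv h.1)
        rw [hp₀n u huv] at this
        linarith
      have e2 : p u ⬝ᵥ q v = 0 := by
        have := k2 v v (split_E_diag (split_E_symm h3)) (fun h => huv h.1.symm) (fun h => huv h.2.symm)
        rw [hp₀v] at this
        linarith
      have hd : q u - q v = 0 := by
        refine split_perp hp hS5c fun i hi => ?_
        rw [hS5] at hi
        simp only [mem_insert, mem_image, mem_univ, true_and] at hi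
        rcases hi with rfl | rfl | ⟨a, rfl⟩
        · rw [dotProduct_sub, e1, e2, sub_zero]
        · have e3 : p i = x + p u := by rw [hx]; abel
          rw [e3, add_dotProduct, k3, zero_add, dotProduct_sub, e1, e2, sub_zero]
        · have f1 := k2 u (r a) (hEu a) (fun h => hrv a h.2) (fun h => huv h.1)
          have f2 := k2 v (r a) (hEv a) (fun h => huv h.1.symm) (fun h => hru a h.2)
          rw [hp₀n u huv, hp₀n (r a) (hrv a)] at f1
          rw [hp₀v, hp₀n (r a) (hrv a)] at f2
          rw [dotProduct_sub]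
          linarith
      exact sub_eq_zero.1 hd
    have hmap : ∀ q ∈ LinearMap.ker (splitL C u v p₀ x), splitT (supp C') q ∈ Sol C' p := by
      intro q hq
      have hquv := key q hq
      obtain ⟨-, k2, -⟩ := split_mem_ker.1 hq
      refine ⟨fun i hi => by rw [splitT_apply, if_neg hi], fun i j hE => ?_⟩
      have hi : i ∈ supp C' := split_E_left hE
      have hj : j ∈ supp C' := split_E_left (split_E_symm hE)
      have hiv : i ≠ v := fun h => hv (h ▸ hi)
      have hjv : j ≠ v := fun h => hv (h ▸ hj)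
      rw [splitT_apply, splitT_apply, if_pos hi, if_pos hj]
      have huu : p u ⬝ᵥ q u = 0 := by
        have := k2 u u (split_E_diag h3) (fun h => huv h.2) (fun h => huv h.1)
        rw [hp₀n u huv] at this
        linarith
      have hone : ∀ j, j ≠ u → j ≠ v → E C' u j → p u ⬝ᵥ q j + p j ⬝ᵥ q u = 0 := by
        intro j hju hjv hE
        rcases h2 j hju hE with hE' | hE'
        · have := k2 u j hE' (fun h => hjv h.2) (fun h => huv h.1)
          rwa [hp₀n u huv, hp₀n j hjv] at this
        · have := k2 v j hE' (fun h => huv h.1.symm) (fun h => hju h.2)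
          rwa [hp₀v, hp₀n j hjv, ← hquv] at this
      by_cases hiu : i = u
      · by_cases hju : j = u
        · rw [hiu, hju, huu, add_zero]
        · rw [hiu] at hE ⊢
          exact hone j hju hjv hE
      · by_cases hju : j = u
        · rw [hju] at hE ⊢
          rw [add_comm]
          exact hone i hiu hiv (split_E_symm hE)
        · have := k2 i j (h1 i j hiu hju hE) (fun h => hiu h.1) (fun h => hju h.2)
          rwa [hp₀n i hiv, hp₀n j hjv] at this
    refine LinearMap.finrank_le_finrank_of_injective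
      (f := ((splitT (supp C')).restrict hmap)) ?_
    rw [injective_iff_map_eq_zero]
    rintro ⟨q, hq⟩ hq0
    have hquv := key q hq
    obtain ⟨k1, -, -⟩ := split_mem_ker.1 hq
    have hq1 : splitT (supp C') q = 0 := congrArg Subtype.val hq0
    have hq2 : ∀ i ∈ supp C', q i = 0 := by
      intro i hi
      have := congrFun hq1 i
      rwa [splitT_apply, if_pos hi] at this
    apply Subtype.ext
    funext i
    by_cases hi : i ∈ supp C
    · rcases mem_insert.1 (hs hi) with rfl | hi'
      · show q i = 0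
        rw [← hquv]
        exact hq2 u hu
      · exact hq2 i hi'
    · exact k1 i hi
  -- choice of the parameter
  have hfin1 := pencil (splitL C u v p₀ x) (splitM C u v (p - p₀))
  have hfin2 := gp_open p p₀ hp
  have hfin3 : ((fun t : ℚ => 1 - t) ⁻¹' {s : ℚ | ¬ GP (p + s • (p₀ - p))}).Finite :=
    hfin2.preimage fun a _ b _ hab => by
      have : (1 : ℚ) - a = 1 - b := hab
      linarith
  obtain ⟨t, ht⟩ := ((hfin1.union hfin3).union (Set.finite_singleton (0 : ℚ))).exists_notMem
  simp only [Set.mem_union, Set.mem_ofPred_eq, Set.mem_preimage, Set.mem_singleton_iff, not_or,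
    not_lt, not_not] at ht
  obtain ⟨⟨ht1, ht2⟩, ht0⟩ := ht
  have ept : p + (1 - t) • (p₀ - p) = p₀ + t • (p - p₀) := by
    rw [sub_smul, one_smul, smul_sub, smul_sub]
    abel
  rw [ept] at ht2
  rw [splitL_add] at ht1
  refine ⟨p₀ + t • (p - p₀), ht2, ?_⟩
  rw [rg_iff C _ ht2 hcard]
  refine le_trans ?_ (ht1.trans hker0)
  apply Submodule.finrank_mono
  intro q hq
  obtain ⟨k1, k2⟩ := hq
  rw [split_mem_ker]
  refine ⟨k1, fun i j hE _ _ => k2 i j hE, ?_⟩
  have eu : (p₀ + t • (p - p₀)) u = p u := by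
    simp [hp₀n u huv]
  have ev : (p₀ + t • (p - p₀)) v = p u + t • x := by
    simp [hp₀v, hx]
  have f1 := k2 u u (split_E_diag h3)
  have f2 := k2 v v (split_E_diag (split_E_symm h3))
  have f3 := k2 u v h3
  rw [eu] at f1 f3
  rw [ev] at f2 f3
  rw [add_dotProduct, smul_dotProduct, smul_eq_mul] at f2 f3
  rw [dotProduct_sub]
  have f4 : t * (x ⬝ᵥ q u - x ⬝ᵥ q v) = 0 := by linarith
  exact (mul_eq_zero.1 f4).resolve_left ht0

end Pool.MP_f18604_gt.KF
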