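import Mathlib
import Pool.Agent.Helper47.KF.Defs

/-!
# KF-C01: decomposition of cycles into minimal cycles; small facts

(1) `exists_decomposition`: every cycle is the disjoint union of a finite set of minimal cycles.
Strong induction on `C.card`: if `C = ∅` take `∅`. Otherwise, choose a nonempty cycle `C₁ ⊆ C` of
minimal cardinality; it is a minimal cycle. `C \ C₁` is a cycle (counts are differences of even
numbers); apply induction and add `C₁`.

(2) `five_le_supp`: a nonempty cycle has at least 5 vertices: let `F ∈ C`, `R ⊂ F` with 3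
elements; the number of members containing `R` is even and positive, so there is `F' ≠ F` with
`R ⊆ F'`; `F ∪ F'` has at least 5 elements (`F' ⊄ F` as both have 4 elements).

(3) `ball_isCycle`: for a 3-set `σ` not containing `u ≠ v`, the 4-subsets of the 5-set
`σ ∪ {u, v}`: a 3-set `R` is contained in exactly 2 of them if it is a subset of the 5-set, and in
none otherwise.

(4) `sum_isCycle`: the sum modulo 2 of cycles is a cycle: the members have 4 elements as an odd
number is positive; for a 3-set `R`,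
`#{F ∈ D : R ⊆ F} ≡ ∑_{F ⊇ R, |F| = 4} #{k : F ∈ X k} = ∑_k #{F ∈ X k : R ⊆ F} ≡ 0`.
-/

set_option autoImplicit false

namespace Pool.MP_f18604_gt.KF

open Finset

variable {V : Type} [Fintype V] [DecidableEq V]

theorem sdiff_isCycle {C D : Finset (Finset V)} (hC : IsCycle C) (hD : IsCycle D)
    (h : D ⊆ C) : IsCycle (C \ D) := by
  refine ⟨fun F hF => hC.1 F (mem_sdiff.mp hF).1, fun R hR => ?_⟩
  have h1 := hC.2 R hR
  have h2 := hD.2 R hR
  have h3 : (C \ D).filter (fun F => R ⊆ F) =
      C.filter (fun F => R ⊆ F) \ D.filter (fun F => R ⊆ F) := by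
    ext F
    simp only [mem_sdiff, mem_filter]
    tauto
  have h4 : D.filter (fun F => R ⊆ F) ⊆ C.filter (fun F => R ⊆ F) := filter_subset_filter _ h
  rw [h3, card_sdiff_of_subset h4]
  exact (Nat.even_sub (card_le_card h4)).mpr (iff_of_true h1 h2)

theorem exists_min_subcycle {C : Finset (Finset V)} (hC : IsCycle C) (hne : C.Nonempty) :
    ∃ D ⊆ C, IsMinCycle D := by
  classical
  have hS : (C.powerset.filter (fun D => IsCycle D ∧ D.Nonempty)).Nonempty :=
    ⟨C, by simp [hC, hne]⟩
  obtain ⟨D, hD, hmin⟩ := exists_min_image _ (fun D : Finset (Finset V) => D.card) hS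
  simp only [mem_filter, mem_powerset] at hD
  refine ⟨D, hD.1, hD.2.1, hD.2.2, fun C' hC' hcyc hCne => ?_⟩
  have h1 := hmin C' (by
    simp only [mem_filter, mem_powerset]
    exact ⟨hC'.trans hD.1, hcyc, hCne⟩)
  exact eq_of_subset_of_card_le hC' h1

theorem exists_decomposition {C : Finset (Finset V)} (hC : IsCycle C) :
    ∃ P : Finset (Finset (Finset V)), (∀ Y ∈ P, IsMinCycle Y) ∧
      (∀ Y ∈ P, ∀ Y' ∈ P, Y ≠ Y' → Disjoint Y Y') ∧ ∀ F, F ∈ C ↔ ∃ Y ∈ P, F ∈ Y := by
  induction h : C.card using Nat.strong_induction_on generalizing C with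
  | _ n ih =>
  rcases C.eq_empty_or_nonempty with rfl | hne
  · exact ⟨∅, by simp, by simp, by simp⟩
  obtain ⟨D, hDC, hD⟩ := exists_min_subcycle hC hne
  have hlt : (C \ D).card < n := by
    rw [card_sdiff_of_subset hDC, h]
    have h1 : 0 < D.card := hD.2.1.card_pos
    have h2 : D.card ≤ n := h ▸ card_le_card hDC
    omega
  obtain ⟨P, hP1, hP2, hP3⟩ := ih _ hlt (sdiff_isCycle hC hD.1 hDC) rfl
  have hdis : ∀ Y ∈ P, Disjoint D Y := by
    intro Y hY
    rw [disjoint_left]
    intro F hF hFY
    exact (mem_sdiff.mp ((hP3 F).mpr ⟨Y, hY, hFY⟩)).2 hF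
  refine ⟨insert D P, ?_, ?_, ?_⟩
  · intro Y hY
    rcases mem_insert.mp hY with rfl | hY
    · exact hD
    · exact hP1 Y hY
  · intro Y hY Y' hY' hn
    rcases mem_insert.mp hY with h1 | h1 <;> rcases mem_insert.mp hY' with h2 | h2
    · exact absurd (h1.trans h2.symm) hn
    · rw [h1]; exact hdis Y' h2
    · rw [h2]; exact (hdis Y h1).symm
    · exact hP2 Y h1 Y' h2 hn
  · intro F
    constructor
    · intro hF
      by_cases hFD : F ∈ D
      · exact ⟨D, mem_insert_self _ _, hFD⟩
      · obtain ⟨Y, hY, hFY⟩ := (hP3 F).mp (mem_sdiff.mpr ⟨hF, hFD⟩)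
        exact ⟨Y, mem_insert_of_mem hY, hFY⟩
    · rintro ⟨Y, hY, hFY⟩
      rcases mem_insert.mp hY with rfl | hY
      · exact hDC hFY
      · exact (mem_sdiff.mp ((hP3 F).mpr ⟨Y, hY, hFY⟩)).1

theorem five_le_supp {C : Finset (Finset V)} (hC : IsCycle C) (hne : C.Nonempty) :
    5 ≤ (supp C).card := by
  obtain ⟨F, hF⟩ := hne
  have hF4 := hC.1 F hF
  obtain ⟨R, hRF, hR⟩ := exists_subset_card_eq (show 3 ≤ F.card by omega)
  have hev := hC.2 R hR
  have hmem : F ∈ C.filter (fun F => R ⊆ F) := mem_filter.mpr ⟨hF, hRF⟩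
  have h1 : 1 < (C.filter (fun F => R ⊆ F)).card := by
    have hpos := card_pos.mpr ⟨F, hmem⟩
    rcases hev with ⟨m, hm⟩
    omega
  obtain ⟨F', hF', hne'⟩ := exists_mem_ne h1 F
  have hF'C := (mem_filter.mp hF').1
  have hF'4 := hC.1 F' hF'C
  have hnot : ¬ F' ⊆ F := fun hs => hne' (eq_of_subset_of_card_le hs (by omega))
  obtain ⟨x, hx, hxF⟩ := not_subset.mp hnot
  have hsub : insert x F ⊆ supp C := by
    intro y hy
    unfold supp
    rw [mem_biUnion]
    rcases mem_insert.mp hy with rfl | hy
    · exact ⟨F', hF'C, hx⟩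
    · exact ⟨F, hF, hy⟩
  have h2 := card_le_card hsub
  rw [card_insert_of_notMem hxF] at h2
  omega

theorem ball_isCycle {u v : V} (huv : u ≠ v) {σ : Finset V} (hσ : σ.card = 3) (hu : u ∉ σ)
    (hv : v ∉ σ) : IsCycle (ball u v σ) := by
  have hT : (insert u (insert v σ)).card = 5 := by
    rw [card_insert_of_notMem, card_insert_of_notMem hv, hσ]
    simp [huv, hu]
  refine ⟨fun F hF => (mem_powersetCard.mp hF).2, fun R hR => ?_⟩
  unfold ball
  generalize insert u (insert v σ) = T at hT
  by_cases hRT : R ⊆ T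
  · have h1 : (T.powersetCard 4).filter (fun F => R ⊆ F) = (T \ R).image (fun x => insert x R) := by
      ext F
      simp only [mem_filter, mem_powersetCard, mem_image, mem_sdiff]
      constructor
      · rintro ⟨⟨hFT, hF4⟩, hRF⟩
        have h2 : (F \ R).card = 1 := by
          rw [card_sdiff_of_subset hRF]
          omega
        obtain ⟨x, hx⟩ := card_eq_one.mp h2
        have hxm : x ∈ F \ R := by rw [hx]; exact mem_singleton_self x
        refine ⟨x, ⟨hFT (mem_sdiff.mp hxm).1, (mem_sdiff.mp hxm).2⟩, ?_⟩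
        rw [insert_eq, ← hx, sdiff_union_of_subset hRF]
      · rintro ⟨x, ⟨hxT, hxR⟩, rfl⟩
        refine ⟨⟨insert_subset hxT hRT, ?_⟩, subset_insert _ _⟩
        rw [card_insert_of_notMem hxR]
        omega
    rw [h1, card_image_of_injOn]
    · rw [card_sdiff_of_subset hRT, hT, hR]
      decide
    · intro x hx y hy hxy
      have hx' := (mem_sdiff.mp (mem_coe.mp hx)).2
      have h3 : x ∈ insert y R := by
        have : insert x R = insert y R := hxy
        rw [← this]
        exact mem_insert_self x R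
      rcases mem_insert.mp h3 with h | h
      · exact h
      · exact absurd h hx'
  · have h1 : (T.powersetCard 4).filter (fun F => R ⊆ F) = ∅ := by
      rw [filter_eq_empty_iff]
      intro F hF hRF
      exact hRT (hRF.trans (mem_powersetCard.mp hF).1)
    rw [h1]
    simp

theorem sum_isCycle {ι : Type} [Fintype ι] (X : ι → Finset (Finset V)) (hX : ∀ k, IsCycle (X k)) :
    IsCycle (univ.filter (fun F => Odd (univ.filter (fun k => F ∈ X k)).card)) := by
  refine ⟨fun F hF => ?_, fun R hR => ?_⟩
  · have h1 := (mem_filter.mp hF).2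
    obtain ⟨k, hk⟩ := card_pos.mp h1.pos
    exact (hX k).1 F (mem_filter.mp hk).2
  · rw [← ZMod.natCast_eq_zero_iff_even, filter_filter, card_filter, Nat.cast_sum]
    have h1 : ∀ F : Finset V,
        ((if (Odd (univ.filter (fun k => F ∈ X k)).card ∧ R ⊆ F) then 1 else 0 : ℕ) : ZMod 2) =
          ∑ k, if (F ∈ X k ∧ R ⊆ F) then (1 : ZMod 2) else 0 := by
      intro F
      by_cases hRF : R ⊆ F
      · simp only [hRF, and_true]
        have h2 : (∑ k, if F ∈ X k then (1 : ZMod 2) else 0) =
            ((univ.filter (fun k => F ∈ X k)).card : ZMod 2) := by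
          rw [card_filter, Nat.cast_sum]
          refine sum_congr rfl fun k _ => ?_
          split_ifs <;> simp
        rw [h2]
        split_ifs with h3
        · rw [Nat.cast_one]
          exact (ZMod.natCast_eq_one_iff_odd.mpr h3).symm
        · rw [Nat.cast_zero]
          exact (ZMod.natCast_eq_zero_iff_even.mpr (Nat.not_odd_iff_even.mp h3)).symm
      · simp [hRF]
    rw [sum_congr rfl (fun F _ => h1 F), sum_comm]
    refine sum_eq_zero fun k _ => ?_
    have h2 : (∑ F : Finset V, if (F ∈ X k ∧ R ⊆ F) then (1 : ZMod 2) else 0) =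
        (((X k).filter (fun F => R ⊆ F)).card : ZMod 2) := by
      have h3 : (X k).filter (fun F => R ⊆ F) = univ.filter (fun F => F ∈ X k ∧ R ⊆ F) := by
        ext F
        simp
      rw [h3, card_filter, Nat.cast_sum]
      refine sum_congr rfl fun F _ => ?_
      split_ifs <;> simp
    rw [h2]
    exact ZMod.natCast_eq_zero_iff_even.mpr ((hX k).2 R hR)

end Pool.MP_f18604_gt.KF
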