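import Mathlib
import Pool.Agent.Helper47.KF.Defs

/-!
# KF-C02: contraction of a cycle

`C` is a cycle, `u ≠ v`. Call `F` nondegenerate if it does not contain both `u` and `v`. For a
nondegenerate `F` the set `mergeF u v F` has the same cardinality, does not contain `v`, and
contains `u` iff `u ∈ F` or `v ∈ F`; outside `{u, v}` it agrees with `F`.

(1) `contract_isCycle`. Members have 4 elements. Let `|R| = 3`. If `v ∈ R` no member of
`contract u v C` contains `R`. Let `v ∉ R`. Modulo 2,
`#{F' ∈ contract : R ⊆ F'} ≡ ∑_{F' ⊇ R, v ∉ F'} #{F ∈ C nondegenerate : mergeF F = F'}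
 = #{F ∈ C nondegenerate : R ⊆ mergeF F}`.
 If `u ∉ R`: for nondegenerate `F`, `R ⊆ mergeF F ↔ R ⊆ F`; a degenerate 4-set does
 not contain `R` (it would have 5 elements). So the number is `#{F ∈ C : R ⊆ F}`, even.
 If `u ∈ R`, `R = ρ ∪ {u}`, `|ρ| = 2`, `u, v ∉ ρ`: for nondegenerate `F`, `R ⊆ mergeF F` iff
 `ρ ⊆ F` and `F` contains exactly one of `u, v`. So the number is
 `#{F ∈ C : ρ ∪ u ⊆ F} + #{F ∈ C : ρ ∪ v ⊆ F} - 2 [ρ ∪ {u, v} ∈ C]`, even.

(2) `mem_contract_of_not_mem`: for nondegenerate `F ∈ C` with `u, v ∉ F`: the only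
nondegenerate `F₁` with `mergeF F₁ = F` is `F`; count 1.

(3) `mem_contract_iff_u`: for a 3-set `σ` with `u, v ∉ σ`: the nondegenerate sets `F₁` with
`mergeF F₁ = insert u σ` are `insert u σ` and `insert v σ`, so `insert u σ ∈ contract` iff exactly
one of the two is in `C`.

(4) `merge_inj`: if `F₁, F₂ ∈ C` are nondegenerate with the same image in `contract u v C` then
`F₁ = F₂`: otherwise `{F₁, F₂} = {insert u σ, insert v σ}` and the count is 2 (even).

(5) `supp_contract`: the support of `contract u v C` is contained in `(supp C).erase v` provided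
`u ∈ supp C`.
-/

set_option autoImplicit false

namespace Pool.MP_f18604_gt.KF

open Finset

variable {V : Type} [Fintype V] [DecidableEq V]

private theorem c02_not_mem {u v : V} (huv : u ≠ v) (F : Finset V) : v ∉ mergeF u v F := by
  unfold mergeF
  split_ifs with h
  · simp [huv.symm]
  · exact h

private theorem c02_card {u v : V} {F : Finset V} (hn : ¬ (u ∈ F ∧ v ∈ F)) :
    (mergeF u v F).card = F.card := by
  unfold mergeF
  split_ifs with h
  · have hu : u ∉ F := fun hu => hn ⟨hu, h⟩
    rw [card_insert_of_notMem (fun h' => hu (mem_of_mem_erase h')), card_erase_of_mem h]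
    have : 0 < F.card := card_pos.2 ⟨v, h⟩
    omega
  · rfl

private theorem c02_mem_u {u v : V} (huv : u ≠ v) (F : Finset V) :
    u ∈ mergeF u v F ↔ (u ∈ F ∨ v ∈ F) := by
  unfold mergeF
  split_ifs with h
  · simp [h]
  · simp [h]

private theorem c02_mem {u v x : V} (hu : x ≠ u) (hv : x ≠ v) (F : Finset V) :
    x ∈ mergeF u v F ↔ x ∈ F := by
  unfold mergeF
  split_ifs with h
  · simp [hu, hv]
  · rfl

private theorem c02_parity (N : Finset (Finset V)) (m : Finset V → Finset V)
    (P : Finset V → Prop) [DecidablePred P] :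
    Even ((univ : Finset (Finset V)).filter
      (fun F' => P F' ∧ Odd (N.filter (fun F => m F = F')).card)).card ↔
    Even (N.filter (fun F => P (m F))).card := by
  have h1 : (N.filter (fun F => P (m F))).card =
      ∑ F' ∈ (univ : Finset (Finset V)).filter P, (N.filter (fun F => m F = F')).card := by
    rw [card_eq_sum_card_fiberwise (f := m) (t := (univ : Finset (Finset V)).filter P)]
    · refine sum_congr rfl fun F' hF' => ?_
      congr 1
      rw [filter_filter]
      refine filter_congr fun F _ => ?_
      rw [mem_filter] at hF'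
      constructor
      · exact fun h => h.2
      · intro h
        exact ⟨h ▸ hF'.2, h⟩
    · intro F hF
      rw [mem_coe, mem_filter] at hF
      rw [mem_coe, mem_filter]
      exact ⟨mem_univ _, hF.2⟩
  rw [h1, even_sum_iff_even_card_odd, filter_filter]

theorem contract_isCycle {u v : V} (huv : u ≠ v) {C : Finset (Finset V)} (hC : IsCycle C) :
    IsCycle (contract u v C) := by
  refine ⟨?_, ?_⟩
  · intro F' hF'
    simp only [contract, mem_filter] at hF'
    have hpos : 0 < (C.filter (fun F => ¬ (u ∈ F ∧ v ∈ F) ∧ mergeF u v F = F')).card :=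
      hF'.2.2.pos
    obtain ⟨F, hF⟩ := card_pos.1 hpos
    rw [mem_filter] at hF
    rw [← hF.2.2, c02_card hF.2.1]
    exact hC.1 F hF.1
  · intro R hR
    have key := c02_parity (C.filter (fun F => ¬ (u ∈ F ∧ v ∈ F))) (mergeF u v)
      (fun F' => v ∉ F' ∧ R ⊆ F')
    have e1 : (contract u v C).filter (fun F => R ⊆ F) =
        (univ : Finset (Finset V)).filter (fun F' => (v ∉ F' ∧ R ⊆ F') ∧
          Odd ((C.filter (fun F => ¬ (u ∈ F ∧ v ∈ F))).filter
            (fun F => mergeF u v F = F')).card) := by
      ext F'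
      simp only [contract, mem_filter, mem_univ, true_and, filter_filter]
      tauto
    rw [e1, key, filter_filter]
    by_cases hv : v ∈ R
    · have : C.filter (fun F => ¬ (u ∈ F ∧ v ∈ F) ∧ v ∉ mergeF u v F ∧ R ⊆ mergeF u v F) = ∅ := by
        rw [filter_eq_empty_iff]
        intro F _ h
        exact h.2.1 (h.2.2 hv)
      rw [this]
      simp
    · by_cases hu : u ∈ R
      · set A := C.filter (fun F => R ⊆ F) with hA
        set B := C.filter (fun F => insert v (R.erase u) ⊆ F) with hB
        have hAe : Even A.card := hC.2 R hR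
        have hBe : Even B.card := by
          refine hC.2 _ ?_
          rw [card_insert_of_notMem (fun h' => hv (mem_of_mem_erase h')), card_erase_of_mem hu, hR]
        have e2 : C.filter (fun F => ¬ (u ∈ F ∧ v ∈ F) ∧ v ∉ mergeF u v F ∧
            R ⊆ mergeF u v F) = (A \ B) ∪ (B \ A) := by
          ext F
          simp only [hA, hB, mem_filter, mem_union, mem_sdiff]
          constructor
          · rintro ⟨hF, hn, _, hs⟩
            have hR' : R.erase u ⊆ F := by
              intro x hx
              rw [mem_erase] at hx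
              have hxv : x ≠ v := fun h => hv (h ▸ hx.2)
              exact (c02_mem hx.1 hxv F).1 (hs hx.2)
            rcases (c02_mem_u huv F).1 (hs hu) with h | h
            · left
              refine ⟨⟨hF, ?_⟩, ?_⟩
              · intro x hx
                by_cases hxu : x = u
                · rw [hxu]; exact h
                · exact hR' (mem_erase.2 ⟨hxu, hx⟩)
              · rintro ⟨_, h2⟩
                exact hn ⟨h, h2 (mem_insert_self _ _)⟩
            · right
              refine ⟨⟨hF, insert_subset h hR'⟩, ?_⟩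
              rintro ⟨_, h2⟩
              exact hn ⟨h2 hu, h⟩
          · rintro (⟨⟨hF, h1⟩, h2⟩ | ⟨⟨hF, h1⟩, h2⟩)
            · have hvF : v ∉ F := by
                intro h
                exact h2 ⟨hF, insert_subset h ((erase_subset _ _).trans h1)⟩
              refine ⟨hF, fun h => hvF h.2, c02_not_mem huv F, ?_⟩
              intro x hx
              have : mergeF u v F = F := by
                unfold mergeF
                rw [if_neg hvF]
              rw [this]
              exact h1 hx
            · have hvF : v ∈ F := h1 (mem_insert_self _ _)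
              have huF : u ∉ F := by
                intro h
                refine h2 ⟨hF, ?_⟩
                intro x hx
                by_cases hxu : x = u
                · rw [hxu]; exact h
                · exact h1 (mem_insert_of_mem (mem_erase.2 ⟨hxu, hx⟩))
              refine ⟨hF, fun h => huF h.1, c02_not_mem huv F, ?_⟩
              intro x hx
              by_cases hxu : x = u
              · rw [hxu]
                exact (c02_mem_u huv F).2 (Or.inr hvF)
              · have hxv : x ≠ v := fun h => hv (h ▸ hx)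
                exact (c02_mem hxu hxv F).2 (h1 (mem_insert_of_mem (mem_erase.2 ⟨hxu, hx⟩)))
        rw [e2, card_union_of_disjoint]
        · have h1 := card_sdiff_add_card_inter A B
          have h2 := card_sdiff_add_card_inter B A
          rw [inter_comm] at h2
          rw [Nat.even_iff] at hAe hBe ⊢
          omega
        · rw [disjoint_left]
          intro F h1 h2
          rw [mem_sdiff] at h1 h2
          exact h1.2 h2.1
      · have e2 : C.filter (fun F => ¬ (u ∈ F ∧ v ∈ F) ∧ v ∉ mergeF u v F ∧
            R ⊆ mergeF u v F) = C.filter (fun F => R ⊆ F) := by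
          refine filter_congr fun F hF => ?_
          constructor
          · rintro ⟨_, _, hs⟩ x hx
            have hxu : x ≠ u := fun h => hu (h ▸ hx)
            have hxv : x ≠ v := fun h => hv (h ▸ hx)
            exact (c02_mem hxu hxv F).1 (hs hx)
          · intro hs
            refine ⟨?_, c02_not_mem huv F, ?_⟩
            · rintro ⟨h1, h2⟩
              have h3 : insert u (insert v R) ⊆ F := insert_subset h1 (insert_subset h2 hs)
              have h4 := card_le_card h3
              rw [card_insert_of_notMem, card_insert_of_notMem hv, hR, hC.1 F hF] at h4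
              · omega
              · simp [huv, hu]
            · intro x hx
              have hxu : x ≠ u := fun h => hu (h ▸ hx)
              have hxv : x ≠ v := fun h => hv (h ▸ hx)
              exact (c02_mem hxu hxv F).2 (hs hx)
        rw [e2]
        exact hC.2 R hR

theorem mem_contract_of_not_mem {u v : V} {C : Finset (Finset V)} {F : Finset V}
    (hu : u ∉ F) (hv : v ∉ F) : F ∈ contract u v C ↔ F ∈ C := by
  have key : ∀ F₁ : Finset V, (¬ (u ∈ F₁ ∧ v ∈ F₁) ∧ mergeF u v F₁ = F) ↔ F₁ = F := by
    intro F₁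
    constructor
    · rintro ⟨_, h2⟩
      unfold mergeF at h2
      split_ifs at h2 with h
      · exact absurd (h2 ▸ mem_insert_self _ _) hu
      · exact h2
    · rintro rfl
      refine ⟨fun h => hu h.1, ?_⟩
      unfold mergeF
      rw [if_neg hv]
  have e : C.filter (fun F₁ => ¬ (u ∈ F₁ ∧ v ∈ F₁) ∧ mergeF u v F₁ = F) =
      C.filter (fun F₁ => F₁ = F) := filter_congr fun F₁ _ => key F₁
  simp only [contract, mem_filter, mem_univ, true_and, e]
  rw [filter_eq']
  by_cases h : F ∈ C
  · simp [h, hv]
  · simp [h]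

theorem mem_contract_iff_u {u v : V} (huv : u ≠ v) {C : Finset (Finset V)} {σ : Finset V}
    (hu : u ∉ σ) (hv : v ∉ σ) :
    insert u σ ∈ contract u v C ↔ Xor (insert u σ ∈ C) (insert v σ ∈ C) := by
  have key : ∀ F₁ : Finset V, (¬ (u ∈ F₁ ∧ v ∈ F₁) ∧ mergeF u v F₁ = insert u σ) ↔
      (F₁ = insert u σ ∨ F₁ = insert v σ) := by
    intro F₁
    constructor
    · rintro ⟨h1, h2⟩
      unfold mergeF at h2
      split_ifs at h2 with h
      · right
        have huF : u ∉ F₁ := fun h' => h1 ⟨h', h⟩
        have h3 : F₁.erase v = σ := by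
          have h4 : (insert u (F₁.erase v)).erase u = (insert u σ).erase u := by rw [h2]
          rw [erase_insert (fun h' => huF (mem_of_mem_erase h')), erase_insert hu] at h4
          exact h4
        rw [← h3, insert_erase h]
      · left; exact h2
    · rintro (rfl | rfl)
      · have hv' : v ∉ insert u σ := by simp [huv.symm, hv]
        refine ⟨fun h => hv' h.2, ?_⟩
        unfold mergeF
        rw [if_neg hv']
      · have hu' : u ∉ insert v σ := by simp [huv, hu]
        refine ⟨fun h => hu' h.1, ?_⟩
        unfold mergeF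
        rw [if_pos (mem_insert_self _ _), erase_insert hv]
  have hne : insert u σ ≠ insert v σ := by
    intro h
    have h1 : u ∈ insert v σ := h ▸ mem_insert_self u σ
    rw [mem_insert] at h1
    rcases h1 with h1 | h1
    · exact huv h1
    · exact hu h1
  have e : C.filter (fun F₁ => ¬ (u ∈ F₁ ∧ v ∈ F₁) ∧ mergeF u v F₁ = insert u σ) =
      C.filter (fun F₁ => F₁ = insert u σ) ∪ C.filter (fun F₁ => F₁ = insert v σ) := by
    rw [← filter_or]
    exact filter_congr fun F₁ _ => key F₁
  have hcard : (C.filter (fun F₁ => ¬ (u ∈ F₁ ∧ v ∈ F₁) ∧ mergeF u v F₁ = insert u σ)).card =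
      (if insert u σ ∈ C then 1 else 0) + (if insert v σ ∈ C then 1 else 0) := by
    rw [e, card_union_of_disjoint]
    · rw [filter_eq', filter_eq']
      congr 1
      · split_ifs <;> simp
      · split_ifs <;> simp
    · rw [disjoint_left]
      intro F h1 h2
      rw [mem_filter] at h1 h2
      exact hne (h1.2.symm.trans h2.2)
  have hv' : v ∉ insert u σ := by simp [huv.symm, hv]
  simp only [contract, mem_filter, mem_univ, true_and, hcard]
  by_cases h1 : insert u σ ∈ C <;> by_cases h2 : insert v σ ∈ C <;>
    simp [h1, h2, Xor, huv.symm, hv]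

theorem merge_inj {u v : V} (huv : u ≠ v) {C : Finset (Finset V)} {F₁ F₂ : Finset V}
    (h1 : F₁ ∈ C) (h2 : F₂ ∈ C) (hn1 : ¬ (u ∈ F₁ ∧ v ∈ F₁)) (hn2 : ¬ (u ∈ F₂ ∧ v ∈ F₂))
    (h : mergeF u v F₁ = mergeF u v F₂) (hm : mergeF u v F₁ ∈ contract u v C) : F₁ = F₂ := by
  have aux : ∀ G₁ G₂ : Finset V, G₁ ∈ C → G₂ ∈ C → ¬ (u ∈ G₁ ∧ v ∈ G₁) →
      mergeF u v G₁ = mergeF u v G₂ → mergeF u v G₁ ∈ contract u v C → v ∈ G₁ → v ∉ G₂ →
      False := by
    intro G₁ G₂ g1 g2 gn ge gm gv gv2
    have huG : u ∉ G₁ := fun h' => gn ⟨h', gv⟩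
    have e1 : mergeF u v G₁ = insert u (G₁.erase v) := by
      unfold mergeF; rw [if_pos gv]
    have e2 : mergeF u v G₂ = G₂ := by
      unfold mergeF; rw [if_neg gv2]
    rw [e1] at gm
    rw [mem_contract_iff_u huv (fun h' => huG (mem_of_mem_erase h')) (notMem_erase _ _)] at gm
    have m1 : insert u (G₁.erase v) ∈ C := by
      rw [← e1, ge, e2]; exact g2
    have m2 : insert v (G₁.erase v) ∈ C := by
      rw [insert_erase gv]; exact g1
    rcases gm with ⟨_, g⟩ | ⟨_, g⟩
    · exact g m2
    · exact g m1
  by_cases hv1 : v ∈ F₁ <;> by_cases hv2 : v ∈ F₂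
  · have e1 : mergeF u v F₁ = insert u (F₁.erase v) := by
      unfold mergeF; rw [if_pos hv1]
    have e2 : mergeF u v F₂ = insert u (F₂.erase v) := by
      unfold mergeF; rw [if_pos hv2]
    rw [e1, e2] at h
    have hu1 : u ∉ F₁.erase v := fun h' => hn1 ⟨mem_of_mem_erase h', hv1⟩
    have hu2 : u ∉ F₂.erase v := fun h' => hn2 ⟨mem_of_mem_erase h', hv2⟩
    have h4 : (insert u (F₁.erase v)).erase u = (insert u (F₂.erase v)).erase u := by rw [h]
    rw [erase_insert hu1, erase_insert hu2] at h4
    rw [← insert_erase hv1, h4, insert_erase hv2]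
  · exact (aux F₁ F₂ h1 h2 hn1 h hm hv1 hv2).elim
  · exact (aux F₂ F₁ h2 h1 hn2 h.symm (h ▸ hm) hv2 hv1).elim
  · have e1 : mergeF u v F₁ = F₁ := by
      unfold mergeF; rw [if_neg hv1]
    have e2 : mergeF u v F₂ = F₂ := by
      unfold mergeF; rw [if_neg hv2]
    rw [e1, e2] at h
    exact h

theorem supp_contract {u v : V} {C : Finset (Finset V)} (hu : u ∈ supp C) :
    supp (contract u v C) ⊆ (supp C).erase v := by
  intro x hx
  simp only [supp, mem_biUnion, id] at hx hu ⊢
  obtain ⟨F', hF', hxF⟩ := hx
  simp only [contract, mem_filter, mem_univ, true_and] at hF'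
  obtain ⟨F, hF⟩ := card_pos.1 hF'.2.pos
  rw [mem_filter] at hF
  rw [mem_erase]
  refine ⟨fun h => hF'.1 (h ▸ hxF), ?_⟩
  by_cases hxu : x = u
  · rw [hxu, mem_biUnion]
    obtain ⟨G, hG, huG⟩ := hu
    exact ⟨G, hG, huG⟩
  · rw [mem_biUnion]
    have hxv : x ≠ v := fun h => hF'.1 (h ▸ hxF)
    refine ⟨F, hF.1, ?_⟩
    rw [← hF.2.2] at hxF
    exact (c02_mem hxu hxv F).1 hxF

end Pool.MP_f18604_gt.KF
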