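import Mathlib
import Pool.Agent.Helper47.KF.Defs
import Pool.Agent.Helper47.KF.C02

/-!
# KF-C03: lifting a part of the contracted cycle

`C` is a cycle, `u ≠ v`, `Y ⊆ contract u v C` is a cycle, `L = lift u v C Y`, the nondegenerate
members `F` of `C` with `mergeF F ∈ Y`. By `merge_inj` (C02) the map `mergeF : L → Y` is injective;
it is surjective by the definition of `contract` (an odd number is positive). Write `n(R)` for the
number of members of `L` containing the 3-set `R`.

`plus_isCycle`. Members of `plus u v C Y` have 4 elements. Let `|R| = 3`. The added members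
`insert u (insert v σ)`, `σ ∈ spokes`, are degenerate, so not in `L`, and determine `σ`.
(a) `u, v ∉ R`: no added member contains `R`; for `F ∈ L`, `R ⊆ F ↔ R ⊆ mergeF F`, so `n(R)` is the
number of members of `Y` containing `R`, even.
(b) `R = insert u σ`, `|σ| = 2`, `u, v ∉ σ`: the only possibly added member containing `R` is
`insert u (insert v σ)`, and it is there iff `n(R)` is odd; total even.
(c) `R = insert v σ`, `|σ| = 2`, `u, v ∉ σ`: the members of `Y` containing `insert u σ` correspond
to the `F ∈ L` with `σ ⊆ F` and (`u ∈ F` or `v ∈ F`), i.e. (nondegenerate)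
`n(insert u σ) + n(insert v σ)` is even. So the same argument as in (b) applies
(`spokes_symm`: `σ ∈ spokes` iff `n(insert v σ)` is odd).
(d) `R = {u, v, a}`: `n(R) = 0`. The added members containing `R` are given by the `σ ∈ spokes`
with `a ∈ σ`; `#{σ ∈ spokes : a ∈ σ} ≡ ∑_{b ≠ a, u, v} n({u, a, b}) =
∑_{F ∈ L, {u, a} ⊆ F} #(F \ {u, a}) = ∑ 2 ≡ 0` (`F ∈ L` with `u ∈ F` does not contain `v`).

`even_spokes`: the statement (d).

`E_plus`: a pair in a member of `plus` is a pair in a member of `C` (given `E C u v`): clear for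
members of `L ⊆ C`; for `insert u (insert v σ)`, `σ ∈ spokes`: `insert u σ` lies in a member of `L`
(odd, so positive), also `insert v σ` (by `spokes_symm`), and `uv` is given.

`E_of_Y`: let `E Y i j`, `i, j ∈ F' ∈ Y`, `F' = mergeF F`, `F ∈ L`. If `i, j ≠ u`: `i, j ∈ F`
(`v ∉ F'`). If `i = u ≠ j`: `u ∈ F` or `v ∈ F`, and `j ∈ F`.

`supp_plus`: the support of `plus` is contained in `insert v (supp Y)`: for `F ∈ L`,
`F.erase v ⊆ mergeF F`. For `σ ∈ spokes`, `insert u σ ⊆ F` for some `F ∈ L`, `v ∉ F`, so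
`mergeF F = F ∈ Y` contains `u` and `σ`.

`exists_common`: if `C` is a minimal cycle, `E C u v`, `Y` nonempty, then `spokes` is nonempty:
otherwise `plus = L` is a cycle contained in `C`, nonempty since `mergeF : L → Y` is onto, so
`L = C`; but `C` has a member containing `u` and `v`, and `L` does not. Let `σ = {a, b} ∈ spokes`;
by `even_spokes` for `a` there is another spoke `{a, c}`, `c ≠ b`. Then `r = ![a, b, c]`
works: `E (plus) u a`, etc. from the members `insert u (insert v σ)`. Moreover `u ∈ supp Y` (see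
`supp_plus`) and `E (plus) u v`.
-/

set_option autoImplicit false

namespace Pool.MP_f18604_gt.KF

open Finset

variable {V : Type} [Fintype V] [DecidableEq V]

variable {u v : V} {C Y : Finset (Finset V)}

/-! ### auxiliary statements -/

omit [Fintype V] in
theorem c03_mem {F : Finset V} {x : V} (hxu : x ≠ u) (hxv : x ≠ v) :
    x ∈ mergeF u v F ↔ x ∈ F := by
  unfold mergeF
  split_ifs
  · simp [hxu, hxv]
  · rfl

omit [Fintype V] in
theorem c03_mem_u {F : Finset V} : u ∈ mergeF u v F ↔ u ∈ F ∨ v ∈ F := by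
  unfold mergeF
  split_ifs with h
  · simp [h]
  · simp [h]

omit [Fintype V] in
theorem c03_not_mem_v (huv : u ≠ v) {F : Finset V} : v ∉ mergeF u v F := by
  unfold mergeF
  split_ifs with h
  · simp [huv.symm]
  · exact h

omit [Fintype V] in
theorem c03_lift {F : Finset V} : F ∈ lift u v C Y ↔
    F ∈ C ∧ ¬ (u ∈ F ∧ v ∈ F) ∧ mergeF u v F ∈ Y := by
  unfold lift
  rw [mem_filter]

theorem c03_spokes {L : Finset (Finset V)} {σ : Finset V} : σ ∈ spokes u v L ↔
    σ.card = 2 ∧ u ∉ σ ∧ v ∉ σ ∧ Odd (L.filter (fun F => insert u σ ⊆ F)).card := by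
  unfold spokes
  rw [mem_filter]
  simp

theorem c03_image (hYC : Y ⊆ contract u v C) : (lift u v C Y).image (mergeF u v) = Y := by
  ext F'
  rw [mem_image]
  constructor
  · rintro ⟨F, hF, rfl⟩
    exact (c03_lift.1 hF).2.2
  · intro h
    have h1 := (mem_filter.1 (hYC h)).2.2
    obtain ⟨F, hF⟩ := card_pos.1 h1.pos
    obtain ⟨h2, h3, h4⟩ := mem_filter.1 hF
    exact ⟨F, c03_lift.2 ⟨h2, h3, h4 ▸ h⟩, h4⟩

theorem c03_inj (huv : u ≠ v) (hYC : Y ⊆ contract u v C) :
    Set.InjOn (mergeF u v) (lift u v C Y : Set (Finset V)) := by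
  intro F1 h1 F2 h2 h
  have h1' := c03_lift.1 (mem_coe.1 h1)
  have h2' := c03_lift.1 (mem_coe.1 h2)
  exact merge_inj huv h1'.1 h2'.1 h1'.2.1 h2'.2.1 h (hYC h1'.2.2)

theorem c03_card (huv : u ≠ v) (hYC : Y ⊆ contract u v C) (P : Finset V → Prop)
    [DecidablePred P] : (Y.filter P).card =
      ((lift u v C Y).filter (fun F => P (mergeF u v F))).card := by
  conv_lhs => rw [← c03_image hYC]
  rw [filter_image, card_image_of_injOn]
  intro x hx y hy h
  exact c03_inj huv hYC (mem_coe.2 (mem_filter.1 (mem_coe.1 hx)).1)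
    (mem_coe.2 (mem_filter.1 (mem_coe.1 hy)).1) h

omit [Fintype V] in
theorem c03_ins {σ R : Finset V} (hσ : σ.card = 2) (hR : R.card = 3) (hu : u ∈ R) (hv : v ∉ R)
    (huσ : u ∉ σ) : R ⊆ insert u (insert v σ) ↔ R.erase u = σ := by
  have _ := huσ
  constructor
  · intro h
    apply eq_of_subset_of_card_le
    · intro x hx
      obtain ⟨h1, h2⟩ := mem_erase.1 hx
      rcases mem_insert.1 (h h2) with h3 | h3
      · exact absurd h3 h1
      · rcases mem_insert.1 h3 with h4 | h4
        · exact absurd (h4 ▸ h2) hv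
        · exact h4
    · rw [card_erase_of_mem hu, hR, hσ]
  · intro h x hx
    by_cases hxu : x = u
    · rw [hxu]
      exact mem_insert_self _ _
    · exact mem_insert_of_mem (mem_insert_of_mem (h ▸ mem_erase.2 ⟨hxu, hx⟩))

theorem spokes_symm (huv : u ≠ v) (hC : IsCycle C) (hY : IsCycle Y) (hYC : Y ⊆ contract u v C)
    {σ : Finset V} (hσ : σ.card = 2) (hu : u ∉ σ) (hv : v ∉ σ) :
    σ ∈ spokes u v (lift u v C Y) ↔
      Odd ((lift u v C Y).filter (fun F => insert v σ ⊆ F)).card := by
  have _ := hC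
  have h1 := hY.2 (insert u σ) (by rw [card_insert_of_notMem hu, hσ])
  rw [c03_card huv hYC] at h1
  have h2 : (lift u v C Y).filter (fun F => insert u σ ⊆ mergeF u v F) =
      (lift u v C Y).filter (fun F => insert u σ ⊆ F) ∪
        (lift u v C Y).filter (fun F => insert v σ ⊆ F) := by
    rw [← filter_or]
    apply filter_congr
    intro F hF
    have hn := (c03_lift.1 hF).2.1
    have h3 : ∀ x ∈ σ, (x ∈ mergeF u v F ↔ x ∈ F) := fun x hx =>
      c03_mem (fun e => hu (e ▸ hx)) (fun e => hv (e ▸ hx))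
    rw [insert_subset_iff, insert_subset_iff, insert_subset_iff, c03_mem_u]
    have h4 : σ ⊆ mergeF u v F ↔ σ ⊆ F :=
      ⟨fun h x hx => (h3 x hx).1 (h hx), fun h x hx => (h3 x hx).2 (h hx)⟩
    rw [h4]
    tauto
  have h3 : Disjoint ((lift u v C Y).filter (fun F => insert u σ ⊆ F))
      ((lift u v C Y).filter (fun F => insert v σ ⊆ F)) := by
    rw [disjoint_filter]
    intro F hF h4 h5
    exact (c03_lift.1 hF).2.1 ⟨h4 (mem_insert_self _ _), h5 (mem_insert_self _ _)⟩
  rw [h2, card_union_of_disjoint h3, Nat.even_add] at h1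
  rw [c03_spokes, ← Nat.not_even_iff_odd, ← Nat.not_even_iff_odd, h1]
  tauto

theorem even_spokes (huv : u ≠ v) (hC : IsCycle C) (a : V) (hau : a ≠ u) (hav : a ≠ v) :
    Even ((spokes u v (lift u v C Y)).filter (fun σ => a ∈ σ)).card := by
  have _ := huv
  let L := lift u v C Y
  let B : Finset V := univ.filter (fun b => b ≠ u ∧ b ≠ v ∧ b ≠ a)
  have h1 : ∑ b ∈ B, (L.filter (fun F => insert u {a, b} ⊆ F)).card =
      ∑ F ∈ L.filter (fun F => u ∈ F ∧ a ∈ F), 2 := by
    have h2 : ∀ b ∈ B, (L.filter (fun F => insert u {a, b} ⊆ F)).card =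
        ∑ F ∈ L.filter (fun F => u ∈ F ∧ a ∈ F), if b ∈ F then 1 else 0 := by
      intro b _
      rw [← card_filter, filter_filter]
      congr 1
      apply filter_congr
      intro F _
      rw [insert_subset_iff, insert_subset_iff, singleton_subset_iff]
      tauto
    rw [sum_congr rfl h2, sum_comm]
    apply sum_congr rfl
    intro F hF
    obtain ⟨hFL, huF, haF⟩ := mem_filter.1 hF
    obtain ⟨hFC, hn, _⟩ := c03_lift.1 hFL
    rw [← card_filter]
    have h3 : B.filter (fun b => b ∈ F) = (F.erase u).erase a := by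
      ext b
      rw [mem_filter, mem_filter, mem_erase, mem_erase]
      constructor
      · rintro ⟨⟨_, h4, h5, h6⟩, h7⟩
        exact ⟨h6, h4, h7⟩
      · rintro ⟨h4, h5, h6⟩
        exact ⟨⟨mem_univ _, h5, fun e => hn ⟨huF, e ▸ h6⟩, h4⟩, h6⟩
    rw [h3, card_erase_of_mem (mem_erase.2 ⟨hau, haF⟩), card_erase_of_mem huF, hC.1 F hFC]
  have h4 : Even (∑ b ∈ B, (L.filter (fun F => insert u {a, b} ⊆ F)).card) := by
    rw [h1, sum_const, smul_eq_mul]
    exact (even_two).mul_left _
  rw [even_sum_iff_even_card_odd] at h4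
  have h5 : (B.filter (fun b => Odd (L.filter (fun F => insert u {a, b} ⊆ F)).card)).card =
      ((spokes u v (lift u v C Y)).filter (fun σ => a ∈ σ)).card := by
    refine card_bij (fun b _ => ({a, b} : Finset V)) ?_ ?_ ?_
    · intro b hb
      obtain ⟨hb1, hb2⟩ := mem_filter.1 hb
      obtain ⟨_, hbu, hbv, hba⟩ := mem_filter.1 hb1
      rw [mem_filter, c03_spokes]
      refine ⟨⟨card_pair hba.symm, ?_, ?_, hb2⟩, mem_insert_self _ _⟩
      · simp [hau.symm, hbu.symm]
      · simp [hav.symm, hbv.symm]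
    · intro b hb b' hb' h
      obtain ⟨hb1, hb2⟩ := mem_filter.1 hb
      obtain ⟨_, hbu, hbv, hba⟩ := mem_filter.1 hb1
      have h6 : b ∈ ({a, b'} : Finset V) := by
        rw [← show ({a, b} : Finset V) = {a, b'} from h]
        simp
      rcases mem_insert.1 h6 with h7 | h7
      · exact absurd h7 hba
      · exact mem_singleton.1 h7
    · intro σ hσ
      obtain ⟨h6, h7⟩ := mem_filter.1 hσ
      obtain ⟨h8, h9, h10, h11⟩ := c03_spokes.1 h6
      obtain ⟨x, y, hxy, rfl⟩ := card_eq_two.1 h8
      have key : ∀ b, b ≠ a → u ∉ ({a, b} : Finset V) → v ∉ ({a, b} : Finset V) →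
          Odd (L.filter (fun F => insert u {a, b} ⊆ F)).card →
          b ∈ B.filter (fun b => Odd (L.filter (fun F => insert u {a, b} ⊆ F)).card) := by
        intro b hb h1 h2 h3
        rw [mem_filter, mem_filter]
        refine ⟨⟨mem_univ _, fun e => h1 ?_, fun e => h2 ?_, hb⟩, h3⟩
        · rw [← e]
          simp
        · rw [← e]
          simp
      rcases mem_insert.1 h7 with h12 | h12
      · subst h12
        exact ⟨y, key y hxy.symm h9 h10 h11, rfl⟩
      · have h13 := mem_singleton.1 h12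
        subst h13
        rw [pair_comm] at h9 h10 h11
        exact ⟨x, key x hxy h9 h10 h11, pair_comm _ _⟩
  rwa [h5] at h4

theorem plus_isCycle (huv : u ≠ v) (hC : IsCycle C) (hY : IsCycle Y)
    (hYC : Y ⊆ contract u v C) : IsCycle (plus u v C Y) := by
  have hins : ∀ σ ∈ spokes u v (lift u v C Y), ((insert u (insert v σ)).erase u).erase v = σ := by
    intro σ hσ
    obtain ⟨h1, h2, h3, _⟩ := c03_spokes.1 hσ
    have h4 : u ∉ insert v σ := by
      rw [mem_insert]
      rintro (h | h)
      · exact huv h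
      · exact h2 h
    rw [erase_insert h4, erase_insert h3]
  refine ⟨?_, ?_⟩
  · intro F hF
    rcases mem_union.1 hF with hF | hF
    · exact hC.1 F (c03_lift.1 hF).1
    · obtain ⟨σ, hσ, rfl⟩ := mem_image.1 hF
      obtain ⟨h1, h2, h3, _⟩ := c03_spokes.1 hσ
      rw [card_insert_of_notMem, card_insert_of_notMem h3, h1]
      rw [mem_insert]
      rintro (h | h)
      · exact huv h
      · exact h2 h
  · intro R hR
    have h1 : ((plus u v C Y).filter (fun F => R ⊆ F)).card =
        ((lift u v C Y).filter (fun F => R ⊆ F)).card +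
          ((spokes u v (lift u v C Y)).filter (fun σ => R ⊆ insert u (insert v σ))).card := by
      unfold plus
      rw [filter_union, card_union_of_disjoint, filter_image, card_image_of_injOn]
      · intro σ hσ τ hτ h
        rw [← hins σ (mem_filter.1 (mem_coe.1 hσ)).1, ← hins τ (mem_filter.1 (mem_coe.1 hτ)).1]
        simp only at h
        rw [h]
      · rw [Finset.disjoint_left]
        intro F hF hF'
        obtain ⟨σ, _, rfl⟩ := mem_image.1 (mem_filter.1 hF').1
        exact (c03_lift.1 (mem_filter.1 hF).1).2.1 ⟨mem_insert_self _ _,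
          mem_insert_of_mem (mem_insert_self _ _)⟩
    rw [h1]
    by_cases huR : u ∈ R
    · by_cases hvR : v ∈ R
      · have h2 : (lift u v C Y).filter (fun F => R ⊆ F) = ∅ := by
          rw [filter_eq_empty_iff]
          intro F hF h
          exact (c03_lift.1 hF).2.1 ⟨h huR, h hvR⟩
        rw [h2, card_empty, zero_add]
        have h3 : ((R.erase u).erase v).card = 1 := by
          rw [card_erase_of_mem (mem_erase.2 ⟨huv.symm, hvR⟩), card_erase_of_mem huR, hR]
        obtain ⟨a, ha⟩ := card_eq_one.1 h3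
        have ha' : a ∈ (R.erase u).erase v := by rw [ha]; exact mem_singleton_self _
        obtain ⟨hav, ha2⟩ := mem_erase.1 ha'
        obtain ⟨hau, haR⟩ := mem_erase.1 ha2
        have h4 : (spokes u v (lift u v C Y)).filter (fun σ => R ⊆ insert u (insert v σ)) =
            (spokes u v (lift u v C Y)).filter (fun σ => a ∈ σ) := by
          apply filter_congr
          intro σ _
          constructor
          · intro h
            rcases mem_insert.1 (h haR) with h5 | h5
            · exact absurd h5 hau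
            · rcases mem_insert.1 h5 with h6 | h6
              · exact absurd h6 hav
              · exact h6
          · intro h x hx
            by_cases hxu : x = u
            · rw [hxu]
              exact mem_insert_self _ _
            · by_cases hxv : x = v
              · rw [hxv]
                exact mem_insert_of_mem (mem_insert_self _ _)
              · have h5 : x ∈ (R.erase u).erase v := mem_erase.2 ⟨hxv, mem_erase.2 ⟨hxu, hx⟩⟩
                rw [ha, mem_singleton] at h5
                rw [h5]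
                exact mem_insert_of_mem (mem_insert_of_mem h)
        rw [h4]
        exact even_spokes huv hC a hau hav
      · have h2 : R = insert u (R.erase u) := (insert_erase huR).symm
        have h3 : (R.erase u).card = 2 := by rw [card_erase_of_mem huR, hR]
        have h4 : (spokes u v (lift u v C Y)).filter (fun σ => R ⊆ insert u (insert v σ)) =
            (spokes u v (lift u v C Y)).filter (fun σ => R.erase u = σ) := by
          apply filter_congr
          intro σ hσ
          obtain ⟨k1, k2, k3, _⟩ := c03_spokes.1 hσ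
          exact c03_ins k1 hR huR hvR k2
        rw [h4, filter_eq]
        have h5 : R.erase u ∈ spokes u v (lift u v C Y) ↔
            Odd ((lift u v C Y).filter (fun F => R ⊆ F)).card := by
          rw [c03_spokes, ← h2]
          constructor
          · exact fun h => h.2.2.2
          · exact fun h => ⟨h3, by simp, fun h => hvR (mem_of_mem_erase h), h⟩
        by_cases h6 : R.erase u ∈ spokes u v (lift u v C Y)
        · rw [if_pos h6, card_singleton]
          exact (h5.1 h6).add_odd odd_one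
        · rw [if_neg h6, card_empty, add_zero, ← Nat.not_odd_iff_even]
          exact fun h => h6 (h5.2 h)
    · by_cases hvR : v ∈ R
      · have h2 : R = insert v (R.erase v) := (insert_erase hvR).symm
        have h3 : (R.erase v).card = 2 := by rw [card_erase_of_mem hvR, hR]
        have h4 : (spokes u v (lift u v C Y)).filter (fun σ => R ⊆ insert u (insert v σ)) =
            (spokes u v (lift u v C Y)).filter (fun σ => R.erase v = σ) := by
          apply filter_congr
          intro σ hσ
          obtain ⟨k1, k2, k3, _⟩ := c03_spokes.1 hσ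
          rw [Finset.insert_comm]
          exact c03_ins k1 hR hvR huR k3
        rw [h4, filter_eq]
        have h5 : R.erase v ∈ spokes u v (lift u v C Y) ↔
            Odd ((lift u v C Y).filter (fun F => R ⊆ F)).card := by
          rw [spokes_symm huv hC hY hYC h3 (fun h => huR (mem_of_mem_erase h)) (by simp), ← h2]
        by_cases h6 : R.erase v ∈ spokes u v (lift u v C Y)
        · rw [if_pos h6, card_singleton]
          exact (h5.1 h6).add_odd odd_one
        · rw [if_neg h6, card_empty, add_zero, ← Nat.not_odd_iff_even]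
          exact fun h => h6 (h5.2 h)
      · have h2 : (spokes u v (lift u v C Y)).filter (fun σ => R ⊆ insert u (insert v σ)) = ∅ := by
          rw [filter_eq_empty_iff]
          intro σ hσ h
          have h3 : R ⊆ σ := by
            intro x hx
            rcases mem_insert.1 (h hx) with h5 | h5
            · exact absurd (h5 ▸ hx) huR
            · rcases mem_insert.1 h5 with h6 | h6
              · exact absurd (h6 ▸ hx) hvR
              · exact h6
          have h4 := card_le_card h3
          rw [hR, (c03_spokes.1 hσ).1] at h4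
          omega
        rw [h2, card_empty, add_zero]
        have h3 := hY.2 R hR
        rw [c03_card huv hYC] at h3
        have h4 : (lift u v C Y).filter (fun F => R ⊆ mergeF u v F) =
            (lift u v C Y).filter (fun F => R ⊆ F) := by
          apply filter_congr
          intro F _
          have h5 : ∀ x ∈ R, (x ∈ mergeF u v F ↔ x ∈ F) := fun x hx =>
            c03_mem (fun e => huR (e ▸ hx)) (fun e => hvR (e ▸ hx))
          exact ⟨fun h x hx => (h5 x hx).1 (h hx), fun h x hx => (h5 x hx).2 (h hx)⟩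
        rwa [h4] at h3

theorem c03_spoke_u {σ : Finset V} (hσ : σ ∈ spokes u v (lift u v C Y)) :
    ∃ F ∈ lift u v C Y, insert u σ ⊆ F := by
  obtain ⟨_, _, _, h⟩ := c03_spokes.1 hσ
  obtain ⟨F, hF⟩ := card_pos.1 h.pos
  exact ⟨F, (mem_filter.1 hF).1, (mem_filter.1 hF).2⟩

theorem c03_spoke_v (huv : u ≠ v) (hC : IsCycle C) (hY : IsCycle Y) (hYC : Y ⊆ contract u v C)
    {σ : Finset V} (hσ : σ ∈ spokes u v (lift u v C Y)) :
    ∃ F ∈ lift u v C Y, insert v σ ⊆ F := by
  obtain ⟨h1, h2, h3, _⟩ := c03_spokes.1 hσ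
  obtain ⟨F, hF⟩ := card_pos.1 ((spokes_symm huv hC hY hYC h1 h2 h3).1 hσ).pos
  exact ⟨F, (mem_filter.1 hF).1, (mem_filter.1 hF).2⟩

theorem E_plus (huv : u ≠ v) (hC : IsCycle C) (hY : IsCycle Y) (hYC : Y ⊆ contract u v C)
    (hE : E C u v) {i j : V} (h : E (plus u v C Y) i j) : E C i j := by
  obtain ⟨F, hF, hi, hj⟩ := h
  rcases mem_union.1 hF with hF | hF
  · exact ⟨F, (c03_lift.1 hF).1, hi, hj⟩
  · obtain ⟨σ, hσ, rfl⟩ := mem_image.1 hF
    obtain ⟨F1, hF1, h1⟩ := c03_spoke_u hσ
    obtain ⟨F2, hF2, h2⟩ := c03_spoke_v huv hC hY hYC hσ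
    have hF1' := (c03_lift.1 hF1).1
    have hF2' := (c03_lift.1 hF2).1
    have hu1 : u ∈ F1 := h1 (mem_insert_self _ _)
    have hv2 : v ∈ F2 := h2 (mem_insert_self _ _)
    have hs1 : ∀ x ∈ σ, x ∈ F1 := fun x hx => h1 (mem_insert_of_mem hx)
    have hs2 : ∀ x ∈ σ, x ∈ F2 := fun x hx => h2 (mem_insert_of_mem hx)
    obtain ⟨F0, hF0, hu0, hv0⟩ := hE
    rcases mem_insert.1 hi with hi1 | hi1
    · rw [hi1]
      rcases mem_insert.1 hj with hj1 | hj1
      · rw [hj1]
        exact ⟨F0, hF0, hu0, hu0⟩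
      · rcases mem_insert.1 hj1 with hj2 | hj2
        · rw [hj2]
          exact ⟨F0, hF0, hu0, hv0⟩
        · exact ⟨F1, hF1', hu1, hs1 j hj2⟩
    · rcases mem_insert.1 hi1 with hi2 | hi2
      · rw [hi2]
        rcases mem_insert.1 hj with hj1 | hj1
        · rw [hj1]
          exact ⟨F0, hF0, hv0, hu0⟩
        · rcases mem_insert.1 hj1 with hj2 | hj2
          · rw [hj2]
            exact ⟨F0, hF0, hv0, hv0⟩
          · exact ⟨F2, hF2', hv2, hs2 j hj2⟩
      · rcases mem_insert.1 hj with hj1 | hj1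
        · rw [hj1]
          exact ⟨F1, hF1', hs1 i hi2, hu1⟩
        · rcases mem_insert.1 hj1 with hj2 | hj2
          · rw [hj2]
            exact ⟨F2, hF2', hs2 i hi2, hv2⟩
          · exact ⟨F1, hF1', hs1 i hi2, hs1 j hj2⟩

theorem E_of_Y (hYC : Y ⊆ contract u v C) {i j : V} (hi : i ≠ u) (hj : j ≠ u)
    (h : E Y i j) : E (plus u v C Y) i j := by
  obtain ⟨F', hF', hiF, hjF⟩ := h
  have hv : v ∉ F' := (mem_filter.1 (hYC hF')).2.1
  rw [← c03_image hYC, mem_image] at hF'
  obtain ⟨F, hF, rfl⟩ := hF'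
  refine ⟨F, mem_union_left _ hF, ?_, ?_⟩
  · exact (c03_mem hi (fun e => hv (e.subst (motive := fun z => z ∈ mergeF u v F) hiF))).1 hiF
  · exact (c03_mem hj (fun e => hv (e.subst (motive := fun z => z ∈ mergeF u v F) hjF))).1 hjF

theorem E_of_Y' (hYC : Y ⊆ contract u v C) {j : V} (hj : j ≠ u)
    (h : E Y u j) : E (plus u v C Y) u j ∨ E (plus u v C Y) v j := by
  obtain ⟨F', hF', hiF, hjF⟩ := h
  have hv : v ∉ F' := (mem_filter.1 (hYC hF')).2.1
  rw [← c03_image hYC, mem_image] at hF'
  obtain ⟨F, hF, rfl⟩ := hF'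
  have hjF' := (c03_mem hj (fun e => hv (e.subst (motive := fun z => z ∈ mergeF u v F) hjF))).1 hjF
  rcases c03_mem_u.1 hiF with h | h
  · exact Or.inl ⟨F, mem_union_left _ hF, h, hjF'⟩
  · exact Or.inr ⟨F, mem_union_left _ hF, h, hjF'⟩

theorem c03_merge_eq {F : Finset V} (hF : F ∈ lift u v C Y) (hu : u ∈ F) : F ∈ Y := by
  obtain ⟨_, h2, h3⟩ := c03_lift.1 hF
  have hv : v ∉ F := fun h => h2 ⟨hu, h⟩
  unfold mergeF at h3
  rwa [if_neg hv] at h3

theorem supp_plus (huv : u ≠ v) : supp (plus u v C Y) ⊆ insert v (supp Y) := by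
  have _ := huv
  intro i hi
  unfold supp at hi ⊢
  rw [mem_biUnion] at hi
  obtain ⟨F, hF, hiF⟩ := hi
  rw [mem_insert, mem_biUnion]
  by_cases hiv : i = v
  · exact Or.inl hiv
  right
  rcases mem_union.1 hF with hF | hF
  · refine ⟨mergeF u v F, (c03_lift.1 hF).2.2, ?_⟩
    by_cases hiu : i = u
    · subst hiu
      exact c03_mem_u.2 (Or.inl hiF)
    · exact (c03_mem hiu hiv).2 hiF
  · obtain ⟨σ, hσ, rfl⟩ := mem_image.1 hF
    obtain ⟨F1, hF1, h1⟩ := c03_spoke_u hσ
    refine ⟨F1, c03_merge_eq hF1 (h1 (mem_insert_self _ _)), ?_⟩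
    rcases mem_insert.1 hiF with h2 | h2
    · exact h1 (h2 ▸ mem_insert_self _ _)
    · rcases mem_insert.1 h2 with h3 | h3
      · exact absurd h3 hiv
      · exact h1 (mem_insert_of_mem h3)

theorem exists_common (huv : u ≠ v) (hC : IsMinCycle C) (hY : IsCycle Y) (hne : Y.Nonempty)
    (hYC : Y ⊆ contract u v C) (hE : E C u v) :
    u ∈ supp Y ∧ E (plus u v C Y) u v ∧ ∃ r : Fin 3 → V, Function.Injective r ∧
      (∀ a, r a ≠ u) ∧ (∀ a, r a ≠ v) ∧ (∀ a, E (plus u v C Y) u (r a)) ∧
      ∀ a, E (plus u v C Y) v (r a) := by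
  have hsp : (spokes u v (lift u v C Y)).Nonempty := by
    rw [nonempty_iff_ne_empty]
    intro h0
    have h1 : plus u v C Y = lift u v C Y := by
      unfold plus
      rw [h0, image_empty, union_empty]
    have h2 := plus_isCycle huv hC.1 hY hYC
    rw [h1] at h2
    have h3 : (lift u v C Y).Nonempty := by
      rw [← image_nonempty (f := mergeF u v), c03_image hYC]
      exact hne
    have h4 := hC.2.2 _ (fun F hF => (c03_lift.1 hF).1) h2 h3
    obtain ⟨F, hF, hu, hv⟩ := hE
    rw [← h4] at hF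
    exact (c03_lift.1 hF).2.1 ⟨hu, hv⟩
  obtain ⟨σ, hσ⟩ := hsp
  obtain ⟨h1, h2, h3, _⟩ := c03_spokes.1 hσ
  obtain ⟨a, b, hab, rfl⟩ := card_eq_two.1 h1
  have hau : a ≠ u := fun e => h2 (by rw [← e]; simp)
  have hav : a ≠ v := fun e => h3 (by rw [← e]; simp)
  have hbu : b ≠ u := fun e => h2 (by rw [← e]; simp)
  have hbv : b ≠ v := fun e => h3 (by rw [← e]; simp)
  have hev := even_spokes (Y := Y) huv hC.1 a hau hav
  have hmem : ({a, b} : Finset V) ∈ (spokes u v (lift u v C Y)).filter (fun σ => a ∈ σ) :=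
    mem_filter.2 ⟨hσ, mem_insert_self _ _⟩
  have hcard : 1 < ((spokes u v (lift u v C Y)).filter (fun σ => a ∈ σ)).card := by
    have h4 : 0 < ((spokes u v (lift u v C Y)).filter (fun σ => a ∈ σ)).card :=
      card_pos.2 ⟨_, hmem⟩
    obtain ⟨k, hk⟩ := hev
    omega
  obtain ⟨τ, hτ, hne'⟩ := exists_mem_ne hcard ({a, b} : Finset V)
  obtain ⟨hτ1, haτ⟩ := mem_filter.1 hτ
  obtain ⟨k1, k2, k3, _⟩ := c03_spokes.1 hτ1
  have k4 : (τ.erase a).card = 1 := by rw [card_erase_of_mem haτ, k1]
  obtain ⟨c, hc⟩ := card_eq_one.1 k4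
  have hc' : c ∈ τ.erase a := by rw [hc]; exact mem_singleton_self _
  obtain ⟨hca, hcτ⟩ := mem_erase.1 hc'
  have hcb : c ≠ b := by
    intro e
    apply hne'
    rw [← insert_erase haτ, hc, e]
  have hcu : c ≠ u := fun e => k2 (e ▸ hcτ)
  have hcv : c ≠ v := fun e => k3 (e ▸ hcτ)
  have hE2 : ∀ σ ∈ spokes u v (lift u v C Y), ∀ x ∈ σ,
      E (plus u v C Y) u x ∧ E (plus u v C Y) v x := by
    intro σ hσ x hx
    have h5 : insert u (insert v σ) ∈ plus u v C Y := mem_union_right _ (mem_image.2 ⟨σ, hσ, rfl⟩)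
    exact ⟨⟨_, h5, mem_insert_self _ _, mem_insert_of_mem (mem_insert_of_mem hx)⟩,
      ⟨_, h5, mem_insert_of_mem (mem_insert_self _ _), mem_insert_of_mem (mem_insert_of_mem hx)⟩⟩
  have ea := hE2 _ hσ a (by simp)
  have eb := hE2 _ hσ b (by simp)
  have ec := hE2 _ hτ1 c hcτ
  refine ⟨?_, ?_, ![a, b, c], ?_, ?_, ?_, ?_, ?_⟩
  · obtain ⟨F1, hF1, h6⟩ := c03_spoke_u hσ
    exact mem_biUnion.2 ⟨F1, c03_merge_eq hF1 (h6 (mem_insert_self _ _)), h6 (mem_insert_self _ _)⟩
  · exact ⟨_, mem_union_right _ (mem_image.2 ⟨_, hσ, rfl⟩), mem_insert_self _ _,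
      mem_insert_of_mem (mem_insert_self _ _)⟩
  · intro x y hxy
    fin_cases x <;> fin_cases y <;> simp_all
  · intro x
    fin_cases x
    · exact hau
    · exact hbu
    · exact hcu
  · intro x
    fin_cases x
    · exact hav
    · exact hbv
    · exact hcv
  · intro x
    fin_cases x
    · exact ea.1
    · exact eb.1
    · exact ec.1
  · intro x
    fin_cases x
    · exact ea.2
    · exact eb.2
    · exact ec.2

end Pool.MP_f18604_gt.KF
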