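import Mathlib
import Pool.Agent.Helper47.KF.Defs
import Pool.Agent.Helper47.KF.C01
import Pool.Agent.Helper47.KF.C02
import Pool.Agent.Helper47.KF.C03

/-!
# KF-C04: a cycle is the sum of the lifted pieces and of boundaries of simplices

`C` is a cycle, `u ≠ v`, and `P` is a finite set of pairwise disjoint cycles with union
`contract u v C`. Let `X : P ⊕ doubles → cycles`, `X (inl Y) = plus u v C Y`,
`X (inr σ) = ball u v σ`. Then `F ∈ C ↔ #{k : F ∈ X k}` is odd.

Proof. Put `N(F) = [F ∈ C] + #{Y ∈ P : F ∈ plus Y} + #{σ ∈ doubles : F ∈ ball σ}`. First, for `F`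
nondegenerate (not containing both `u` and `v`) `N(F)` is even:
  For nondegenerate `F`: `F ∈ plus Y ↔ F ∈ lift Y ↔ F ∈ C ∧ mergeF F ∈ Y`; and
  `F ∈ ball σ` (`σ ∈ doubles`, 4-subset of `σ ∪ {u, v}` missing `u` or `v`) iff
  `F = insert u σ` or `F = insert v σ`; both are in `C`.
  - `F ∉ C`: all three terms vanish.
  - `F ∈ C`, `u, v ∉ F`: `mergeF F = F ∈ contract` (C02), so in exactly one `Y ∈ P`; `F` is in
    no ball. `N = 2`.
  - `F = insert u σ ∈ C` (`u, v ∉ σ`) or `F = insert v σ ∈ C`; in both cases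
    `mergeF F = insert u σ`. If both `insert u σ`, `insert v σ` are in `C` then
    `insert u σ ∉ contract` (C02), so no `Y`, and exactly one ball (that of `σ ∈ doubles`):
    `N = 2`. Otherwise `insert u σ ∈ contract`, exactly one `Y` and no ball: `N = 2`.
Second, `D = {F : N(F) odd}` is a cycle, by `sum_isCycle` (C01) for the family consisting of `C`
and all `X k` (`plus_isCycle`, `ball_isCycle`; index type `Option (..)`). All its members are
degenerate 4-sets `insert u (insert v τ)`, `|τ| = 2`. If there were one, the 3-set `insert u τ`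
would be contained in exactly one member of `D` (a degenerate 4-set containing `insert u τ` is
`insert u (insert v τ)`), contradicting that `D` is a cycle. So `D = ∅`, which is the claim.
-/

set_option autoImplicit false

namespace Pool.MP_f18604_gt.KF

open Finset

variable {V : Type} [Fintype V] [DecidableEq V]

/-- The pieces. -/
def piece (u v : V) (C : Finset (Finset V)) (P : Finset (Finset (Finset V))) :
    ({Y // Y ∈ P} ⊕ {σ // σ ∈ doubles u v C}) → Finset (Finset V)
  | Sum.inl Y => plus u v C Y.1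
  | Sum.inr σ => ball u v σ.1

/-- nondegenerate members of `plus` -/
theorem mem_plus_nd {u v : V} {C Y : Finset (Finset V)} {F : Finset V} (hn : ¬ (u ∈ F ∧ v ∈ F)) :
    F ∈ plus u v C Y ↔ F ∈ C ∧ mergeF u v F ∈ Y := by
  unfold plus lift
  rw [mem_union, mem_filter, mem_image]
  constructor
  · rintro (⟨h1, -, h2⟩ | ⟨σ, -, rfl⟩)
    · exact ⟨h1, h2⟩
    · exact absurd ⟨mem_insert_self _ _, mem_insert_of_mem (mem_insert_self _ _)⟩ hn
  · rintro ⟨h1, h2⟩
    exact Or.inl ⟨h1, hn, h2⟩

theorem mem_doubles {u v : V} {C : Finset (Finset V)} {σ : Finset V} :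
    σ ∈ doubles u v C ↔ σ.card = 3 ∧ u ∉ σ ∧ v ∉ σ ∧ insert u σ ∈ C ∧ insert v σ ∈ C := by
  unfold doubles
  rw [mem_filter]
  exact ⟨fun h => h.2, fun h => ⟨mem_univ _, h⟩⟩

/-- nondegenerate members of `ball` -/
theorem mem_ball_nd {u v : V} (huv : u ≠ v) {σ F : Finset V} (hσ : σ.card = 3) (hu : u ∉ σ)
    (hv : v ∉ σ) (hn : ¬ (u ∈ F ∧ v ∈ F)) :
    F ∈ ball u v σ ↔ F = insert u σ ∨ F = insert v σ := by
  unfold ball
  rw [mem_powersetCard]
  constructor
  · rintro ⟨h1, h2⟩
    by_cases hvF : v ∈ F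
    · right
      have huF : u ∉ F := fun h => hn ⟨h, hvF⟩
      apply eq_of_subset_of_card_le
      · intro x hx
        have := h1 hx
        rw [mem_insert, mem_insert] at this
        rcases this with h | h | h
        · exact absurd (h ▸ hx) huF
        · exact h ▸ mem_insert_self _ _
        · exact mem_insert_of_mem h
      · rw [card_insert_of_notMem hv, hσ, h2]
    · left
      apply eq_of_subset_of_card_le
      · intro x hx
        have := h1 hx
        rw [mem_insert, mem_insert] at this
        rcases this with h | h | h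
        · exact h ▸ mem_insert_self _ _
        · exact absurd (h ▸ hx) hvF
        · exact mem_insert_of_mem h
      · rw [card_insert_of_notMem hu, hσ, h2]
  · rintro (rfl | rfl)
    · refine ⟨insert_subset_insert _ (subset_insert _ _), ?_⟩
      rw [card_insert_of_notMem hu, hσ]
    · refine ⟨subset_insert _ _, ?_⟩
      rw [card_insert_of_notMem hv, hσ]

/-- no ball contains a nondegenerate member of `C` with image in the contraction -/
theorem not_mem_ball_of_contract {u v : V} (huv : u ≠ v) {C : Finset (Finset V)} {F σ : Finset V}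
    (hn : ¬ (u ∈ F ∧ v ∈ F)) (hm : mergeF u v F ∈ contract u v C) (hσ : σ ∈ doubles u v C) :
    F ∉ ball u v σ := by
  intro hF
  obtain ⟨h3, hu, hv, h1, h2⟩ := mem_doubles.1 hσ
  have hx : insert u σ ∉ contract u v C := by
    intro h
    rcases (mem_contract_iff_u huv hu hv).1 h with ⟨-, h'⟩ | ⟨-, h'⟩
    · exact h' h2
    · exact h' h1
  rcases (mem_ball_nd huv h3 hu hv hn).1 hF with rfl | rfl
  · apply hx
    unfold mergeF at hm
    rwa [if_neg (by
      rw [mem_insert, not_or]
      exact ⟨huv.symm, hv⟩)] at hm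
  · apply hx
    unfold mergeF at hm
    rwa [if_pos (mem_insert_self _ _), erase_insert hv] at hm

/-- the three types of nondegenerate members of `C` -/
theorem nd_cases {u v : V} (huv : u ≠ v) {C : Finset (Finset V)} {F : Finset V} (hF : F ∈ C)
    (h4 : F.card = 4) (hn : ¬ (u ∈ F ∧ v ∈ F)) (hm : mergeF u v F ∉ contract u v C) :
    ∃ σ ∈ doubles u v C, (F = insert u σ ∨ F = insert v σ) := by
  by_cases hu : u ∈ F
  · have hv : v ∉ F := fun h => hn ⟨hu, h⟩
    have e : insert u (F.erase u) = F := insert_erase hu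
    have hu' : u ∉ F.erase u := notMem_erase _ _
    have hv' : v ∉ F.erase u := fun h => hv (mem_of_mem_erase h)
    refine ⟨F.erase u, ?_, Or.inl e.symm⟩
    rw [mem_doubles, card_erase_of_mem hu, h4, e]
    refine ⟨rfl, hu', hv', hF, ?_⟩
    by_contra hc
    apply hm
    unfold mergeF
    rw [if_neg hv, ← e, mem_contract_iff_u huv hu' hv', e]
    exact Or.inl ⟨hF, hc⟩
  · by_cases hv : v ∈ F
    · have e : insert v (F.erase v) = F := insert_erase hv
      have hv' : v ∉ F.erase v := notMem_erase _ _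
      have hu' : u ∉ F.erase v := fun h => hu (mem_of_mem_erase h)
      refine ⟨F.erase v, ?_, Or.inr e.symm⟩
      rw [mem_doubles, card_erase_of_mem hv, h4, e]
      refine ⟨rfl, hu', hv', ?_, hF⟩
      by_contra hc
      apply hm
      unfold mergeF
      rw [if_pos hv, mem_contract_iff_u huv hu' hv', e]
      exact Or.inr ⟨hF, hc⟩
    · exfalso
      apply hm
      unfold mergeF
      rw [if_neg hv]
      exact (mem_contract_of_not_mem hu hv).2 hF

theorem piece_isCycle {u v : V} (huv : u ≠ v) {C : Finset (Finset V)} (hC : IsCycle C)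
    {P : Finset (Finset (Finset V))} (hP : ∀ Y ∈ P, IsCycle Y)
    (hcov : ∀ F, F ∈ contract u v C ↔ ∃ Y ∈ P, F ∈ Y) (k) : IsCycle (piece u v C P k) := by
  rcases k with Y | σ
  · exact plus_isCycle huv hC (hP Y.1 Y.2) (fun F hF => (hcov F).2 ⟨Y.1, Y.2, hF⟩)
  · obtain ⟨h3, hu, hv, -, -⟩ := mem_doubles.1 σ.2
    exact ball_isCycle huv h3 hu hv

/-- the number of pieces which contain a nondegenerate set -/
theorem odd_iff_nd {u v : V} (huv : u ≠ v) {C : Finset (Finset V)} (hC : IsCycle C)
    {P : Finset (Finset (Finset V))}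
    (hdisj : ∀ Y ∈ P, ∀ Y' ∈ P, Y ≠ Y' → Disjoint Y Y')
    (hcov : ∀ F, F ∈ contract u v C ↔ ∃ Y ∈ P, F ∈ Y) {F : Finset V}
    (hn : ¬ (u ∈ F ∧ v ∈ F)) :
    (univ.filter (fun k => F ∈ piece u v C P k)).card = if F ∈ C then 1 else 0 := by
  split_ifs with hF
  · rw [card_eq_one]
    by_cases hm : mergeF u v F ∈ contract u v C
    · obtain ⟨Y, hY, hFY⟩ := (hcov _).1 hm
      refine ⟨Sum.inl ⟨Y, hY⟩, ?_⟩
      ext k
      rw [mem_filter, mem_singleton]
      constructor
      · rintro ⟨-, hk⟩
        rcases k with Y' | σ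
        · have h1 := ((mem_plus_nd hn).1 hk).2
          by_contra hne
          have hne' : Y'.1 ≠ Y := by
            intro h
            apply hne
            congr 1
            exact Subtype.ext h
          exact disjoint_left.1 (hdisj _ Y'.2 _ hY hne') h1 hFY
        · exact absurd hk (not_mem_ball_of_contract huv hn hm σ.2)
      · rintro rfl
        exact ⟨mem_univ _, (mem_plus_nd hn).2 ⟨hF, hFY⟩⟩
    · obtain ⟨σ, hσ, hFσ⟩ := nd_cases huv hF (hC.1 F hF) hn hm
      obtain ⟨h3, hu, hv, -, -⟩ := mem_doubles.1 hσ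
      refine ⟨Sum.inr ⟨σ, hσ⟩, ?_⟩
      ext k
      rw [mem_filter, mem_singleton]
      constructor
      · rintro ⟨-, hk⟩
        rcases k with Y' | σ'
        · have h1 := ((mem_plus_nd hn).1 hk).2
          exact absurd ((hcov _).2 ⟨_, Y'.2, h1⟩) hm
        · obtain ⟨h3', hu', hv', -, -⟩ := mem_doubles.1 σ'.2
          have hk' := (mem_ball_nd huv h3' hu' hv' hn).1 hk
          congr 1
          apply Subtype.ext
          change σ'.1 = σ
          have e1 : (F.erase u).erase v = σ := by
            rcases hFσ with rfl | rfl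
            · rw [erase_insert hu, erase_eq_of_notMem hv]
            · rw [erase_eq_of_notMem (a := u), erase_insert hv]
              rw [mem_insert, not_or]
              exact ⟨huv, hu⟩
          have e2 : (F.erase u).erase v = σ'.1 := by
            rcases hk' with rfl | rfl
            · rw [erase_insert hu', erase_eq_of_notMem hv']
            · rw [erase_eq_of_notMem (a := u), erase_insert hv']
              rw [mem_insert, not_or]
              exact ⟨huv, hu'⟩
          rw [← e1, ← e2]
      · rintro rfl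
        exact ⟨mem_univ _, (mem_ball_nd huv h3 hu hv hn).2 hFσ⟩
  · rw [card_eq_zero, filter_eq_empty_iff]
    rintro k - hk
    rcases k with Y' | σ'
    · exact hF ((mem_plus_nd hn).1 hk).1
    · obtain ⟨h3', hu', hv', h1, h2⟩ := mem_doubles.1 σ'.2
      rcases (mem_ball_nd huv h3' hu' hv' hn).1 hk with h | h
      · exact hF (h ▸ h1)
      · exact hF (h ▸ h2)

theorem mem_iff_odd {u v : V} (huv : u ≠ v) {C : Finset (Finset V)} (hC : IsCycle C)
    {P : Finset (Finset (Finset V))} (hP : ∀ Y ∈ P, IsCycle Y)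
    (hdisj : ∀ Y ∈ P, ∀ Y' ∈ P, Y ≠ Y' → Disjoint Y Y')
    (hcov : ∀ F, F ∈ contract u v C ↔ ∃ Y ∈ P, F ∈ Y) (F : Finset V) :
    F ∈ C ↔ Odd (univ.filter (fun k => F ∈ piece u v C P k)).card := by
  let X : Option ({Y // Y ∈ P} ⊕ {σ // σ ∈ doubles u v C}) → Finset (Finset V)
    | none => C
    | some k => piece u v C P k
  have hX : ∀ k, IsCycle (X k) := by
    rintro (_ | k)
    · exact hC
    · exact piece_isCycle huv hC hP hcov k
  have hD := sum_isCycle X hX
  have hcount : ∀ G, (univ.filter (fun k => G ∈ X k)).card =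
      (if G ∈ C then 1 else 0) + (univ.filter (fun k => G ∈ piece u v C P k)).card := by
    intro G
    rw [card_filter, card_filter, Fintype.sum_option]
  have hnd : ∀ G, G ∈ univ.filter (fun F => Odd (univ.filter (fun k => F ∈ X k)).card) →
      u ∈ G ∧ v ∈ G := by
    intro G hG
    by_contra hn
    rw [mem_filter, hcount, odd_iff_nd huv hC hdisj hcov hn] at hG
    split_ifs at hG
    · have := hG.2
      revert this
      decide
    · have := hG.2
      revert this
      decide
  have hempty : ∀ G, G ∉ univ.filter (fun F => Odd (univ.filter (fun k => F ∈ X k)).card) := by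
    intro G hG
    obtain ⟨hu, hv⟩ := hnd G hG
    have h4 := hD.1 G hG
    have h2 := hD.2 (G.erase v) (by rw [card_erase_of_mem hv, h4])
    have e1 : (univ.filter (fun F => Odd (univ.filter (fun k => F ∈ X k)).card)).filter
        (fun F => G.erase v ⊆ F) = {G} := by
      ext H
      rw [mem_filter, mem_singleton]
      constructor
      · rintro ⟨h, hs⟩
        obtain ⟨hu', hv'⟩ := hnd H h
        have h4' := hD.1 H h
        symm
        apply eq_of_subset_of_card_le
        · intro x hx
          by_cases hxv : x = v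
          · rw [hxv]; exact hv'
          · exact hs (mem_erase.2 ⟨hxv, hx⟩)
        · rw [h4, h4']
      · rintro rfl
        exact ⟨hG, erase_subset _ _⟩
    rw [e1, card_singleton] at h2
    revert h2
    decide
  have h := hempty F
  rw [mem_filter, hcount] at h
  have h' : Even ((if F ∈ C then 1 else 0) +
      (univ.filter (fun k => F ∈ piece u v C P k)).card) := by
    rw [← Nat.not_odd_iff_even]
    exact fun h0 => h ⟨mem_univ _, h0⟩
  split_ifs at h' with hF
  · refine ⟨fun _ => ?_, fun _ => hF⟩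
    rw [← Nat.not_even_iff_odd]
    intro h0
    rw [Nat.even_add, iff_true_right h0] at h'
    revert h'
    decide
  · refine ⟨fun h0 => absurd h0 hF, fun h0 => ?_⟩
    rw [zero_add] at h'
    exact absurd h' (Nat.not_even_iff_odd.2 h0)

/-- Every piece has a member which is in no other piece. -/
theorem exists_private {u v : V} (huv : u ≠ v) {C : Finset (Finset V)} (hC : IsCycle C)
    {P : Finset (Finset (Finset V))} (hP : ∀ Y ∈ P, Y.Nonempty)
    (hdisj : ∀ Y ∈ P, ∀ Y' ∈ P, Y ≠ Y' → Disjoint Y Y')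
    (hcov : ∀ F, F ∈ contract u v C ↔ ∃ Y ∈ P, F ∈ Y) (k) :
    ∃ F ∈ piece u v C P k, ∀ l, l ≠ k → F ∉ piece u v C P l := by
  have main : ∃ F ∈ C, ¬ (u ∈ F ∧ v ∈ F) ∧ F ∈ piece u v C P k := by
    rcases k with Y | σ
    · obtain ⟨F', hF'⟩ := hP Y.1 Y.2
      have h1 := (hcov F').2 ⟨Y.1, Y.2, hF'⟩
      unfold contract at h1
      rw [mem_filter] at h1
      obtain ⟨F, hF⟩ := card_pos.1 h1.2.2.pos
      rw [mem_filter] at hF
      obtain ⟨hFC, hn, hm⟩ := hF
      refine ⟨F, hFC, hn, (mem_plus_nd hn).2 ⟨hFC, ?_⟩⟩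
      rw [hm]
      exact hF'
    · obtain ⟨h3, hu, hv, h1, h2⟩ := mem_doubles.1 σ.2
      have hn : ¬ (u ∈ insert u σ.1 ∧ v ∈ insert u σ.1) := by
        rintro ⟨-, h⟩
        rcases mem_insert.1 h with h | h
        · exact huv h.symm
        · exact hv h
      exact ⟨insert u σ.1, h1, hn, (mem_ball_nd huv h3 hu hv hn).2 (Or.inl rfl)⟩
  obtain ⟨F, hF, hn, hk⟩ := main
  refine ⟨F, hk, fun l hl hFl => hl ?_⟩
  have h1 := odd_iff_nd huv hC hdisj hcov hn
  rw [if_pos hF, card_eq_one] at h1
  obtain ⟨m, hm⟩ := h1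
  have e1 : l ∈ ({m} : Finset _) := hm ▸ mem_filter.2 ⟨mem_univ _, hFl⟩
  have e2 : k ∈ ({m} : Finset _) := hm ▸ mem_filter.2 ⟨mem_univ _, hk⟩
  rw [mem_singleton] at e1 e2
  rw [e1, e2]

end Pool.MP_f18604_gt.KF
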