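import Mathlib
import Pool.Agent.Helper47.KF.Defs
import Pool.Agent.Helper47.KF.B04
import Pool.Agent.Helper47.KF.C01

/-!
# KF-C05: linking

`C` is a minimal cycle and the sum modulo 2 of cycles `X k`, each with a member which is in no
other `X l`, each rigid at `p` (in general position), all pairs in members of `X k` being pairs in
members of `C`. Then `C` is rigid at `p`.

Proof. The index type is nonempty (`C` is nonempty, an odd number is positive). Among the
nonempty sets `𝒜` of indices with `Rg (𝒜.biUnion X) p` choose one of maximal cardinality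
(singletons qualify). Suppose `𝒜 ≠ univ`.
 Claim: there are `k ∉ 𝒜`, `l ∈ 𝒜` and `F ∈ X k`, `F ∈ X l`. Otherwise let
 `Y = {F : #{k ∈ 𝒜 : F ∈ X k} odd}`, a cycle (`sum_isCycle` for the family restricted to `𝒜`).
 `Y ⊆ C`: if `F ∈ Y` then `F ∈ X l` for some `l ∈ 𝒜`, so `F` is in no `X k`, `k ∉ 𝒜`, and
 `#{k : F ∈ X k} = #{k ∈ 𝒜 : F ∈ X k}` is odd. `Y` is nonempty: it contains the
 private member of `X l`, `l ∈ 𝒜`. By minimality `Y = C`. But the private member `F'` of
 `X k`, `k ∉ 𝒜`, is in `C` (count 1) and not in `Y` (count 0), a contradiction.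
 Now `X k` and `𝒜.biUnion X` are rigid at `p` and both supports contain `F`, with 4 elements, so
 `X k ∪ 𝒜.biUnion X` is rigid by `glue`, contradicting the maximality of `𝒜`.
So `Rg (univ.biUnion X) p`, and `rg_mono` applies: pairs of members are pairs of members of `C`,
and `supp C ⊆ supp (univ.biUnion X)` since every `F ∈ C` is in some `X k`.
-/

set_option autoImplicit false

namespace Pool.MP_f18604_gt.KF

open Finset

variable {V : Type} [Fintype V] [DecidableEq V]

theorem linking {C : Finset (Finset V)} (hC : IsMinCycle C) {ι : Type} [Fintype ι] [DecidableEq ι]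
    (X : ι → Finset (Finset V)) (hX : ∀ k, IsCycle (X k))
    (hsum : ∀ F, F ∈ C ↔ Odd (univ.filter (fun k => F ∈ X k)).card)
    (hpriv : ∀ k, ∃ F ∈ X k, ∀ l, l ≠ k → F ∉ X l)
    (hE : ∀ k i j, E (X k) i j → E C i j) {p : V → Fin 5 → ℚ} (hp : GP p)
    (hr : ∀ k, Rg (X k) p) : Rg C p := by
  classical
  -- every member of `C` lies in some `X k`
  have hmem : ∀ F ∈ C, ∃ k, F ∈ X k := by
    intro F hF
    have h1 := (hsum F).1 hF
    have h2 : 0 < (univ.filter (fun k => F ∈ X k)).card := h1.pos
    obtain ⟨k, hk⟩ := Finset.card_pos.1 h2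
    exact ⟨k, (Finset.mem_filter.1 hk).2⟩
  -- the index type is nonempty
  obtain ⟨F0, hF0⟩ := hC.2.1
  obtain ⟨k0, -⟩ := hmem F0 hF0
  -- a maximal rigid union
  set S : Finset (Finset ι) := univ.filter (fun A => A.Nonempty ∧ Rg (A.biUnion X) p) with hS
  have hSne : S.Nonempty := by
    refine ⟨{k0}, ?_⟩
    rw [hS, Finset.mem_filter]
    refine ⟨Finset.mem_univ _, Finset.singleton_nonempty _, ?_⟩
    rw [Finset.singleton_biUnion]
    exact hr k0
  obtain ⟨A, hAS, hAmax⟩ := Finset.exists_max_image S Finset.card hSne
  rw [hS, Finset.mem_filter] at hAS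
  obtain ⟨-, hAne, hAr⟩ := hAS
  have hAuniv : A = univ := by
    by_contra hne
    -- the claim
    have hclaim : ∃ k, k ∉ A ∧ ∃ l ∈ A, ∃ F, F ∈ X k ∧ F ∈ X l := by
      by_contra hno
      push Not at hno
      -- the cycle `Y`
      have hYc := sum_isCycle (fun k : ι => if k ∈ A then X k else ∅) (by
        intro k
        by_cases hk : k ∈ A
        · simp only [hk, if_true]; exact hX k
        · simp only [hk, if_false]
          exact ⟨by simp, by simp⟩)
      set Y : Finset (Finset V) := univ.filter (fun F =>
        Odd (univ.filter (fun k => F ∈ (if k ∈ A then X k else ∅))).card) with hY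
      have hYmem : ∀ F, F ∈ Y ↔ Odd (univ.filter (fun k => k ∈ A ∧ F ∈ X k)).card := by
        intro F
        rw [hY, Finset.mem_filter]
        have : (univ.filter (fun k => F ∈ (if k ∈ A then X k else ∅)))
            = univ.filter (fun k => k ∈ A ∧ F ∈ X k) := by
          ext k
          simp only [Finset.mem_filter, Finset.mem_univ, true_and]
          by_cases hk : k ∈ A
          · simp [hk]
          · simp [hk]
        rw [this]
        simp
      have hYC : Y ⊆ C := by
        intro F hF
        have h1 := (hYmem F).1 hF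
        obtain ⟨l, hl⟩ := Finset.card_pos.1 h1.pos
        rw [Finset.mem_filter] at hl
        rw [hsum F]
        have : univ.filter (fun k => F ∈ X k) = univ.filter (fun k => k ∈ A ∧ F ∈ X k) := by
          ext k
          simp only [Finset.mem_filter, Finset.mem_univ, true_and]
          constructor
          · intro hk
            refine ⟨?_, hk⟩
            by_contra hkA
            exact hno k hkA l hl.2.1 F hk hl.2.2
          · exact fun h => h.2
        rw [this]
        exact h1
      have hYne : Y.Nonempty := by
        obtain ⟨l, hl⟩ := hAne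
        obtain ⟨F, hF, hFp⟩ := hpriv l
        refine ⟨F, ?_⟩
        rw [hYmem]
        have : univ.filter (fun k => k ∈ A ∧ F ∈ X k) = {l} := by
          ext k
          simp only [Finset.mem_filter, Finset.mem_univ, true_and, Finset.mem_singleton]
          constructor
          · intro hk
            by_contra hkl
            exact hFp k hkl hk.2
          · rintro rfl
            exact ⟨hl, hF⟩
        rw [this]
        simp
      have hYeq : Y = C := hC.2.2 Y hYC hYc hYne
      obtain ⟨k, hk⟩ : ∃ k, k ∉ A := by
        by_contra hall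
        push Not at hall
        exact hne (Finset.eq_univ_iff_forall.2 hall)
      obtain ⟨F, hF, hFp⟩ := hpriv k
      have hFC : F ∈ C := by
        rw [hsum F]
        have : univ.filter (fun l => F ∈ X l) = {k} := by
          ext l
          simp only [Finset.mem_filter, Finset.mem_univ, true_and, Finset.mem_singleton]
          constructor
          · intro hl
            by_contra hlk
            exact hFp l hlk hl
          · rintro rfl
            exact hF
        rw [this]
        simp
      rw [← hYeq, hYmem] at hFC
      obtain ⟨l, hl⟩ := Finset.card_pos.1 hFC.pos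
      rw [Finset.mem_filter] at hl
      have hlk : l ≠ k := by
        rintro rfl
        exact hk hl.2.1
      exact hFp l hlk hl.2.2
    obtain ⟨k, hkA, l, hlA, F, hFk, hFl⟩ := hclaim
    have hcard : F.card = 4 := (hX k).1 F hFk
    have hrig : Rg (X k ∪ A.biUnion X) p := by
      refine glue hp (hr k) hAr ?_
      rw [← hcard]
      apply Finset.card_le_card
      intro i hi
      rw [Finset.mem_inter]
      constructor
      · exact Finset.mem_biUnion.2 ⟨F, hFk, hi⟩
      · exact Finset.mem_biUnion.2 ⟨F, Finset.mem_biUnion.2 ⟨l, hlA, hFl⟩, hi⟩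
    have hins : insert k A ∈ S := by
      rw [hS, Finset.mem_filter]
      refine ⟨Finset.mem_univ _, Finset.insert_nonempty _ _, ?_⟩
      rw [Finset.biUnion_insert]
      exact hrig
    have h1 := hAmax _ hins
    rw [Finset.card_insert_of_notMem hkA] at h1
    omega
  rw [hAuniv] at hAr
  refine rg_mono (C1 := univ.biUnion X) (C2 := C) ?_ ?_ hAr
  · rintro i j ⟨F, hF, hi, hj⟩
    obtain ⟨k, -, hk⟩ := Finset.mem_biUnion.1 hF
    exact hE k i j ⟨F, hk, hi, hj⟩
  · intro i hi
    obtain ⟨F, hF, hiF⟩ := Finset.mem_biUnion.1 hi
    obtain ⟨k, hk⟩ := hmem F hF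
    exact Finset.mem_biUnion.2 ⟨F, Finset.mem_biUnion.2 ⟨k, Finset.mem_univ _, hk⟩, hiF⟩

end Pool.MP_f18604_gt.KF
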