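import Mathlib
import Pool.Agent.Helper47.KF.Defs
import Pool.Agent.Helper47.KF.B03
import Pool.Agent.Helper47.KF.B04
import Pool.Agent.Helper47.KF.B05
import Pool.Agent.Helper47.KF.C01
import Pool.Agent.Helper47.KF.C02
import Pool.Agent.Helper47.KF.C03
import Pool.Agent.Helper47.KF.C04
import Pool.Agent.Helper47.KF.C05

/-!
# KF-C06: minimal cycles are generically rigid (Fogelsanger)

Proof by strong induction on the number of vertices `(supp C).card`. Let `F ∈ C` and `u ≠ v` in
`F`; so `E C u v`. By `exists_decomposition` (C01) applied to the cycle `contract u v C` (C02)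
there is a finite set `P` of pairwise disjoint minimal cycles with union `contract u v C`. Each
`Y ∈ P` has `supp Y ⊆ supp (contract u v C) ⊆ (supp C).erase v`, so it has fewer vertices than `C`
(`v ∈ supp C`), and by induction there is `p` with `GP p ∧ Rg Y p`. By `split` (B05) with
`C' = Y` and `C = plus u v C Y` there is `p` with `GP p ∧ Rg (plus u v C Y) p`; the
hypotheses of `split` are provided by C03 (`E_of_Y`, `E_of_Y'`, `supp_plus`, `exists_common`),
`five_le_supp` and `v ∉ supp Y` (`supp Y ⊆ (supp C).erase v`). For `σ ∈ doubles u v C` the piece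
`ball u v σ` is rigid at every `p` in general position (`rg_five`, `gp_exists`). So every piece
(C04) is rigid at some `p` in general position, and by `simult` (B03; supports have at least 5
elements: `five_le_supp` and `exists_private`, or directly) all pieces are rigid at a
common `p`. Now `linking` (C05) applies, with C04 (`piece_isCycle`, `mem_iff_odd`,
`exists_private`) and `E_plus` (C03); for `ball u v σ`, `σ ∈ doubles u v C`: a pair
in `σ ∪ {u, v}` is contained in `σ ∪ {u} ∈ C` or `σ ∪ {v} ∈ C`, or is `uv`.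
-/

set_option autoImplicit false

namespace Pool.MP_f18604_gt.KF

open Finset

variable {V : Type} [Fintype V] [DecidableEq V]

omit [Fintype V] in
theorem c06_supp_mono {C D : Finset (Finset V)} (h : C ⊆ D) : supp C ⊆ supp D := by
  intro i hi
  obtain ⟨F, hF, hiF⟩ := mem_biUnion.1 hi
  exact mem_biUnion.2 ⟨F, h hF, hiF⟩

omit [Fintype V] in
theorem c06_ball_E {u v : V} {C : Finset (Finset V)} {σ : Finset V} (hE : E C u v)
    (hu : insert u σ ∈ C) (hv : insert v σ ∈ C) {i j : V} (h : E (ball u v σ) i j) :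
    E C i j := by
  obtain ⟨F, hF, hi, hj⟩ := h
  have hsub := (mem_powersetCard.1 hF).1
  have hi' := hsub hi
  have hj' := hsub hj
  have hs : ∀ {x y : V}, E C x y → E C y x := fun ⟨G, hG, h1, h2⟩ => ⟨G, hG, h2, h1⟩
  rw [mem_insert, mem_insert] at hi' hj'
  rcases hi' with rfl | rfl | hi' <;> rcases hj' with rfl | rfl | hj'
  · exact ⟨_, hu, mem_insert_self _ _, mem_insert_self _ _⟩
  · exact hE
  · exact ⟨_, hu, mem_insert_self _ _, mem_insert_of_mem hj'⟩
  · exact hs hE
  · exact ⟨_, hv, mem_insert_self _ _, mem_insert_self _ _⟩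
  · exact ⟨_, hv, mem_insert_self _ _, mem_insert_of_mem hj'⟩
  · exact ⟨_, hu, mem_insert_of_mem hi', mem_insert_self _ _⟩
  · exact ⟨_, hv, mem_insert_of_mem hi', mem_insert_self _ _⟩
  · exact ⟨_, hu, mem_insert_of_mem hi', mem_insert_of_mem hj'⟩

theorem fogelsanger {C : Finset (Finset V)} (hC : IsMinCycle C) : ∃ p, GP p ∧ Rg C p := by
  induction hn : (supp C).card using Nat.strong_induction_on generalizing C with
  | _ n ih =>
  obtain ⟨F, hF⟩ := hC.2.1
  have hF4 : F.card = 4 := hC.1.1 F hF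
  obtain ⟨u, hu, v, hv, huv⟩ := one_lt_card.1 (by omega : 1 < F.card)
  have hE : E C u v := ⟨F, hF, hu, hv⟩
  have huS : u ∈ supp C := mem_biUnion.2 ⟨F, hF, hu⟩
  have hvS : v ∈ supp C := mem_biUnion.2 ⟨F, hF, hv⟩
  obtain ⟨P, hPmin, hPdisj, hPcov⟩ := exists_decomposition (contract_isCycle huv hC.1)
  have hPc : ∀ Y ∈ P, IsCycle Y := fun Y hY => (hPmin Y hY).1
  have hYC : ∀ Y ∈ P, Y ⊆ contract u v C := fun Y hY G hG => (hPcov G).2 ⟨Y, hY, hG⟩
  have hYs : ∀ Y ∈ P, supp Y ⊆ (supp C).erase v := fun Y hY =>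
    (c06_supp_mono (hYC Y hY)).trans (supp_contract huS)
  have hcyc := piece_isCycle huv hC.1 hPc hPcov
  have hpriv := exists_private huv hC.1 (fun Y hY => (hPmin Y hY).2.1) hPdisj hPcov
  have hpiece : ∀ k, ∃ p, GP p ∧ Rg (piece u v C P k) p := by
    rintro (⟨Y, hY⟩ | ⟨σ, hσ⟩)
    · have hvY : v ∉ supp Y := fun h => (mem_erase.1 (hYs Y hY h)).1 rfl
      have hlt : (supp Y).card < n := by
        rw [← hn]
        exact (card_le_card (hYs Y hY)).trans_lt (card_erase_lt_of_mem hvS)
      obtain ⟨huY, hEuv, r, hr, hru, hrv, hEu, hEv⟩ :=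
        exists_common huv hC (hPc Y hY) (hPmin Y hY).2.1 (hYC Y hY) hE
      exact split Y (plus u v C Y) u v huv hvY huY (supp_plus huv)
        (five_le_supp (hPc Y hY) (hPmin Y hY).2.1)
        (fun i j hi hj h => E_of_Y (hYC Y hY) hi hj h)
        (fun j hj h => E_of_Y' (hYC Y hY) hj h) hEuv r hr hru hrv hEu hEv
        (ih _ hlt (hPmin Y hY) rfl)
    · obtain ⟨p, hp⟩ := gp_exists V
      refine ⟨p, hp, rg_five hp _ ?_⟩
      obtain ⟨h3, h4, h5, -⟩ := (mem_filter.1 hσ).2
      rw [card_insert_of_notMem, card_insert_of_notMem h5, h3]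
      rw [mem_insert, not_or]
      exact ⟨huv, h4⟩
  obtain ⟨p, hp, hr⟩ := simult (piece u v C P) (fun k => by
    obtain ⟨G, hG, -⟩ := hpriv k
    exact five_le_supp (hcyc k) ⟨G, hG⟩) hpiece
  refine ⟨p, hp, linking hC (piece u v C P) hcyc (mem_iff_odd huv hC.1 hPc hPdisj hPcov) hpriv
    ?_ hp hr⟩
  rintro (⟨Y, hY⟩ | ⟨σ, hσ⟩) i j h
  · exact E_plus huv hC.1 (hPc Y hY) (hYC Y hY) hE h
  · obtain ⟨-, -, -, h1, h2⟩ := (mem_filter.1 hσ).2
    exact c06_ball_E hE h1 h2 h

end Pool.MP_f18604_gt.KF
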