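import Mathlib
import Pool.Agent.Helper47.KF.Defs

/-!
# KF-D01: the link of a vertex is a minimal cycle

`C = linkCyc K v`, the sets `F.erase v`, `F` a 5-set of `K` containing `v` (`F ↦ F.erase v` is
injective on these).

Cycle: members have 4 elements. Let `|R| = 3`. If `v ∈ R` no member contains `R`. If `v ∉ R`, the
members containing `R` correspond to the 5-sets of `K` containing `insert v R` (4 elements): if
`insert v R ∈ K` these are exactly 2 (`ridge`), otherwise none (`down`).

Nonempty: `pure` applied to `{v}`.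

Minimal: let `C' ⊆ C` be a nonempty cycle, `F.erase v ∈ C'`. We show `G.erase v ∈ C'` for each 5-set
`G` of `K` containing `v`, by induction along the chain of `normal`: let `A.erase v ∈ C'` and
`v ∈ A ∩ B`, `(A ∩ B).card = 4`. Put `R = (A ∩ B).erase v`, 3 elements. The number of members of
`C'` containing `R` is even and positive, so at least 2; the members of `C` containing `R` are
exactly 2 (`ridge` for `A ∩ B = insert v R ∈ K`) and `A.erase v ≠ B.erase v` are two of them; so
`B.erase v ∈ C'`.

Support: if `w ∈ F.erase v` then `{v, w} ⊆ F` is in `K`; conversely if `{v, w} ∈ K`, `w ≠ v`, `pure`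
gives `F`. Similarly for pairs.
-/

set_option autoImplicit false

namespace Pool.MP_f18604_gt.KF

open Finset

variable {α : Type} [Fintype α] [DecidableEq α] {K : Finset (Finset α)}

omit [Fintype α] in
private theorem mem_linkCyc {v : α} {G : Finset α} :
    G ∈ linkCyc K v ↔ v ∉ G ∧ G.card = 4 ∧ insert v G ∈ K := by
  unfold linkCyc
  rw [Finset.mem_image]
  constructor
  · rintro ⟨F, hF, rfl⟩
    rw [Finset.mem_filter] at hF
    refine ⟨Finset.notMem_erase _ _, ?_, ?_⟩
    · rw [Finset.card_erase_of_mem hF.2.2, hF.2.1]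
    · rw [Finset.insert_erase hF.2.2]
      exact hF.1
  · rintro ⟨h1, h2, h3⟩
    refine ⟨insert v G, ?_, Finset.erase_insert h1⟩
    rw [Finset.mem_filter]
    refine ⟨h3, ?_, Finset.mem_insert_self _ _⟩
    rw [Finset.card_insert_of_notMem h1, h2]

omit [Fintype α] in
private theorem card_linkCyc_filter {v : α} {R : Finset α} (hv : v ∉ R) :
    ((linkCyc K v).filter (fun G => R ⊆ G)).card
      = (K.filter (fun F => F.card = 5 ∧ insert v R ⊆ F)).card := by
  refine Finset.card_bij (fun G _ => insert v G) ?_ ?_ ?_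
  · intro G hG
    rw [Finset.mem_filter, mem_linkCyc] at hG
    rw [Finset.mem_filter]
    refine ⟨hG.1.2.2, ?_, Finset.insert_subset_insert _ hG.2⟩
    rw [Finset.card_insert_of_notMem hG.1.1, hG.1.2.1]
  · intro G hG G' hG' h
    rw [Finset.mem_filter, mem_linkCyc] at hG hG'
    have := congrArg (fun s => Finset.erase s v) h
    simpa [Finset.erase_insert hG.1.1, Finset.erase_insert hG'.1.1] using this
  · intro F hF
    rw [Finset.mem_filter] at hF
    have hvF : v ∈ F := hF.2.2 (Finset.mem_insert_self _ _)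
    refine ⟨F.erase v, ?_, Finset.insert_erase hvF⟩
    rw [Finset.mem_filter, mem_linkCyc]
    refine ⟨⟨Finset.notMem_erase _ _, ?_, ?_⟩, ?_⟩
    · rw [Finset.card_erase_of_mem hvF, hF.2.1]
    · rw [Finset.insert_erase hvF]; exact hF.1
    · intro x hx
      rw [Finset.mem_erase]
      refine ⟨?_, hF.2.2 (Finset.mem_insert_of_mem hx)⟩
      rintro rfl
      exact hv hx

omit [Fintype α] in
private theorem linkCyc_isCycle (hK : NormalPseudomanifold K) (v : α) :
    IsCycle (linkCyc K v) := by
  refine ⟨fun G hG => (mem_linkCyc.1 hG).2.1, ?_⟩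
  intro R hR
  by_cases hv : v ∈ R
  · have : (linkCyc K v).filter (fun G => R ⊆ G) = ∅ := by
      rw [Finset.filter_eq_empty_iff]
      intro G hG hRG
      exact (mem_linkCyc.1 hG).1 (hRG hv)
    rw [this]
    simp
  · rw [card_linkCyc_filter hv]
    by_cases hRK : insert v R ∈ K
    · rw [hK.ridge _ hRK (by rw [Finset.card_insert_of_notMem hv, hR])]
      exact ⟨1, rfl⟩
    · have : K.filter (fun F => F.card = 5 ∧ insert v R ⊆ F) = ∅ := by
        rw [Finset.filter_eq_empty_iff]
        intro F hF hRF
        exact hRK (hK.down F hF _ hRF.2 (Finset.insert_nonempty _ _))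
      rw [this]
      simp

theorem linkCyc_isMinCycle (hK : NormalPseudomanifold K) (v : α) : IsMinCycle (linkCyc K v) := by
  refine ⟨linkCyc_isCycle hK v, ?_, ?_⟩
  · obtain ⟨F, hF, hvF, hcard⟩ := hK.pure _ (hK.vertex v)
    have hvF' : v ∈ F := hvF (Finset.mem_singleton_self v)
    refine ⟨F.erase v, ?_⟩
    rw [mem_linkCyc]
    refine ⟨Finset.notMem_erase _ _, ?_, ?_⟩
    · rw [Finset.card_erase_of_mem hvF', hcard]
    · rw [Finset.insert_erase hvF']; exact hF
  · intro C' hC' hcyc hne
    refine Finset.Subset.antisymm hC' ?_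
    obtain ⟨F0, hF0⟩ := hne
    have hF0' := mem_linkCyc.1 (hC' hF0)
    -- transport along the chain
    have key : ∀ B : Finset α, Relation.ReflTransGen (fun A B => A ∈ K ∧ B ∈ K ∧ A.card = 5 ∧
        B.card = 5 ∧ v ∈ A ∧ v ∈ B ∧ (A ∩ B).card = 4) (insert v F0) B → B.erase v ∈ C' := by
      intro B hB
      induction hB with
      | refl => rw [Finset.erase_insert hF0'.1]; exact hF0
      | @tail A B hA hAB ih =>
        obtain ⟨hAK, hBK, hAc, hBc, hvA, hvB, hAB4⟩ := hAB
        set R := (A ∩ B).erase v with hR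
        have hvAB : v ∈ A ∩ B := Finset.mem_inter.2 ⟨hvA, hvB⟩
        have hvR : v ∉ R := Finset.notMem_erase _ _
        have hRc : R.card = 3 := by rw [hR, Finset.card_erase_of_mem hvAB, hAB4]
        have hins : insert v R = A ∩ B := Finset.insert_erase hvAB
        have hABK : A ∩ B ∈ K :=
          hK.down A hAK _ Finset.inter_subset_left ⟨v, hvAB⟩
        have hC2 : ((linkCyc K v).filter (fun G => R ⊆ G)).card = 2 := by
          rw [card_linkCyc_filter hvR, hins]
          exact hK.ridge _ hABK hAB4
        have hsub : C'.filter (fun G => R ⊆ G) ⊆ (linkCyc K v).filter (fun G => R ⊆ G) :=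
          Finset.filter_subset_filter _ hC'
        have hRA : R ⊆ A.erase v := by
          rw [hR]; exact Finset.erase_subset_erase _ Finset.inter_subset_left
        have hRB : R ⊆ B.erase v := by
          rw [hR]; exact Finset.erase_subset_erase _ Finset.inter_subset_right
        have hpos : 0 < (C'.filter (fun G => R ⊆ G)).card :=
          Finset.card_pos.2 ⟨A.erase v, Finset.mem_filter.2 ⟨ih, hRA⟩⟩
        have heven := hcyc.2 R hRc
        have hge : 2 ≤ (C'.filter (fun G => R ⊆ G)).card := by
          obtain ⟨m, hm⟩ := heven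
          omega
        have heq : C'.filter (fun G => R ⊆ G) = (linkCyc K v).filter (fun G => R ⊆ G) :=
          Finset.eq_of_subset_of_card_le hsub (by rw [hC2]; exact hge)
        have hBmem : B.erase v ∈ (linkCyc K v).filter (fun G => R ⊆ G) := by
          rw [Finset.mem_filter, mem_linkCyc]
          refine ⟨⟨Finset.notMem_erase _ _, ?_, ?_⟩, hRB⟩
          · rw [Finset.card_erase_of_mem hvB, hBc]
          · rw [Finset.insert_erase hvB]; exact hBK
        rw [← heq] at hBmem
        exact (Finset.mem_filter.1 hBmem).1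
    intro G hG
    have hG' := mem_linkCyc.1 hG
    have h1 := key (insert v G) (hK.normal v _ hF0'.2.2 _ hG'.2.2
      (by rw [Finset.card_insert_of_notMem hF0'.1, hF0'.2.1])
      (by rw [Finset.card_insert_of_notMem hG'.1, hG'.2.1])
      (Finset.mem_insert_self _ _) (Finset.mem_insert_self _ _))
    rwa [Finset.erase_insert hG'.1] at h1

theorem E_linkCyc (hK : NormalPseudomanifold K) (v : α) {i j : α} :
    E (linkCyc K v) i j ↔ i ∈ nbrs K v ∧ j ∈ nbrs K v ∧ ({v, i, j} : Finset α) ∈ K := by
  constructor
  · rintro ⟨G, hG, hi, hj⟩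
    have hG' := mem_linkCyc.1 hG
    have hi' : i ≠ v := by rintro rfl; exact hG'.1 hi
    have hj' : j ≠ v := by rintro rfl; exact hG'.1 hj
    refine ⟨?_, ?_, ?_⟩
    · unfold nbrs
      rw [Finset.mem_filter]
      refine ⟨Finset.mem_univ _, hi', hK.down _ hG'.2.2 _ ?_ (Finset.insert_nonempty _ _)⟩
      intro x hx
      simp only [Finset.mem_insert, Finset.mem_singleton] at hx ⊢
      rcases hx with rfl | rfl
      · exact Or.inl rfl
      · exact Or.inr hi
    · unfold nbrs
      rw [Finset.mem_filter]
      refine ⟨Finset.mem_univ _, hj', hK.down _ hG'.2.2 _ ?_ (Finset.insert_nonempty _ _)⟩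
      intro x hx
      simp only [Finset.mem_insert, Finset.mem_singleton] at hx ⊢
      rcases hx with rfl | rfl
      · exact Or.inl rfl
      · exact Or.inr hj
    · refine hK.down _ hG'.2.2 _ ?_ (Finset.insert_nonempty _ _)
      intro x hx
      simp only [Finset.mem_insert, Finset.mem_singleton] at hx ⊢
      rcases hx with rfl | rfl | rfl
      · exact Or.inl rfl
      · exact Or.inr hi
      · exact Or.inr hj
  · rintro ⟨hi, hj, hij⟩
    unfold nbrs at hi hj
    rw [Finset.mem_filter] at hi hj
    obtain ⟨F, hF, hsub, hcard⟩ := hK.pure _ hij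
    have hv : v ∈ F := hsub (by simp)
    refine ⟨F.erase v, ?_, ?_, ?_⟩
    · rw [mem_linkCyc]
      refine ⟨Finset.notMem_erase _ _, ?_, ?_⟩
      · rw [Finset.card_erase_of_mem hv, hcard]
      · rw [Finset.insert_erase hv]; exact hF
    · exact Finset.mem_erase.2 ⟨hi.2.1, hsub (by simp)⟩
    · exact Finset.mem_erase.2 ⟨hj.2.1, hsub (by simp)⟩

theorem supp_linkCyc (hK : NormalPseudomanifold K) (v : α) : supp (linkCyc K v) = nbrs K v := by
  ext i
  have h1 : i ∈ supp (linkCyc K v) ↔ E (linkCyc K v) i i := by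
    unfold supp E
    rw [Finset.mem_biUnion]
    constructor
    · rintro ⟨F, hF, hi⟩; exact ⟨F, hF, hi, hi⟩
    · rintro ⟨F, hF, hi, -⟩; exact ⟨F, hF, hi⟩
  rw [h1, E_linkCyc hK]
  constructor
  · exact fun h => h.1
  · intro h
    refine ⟨h, h, ?_⟩
    have h2 : ({v, i, i} : Finset α) = {v, i} := by simp
    rw [h2]
    unfold nbrs at h
    exact (Finset.mem_filter.1 h).2.2

end Pool.MP_f18604_gt.KF
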