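import Mathlib
import Pool.Agent.Helper47.KF.Defs
import Pool.Agent.Helper47.KF.D02

/-!
# KF-D03: forests with one root for every component of the lower link

Proof. Fix `v`; let `G = lk K v` (a graph on the subtype `nbrs K v`), `W = low K h v` and
`H = G.induce W`. Choose in every connected component `c` of `H` a representative (`Quot.out`-like;
`rep c` with `H.connectedComponentMk (rep c) = c`). For `w ∈ W` put
`dep v w = H.dist w (rep (component of w))`, and if this is nonzero let `par v w` be the second
vertex of a shortest walk from `w` to the representative: it is adjacent to `w` in `H`, has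
the same component and smaller distance. For other `w` put `dep v w = 0`, `par v w = w`.
Adjacency in `lk K v` gives `{v, w, par v w} ∈ K`. The lower neighbours `w` of `v` with
`dep v w = 0` are exactly the representatives (`dist = 0` and reachable implies equal), so their
number is the number of components.
-/

set_option autoImplicit false

namespace Pool.MP_f18604_gt.KF

open Finset

variable {α : Type} [Fintype α] [DecidableEq α]

/-- the second vertex of a shortest walk -/
theorem d03_step {X : Type} (H : SimpleGraph X) {x r : X} (hr : H.Reachable x r)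
    (h0 : H.dist x r ≠ 0) : ∃ y, H.Adj x y ∧ H.dist y r < H.dist x r := by
  obtain ⟨p, hp⟩ := hr.exists_walk_length_eq_dist
  cases p with
  | nil =>
    simp only [SimpleGraph.Walk.length_nil] at hp
    exact absurd hp.symm h0
  | cons hadj q =>
    rename_i y
    refine ⟨y, hadj, ?_⟩
    rw [← hp, SimpleGraph.Walk.length_cons]
    exact Nat.lt_succ_of_le (SimpleGraph.dist_le q)

/-- rooted spanning forests of a graph -/
theorem d03_gen {X : Type} (H : SimpleGraph X) : ∃ (dep : X → ℕ) (par : X → X),
    (∀ x, dep x ≠ 0 → H.Adj x (par x) ∧ dep (par x) < dep x) ∧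
    Nonempty ({x // dep x = 0} ≃ H.ConnectedComponent) := by
  classical
  have hrep : ∀ c : H.ConnectedComponent, ∃ x, H.connectedComponentMk x = c :=
    fun c => Quot.exists_rep c
  choose rep hrep using hrep
  have hreach : ∀ x, H.Reachable x (rep (H.connectedComponentMk x)) := fun x =>
    SimpleGraph.ConnectedComponent.exact (hrep _).symm
  have hpar : ∀ x, ∃ y, H.dist x (rep (H.connectedComponentMk x)) ≠ 0 → H.Adj x y ∧
      H.dist y (rep (H.connectedComponentMk y)) < H.dist x (rep (H.connectedComponentMk x)) := by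
    intro x
    by_cases h0 : H.dist x (rep (H.connectedComponentMk x)) = 0
    · exact ⟨x, fun h => absurd h0 h⟩
    · obtain ⟨y, hadj, hlt⟩ := d03_step H (hreach x) h0
      refine ⟨y, fun _ => ⟨hadj, ?_⟩⟩
      have hc : H.connectedComponentMk y = H.connectedComponentMk x :=
        SimpleGraph.ConnectedComponent.sound hadj.symm.reachable
      rw [hc]
      exact hlt
  choose par hpar using hpar
  refine ⟨fun x => H.dist x (rep (H.connectedComponentMk x)), par, hpar, ⟨?_⟩⟩
  refine { toFun := fun x => H.connectedComponentMk x.1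
           invFun := fun c => ⟨rep c, by
              show H.dist (rep c) (rep (H.connectedComponentMk (rep c))) = 0
              rw [hrep, SimpleGraph.dist_self]⟩
           left_inv := ?_
           right_inv := fun c => hrep c }
  intro x
  apply Subtype.ext
  exact ((hreach x.1).dist_eq_zero_iff.1 x.2).symm

theorem exists_forestOn (K : Finset (Finset α)) (h : α → ℕ) :
    ∃ (dep : α → α → ℕ) (par : α → α → α), ForestOn K h dep par ∧
      ∀ v, (univ.filter (fun w => w ∈ nbrs K v ∧ h w < h v ∧ dep v w = 0)).card =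
        comp (lk K v) (low K h v) := by
  classical
  have hmem : ∀ (v : α) (w : nbrs K v), h w < h v → w ∈ ((low K h v : Finset (nbrs K v)) : Set _) := by
    intro v w hw
    simp [low, hw]
  have hmem' : ∀ (v : α) (w : ↥((low K h v : Finset (nbrs K v)) : Set (nbrs K v))),
      h (w : nbrs K v) < h v := by
    intro v w
    have := w.2
    simpa [low] using this
  choose D P hDP hE using fun v => d03_gen ((lk K v).induce (low K h v : Set (nbrs K v)))
  let dep : α → α → ℕ := fun v w =>
    if hw : w ∈ nbrs K v ∧ h w < h v then D v ⟨⟨w, hw.1⟩, hmem v ⟨w, hw.1⟩ hw.2⟩ else 0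
  let par : α → α → α := fun v w =>
    if hw : w ∈ nbrs K v ∧ h w < h v then
      (((P v ⟨⟨w, hw.1⟩, hmem v ⟨w, hw.1⟩ hw.2⟩ :
        ↥((low K h v : Finset (nbrs K v)) : Set (nbrs K v))) : nbrs K v) : α) else w
  have hdep : ∀ (v w : α) (h1 : w ∈ nbrs K v) (h2 : h w < h v),
      dep v w = D v ⟨⟨w, h1⟩, hmem v ⟨w, h1⟩ h2⟩ := by
    intro v w h1 h2
    exact dif_pos (⟨h1, h2⟩ : w ∈ nbrs K v ∧ h w < h v)
  have hpar : ∀ (v w : α) (h1 : w ∈ nbrs K v) (h2 : h w < h v),
      par v w = (((P v ⟨⟨w, h1⟩, hmem v ⟨w, h1⟩ h2⟩ :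
        ↥((low K h v : Finset (nbrs K v)) : Set (nbrs K v))) : nbrs K v) : α) := by
    intro v w h1 h2
    exact dif_pos (⟨h1, h2⟩ : w ∈ nbrs K v ∧ h w < h v)
  refine ⟨dep, par, ?_, ?_⟩
  · intro v w h1 h2 h3
    rw [hdep v w h1 h2] at h3
    obtain ⟨h4, h5⟩ := hDP v _ h3
    have h6 : h (par v w) < h v := by
      rw [hpar v w h1 h2]
      exact hmem' v _
    have h7 : par v w ∈ nbrs K v := by
      rw [hpar v w h1 h2]
      exact Subtype.property _
    refine ⟨h7, h6, ?_, ?_⟩
    · rw [hpar v w h1 h2]
      exact h4.2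
    · rw [hdep v _ h7 h6, hdep v w h1 h2]
      have h8 : (⟨⟨par v w, h7⟩, hmem v ⟨par v w, h7⟩ h6⟩ :
          ↥((low K h v : Finset (nbrs K v)) : Set (nbrs K v))) =
          P v ⟨⟨w, h1⟩, hmem v ⟨w, h1⟩ h2⟩ := by
        apply Subtype.ext
        apply Subtype.ext
        exact hpar v w h1 h2
      rw [h8]
      exact h5
  · intro v
    unfold comp
    obtain ⟨e⟩ := hE v
    rw [← Nat.card_congr e, ← Fintype.card_subtype, ← Nat.card_eq_fintype_card]
    refine Nat.card_congr ?_
    refine { toFun := fun w => ⟨⟨⟨w.1, w.2.1⟩, hmem v ⟨w.1, w.2.1⟩ w.2.2.1⟩, by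
                rw [← hdep v w.1 w.2.1 w.2.2.1]
                exact w.2.2.2⟩
             invFun := fun x => ⟨((x.1 : nbrs K v) : α), (x.1 : nbrs K v).2, hmem' v x.1, by
                rw [hdep v _ (x.1 : nbrs K v).2 (hmem' v x.1)]
                exact x.2⟩
             left_inv := fun w => rfl
             right_inv := fun x => rfl }

end Pool.MP_f18604_gt.KF
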