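import Mathlib

/-!
# KF-D04: the number of orderings with a given lower set

`v ∉ N`, `m = |N|`, `W ⊆ N`, `k = |W|`, `n = |α|`. Let `a(W)` be the number of bijections
`h : α ≃ Fin n` such that for `w ∈ N`: `h w < h v ↔ w ∈ W`. Claim: `(m+1) C(m,k) a(W) = n!`.

Proof. Let `T = insert v N`. For `x ∈ T` and `S ⊆ T \ {x}` let `c(x, S)` be the number of `h` with
`{w ∈ T | h w < h x} = S`. A permutation of `α` which preserves `T` and takes `(x, S)` to `(x', S')`
shows that `c(x, S)` depends only on `|S|`; and for each `h` and each `k ≤ m` there is exactly one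
pair `(x, S)` with `|S| = k`, as the rank is a bijection of `T` with `{0, .., m}`.
-/

set_option autoImplicit false

namespace Pool.MP_f18604_gt.KF

open Finset

/-- two colourings with fibres of the same cardinality differ by a permutation -/
theorem d04_perm {α : Type} [Fintype α] (f g : α → ℕ)
    (h : ∀ y, Nat.card {x // f x = y} = Nat.card {x // g x = y}) :
    ∃ π : α ≃ α, ∀ a, g (π a) = f a := by
  classical
  have e : ∀ y, Nonempty ({x // f x = y} ≃ {x // g x = y}) := by
    intro y
    have h1 := h y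
    rw [Nat.card_eq_fintype_card, Nat.card_eq_fintype_card] at h1
    exact ⟨Fintype.equivOfCardEq h1⟩
  let e' : ∀ y, {x // f x = y} ≃ {x // g x = y} := fun y => (e y).some
  refine ⟨(Equiv.sigmaFiberEquiv f).symm.trans
    ((Equiv.sigmaCongrRight e').trans (Equiv.sigmaFiberEquiv g)), ?_⟩
  intro a
  exact (e' (f a) ⟨a, rfl⟩).2

/-- the colour of an element -/
def d04c {α : Type} [DecidableEq α] (T : Finset α) (x : α) (S : Finset α) (a : α) : ℕ :=
  if a = x then 0 else if a ∈ S then 1 else if a ∈ T then 2 else 3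

theorem d04c_zero {α : Type} [DecidableEq α] {T : Finset α} {x : α} {S : Finset α} {a : α} :
    d04c T x S a = 0 ↔ a = x := by
  unfold d04c
  by_cases e1 : a = x
  · simp [e1]
  · by_cases e2 : a ∈ S
    · simp [e1, e2]
    · by_cases e3 : a ∈ T
      · simp [e1, e2, e3]
      · simp [e1, e2, e3]

theorem d04c_one {α : Type} [DecidableEq α] {T : Finset α} {x : α} {S : Finset α} {a : α}
    (hxS : x ∉ S) : d04c T x S a = 1 ↔ a ∈ S := by
  unfold d04c
  by_cases e1 : a = x
  · subst e1
    simp [hxS]
  · by_cases e2 : a ∈ S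
    · simp [e1, e2]
    · by_cases e3 : a ∈ T
      · simp [e1, e2, e3]
      · simp [e1, e2, e3]

theorem d04c_two {α : Type} [DecidableEq α] {T : Finset α} {x : α} {S : Finset α} {a : α} :
    d04c T x S a = 2 ↔ (a ≠ x ∧ a ∈ T) ∧ a ∉ S := by
  unfold d04c
  by_cases e1 : a = x
  · simp [e1]
  · by_cases e2 : a ∈ S
    · simp [e1, e2]
    · by_cases e3 : a ∈ T
      · simp [e1, e2, e3]
      · simp [e1, e2, e3]

theorem d04c_three {α : Type} [DecidableEq α] {T : Finset α} {x : α} {S : Finset α} {a : α}
    (hx : x ∈ T) (hST : S ⊆ T) : d04c T x S a = 3 ↔ a ∉ T := by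
  unfold d04c
  by_cases e1 : a = x
  · subst e1
    simp [hx]
  · by_cases e2 : a ∈ S
    · have := hST e2
      simp [e1, e2, this]
    · by_cases e3 : a ∈ T
      · simp [e1, e2, e3]
      · simp [e1, e2, e3]

theorem d04c_le {α : Type} [DecidableEq α] (T : Finset α) (x : α) (S : Finset α) (a : α) :
    d04c T x S a ≤ 3 := by
  unfold d04c
  split_ifs <;> omega

theorem d04_fiber {α : Type} [Fintype α] [DecidableEq α] (T : Finset α) (x : α) (S : Finset α)
    (hx : x ∈ T) (hS : S ⊆ T.erase x) (y : ℕ) :
    Nat.card {a // d04c T x S a = y} =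
      if y = 0 then 1 else if y = 1 then S.card else if y = 2 then T.card - 1 - S.card else
        if y = 3 then Fintype.card α - T.card else 0 := by
  have hST : S ⊆ T := hS.trans (erase_subset _ _)
  have hxS : x ∉ S := fun h => (mem_erase.mp (hS h)).1 rfl
  rw [Nat.card_eq_fintype_card, Fintype.card_subtype]
  by_cases h0 : y = 0
  · subst h0
    rw [if_pos rfl]
    have : univ.filter (fun a => d04c T x S a = 0) = {x} := by
      ext a
      rw [mem_filter, mem_singleton, d04c_zero]
      exact ⟨fun h => h.2, fun h => ⟨mem_univ _, h⟩⟩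
    rw [this, card_singleton]
  rw [if_neg h0]
  by_cases h1 : y = 1
  · subst h1
    rw [if_pos rfl]
    have : univ.filter (fun a => d04c T x S a = 1) = S := by
      ext a
      rw [mem_filter, d04c_one hxS]
      exact ⟨fun h => h.2, fun h => ⟨mem_univ _, h⟩⟩
    rw [this]
  rw [if_neg h1]
  by_cases h2 : y = 2
  · subst h2
    rw [if_pos rfl]
    have : univ.filter (fun a => d04c T x S a = 2) = (T.erase x) \ S := by
      ext a
      rw [mem_filter, d04c_two, mem_sdiff, mem_erase]
      exact ⟨fun h => h.2, fun h => ⟨mem_univ _, h⟩⟩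
    rw [this, card_sdiff_of_subset hS, card_erase_of_mem hx]
  rw [if_neg h2]
  by_cases h3 : y = 3
  · subst h3
    rw [if_pos rfl]
    have : univ.filter (fun a => d04c T x S a = 3) = univ \ T := by
      ext a
      rw [mem_filter, d04c_three hx hST, mem_sdiff]
    rw [this, card_sdiff_of_subset (subset_univ _), card_univ]
  rw [if_neg h3, card_eq_zero]
  ext a
  rw [mem_filter]
  have := d04c_le T x S a
  constructor
  · rintro ⟨_, h⟩
    exfalso
    omega
  · intro h
    exact absurd h (notMem_empty _)

/-- the number of orderings for which `S` is the lower set of `x` in `T` -/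
def d04n {α : Type} [Fintype α] [DecidableEq α] (T : Finset α) (x : α) (S : Finset α) : ℕ :=
  (univ.filter (fun h : α ≃ Fin (Fintype.card α) => ∀ w ∈ T, (h w < h x ↔ w ∈ S))).card

theorem d04_inv {α : Type} [Fintype α] [DecidableEq α] (T : Finset α) (x x' : α) (S S' : Finset α)
    (hx : x ∈ T) (hx' : x' ∈ T) (hS : S ⊆ T.erase x) (hS' : S' ⊆ T.erase x')
    (hc : S.card = S'.card) : d04n T x S = d04n T x' S' := by
  obtain ⟨π, hπ⟩ := d04_perm (d04c T x S) (d04c T x' S') (by
    intro y
    rw [d04_fiber T x S hx hS, d04_fiber T x' S' hx' hS', hc])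
  have hST : S ⊆ T := hS.trans (erase_subset _ _)
  have hST' : S' ⊆ T := hS'.trans (erase_subset _ _)
  have hxS : x ∉ S := fun h => (mem_erase.mp (hS h)).1 rfl
  have hxS' : x' ∉ S' := fun h => (mem_erase.mp (hS' h)).1 rfl
  have pT : ∀ a, π a ∈ T ↔ a ∈ T := by
    intro a
    have h1 : d04c T x' S' (π a) = 3 ↔ π a ∉ T := d04c_three hx' hST'
    have h2 : d04c T x S a = 3 ↔ a ∉ T := d04c_three hx hST
    rw [hπ] at h1
    have := h1.symm.trans h2
    exact not_iff_not.mp this
  have pS : ∀ a, π a ∈ S' ↔ a ∈ S := by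
    intro a
    rw [← d04c_one (T := T) hxS', hπ, d04c_one hxS]
  have px : π x = x' := by
    rw [← d04c_zero (T := T) (S := S'), hπ, d04c_zero]
  unfold d04n
  symm
  apply card_bij (fun h _ => π.trans h)
  · intro h hh
    rw [mem_filter] at hh ⊢
    refine ⟨mem_univ _, ?_⟩
    intro w hw
    have := hh.2 (π w) ((pT w).mpr hw)
    rw [pS, ← px] at this
    exact this
  · intro h1 _ h2 _ e
    ext a
    have := congrArg (fun f : α ≃ Fin (Fintype.card α) => f (π.symm a)) e
    simp only [Equiv.trans_apply, Equiv.apply_symm_apply] at this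
    rw [this]
  · intro h hh
    refine ⟨π.symm.trans h, ?_, ?_⟩
    · rw [mem_filter] at hh ⊢
      refine ⟨mem_univ _, ?_⟩
      intro w hw
      have h1 : π.symm w ∈ T := by
        rw [← pT, Equiv.apply_symm_apply]
        exact hw
      have h2 := hh.2 (π.symm w) h1
      rw [← pS, Equiv.apply_symm_apply] at h2
      have h3 : π.symm x' = x := by
        rw [← px, Equiv.symm_apply_apply]
      rw [Equiv.trans_apply, Equiv.trans_apply, h3]
      exact h2
    · ext a
      simp

/-- the rank of `x` in `T` -/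
def d04r {α : Type} [DecidableEq α] {n : ℕ} (h : α ≃ Fin n) (T : Finset α) (x : α) : ℕ :=
  (T.filter fun w => h w < h x).card

theorem d04_rank {α : Type} [DecidableEq α] {n : ℕ} (h : α ≃ Fin n) (T : Finset α) {k : ℕ}
    (hk : k < T.card) : ∃ x ∈ T, d04r h T x = k ∧ ∀ y ∈ T, d04r h T y = k → y = x := by
  have hlt : ∀ x ∈ T, ∀ y ∈ T, h x < h y → d04r h T x < d04r h T y := by
    intro x hx y _ hxy
    apply card_lt_card
    rw [ssubset_iff_of_subset]
    · refine ⟨x, ?_, ?_⟩
      · rw [mem_filter]
        exact ⟨hx, hxy⟩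
      · rw [mem_filter]
        rintro ⟨_, h1⟩
        exact lt_irrefl _ h1
    · intro w hw
      rw [mem_filter] at hw ⊢
      exact ⟨hw.1, hw.2.trans hxy⟩
  have hinj : Set.InjOn (d04r h T) T := by
    intro x hx y hy e
    rcases lt_trichotomy (h x) (h y) with h1 | h1 | h1
    · exact absurd e (hlt x hx y hy h1).ne
    · exact h.injective h1
    · exact absurd e (hlt y hy x hx h1).ne'
  have himg : T.image (d04r h T) = range T.card := by
    apply eq_of_subset_of_card_le
    · intro r hr
      obtain ⟨x, hx, rfl⟩ := mem_image.mp hr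
      rw [mem_range]
      apply card_lt_card
      rw [ssubset_iff_of_subset (filter_subset _ _)]
      refine ⟨x, hx, ?_⟩
      rw [mem_filter]
      rintro ⟨_, h1⟩
      exact lt_irrefl _ h1
    · rw [card_image_of_injOn hinj, card_range]
  have hk' : k ∈ T.image (d04r h T) := by
    rw [himg, mem_range]
    exact hk
  obtain ⟨x, hx, hxk⟩ := mem_image.mp hk'
  exact ⟨x, hx, hxk, fun y hy hyk => hinj hy hx (hyk.trans hxk.symm)⟩

theorem d04_sum {α : Type} [Fintype α] [DecidableEq α] (T : Finset α) {k : ℕ} (hk : k < T.card) :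
    ∑ p ∈ T.sigma (fun x => powersetCard k (T.erase x)), d04n T p.1 p.2 =
      (Fintype.card α).factorial := by
  have h1 : ∀ p : (_ : α) × Finset α, d04n T p.1 p.2 =
      ∑ h : α ≃ Fin (Fintype.card α), if ∀ w ∈ T, (h w < h p.1 ↔ w ∈ p.2) then 1 else 0 := by
    intro p
    rw [d04n, card_filter]
  simp only [h1]
  rw [sum_comm]
  have h2 : ∀ h : α ≃ Fin (Fintype.card α),
      (∑ p ∈ T.sigma (fun x => powersetCard k (T.erase x)),
        if ∀ w ∈ T, (h w < h p.1 ↔ w ∈ p.2) then 1 else 0) = 1 := by
    intro h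
    rw [← card_filter, card_eq_one]
    obtain ⟨x, hx, hxk, huniq⟩ := d04_rank h T hk
    refine ⟨⟨x, T.filter fun w => h w < h x⟩, ?_⟩
    ext p
    rw [mem_filter, mem_sigma, mem_powersetCard, mem_singleton]
    constructor
    · rintro ⟨⟨hp1, hp2, hp3⟩, hp4⟩
      obtain ⟨y, S⟩ := p
      have hS : S = T.filter fun w => h w < h y := by
        ext w
        rw [mem_filter]
        constructor
        · intro hw
          have hwT : w ∈ T := (mem_erase.mp (hp2 hw)).2
          exact ⟨hwT, (hp4 w hwT).mpr hw⟩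
        · rintro ⟨hwT, hw⟩
          exact (hp4 w hwT).mp hw
      have hr : d04r h T y = k := by
        rw [d04r, ← hS]
        exact hp3
      have hy := huniq y hp1 hr
      subst hy
      rw [hS]
    · intro e
      subst e
      refine ⟨⟨hx, ?_, hxk⟩, ?_⟩
      · intro w hw
        rw [mem_filter] at hw
        rw [mem_erase]
        refine ⟨?_, hw.1⟩
        rintro rfl
        exact lt_irrefl _ hw.2
      · intro w hw
        rw [mem_filter]
        exact ⟨fun h1 => ⟨hw, h1⟩, fun h1 => h1.2⟩
  rw [sum_congr rfl (fun h _ => h2 h), sum_const, smul_eq_mul, mul_one, card_univ,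
    Fintype.card_equiv (Fintype.equivFin α)]

theorem count_lower {α : Type} [Fintype α] [DecidableEq α] (v : α) (N W : Finset α) (hv : v ∉ N)
    (hW : W ⊆ N) :
    (N.card + 1) * N.card.choose W.card *
      (univ.filter (fun h : α ≃ Fin (Fintype.card α) => ∀ w ∈ N, (h w < h v ↔ w ∈ W))).card =
      (Fintype.card α).factorial := by
  have hT : (insert v N).card = N.card + 1 := card_insert_of_notMem hv
  have hTe : (insert v N).erase v = N := erase_insert hv
  have hvT : v ∈ insert v N := mem_insert_self _ _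
  have hk : W.card < (insert v N).card := by
    rw [hT]
    exact Nat.lt_succ_of_le (card_le_card hW)
  have h1 := d04_sum (insert v N) hk
  have h2 : ∀ p ∈ (insert v N).sigma (fun x => powersetCard W.card ((insert v N).erase x)),
      d04n (insert v N) p.1 p.2 = d04n (insert v N) v W := by
    intro p hp
    rw [mem_sigma, mem_powersetCard] at hp
    exact d04_inv (insert v N) p.1 v p.2 W hp.1 hvT hp.2.1 (by rw [hTe]; exact hW) hp.2.2
  rw [sum_congr rfl h2, sum_const, smul_eq_mul, card_sigma] at h1
  have h3 : ∑ x ∈ insert v N, (powersetCard W.card ((insert v N).erase x)).card =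
      (N.card + 1) * N.card.choose W.card := by
    have : ∀ x ∈ insert v N, (powersetCard W.card ((insert v N).erase x)).card =
        N.card.choose W.card := by
      intro x hx
      rw [card_powersetCard, card_erase_of_mem hx, hT, Nat.add_sub_cancel]
    rw [sum_congr rfl this, sum_const, smul_eq_mul, hT]
  rw [h3] at h1
  have h4 : d04n (insert v N) v W = (univ.filter (fun h : α ≃ Fin (Fintype.card α) =>
      ∀ w ∈ N, (h w < h v ↔ w ∈ W))).card := by
    unfold d04n
    congr 1
    ext h
    rw [mem_filter, mem_filter]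
    constructor
    · rintro ⟨_, hh⟩
      exact ⟨mem_univ _, fun w hw => hh w (mem_insert_of_mem hw)⟩
    · rintro ⟨_, hh⟩
      refine ⟨mem_univ _, ?_⟩
      intro w hw
      rcases mem_insert.mp hw with rfl | hw
      · exact ⟨fun h1 => absurd h1 (lt_irrefl _), fun h1 => absurd (hW h1) hv⟩
      · exact hh w hw
  rw [← h4]
  exact h1

end Pool.MP_f18604_gt.KF
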