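import Mathlib

/-!
# KF-D05: a sum of reciprocals of binomial coefficients

Proof. `1 / ((i+2) C(N+6, i+2)) = (i+1)! (N+4-i)! / (N+6)!`, so the sum is
`∑_{i ≤ N} N!/(i! (N-i)!) (i+1)! (N+4-i)! / (N+6)! = N! 4! / (N+6)! ∑_{i ≤ N} (i+1) C(N+4-i, 4)`.
The last sum is `C(N+6, 6)` (hockey stick twice: `∑_{i ≤ N} (i+1) C(N-i+4, 4) = C(N+6, 6)`; by
induction on `N`: the difference of consecutive terms is `∑_{i ≤ N+1} C(N+1-i+4, 4) = C(N+6, 5)`).
So the sum is `N! 4! / (N+6)! * (N+6)! / (6! N!) = 4!/6! = 1/30`.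
-/

set_option autoImplicit false

namespace Pool.MP_f18604_gt.KF

open Finset

theorem d05_A (N : ℕ) : ∑ j ∈ range (N + 1), (((j : ℚ) + 1) * (j + 2) * (j + 3) * (j + 4)) =
    ((N : ℚ) + 1) * (N + 2) * (N + 3) * (N + 4) * (N + 5) / 5 := by
  induction N with
  | zero => norm_num
  | succ N ih =>
    rw [sum_range_succ, ih]
    push_cast
    ring

theorem d05_B (N : ℕ) : ∑ j ∈ range (N + 1), (((N : ℚ) - j + 1) *
      (((j : ℚ) + 1) * (j + 2) * (j + 3) * (j + 4))) =
    ((N : ℚ) + 1) * (N + 2) * (N + 3) * (N + 4) * (N + 5) * (N + 6) / 30 := by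
  induction N with
  | zero => norm_num
  | succ N ih =>
    rw [sum_range_succ]
    have h1 : ∑ j ∈ range (N + 1), ((((N + 1 : ℕ) : ℚ) - j + 1) *
        (((j : ℚ) + 1) * (j + 2) * (j + 3) * (j + 4))) =
        ∑ j ∈ range (N + 1), (((N : ℚ) - j + 1) *
          (((j : ℚ) + 1) * (j + 2) * (j + 3) * (j + 4))) +
        ∑ j ∈ range (N + 1), (((j : ℚ) + 1) * (j + 2) * (j + 3) * (j + 4)) := by
      rw [← sum_add_distrib]
      apply sum_congr rfl
      intro j _
      push_cast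
      ring
    rw [h1, ih, d05_A]
    push_cast
    ring

theorem d05_term (i j : ℕ) : (((i + j).choose i : ℕ) : ℚ) /
      (((i : ℚ) + 2) * (((i + j + 6).choose (i + 2) : ℕ) : ℚ)) =
    ((i + j).factorial : ℚ) / ((i + j + 6).factorial : ℚ) *
      (((i : ℚ) + 1) * (((j : ℚ) + 1) * (j + 2) * (j + 3) * (j + 4))) := by
  have h1 : (((i + j).choose i : ℕ) : ℚ) =
      ((i + j).factorial : ℚ) / ((i.factorial : ℚ) * (j.factorial : ℚ)) := by
    rw [Nat.cast_choose ℚ (Nat.le_add_right i j), Nat.add_sub_cancel_left]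
  have h2 : (((i + j + 6).choose (i + 2) : ℕ) : ℚ) =
      ((i + j + 6).factorial : ℚ) / (((i + 2).factorial : ℚ) * ((j + 4).factorial : ℚ)) := by
    rw [Nat.cast_choose ℚ (by omega : i + 2 ≤ i + j + 6)]
    have : i + j + 6 - (i + 2) = j + 4 := by omega
    rw [this]
  have h3 : ((i + 2).factorial : ℚ) = ((i : ℚ) + 2) * ((i : ℚ) + 1) * (i.factorial : ℚ) := by
    rw [Nat.factorial_succ, Nat.factorial_succ]
    push_cast
    ring
  have h4 : ((j + 4).factorial : ℚ) =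
      (((j : ℚ) + 1) * (j + 2) * (j + 3) * (j + 4)) * (j.factorial : ℚ) := by
    rw [Nat.factorial_succ, Nat.factorial_succ, Nat.factorial_succ, Nat.factorial_succ]
    push_cast
    ring
  have e1 : (i.factorial : ℚ) ≠ 0 := by exact_mod_cast i.factorial_ne_zero
  have e2 : (j.factorial : ℚ) ≠ 0 := by exact_mod_cast j.factorial_ne_zero
  have e3 : ((i + j + 6).factorial : ℚ) ≠ 0 := by exact_mod_cast (i + j + 6).factorial_ne_zero
  have e4 : ((i : ℚ) + 2) ≠ 0 := by positivity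
  have e5 : ((i : ℚ) + 1) ≠ 0 := by positivity
  have e6 : (((j : ℚ) + 1) * (j + 2) * (j + 3) * (j + 4)) ≠ 0 := by positivity
  rw [h1, h2, h3, h4]
  field_simp

theorem beta_sum (N : ℕ) :
    ∑ i ∈ range (N + 1), (N.choose i : ℚ) / ((i + 2) * (N + 6).choose (i + 2)) = 1 / 30 := by
  rw [← sum_range_reflect]
  have h1 : ∀ j ∈ range (N + 1), (N.choose (N + 1 - 1 - j) : ℚ) /
      ((((N + 1 - 1 - j : ℕ) : ℚ) + 2) * (N + 6).choose (N + 1 - 1 - j + 2)) =
      (N.factorial : ℚ) / ((N + 6).factorial : ℚ) * (((N : ℚ) - j + 1) *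
        (((j : ℚ) + 1) * (j + 2) * (j + 3) * (j + 4))) := by
    intro j hj
    have hj' : j ≤ N := by
      have := mem_range.mp hj
      omega
    obtain ⟨i, rfl⟩ := Nat.exists_eq_add_of_le' hj'
    have e : i + j + 1 - 1 - j = i := by omega
    rw [e, d05_term i j]
    push_cast
    ring
  rw [sum_congr rfl h1, ← mul_sum, d05_B]
  have h2 : ((N + 6).factorial : ℚ) =
      ((N : ℚ) + 1) * (N + 2) * (N + 3) * (N + 4) * (N + 5) * (N + 6) * (N.factorial : ℚ) := by
    rw [Nat.factorial_succ, Nat.factorial_succ, Nat.factorial_succ, Nat.factorial_succ,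
      Nat.factorial_succ, Nat.factorial_succ]
    push_cast
    ring
  have e1 : (N.factorial : ℚ) ≠ 0 := by exact_mod_cast N.factorial_ne_zero
  have e2 : ((N : ℚ) + 1) * (N + 2) * (N + 3) * (N + 4) * (N + 5) * (N + 6) ≠ 0 := by positivity
  rw [h2]
  field_simp

end Pool.MP_f18604_gt.KF
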