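import Mathlib
import Pool.Agent.Helper47.KF.Defs
import Pool.Agent.Helper47.KF.D04
import Pool.Agent.Helper47.KF.D05

/-!
# KF-D06: the average number of components of the lower link

Let `m = |nbrs K v|`, `n = |α|`, with the bounds `hm`, `hmiss`, `hk`. Then the sum over all
bijections `h : α ≃ Fin n` of the number of components of the lower link of `v` is at most
`n! (1 + (miss - 15) / (15 (m+1)))`.

Proof. `low K h v` is a subset `W` of the subtype `nbrs K v`; it equals `W` iff for all
neighbours `w`, `h w < h v ↔ w ∈ W`. By `count_lower` (with `N = nbrs K v`, `v ∉ N`, and `W` mapped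
to `α`) there are `n! / ((m+1) C(m, |W|))` such `h`. So the sum is
`n!/(m+1) ∑_{k ≤ m} S_k / C(m, k)` with `S_k = ∑_{|W| = k} comp (lk K v) W`. `S_0 = 0`
(no vertices, no components), `S_1 = m` (one component each; `S_1/C(m,1) = 1`, `m ≥ 5`),
and for `k ≥ 2` `S_k / C(m,k) ≤ 1 + 2 miss C(m-6, k-2) / (k C(m, k))`. Hence
`∑_k S_k / C(m,k) ≤ m + 2 miss ∑_{k=2}^m C(m-6,k-2) / (k C(m,k))`. If `m ≥ 6`, `N = m - 6`,
`k = i + 2`, only `i ≤ N` contribute and the last sum is `1/30` by `beta_sum`. If `m = 5` then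
`miss ≤ C(1,2) = 0`. In both cases the total is `≤ m + miss / 15`, and
`(m + miss/15) / (m+1) = 1 + (miss - 15) / (15 (m+1))`.
-/

set_option autoImplicit false

namespace Pool.MP_f18604_gt.KF

open Finset

/-- the number of components is at most the number of vertices -/
theorem d06_comp_le {V : Type} (G : SimpleGraph V) (W : Finset V) : comp G W ≤ W.card := by
  classical
  unfold comp
  have h1 : Nat.card (G.induce (W : Set V)).ConnectedComponent ≤ Nat.card ((W : Set V) : Type) :=
    Nat.card_le_card_of_surjective (fun x => (G.induce (W : Set V)).connectedComponentMk x)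
      (fun c => Quot.exists_rep c)
  have h2 : Nat.card ((W : Set V) : Type) = W.card := by simp
  omega

/-- the sum over the subsets of the neighbourhood -/
theorem d06_real (m : ℕ) (hm : 5 ≤ m) (M : ℕ) (hM : M ≤ (m - 4).choose 2) (S : ℕ → ℕ)
    (h0 : S 0 ≤ 0) (h1 : S 1 ≤ m)
    (hk : ∀ k, 2 ≤ k → k * S k ≤ k * m.choose k + 2 * M * (m - 6).choose (k - 2)) :
    ∑ k ∈ range (m + 1), (S k : ℚ) / (m.choose k : ℚ) ≤ (m : ℚ) + (M : ℚ) / 15 := by
  obtain ⟨p, rfl⟩ : ∃ p, m = p + 1 := ⟨m - 1, by omega⟩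
  rw [sum_range_succ', sum_range_succ']
  have e0 : S 0 = 0 := by omega
  have t0 : (S 0 : ℚ) / ((p + 1).choose 0 : ℚ) = 0 := by
    rw [e0]
    simp
  have t1 : (S (0 + 1) : ℚ) / ((p + 1).choose (0 + 1) : ℚ) ≤ 1 := by
    rw [zero_add, Nat.choose_one_right]
    apply div_le_one_of_le₀
    · exact_mod_cast h1
    · positivity
  have t2 : ∀ i ∈ range p, (S (i + 1 + 1) : ℚ) / ((p + 1).choose (i + 1 + 1) : ℚ) ≤
      1 + 2 * (M : ℚ) * (((p + 1 - 6).choose i : ℚ) /
        (((i : ℚ) + 2) * ((p + 1).choose (i + 2) : ℚ))) := by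
    intro i hi
    have hi' := mem_range.mp hi
    have hc : 0 < (p + 1).choose (i + 2) := Nat.choose_pos (by omega)
    have hc' : (0 : ℚ) < ((p + 1).choose (i + 2) : ℚ) := by exact_mod_cast hc
    have h2 := hk (i + 2) (by omega)
    have h3 : ((i : ℚ) + 2) * (S (i + 2) : ℚ) ≤ ((i : ℚ) + 2) * ((p + 1).choose (i + 2) : ℚ) +
        2 * (M : ℚ) * ((p + 1 - 6).choose i : ℚ) := by
      have h4 : i + 2 - 2 = i := by omega
      rw [h4] at h2
      exact_mod_cast h2
    have h5 : (0 : ℚ) < (i : ℚ) + 2 := by positivity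
    show (S (i + 2) : ℚ) / ((p + 1).choose (i + 2) : ℚ) ≤ _
    rw [div_le_iff₀ hc']
    have h6 : (1 + 2 * (M : ℚ) * (((p + 1 - 6).choose i : ℚ) /
        (((i : ℚ) + 2) * ((p + 1).choose (i + 2) : ℚ)))) * ((p + 1).choose (i + 2) : ℚ) =
        (((i : ℚ) + 2) * ((p + 1).choose (i + 2) : ℚ) +
        2 * (M : ℚ) * ((p + 1 - 6).choose i : ℚ)) / ((i : ℚ) + 2) := by
      field_simp
    rw [h6, le_div_iff₀ h5]
    linarith
  have t3 := sum_le_sum t2
  rw [sum_add_distrib, sum_const, card_range, nsmul_eq_mul, mul_one, ← mul_sum] at t3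
  have t4 : (M : ℚ) * ∑ i ∈ range p, ((p + 1 - 6).choose i : ℚ) /
        (((i : ℚ) + 2) * ((p + 1).choose (i + 2) : ℚ)) ≤ (M : ℚ) / 30 := by
    by_cases h5 : p = 4
    · subst h5
      have : M = 0 := by
        have : (4 + 1 - 4).choose 2 = 0 := by decide
        omega
      rw [this]
      simp
    · obtain ⟨N, rfl⟩ : ∃ N, p = N + 5 := ⟨p - 5, by omega⟩
      have e1 : N + 5 + 1 - 6 = N := by omega
      have e2 : N + 5 + 1 = N + 6 := by omega
      rw [e1, e2]
      have h6 : ∑ i ∈ range (N + 5), (N.choose i : ℚ) /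
          (((i : ℚ) + 2) * ((N + 6).choose (i + 2) : ℚ)) =
          ∑ i ∈ range (N + 1), (N.choose i : ℚ) /
          (((i : ℚ) + 2) * ((N + 6).choose (i + 2) : ℚ)) := by
        symm
        apply sum_subset
        · intro x hx
          rw [mem_range] at hx ⊢
          omega
        · intro x _ hx
          rw [mem_range, not_lt] at hx
          rw [Nat.choose_eq_zero_of_lt (by omega : N < x)]
          simp
      rw [h6, beta_sum]
      apply le_of_eq
      ring
  have e9 : ((p + 1 : ℕ) : ℚ) = (p : ℚ) + 1 := by push_cast; ring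
  rw [e9]
  have t5 : 2 * (M : ℚ) * ∑ i ∈ range p, ((p + 1 - 6).choose i : ℚ) /
        (((i : ℚ) + 2) * ((p + 1).choose (i + 2) : ℚ)) ≤ (M : ℚ) / 15 := by
    have : 2 * (M : ℚ) * ∑ i ∈ range p, ((p + 1 - 6).choose i : ℚ) /
        (((i : ℚ) + 2) * ((p + 1).choose (i + 2) : ℚ)) = 2 * ((M : ℚ) *
        ∑ i ∈ range p, ((p + 1 - 6).choose i : ℚ) /
        (((i : ℚ) + 2) * ((p + 1).choose (i + 2) : ℚ))) := by ring
    rw [this]
    linarith
  linarith

variable {α : Type} [Fintype α] [DecidableEq α]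

theorem d06_count (K : Finset (Finset α)) (v : α) (W : Finset (nbrs K v)) :
    ((nbrs K v).card + 1) * (nbrs K v).card.choose W.card *
      (univ.filter (fun h : α ≃ Fin (Fintype.card α) =>
        low K (fun x => (h x : ℕ)) v = W)).card = (Fintype.card α).factorial := by
  have hv : v ∉ nbrs K v := by
    unfold nbrs
    rw [mem_filter]
    rintro ⟨_, h, _⟩
    exact h rfl
  have h1 := count_lower v (nbrs K v) (W.map (Function.Embedding.subtype _)) hv (by
    intro w hw
    rw [mem_map] at hw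
    obtain ⟨x, _, rfl⟩ := hw
    exact x.2)
  rw [card_map] at h1
  rw [← h1]
  congr 2
  ext h
  rw [mem_filter, mem_filter]
  constructor
  · rintro ⟨_, hh⟩
    refine ⟨mem_univ _, ?_⟩
    intro w hw
    have h2 : (⟨w, hw⟩ : nbrs K v) ∈ low K (fun x => (h x : ℕ)) v ↔ (⟨w, hw⟩ : nbrs K v) ∈ W := by
      rw [hh]
    unfold low at h2
    rw [mem_filter] at h2
    rw [mem_map]
    constructor
    · intro h3
      exact ⟨⟨w, hw⟩, h2.mp ⟨mem_univ _, h3⟩, rfl⟩
    · rintro ⟨x, hx, hxw⟩
      have : x = ⟨w, hw⟩ := Subtype.ext hxw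
      rw [this] at hx
      exact (h2.mpr hx).2
  · rintro ⟨_, hh⟩
    refine ⟨mem_univ _, ?_⟩
    ext x
    unfold low
    rw [mem_filter]
    have h2 := hh x x.2
    rw [mem_map] at h2
    constructor
    · rintro ⟨_, h3⟩
      obtain ⟨y, hy, hyx⟩ := h2.mp h3
      have : y = x := Subtype.ext hyx
      rw [← this]
      exact hy
    · intro h3
      exact ⟨mem_univ _, h2.mpr ⟨x, h3, rfl⟩⟩

theorem average (K : Finset (Finset α)) (v : α) (hm : 5 ≤ (nbrs K v).card)
    (hmiss : miss K v ≤ ((nbrs K v).card - 4).choose 2)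
    (hk : ∀ k, 2 ≤ k → k * ∑ W ∈ (univ : Finset (nbrs K v)).powersetCard k, comp (lk K v) W ≤
      k * (nbrs K v).card.choose k + 2 * miss K v * ((nbrs K v).card - 6).choose (k - 2)) :
    ((∑ h : α ≃ Fin (Fintype.card α), comp (lk K v) (low K (fun x => (h x : ℕ)) v) : ℕ) : ℚ) ≤
      (Fintype.card α).factorial * (1 + ((miss K v : ℚ) - 15) / (15 * ((nbrs K v).card + 1))) := by
  set m := (nbrs K v).card with hmdef
  have hcu : (univ : Finset (nbrs K v)).card = m := by
    rw [card_univ, Fintype.card_coe]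
  have hsum : ((∑ h : α ≃ Fin (Fintype.card α),
      comp (lk K v) (low K (fun x => (h x : ℕ)) v) : ℕ) : ℚ) =
      ((Fintype.card α).factorial : ℚ) / ((m : ℚ) + 1) *
      ∑ k ∈ range (m + 1), ((∑ W ∈ (univ : Finset (nbrs K v)).powersetCard k,
        comp (lk K v) W : ℕ) : ℚ) / (m.choose k : ℚ) := by
    have h1 : ∑ h : α ≃ Fin (Fintype.card α), comp (lk K v) (low K (fun x => (h x : ℕ)) v) =
        ∑ W ∈ (univ : Finset (nbrs K v)).powerset, (univ.filter
          (fun h : α ≃ Fin (Fintype.card α) => low K (fun x => (h x : ℕ)) v = W)).card *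
            comp (lk K v) W := by
      rw [← sum_fiberwise_of_maps_to (s := (univ : Finset (α ≃ Fin (Fintype.card α))))
        (t := (univ : Finset (nbrs K v)).powerset)
        (g := fun h => low K (fun x => (h x : ℕ)) v)
        (fun h _ => mem_powerset.mpr (subset_univ _))]
      apply sum_congr rfl
      intro W _
      have h2 : ∀ h ∈ univ.filter
          (fun h : α ≃ Fin (Fintype.card α) => low K (fun x => (h x : ℕ)) v = W),
          comp (lk K v) (low K (fun x => (h x : ℕ)) v) = comp (lk K v) W := by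
        intro h hh
        rw [(mem_filter.mp hh).2]
      rw [sum_congr rfl h2, sum_const, smul_eq_mul]
    rw [h1]
    push_cast
    rw [sum_powerset, hcu, mul_sum]
    apply sum_congr rfl
    intro k hk'
    have hkm : k ≤ m := by
      have := mem_range.mp hk'
      omega
    rw [sum_div, mul_sum]
    apply sum_congr rfl
    intro W hW
    have hWk : W.card = k := (mem_powersetCard.mp hW).2
    have h3 := d06_count K v W
    rw [← hmdef, hWk] at h3
    have h4 : ((m : ℚ) + 1) * (m.choose k : ℚ) * ((univ.filter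
          (fun h : α ≃ Fin (Fintype.card α) => low K (fun x => (h x : ℕ)) v = W)).card : ℚ) =
        ((Fintype.card α).factorial : ℚ) := by exact_mod_cast h3
    have h5 : (m.choose k : ℚ) ≠ 0 := by
      have := Nat.choose_pos hkm
      exact_mod_cast this.ne'
    have h6 : ((m : ℚ) + 1) ≠ 0 := by positivity
    rw [← h4]
    field_simp
  rw [hsum]
  have h7 := d06_real m hm (miss K v) hmiss
    (fun k => ∑ W ∈ (univ : Finset (nbrs K v)).powersetCard k, comp (lk K v) W)
    (by
      have : ∀ W ∈ (univ : Finset (nbrs K v)).powersetCard 0, comp (lk K v) W ≤ 0 := by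
        intro W hW
        have h8 := d06_comp_le (lk K v) W
        rw [(mem_powersetCard.mp hW).2] at h8
        exact h8
      have h9 := sum_le_sum this
      simpa using h9)
    (by
      have : ∀ W ∈ (univ : Finset (nbrs K v)).powersetCard 1, comp (lk K v) W ≤ 1 := by
        intro W hW
        have h8 := d06_comp_le (lk K v) W
        rw [(mem_powersetCard.mp hW).2] at h8
        exact h8
      have h9 := sum_le_sum this
      rw [sum_const, card_powersetCard, hcu, Nat.choose_one_right, smul_eq_mul, mul_one] at h9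
      exact h9)
    hk
  have h8 : (0 : ℚ) ≤ ((Fintype.card α).factorial : ℚ) / ((m : ℚ) + 1) := by positivity
  have h9 := mul_le_mul_of_nonneg_left h7 h8
  refine h9.trans (le_of_eq ?_)
  have h6 : ((m : ℚ) + 1) ≠ 0 := by positivity
  field_simp
  ring

end Pool.MP_f18604_gt.KF
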