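import Mathlib
import Pool.Agent.Helper47.KF.Defs
import Pool.Agent.Helper47.KF.A09
import Pool.Agent.Helper47.KF.C06
import Pool.Agent.Helper47.KF.D01

/-!
# KF-D07: the bound for the components in the vertex links

Proof. By D01 and C06 there is `p : α → Fin 5 → ℚ` in general position with
`Rg (linkCyc K v) p`. Restrict `p` to the subtype `V = nbrs K v` and apply `rigid_bound` (A09) to
`G = lk K v`. Spanning: `supp (linkCyc K v) = nbrs K v` has at least 5 elements (`five_le_supp`),
and five of the `p i` form a basis of `ℚ^5`. Rigidity: given `q` on `V` with the equations of A09,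
extend it by 0 to `α`; for `i ≠ j` with `E (linkCyc K v) i j` we have `{v, i, j} ∈ K` and `i, j ∈ V`
(D01), so `i, j` are adjacent in `lk K v`; for `i = j` the equation is `2 p_i ⬝ q_i = 0`. `Rg` gives
`A`. Finally `(lk K v)ᶜ.edgeFinset.card = miss K v`: the edges of the complement correspond to the
2-subsets `e` of `nbrs K v` with `insert v e ∉ K` (map `s(a, b) ↦ {a, b}`).
-/

set_option autoImplicit false

namespace Pool.MP_f18604_gt.KF

open Finset

variable {α : Type} [Fintype α] [DecidableEq α] {K : Finset (Finset α)}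

theorem toFinset_map_pair (v : α) (a b : nbrs K v) :
    (Sym2.toFinset s(a, b)).map (Function.Embedding.subtype (fun x => x ∈ nbrs K v)) =
      ({(a : α), (b : α)} : Finset α) := by
  rw [Sym2.toFinset_mk_eq, Finset.map_insert, Finset.map_singleton]
  rfl

theorem card_compl_lk (v : α) [Fintype ((lk K v)ᶜ).edgeSet] :
    (lk K v)ᶜ.edgeFinset.card = miss K v := by
  classical
  unfold miss
  refine Finset.card_bij
    (fun s _ => (Sym2.toFinset s).map (Function.Embedding.subtype (fun x => x ∈ nbrs K v))) ?_ ?_ ?_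
  · intro s
    induction s using Sym2.inductionOn with
    | _ a b =>
      intro hs
      rw [SimpleGraph.mem_edgeFinset, SimpleGraph.mem_edgeSet, SimpleGraph.compl_adj] at hs
      obtain ⟨hab, hn⟩ := hs
      have hab' : (a : α) ≠ b := fun h => hab (Subtype.ext h)
      rw [toFinset_map_pair, Finset.mem_filter, Finset.mem_powersetCard]
      refine ⟨⟨?_, Finset.card_pair hab'⟩, ?_⟩
      · intro x hx
        rcases Finset.mem_insert.mp hx with rfl | hx
        · exact a.2
        · rw [Finset.mem_singleton] at hx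
          subst hx
          exact b.2
      · intro h
        exact hn ⟨hab', h⟩
  · intro s hs t ht hst
    have h1 := Finset.map_injective _ hst
    ext x
    rw [← Sym2.mem_toFinset, ← Sym2.mem_toFinset, h1]
  · intro e he
    rw [Finset.mem_filter, Finset.mem_powersetCard] at he
    obtain ⟨⟨hsub, hc⟩, hn⟩ := he
    obtain ⟨a, b, hab, rfl⟩ := Finset.card_eq_two.mp hc
    have ha : a ∈ nbrs K v := hsub (by simp)
    have hb : b ∈ nbrs K v := hsub (by simp)
    refine ⟨s(⟨a, ha⟩, ⟨b, hb⟩), ?_, ?_⟩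
    · rw [SimpleGraph.mem_edgeFinset, SimpleGraph.mem_edgeSet, SimpleGraph.compl_adj]
      exact ⟨fun h => hab (congrArg Subtype.val h), fun h => hn h.2⟩
    · exact toFinset_map_pair v ⟨a, ha⟩ ⟨b, hb⟩

theorem link_bound (hK : NormalPseudomanifold K) (v : α) :
    5 ≤ (nbrs K v).card ∧ miss K v ≤ ((nbrs K v).card - 4).choose 2 ∧
    ∀ k, 2 ≤ k → k * ∑ W ∈ (univ : Finset (nbrs K v)).powersetCard k, comp (lk K v) W ≤
      k * (nbrs K v).card.choose k + 2 * miss K v * ((nbrs K v).card - 6).choose (k - 2) := by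
  classical
  obtain ⟨p, hgp, hrg⟩ := fogelsanger (linkCyc_isMinCycle hK v)
  have hs := supp_linkCyc hK v
  have h5 : 5 ≤ (nbrs K v).card := by
    rw [← hs]
    exact five_le_supp (linkCyc_isMinCycle hK v).1 (linkCyc_isMinCycle hK v).2.1
  have hspan : ∀ c : Fin 5 → ℚ, (∀ i : nbrs K v, c ⬝ᵥ p i = 0) → c = 0 := by
    intro c hc
    obtain ⟨S, hS, hS5⟩ := Finset.exists_subset_card_eq h5
    have hli := hgp S hS5.le
    have hcard : Fintype.card S = Module.finrank ℚ (Fin 5 → ℚ) := by
      rw [Fintype.card_coe, hS5, Module.finrank_fin_fun]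
    have hsp := hli.span_eq_top_of_card_eq_finrank' hcard
    have hall : ∀ x : Fin 5 → ℚ, c ⬝ᵥ x = 0 := by
      intro x
      have hx : x ∈ Submodule.span ℚ (Set.range fun i : S => p i) := by
        rw [hsp]
        trivial
      induction hx using Submodule.span_induction with
      | mem y hy =>
        obtain ⟨i, rfl⟩ := hy
        exact hc ⟨i, hS i.2⟩
      | zero => exact dotProduct_zero c
      | add y z _ _ h1 h2 => rw [dotProduct_add, h1, h2, add_zero]
      | smul a y _ h1 => rw [dotProduct_smul, h1, smul_zero]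
    exact dotProduct_self_eq_zero.mp (hall c)
  have hrig : ∀ q : nbrs K v → Fin 5 → ℚ, (∀ i : nbrs K v, p i ⬝ᵥ q i = 0) →
      (∀ i j : nbrs K v, (lk K v).Adj i j → p i ⬝ᵥ q j + p j ⬝ᵥ q i = 0) →
      ∃ A : Matrix (Fin 5) (Fin 5) ℚ, A.transpose = -A ∧ ∀ i : nbrs K v, q i = A.mulVec (p i) := by
    intro q hq0 hq1
    have hq : ∀ i j, E (linkCyc K v) i j →
        p i ⬝ᵥ (fun i => if h : i ∈ nbrs K v then q ⟨i, h⟩ else 0 : α → Fin 5 → ℚ) j +
        p j ⬝ᵥ (fun i => if h : i ∈ nbrs K v then q ⟨i, h⟩ else 0 : α → Fin 5 → ℚ) i = 0 := by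
      intro i j hE
      rw [E_linkCyc hK v] at hE
      obtain ⟨hi, hj, hij⟩ := hE
      change p i ⬝ᵥ (if h : j ∈ nbrs K v then q ⟨j, h⟩ else 0) +
        p j ⬝ᵥ (if h : i ∈ nbrs K v then q ⟨i, h⟩ else 0) = 0
      rw [dif_pos hi, dif_pos hj]
      by_cases h : i = j
      · subst h
        have h0 := hq0 ⟨i, hi⟩
        rw [h0, add_zero]
      · exact hq1 ⟨i, hi⟩ ⟨j, hj⟩ ⟨h, hij⟩
    obtain ⟨A, hA, hA'⟩ := hrg _ hq
    refine ⟨A, hA, fun i => ?_⟩
    have h := hA' i (by rw [hs]; exact i.2)
    rwa [dif_pos i.2] at h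
  have hmain := rigid_bound (lk K v) (p := fun i => p i) hspan hrig
  rw [Fintype.card_coe, card_compl_lk] at hmain
  exact hmain

end Pool.MP_f18604_gt.KF
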