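import Mathlib
import Pool.Agent.Helper47.KF.Defs

/-!
# KF-D08: face counts

Proofs (double counting; `Finset.sum_card_bipartiteAbove_eq_sum_card_bipartiteBelow` or
`Finset.sum_comm` on indicator sums).
(0) `fnum K 0 = |α|`: the 1-sets of `K` are all `{v}`.
(1) `∑_v |nbrs K v| = 2 f_1`: pairs `(v, w)`, `v ≠ w`, `{v, w} ∈ K`.
(2) `∑_v (C(m_v, 2) - miss_v) = 3 f_2`: `C(m_v, 2) - miss_v` is the number of 2-subsets `e` of
`nbrs K v` with `insert v e ∈ K`; pairs `(v, σ)`, `σ ∈ K`, `|σ| = 3`, `v ∈ σ` (`e = σ.erase v` is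
contained in `nbrs K v` by `down`).
(3) `2 f_3 = 5 f_4`: pairs `(R, F)`, `R ⊆ F`, `|R| = 4`, `|F| = 5`, `ridge`.
(4) If the links of all edges have Euler characteristic 2 then
`3 f_2 - 6 f_3 + 10 f_4 = 2 f_1`: sum over the edges `e`; a simplex with `k` vertices contains
`C(k, 2)` edges, all in `K`.
(5) `|nbrs K v| + 1 ≤ |α|`.
-/

set_option autoImplicit false

namespace Pool.MP_f18604_gt.KF

open Finset

variable {α : Type} [Fintype α] [DecidableEq α] {K : Finset (Finset α)}

/-- double counting of incidences -/
theorem d08_inc (S : Finset (Finset α)) :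
    ∑ v : α, (S.filter (fun σ => v ∈ σ)).card = ∑ σ ∈ S, σ.card := by
  simp_rw [Finset.card_filter]
  rw [Finset.sum_comm]
  refine Finset.sum_congr rfl fun σ _ => ?_
  simp

/-- double counting of inclusions -/
theorem d08_incl (hK : NormalPseudomanifold K) (i j : ℕ) (hi : 1 ≤ i) :
    ∑ R ∈ K.filter (fun R => R.card = i), (K.filter (fun σ => R ⊆ σ ∧ σ.card = j)).card =
      (K.filter (fun σ => σ.card = j)).card * j.choose i := by
  have h1 : ∀ R ∈ K.filter (fun R => R.card = i), (K.filter (fun σ => R ⊆ σ ∧ σ.card = j)).card =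
      ∑ σ ∈ K.filter (fun σ => σ.card = j), if R ⊆ σ then 1 else 0 := by
    intro R _
    rw [← Finset.card_filter, Finset.filter_filter]
    congr 1
    ext σ
    simp only [mem_filter]
    tauto
  rw [Finset.sum_congr rfl h1, Finset.sum_comm]
  have h2 : ∀ σ ∈ K.filter (fun σ => σ.card = j),
      (∑ R ∈ K.filter (fun R => R.card = i), if R ⊆ σ then 1 else 0) = j.choose i := by
    intro σ hσ
    rw [mem_filter] at hσ
    rw [← Finset.card_filter, ← hσ.2, ← Finset.card_powersetCard]
    congr 1
    ext R
    simp only [mem_filter, mem_powersetCard]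
    constructor
    · rintro ⟨⟨_, h3⟩, h4⟩
      exact ⟨h4, h3⟩
    · rintro ⟨h4, h3⟩
      refine ⟨⟨hK.down σ hσ.1 R h4 ?_, h3⟩, h4⟩
      rw [← Finset.card_pos]
      omega
  rw [Finset.sum_congr rfl h2, Finset.sum_const, smul_eq_mul]

theorem fnum_zero (hK : NormalPseudomanifold K) : fnum K 0 = Fintype.card α := by
  have h : K.filter (fun σ => σ.card = 0 + 1) = univ.image (fun v : α => ({v} : Finset α)) := by
    ext σ
    simp only [mem_filter, mem_image, mem_univ, true_and]
    constructor
    · rintro ⟨_, h⟩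
      obtain ⟨v, rfl⟩ := Finset.card_eq_one.mp h
      exact ⟨v, rfl⟩
    · rintro ⟨v, rfl⟩
      exact ⟨hK.vertex v, Finset.card_singleton v⟩
  unfold fnum
  rw [h, Finset.card_image_of_injective _ Finset.singleton_injective, Finset.card_univ]

theorem sum_nbrs (hK : NormalPseudomanifold K) :
    ∑ v, (nbrs K v).card = 2 * fnum K 1 := by
  have h : ∀ v : α, (nbrs K v).card =
      ((K.filter (fun σ => σ.card = 1 + 1)).filter (fun σ => v ∈ σ)).card := by
    intro v
    apply Finset.card_bij (fun w _ => ({v, w} : Finset α))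
    · intro w hw
      simp only [nbrs, mem_filter, mem_univ, true_and] at hw
      simp only [mem_filter]
      exact ⟨⟨hw.2, Finset.card_pair hw.1.symm⟩, by simp⟩
    · intro w hw w' hw' he
      simp only [nbrs, mem_filter, mem_univ, true_and] at hw hw'
      have h1 : w ∈ ({v, w'} : Finset α) := by rw [← he]; simp
      simp only [mem_insert, mem_singleton] at h1
      rcases h1 with h1 | h1
      · exact absurd h1 hw.1
      · exact h1
    · intro σ hσ
      simp only [mem_filter] at hσ
      obtain ⟨⟨hσK, hc⟩, hv⟩ := hσ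
      obtain ⟨a, b, hab, rfl⟩ := Finset.card_eq_two.mp hc
      simp only [mem_insert, mem_singleton] at hv
      rcases hv with rfl | rfl
      · refine ⟨b, ?_, rfl⟩
        simp only [nbrs, mem_filter, mem_univ, true_and]
        exact ⟨hab.symm, hσK⟩
      · refine ⟨a, ?_, Finset.pair_comm _ _⟩
        simp only [nbrs, mem_filter, mem_univ, true_and]
        exact ⟨hab, by rw [Finset.pair_comm]; exact hσK⟩
  rw [Finset.sum_congr rfl (fun v _ => h v), d08_inc]
  rw [Finset.sum_congr rfl (fun σ hσ => (mem_filter.mp hσ).2), Finset.sum_const, smul_eq_mul]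
  unfold fnum
  ring

theorem sum_link_edges (hK : NormalPseudomanifold K) :
    ∑ v, (((nbrs K v).card.choose 2 : ℤ) - miss K v) = 3 * fnum K 2 := by
  have h : ∀ v : α, (((nbrs K v).card.choose 2 : ℤ) - miss K v) =
      (((K.filter (fun σ => σ.card = 2 + 1)).filter (fun σ => v ∈ σ)).card : ℤ) := by
    intro v
    have h1 : (nbrs K v).card.choose 2 = (((nbrs K v).powersetCard 2).filter
        (fun e => insert v e ∈ K)).card + miss K v := by
      rw [← Finset.card_powersetCard]
      unfold miss
      exact (Finset.card_filter_add_card_filter_not (fun e => insert v e ∈ K)).symm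
    have h2 : (((nbrs K v).powersetCard 2).filter (fun e => insert v e ∈ K)).card =
        ((K.filter (fun σ => σ.card = 2 + 1)).filter (fun σ => v ∈ σ)).card := by
      have hnot : ∀ e : Finset α, e ⊆ nbrs K v → v ∉ e := by
        intro e he hv
        have := he hv
        simp only [nbrs, mem_filter, mem_univ, true_and] at this
        exact this.1 rfl
      apply Finset.card_bij (fun e _ => insert v e)
      · intro e he
        simp only [mem_filter, mem_powersetCard] at he
        simp only [mem_filter]
        refine ⟨⟨he.2, ?_⟩, mem_insert_self _ _⟩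
        rw [Finset.card_insert_of_notMem (hnot e he.1.1), he.1.2]
      · intro e he e' he' hee
        simp only [mem_filter, mem_powersetCard] at he he'
        have h3 : (insert v e).erase v = (insert v e').erase v := by rw [hee]
        rwa [Finset.erase_insert (hnot e he.1.1), Finset.erase_insert (hnot e' he'.1.1)] at h3
      · intro σ hσ
        simp only [mem_filter] at hσ
        obtain ⟨⟨hσK, hc⟩, hv⟩ := hσ
        refine ⟨σ.erase v, ?_, Finset.insert_erase hv⟩
        simp only [mem_filter, mem_powersetCard]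
        refine ⟨⟨?_, ?_⟩, ?_⟩
        · intro w hw
          rw [mem_erase] at hw
          simp only [nbrs, mem_filter, mem_univ, true_and]
          refine ⟨hw.1, hK.down σ hσK _ ?_ ⟨v, by simp⟩⟩
          intro x hx
          simp only [mem_insert, mem_singleton] at hx
          rcases hx with rfl | rfl
          · exact hv
          · exact hw.2
        · rw [Finset.card_erase_of_mem hv, hc]
        · rw [Finset.insert_erase hv]
          exact hσK
    rw [h1, h2]
    push_cast
    ring
  rw [Finset.sum_congr rfl (fun v _ => h v), ← Nat.cast_sum, d08_inc]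
  rw [Finset.sum_congr rfl (fun σ hσ => (mem_filter.mp hσ).2), Finset.sum_const, smul_eq_mul]
  unfold fnum
  push_cast
  ring

theorem two_mul_fnum_three (hK : NormalPseudomanifold K) : 2 * fnum K 3 = 5 * fnum K 4 := by
  have h := d08_incl hK 4 5 (by norm_num)
  have h1 : ∀ R ∈ K.filter (fun R => R.card = 4),
      (K.filter (fun σ => R ⊆ σ ∧ σ.card = 5)).card = 2 := by
    intro R hR
    rw [mem_filter] at hR
    rw [← hK.ridge R hR.1 hR.2]
    congr 1
    ext σ
    simp only [mem_filter]
    tauto
  rw [Finset.sum_congr rfl h1, Finset.sum_const, smul_eq_mul] at h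
  have h2 : Nat.choose 5 4 = 5 := by decide
  rw [h2] at h
  unfold fnum
  show 2 * (K.filter (fun σ => σ.card = 4)).card = 5 * (K.filter (fun σ => σ.card = 5)).card
  omega

theorem edge_link_sum (hK : NormalPseudomanifold K) (hE : EdgeLinksSpherical K) :
    3 * (fnum K 2 : ℤ) - 6 * fnum K 3 + 10 * fnum K 4 = 2 * fnum K 1 := by
  have h3 := d08_incl hK 2 3 (by norm_num)
  have h4 := d08_incl hK 2 4 (by norm_num)
  have h5 := d08_incl hK 2 5 (by norm_num)
  have hsum : ∑ e ∈ K.filter (fun R => R.card = 2),
      (((K.filter (fun σ => e ⊆ σ ∧ σ.card = 3)).card : ℤ) -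
      (K.filter (fun σ => e ⊆ σ ∧ σ.card = 4)).card +
      (K.filter (fun σ => e ⊆ σ ∧ σ.card = 5)).card) =
      ∑ e ∈ K.filter (fun R => R.card = 2), (2 : ℤ) := by
    refine Finset.sum_congr rfl fun e he => ?_
    rw [mem_filter] at he
    exact hE e he.1 he.2
  rw [Finset.sum_add_distrib, Finset.sum_sub_distrib, ← Nat.cast_sum, ← Nat.cast_sum,
    ← Nat.cast_sum, h3, h4, h5, Finset.sum_const, nsmul_eq_mul] at hsum
  have c3 : Nat.choose 3 2 = 3 := by decide
  have c4 : Nat.choose 4 2 = 6 := by decide
  have c5 : Nat.choose 5 2 = 10 := by decide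
  rw [c3, c4, c5] at hsum
  unfold fnum
  show 3 * ((K.filter (fun σ => σ.card = 3)).card : ℤ) -
    6 * ((K.filter (fun σ => σ.card = 4)).card : ℤ) +
    10 * ((K.filter (fun σ => σ.card = 5)).card : ℤ) =
    2 * ((K.filter (fun σ => σ.card = 2)).card : ℤ)
  push_cast at hsum
  linarith

theorem card_nbrs_lt (K : Finset (Finset α)) (v : α) : (nbrs K v).card + 1 ≤ Fintype.card α := by
  have h1 : nbrs K v ⊆ univ.erase v := by
    intro w hw
    simp only [nbrs, mem_filter, mem_univ, true_and] at hw
    simp only [mem_erase, mem_univ, and_true]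
    exact hw.1
  have h2 := Finset.card_le_card h1
  rw [Finset.card_erase_of_mem (mem_univ v), Finset.card_univ] at h2
  have h3 : 0 < Fintype.card α := Fintype.card_pos_iff.mpr ⟨v⟩
  omega

end Pool.MP_f18604_gt.KF
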