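import Mathlib

/-!
# KF-D09: arithmetic

`n` vertices, `m v ≥ 5` neighbours, `e v` missing edges in the link, `e v ≤ C(m v - 4, 2)`.

(b) `(e-15)/(15(m+1)) ≤ (C(m-4,2) - 15)/(15 (m+1)) = (m-10)/30`, because
`(m-4)(m-5) - 30 = (m-10)(m+1)`. Sum: `c ≤ 1 + (2 f1 - 10 n)/30`, i.e. `15 c ≤ f1 - 5 n + 15`.

(c) Put `g v = C(m v - 4, 2) - e v ≥ 0`. Then `(e-15)/(15(m+1)) = (m-10)/30 - g/(15(m+1))
≤ (m-10)/30 - g/(15 n)` as `m + 1 ≤ n`. `C(m,2) - e = g + 4 m - 10`. So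
`∑ g = 3 f2 - 8 f1 + 10 n`. With `X = n - f1 + f2 - f3 + f4`, `2 f3 = 5 f4` and
`3 f2 - 6 f3 + 10 f4 = 2 f1` one gets `f2 = 10 X - 10 n + 4 f1` and
`∑ g = 30 X + 4 f1 - 20 n = 4 G + 30 (X - 2)`, `G = f1 - 5 n + 15`. Hence
`15 n c ≤ n G - 4 G - 30 (X - 2) = (n-4) G - 30 (X-2)`. Moreover `2 f1 = ∑ m v ≤ n (n-1)`, so
`G ≤ n(n-1)/2 - 5 n + 15 = (n-5)(n-6)/2`, and `n ≥ 6`: `(n-4) G ≤ (n-4)(n-5)(n-6)/2 = 3 C(n-4,3)`.
So `5 n c ≤ C(n-4,3) - 10 (X-2)`.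
(`n ≥ 6` since there is a vertex `v` and `m v + 1 ≤ n`.)
-/

set_option autoImplicit false

namespace Pool.MP_f18604_gt.KF

open Finset

private theorem d9_choose2 {m : ℕ} (hm : 5 ≤ m) :
    (((m - 4).choose 2 : ℕ) : ℚ) = ((m : ℚ) - 4) * ((m : ℚ) - 5) / 2 := by
  rw [Nat.cast_choose_two, Nat.cast_sub (by omega : 4 ≤ m)]
  push_cast
  ring

private theorem d9_term {m e : ℕ} (hm : 5 ≤ m) :
    ((e : ℚ) - 15) / (15 * (m + 1)) =
      ((m : ℚ) - 10) / 30 - ((((m - 4).choose 2 : ℕ) : ℚ) - e) / (15 * (m + 1)) := by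
  rw [d9_choose2 hm]
  have h : (m : ℚ) + 1 ≠ 0 := by positivity
  field_simp
  ring

private theorem d9_sum {ι : Type} [Fintype ι] (m : ι → ℕ) (f1 : ℕ) (h1 : ∑ v, m v = 2 * f1) :
    ∑ v, ((m v : ℚ) - 10) / 30 = ((f1 : ℚ) - 5 * Fintype.card ι) / 15 := by
  have h2 : (∑ v, (m v : ℚ)) = 2 * f1 := by
    rw [← Nat.cast_sum, h1]
    push_cast
    ring
  rw [← Finset.sum_div, Finset.sum_sub_distrib, h2, Finset.sum_const, Finset.card_univ,
    nsmul_eq_mul]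
  ring

theorem arith_b {ι : Type} [Fintype ι] (m e : ι → ℕ) (hm : ∀ v, 5 ≤ m v)
    (he : ∀ v, e v ≤ (m v - 4).choose 2) (c f1 : ℕ) (h1 : ∑ v, m v = 2 * f1)
    (hc : (c : ℚ) ≤ 1 + ∑ v, ((e v : ℚ) - 15) / (15 * (m v + 1))) :
    15 * (c : ℤ) ≤ f1 - 5 * Fintype.card ι + 15 := by
  have h2 : ∑ v, ((e v : ℚ) - 15) / (15 * (m v + 1)) ≤ ∑ v, ((m v : ℚ) - 10) / 30 := by
    refine Finset.sum_le_sum fun v _ => ?_
    rw [d9_term (hm v)]
    have h3 : (e v : ℚ) ≤ (((m v - 4).choose 2 : ℕ) : ℚ) := by exact_mod_cast he v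
    have h4 : 0 ≤ ((((m v - 4).choose 2 : ℕ) : ℚ) - e v) / (15 * (m v + 1)) := by
      apply div_nonneg
      · linarith
      · positivity
    linarith
  rw [d9_sum m f1 h1] at h2
  have h5 : 15 * (c : ℚ) ≤ f1 - 5 * Fintype.card ι + 15 := by
    linarith
  exact_mod_cast h5

theorem arith_c {ι : Type} [Fintype ι] [Nonempty ι] (m e : ι → ℕ) (hm : ∀ v, 5 ≤ m v)
    (he : ∀ v, e v ≤ (m v - 4).choose 2) (hn : ∀ v, m v + 1 ≤ Fintype.card ι)
    (c f1 f2 f3 f4 : ℕ) (h1 : ∑ v, m v = 2 * f1)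
    (h2 : ∑ v, (((m v).choose 2 : ℤ) - e v) = 3 * f2)
    (h3 : 2 * f3 = 5 * f4) (h4 : 3 * (f2 : ℤ) - 6 * f3 + 10 * f4 = 2 * f1)
    (hc : (c : ℚ) ≤ 1 + ∑ v, ((e v : ℚ) - 15) / (15 * (m v + 1))) :
    5 * Fintype.card ι * (c : ℤ) ≤ (Fintype.card ι - 4).choose 3 -
      10 * ((Fintype.card ι : ℤ) - f1 + f2 - f3 + f4 - 2) := by
  obtain ⟨n, hn'⟩ : ∃ n, n = Fintype.card ι := ⟨_, rfl⟩
  have hn6 : 6 ≤ n := by
    obtain ⟨v⟩ := ‹Nonempty ι›
    have h5 := hm v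
    have h6 := hn v
    omega
  have hnpos : (0 : ℚ) < n := by
    have : (6 : ℚ) ≤ n := by exact_mod_cast hn6
    linarith
  -- the nonnegative numbers `g`
  have hg0 : ∀ v, 0 ≤ (((m v - 4).choose 2 : ℕ) : ℚ) - e v := by
    intro v
    have h3 : (e v : ℚ) ≤ (((m v - 4).choose 2 : ℕ) : ℚ) := by exact_mod_cast he v
    linarith
  have hgsum : ∑ v, ((((m v - 4).choose 2 : ℕ) : ℚ) - e v) = 3 * f2 - 8 * f1 + 10 * n := by
    have h5 : ((∑ v, (((m v).choose 2 : ℤ) - e v) : ℤ) : ℚ) = ((3 * f2 : ℤ) : ℚ) := by rw [h2]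
    push_cast at h5
    have h6 : ∀ v, ((((m v - 4).choose 2 : ℕ) : ℚ) - e v) =
        ((((m v).choose 2 : ℕ) : ℚ) - e v) - 4 * m v + 10 := by
      intro v
      rw [d9_choose2 (hm v), Nat.cast_choose_two]
      ring
    have h7 : (∑ v, (m v : ℚ)) = 2 * f1 := by
      rw [← Nat.cast_sum, h1]
      push_cast
      ring
    rw [Finset.sum_congr rfl fun v _ => h6 v, Finset.sum_add_distrib, Finset.sum_sub_distrib,
      h5, ← Finset.mul_sum, h7, Finset.sum_const, Finset.card_univ, nsmul_eq_mul, ← hn']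
    ring
  have hmain : (c : ℚ) ≤ 1 + (((f1 : ℚ) - 5 * n) / 15 - (3 * f2 - 8 * f1 + 10 * n) / (15 * n)) := by
    refine hc.trans ?_
    have h8 : ∑ v, ((e v : ℚ) - 15) / (15 * (m v + 1)) ≤
        ∑ v, (((m v : ℚ) - 10) / 30 - ((((m v - 4).choose 2 : ℕ) : ℚ) - e v) / (15 * n)) := by
      refine Finset.sum_le_sum fun v _ => ?_
      rw [d9_term (hm v)]
      have h9 : (15 * ((m v : ℚ) + 1)) ≤ 15 * n := by
        have : ((m v + 1 : ℕ) : ℚ) ≤ n := by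
          rw [hn']
          exact_mod_cast hn v
        push_cast at this
        linarith
      have h10 : ((((m v - 4).choose 2 : ℕ) : ℚ) - e v) / (15 * n) ≤
          ((((m v - 4).choose 2 : ℕ) : ℚ) - e v) / (15 * (m v + 1)) :=
        div_le_div_of_nonneg_left (hg0 v) (by positivity) h9
      linarith
    rw [Finset.sum_sub_distrib, d9_sum m f1 h1, ← Finset.sum_div, hgsum, ← hn'] at h8
    linarith
  have h11 : 15 * (n : ℚ) * c ≤ n * (f1 - 5 * n + 15) - (3 * f2 - 8 * f1 + 10 * n) := by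
    have h12 : 15 * (n : ℚ) * c ≤ 15 * n *
        (1 + (((f1 : ℚ) - 5 * n) / 15 - (3 * f2 - 8 * f1 + 10 * n) / (15 * n))) :=
      mul_le_mul_of_nonneg_left hmain (by positivity)
    have h13 : 15 * (n : ℚ) * (1 + (((f1 : ℚ) - 5 * n) / 15 -
        (3 * f2 - 8 * f1 + 10 * n) / (15 * n))) =
        n * (f1 - 5 * n + 15) - (3 * f2 - 8 * f1 + 10 * n) := by
      field_simp
      ring
    rw [h13] at h12
    exact h12
  have h14 : 15 * (n : ℤ) * c ≤ n * (f1 - 5 * n + 15) - (3 * f2 - 8 * f1 + 10 * n) := by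
    exact_mod_cast h11
  have hf1 : 2 * (f1 : ℤ) ≤ n * (n - 1) := by
    have h15 : ∑ v, (m v + 1) ≤ ∑ _v : ι, n := Finset.sum_le_sum fun v _ => by
      rw [hn']; exact hn v
    rw [Finset.sum_add_distrib, h1, Finset.sum_const, Finset.sum_const, Finset.card_univ,
      smul_eq_mul, smul_eq_mul, ← hn'] at h15
    have h16 : (2 * (f1 : ℤ) + n * 1) ≤ n * n := by exact_mod_cast h15
    linarith
  have hch : 6 * (((n - 4).choose 3 : ℕ) : ℤ) = ((n : ℤ) - 4) * (n - 5) * (n - 6) := by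
    obtain ⟨k, rfl⟩ : ∃ k, n = k + 6 := ⟨n - 6, by omega⟩
    have h17 : k + 6 - 4 = k + 2 := by omega
    rw [h17]
    have h18 := Nat.descFactorial_eq_factorial_mul_choose (k + 2) 3
    have h19 : (k + 2).descFactorial 3 = (k + 2) * (k + 1) * k := by
      simp only [Nat.descFactorial]
      rw [show k + 2 - 2 = k by omega, show k + 2 - 1 = k + 1 by omega,
        show k + 2 - 0 = k + 2 by omega]
      ring
    have h20 : Nat.factorial 3 = 6 := rfl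
    rw [h19, h20] at h18
    have h21 : ((k : ℤ) + 2) * (k + 1) * k = 6 * (((k + 2).choose 3 : ℕ) : ℤ) := by
      exact_mod_cast h18
    rw [← h21]
    push_cast
    ring
  rw [← hn']
  have h3' : 2 * (f3 : ℤ) = 5 * f4 := by exact_mod_cast h3
  have hn6' : (6 : ℤ) ≤ n := by exact_mod_cast hn6
  have h22 : ((n : ℤ) - 4) * (2 * f1 - 10 * n + 30) ≤ (n - 4) * ((n - 5) * (n - 6)) := by
    refine mul_le_mul_of_nonneg_left ?_ (by linarith)
    nlinarith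
  have h23 : 10 * ((n : ℤ) - f1 + f2 - f3 + f4) = 10 * n - 4 * f1 + f2 := by
    linarith
  nlinarith

end Pool.MP_f18604_gt.KF
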