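import Mathlib
import Pool.Agent.Helper47.KF.Defs
import Pool.Agent.Helper47.KF.D02
import Pool.Agent.Helper47.KF.D03
import Pool.Agent.Helper47.KF.D06
import Pool.Agent.Helper47.KF.D07
import Pool.Agent.Helper47.KF.D08
import Pool.Agent.Helper47.KF.D09

/-!
# Project KF: assembly

`exists_order`: averaging over all orderings of the vertices. `main`: the theorem.
-/

set_option autoImplicit false

namespace Pool.MP_f18604_gt.KF

open Finset Pool.MP_f18604_gt.Gem

variable {α : Type} [Fintype α] [DecidableEq α]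

/-- There is an ordering with few components of the lower links. -/
theorem exists_order {K : Finset (Finset α)} (hK : NormalPseudomanifold K) :
    ∃ h : α → ℕ, Function.Injective h ∧
      ((∑ v, comp (lk K v) (low K h v) : ℕ) : ℚ) ≤
        ∑ v, (1 + ((miss K v : ℚ) - 15) / (15 * ((nbrs K v).card + 1))) := by
  by_contra hcon
  push Not at hcon
  have h1 : ∀ h : α ≃ Fin (Fintype.card α),
      ∑ v, (1 + ((miss K v : ℚ) - 15) / (15 * ((nbrs K v).card + 1))) <
        ((∑ v, comp (lk K v) (low K (fun x => (h x : ℕ)) v) : ℕ) : ℚ) := by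
    intro h
    apply hcon
    intro x y hxy
    exact h.injective (Fin.ext hxy)
  have h2 : ∀ v : α, ((∑ h : α ≃ Fin (Fintype.card α),
      comp (lk K v) (low K (fun x => (h x : ℕ)) v) : ℕ) : ℚ) ≤
      (Fintype.card α).factorial * (1 + ((miss K v : ℚ) - 15) / (15 * ((nbrs K v).card + 1))) := by
    intro v
    obtain ⟨ha, hb, hc⟩ := link_bound hK v
    exact average K v ha hb hc
  have h3 := Finset.sum_le_sum (fun v (_ : v ∈ (univ : Finset α)) => h2 v)
  have hne : (univ : Finset (α ≃ Fin (Fintype.card α))).Nonempty :=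
    ⟨Fintype.equivFin α, mem_univ _⟩
  have h4 := Finset.sum_lt_sum_of_nonempty hne (fun h _ => h1 h)
  rw [Finset.sum_const, nsmul_eq_mul, Finset.card_univ, Fintype.card_equiv (Fintype.equivFin α)]
    at h4
  rw [← Finset.mul_sum] at h3
  have h5 : ∑ v : α, ((∑ h : α ≃ Fin (Fintype.card α),
      comp (lk K v) (low K (fun x => (h x : ℕ)) v) : ℕ) : ℚ) =
      ∑ h : α ≃ Fin (Fintype.card α),
        ((∑ v : α, comp (lk K v) (low K (fun x => (h x : ℕ)) v) : ℕ) : ℚ) := by
    push_cast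
    exact Finset.sum_comm
  rw [h5] at h3
  exact absurd (lt_of_lt_of_le h4 h3) (lt_irrefl _)

theorem main [Nonempty α] {K : Finset (Finset α)} (hK : NormalPseudomanifold K) :
    ∃ D : DiscreteGradient (K : Set (Finset α)), (∃! σ, D.Critical σ ∧ σ.card = 1) ∧
      ∃ c : ℕ, {σ | D.Critical σ ∧ σ.card = 2}.ncard = c ∧
      (c : ℚ) ≤ 1 + ∑ v, ((miss K v : ℚ) - 15) / (15 * ((nbrs K v).card + 1)) ∧
      15 * (c : ℤ) ≤ fnum K 1 - 5 * fnum K 0 + 15 ∧
      (EdgeLinksSpherical K →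
        5 * fnum K 0 * (c : ℤ) ≤ (fnum K 0 - 4).choose 3 - 10 * (euler K - 2)) := by
  obtain ⟨h, hinj, hh⟩ := exists_order hK
  obtain ⟨dep, par, hF, hcount⟩ := exists_forestOn K h
  obtain ⟨D, hD1, hD2⟩ := exists_gradient_forest hK.down hK.vertex hK.conn hinj hF
  have hc : ({σ | D.Critical σ ∧ σ.card = 2}.ncard : ℚ) ≤
      1 + ∑ v, ((miss K v : ℚ) - 15) / (15 * ((nbrs K v).card + 1)) := by
    rw [Finset.sum_congr rfl (fun v _ => hcount v)] at hD2
    have h6 : (({σ | D.Critical σ ∧ σ.card = 2}.ncard + Fintype.card α : ℕ) : ℚ) =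
      ((∑ v, comp (lk K v) (low K h v) + 1 : ℕ) : ℚ) := by rw [hD2]
    rw [Finset.sum_add_distrib, Finset.sum_const, Finset.card_univ, nsmul_eq_mul, mul_one] at hh
    push_cast at h6 hh
    linarith
  refine ⟨D, hD1, _, rfl, hc, ?_, ?_⟩
  · rw [fnum_zero hK]
    exact arith_b (fun v => (nbrs K v).card) (fun v => miss K v) (fun v => (link_bound hK v).1)
      (fun v => (link_bound hK v).2.1) _ _ (sum_nbrs hK) hc
  · intro hE
    have := arith_c (fun v => (nbrs K v).card) (fun v => miss K v) (fun v => (link_bound hK v).1)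
      (fun v => (link_bound hK v).2.1) (card_nbrs_lt K) _ _ _ _ _ (sum_nbrs hK)
      (sum_link_edges hK) (two_mul_fnum_three hK) (edge_link_sum hK hE) hc
    unfold euler
    rw [fnum_zero hK]
    convert this using 2

/-- For at most 12 vertices the third bound gives `c = 0`. -/
theorem small_case (n c : ℕ) (x : ℤ) (hn : 1 ≤ n) (h12 : n ≤ 12) (hx : 2 ≤ x)
    (h : 5 * (n : ℤ) * (c : ℤ) ≤ (n - 4).choose 3 - 10 * (x - 2)) : c = 0 := by
  by_contra hc
  have hc1 : (1 : ℤ) ≤ c := by exact_mod_cast Nat.one_le_iff_ne_zero.2 hc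
  have h1 : 5 * (n : ℤ) ≤ (n - 4).choose 3 := by
    have : 5 * (n : ℤ) * 1 ≤ 5 * (n : ℤ) * c :=
      mul_le_mul_of_nonneg_left hc1 (by positivity)
    linarith
  have h2 : ((n - 4).choose 3 : ℤ) < 5 * (n : ℤ) := by
    interval_cases n <;> decide
  linarith

theorem main' [Nonempty α] {K : Finset (Finset α)} (hK : NormalPseudomanifold K) :
    ∃ D : DiscreteGradient (K : Set (Finset α)), (∃! σ, D.Critical σ ∧ σ.card = 1) ∧
      ∃ c : ℕ, {σ | D.Critical σ ∧ σ.card = 2}.ncard = c ∧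
      (c : ℚ) ≤ 1 + ∑ v, ((miss K v : ℚ) - 15) / (15 * ((nbrs K v).card + 1)) ∧
      15 * (c : ℤ) ≤ fnum K 1 - 5 * fnum K 0 + 15 ∧
      (EdgeLinksSpherical K →
        5 * fnum K 0 * (c : ℤ) ≤ (fnum K 0 - 4).choose 3 - 10 * (euler K - 2) ∧
        (2 ≤ euler K → fnum K 0 ≤ 12 → c = 0)) := by
  obtain ⟨D, h1, c, h2, h3, h4, h5⟩ := main hK
  refine ⟨D, h1, c, h2, h3, h4, fun hE => ⟨h5 hE, fun h6 h7 => ?_⟩⟩
  refine small_case _ c _ ?_ h7 h6 (h5 hE)
  rw [fnum_zero hK]
  exact Fintype.card_pos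

end Pool.MP_f18604_gt.KF
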